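import Pool.Agent.Helper287.MB.Api1
set_option autoImplicit false
open MeasureTheory Metric Set
open scoped InnerProductSpace ComplexConjugate
namespace Pool.Agent.Helper287.MB

/-- the function `x ↦ Σ c_{ab} x^a conj(x)^b` -/
noncomputable def ev (w : (ℕ × ℕ) →₀ ℂ) (x : ℂ) : ℂ :=
  w.sum (fun p c => c * (x ^ p.1 * (conj x) ^ p.2))

/-- `x^a y^b ↦ (n+a) x^(a+1) y^b - b x^a y^(b-1)` -/
noncomputable def opB (n : ℕ) : ((ℕ × ℕ) →₀ ℂ) →ₗ[ℂ] ((ℕ × ℕ) →₀ ℂ) :=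
  Finsupp.linearCombination ℂ (fun p : ℕ × ℕ =>
    ((n:ℂ) + (p.1:ℂ)) • (Finsupp.single (p.1 + 1, p.2) (1:ℂ) : (ℕ × ℕ) →₀ ℂ)
      - (p.2:ℂ) • (Finsupp.single (p.1, p.2 - 1) (1:ℂ) : (ℕ × ℕ) →₀ ℂ))

/-- `x^a y^b ↦ (n+b) x^a y^(b+1) - a x^(a-1) y^b` -/
noncomputable def opA (n : ℕ) : ((ℕ × ℕ) →₀ ℂ) →ₗ[ℂ] ((ℕ × ℕ) →₀ ℂ) :=
  Finsupp.linearCombination ℂ (fun p : ℕ × ℕ =>
    ((n:ℂ) + (p.2:ℂ)) • (Finsupp.single (p.1, p.2 + 1) (1:ℂ) : (ℕ × ℕ) →₀ ℂ)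
      - (p.1:ℂ) • (Finsupp.single (p.1 - 1, p.2) (1:ℂ) : (ℕ × ℕ) →₀ ℂ))

/-- zonal polynomials annihilating (the boundary values of) `Y` -/
def Ann {E : Type} [NormedAddCommGroup E] [InnerProductSpace ℂ E] [MeasurableSpace E]
    (σ : Measure E) (Y : (E → ℂ) → Prop) (w : (ℕ × ℕ) →₀ ℂ) : Prop :=
  ∀ f, Y f → ∀ e : E, ‖e‖ = 1 → ∫ ζ, f ζ * conj (ev w ⟪e, ζ⟫_ℂ) ∂σ = 0

theorem flow_deriv {E : Type} [NormedAddCommGroup E] [InnerProductSpace ℂ E]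
    [FiniteDimensional ℂ E] [MeasurableSpace E] [BorelSpace E]
    [NormedSpace ℝ E] [IsScalarTower ℝ ℂ E]
    (σ : Measure E) (hσ : IsSph σ)
    (f : E → ℂ) (hf : Continuous f) (q : E → ℂ) (hq : ContDiff ℝ 1 q) (e : E) (he : ‖e‖ = 1)
    (τ : ℝ) :
    HasDerivAt (fun t : ℝ => ∫ ζ, f (mob (((Real.tanh t : ℝ) : ℂ) • e) ζ) * conj (q ζ) ∂σ)
      (∫ ζ, f (mob (((Real.tanh τ : ℝ) : ℂ) • e) ζ) *
        conj (2 * (Module.finrank ℂ E : ℂ) * ((⟪e, ζ⟫_ℂ).re : ℂ) * q ζ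
          - fderiv ℝ q ζ (e - ⟪e, ζ⟫_ℂ • ζ)) ∂σ) τ :=
  J11.flow_deriv σ hσ (fun g R hR hg e => divergence σ hσ g R hR hg e) f hf q hq e he τ

end Pool.Agent.Helper287.MB
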