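import Pool.Agent.Helper287.MB.Api0
set_option autoImplicit false
open MeasureTheory Metric Set Filter Topology
open scoped InnerProductSpace ComplexConjugate

namespace Pool.Agent.Helper287.MB.B


section B
variable {E : Type} [NormedAddCommGroup E] [InnerProductSpace ℂ E] [FiniteDimensional ℂ E]

omit [FiniteDimensional ℂ E] in
theorem differentiableOn_mob_ball {η : E} (hη : ‖η‖ < 1) :
    DifferentiableOn ℂ (mob η) (ball 0 1) := by
  refine (differentiableOn_mob η).mono ?_
  intro z hz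
  exact one_add_inner_ne hη (by simpa using (mem_ball_zero_iff.1 hz).le)

omit [FiniteDimensional ℂ E] in
theorem mapsTo_mob_ball {η : E} (hη : ‖η‖ < 1) : MapsTo (mob η) (ball 0 1) (ball 0 1) := by
  intro z hz
  rw [mem_ball_zero_iff] at hz ⊢
  exact norm_mob_lt hη hz

omit [FiniteDimensional ℂ E] in
theorem continuousOn_mob_closedBall {η : E} (hη : ‖η‖ < 1) :
    ContinuousOn (mob η) (closedBall 0 1) :=
  (differentiableOn_mob η).continuousOn.mono
    (fun z hz => one_add_inner_ne hη (mem_closedBall_zero_iff.1 hz))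

/-- TARGET 2 (general automorphism). -/
theorem aut_form (ψ χ : E → E) (hψ : DifferentiableOn ℂ ψ (ball 0 1))
    (hχ : DifferentiableOn ℂ χ (ball 0 1)) (mψ : ∀ z, ‖z‖ < 1 → ‖ψ z‖ < 1)
    (mχ : ∀ z, ‖z‖ < 1 → ‖χ z‖ < 1) (h1 : ∀ z, ‖z‖ < 1 → ψ (χ z) = z)
    (h2 : ∀ z, ‖z‖ < 1 → χ (ψ z) = z) :
    ∃ L : E ≃ₗᵢ[ℂ] E, ∀ w, ‖w‖ < 1 → ψ w = mob (ψ 0) (L w) := by
  have ha : ‖ψ 0‖ < 1 := mψ 0 (by simp)
  have ha' : ‖-(ψ 0)‖ < 1 := by rwa [norm_neg]
  have mψ' : MapsTo ψ (ball 0 1) (ball 0 1) := by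
    intro z hz; rw [mem_ball_zero_iff] at hz ⊢; exact mψ z hz
  have mχ' : MapsTo χ (ball 0 1) (ball 0 1) := by
    intro z hz; rw [mem_ball_zero_iff] at hz ⊢; exact mχ z hz
  obtain ⟨L, hL⟩ := cartan (fun z => mob (-(ψ 0)) (ψ z)) (fun z => χ (mob (ψ 0) z))
    ((differentiableOn_mob_ball ha').comp hψ mψ')
    (hχ.comp (differentiableOn_mob_ball ha) (mapsTo_mob_ball ha))
    ((mapsTo_mob_ball ha').comp mψ') (mχ'.comp (mapsTo_mob_ball ha))
    (by
      intro z hz
      rw [mem_ball_zero_iff] at hz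
      rw [h1 _ (norm_mob_lt ha hz), mob_neg_mob ha hz.le])
    (by
      intro z hz
      rw [mem_ball_zero_iff] at hz
      rw [mob_mob_neg ha (mψ z hz).le, h2 z hz])
    (by
      have := mob_neg_mob ha (z := (0:E)) (by simp)
      rw [mob_zero_right] at this
      exact this)
  refine ⟨L, fun w hw => ?_⟩
  rw [← hL w (mem_ball_zero_iff.2 hw)]
  rw [mob_mob_neg ha (mψ w hw).le]

/-- TARGET 1 (composition law up to an isometry). -/
theorem mob_comp {η z : E} (hη : ‖η‖ < 1) (hz : ‖z‖ < 1) :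
    ∃ L : E ≃ₗᵢ[ℂ] E, ∀ w, ‖w‖ ≤ 1 → mob η (mob z w) = mob (mob η z) (L w) := by
  have hη' : ‖-η‖ < 1 := by rwa [norm_neg]
  have hz' : ‖-z‖ < 1 := by rwa [norm_neg]
  obtain ⟨L, hL⟩ := aut_form (fun w => mob η (mob z w)) (fun w => mob (-z) (mob (-η) w))
    ((differentiableOn_mob_ball hη).comp (differentiableOn_mob_ball hz) (mapsTo_mob_ball hz))
    ((differentiableOn_mob_ball hz').comp (differentiableOn_mob_ball hη') (mapsTo_mob_ball hη'))
    (fun w hw => norm_mob_lt hη (norm_mob_lt hz hw))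
    (fun w hw => norm_mob_lt hz' (norm_mob_lt hη' hw))
    (fun w hw => by
      rw [mob_mob_neg hz (norm_mob_lt hη' hw).le, mob_mob_neg hη hw.le])
    (fun w hw => by
      rw [mob_neg_mob hη (norm_mob_lt hz hw).le, mob_neg_mob hz hw.le])
  simp only [mob_zero_right] at hL
  refine ⟨L, ?_⟩
  have ha : ‖mob η z‖ < 1 := norm_mob_lt hη hz
  have hc1 : ContinuousOn (fun w => mob η (mob z w)) (closedBall 0 1) := by
    refine (continuousOn_mob_closedBall hη).comp (continuousOn_mob_closedBall hz) ?_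
    intro w hw
    rw [mem_closedBall_zero_iff] at hw ⊢
    exact norm_mob_le hz.le hw
  have hc2 : ContinuousOn (fun w => mob (mob η z) (L w)) (closedBall 0 1) := by
    refine (continuousOn_mob_closedBall ha).comp L.continuous.continuousOn ?_
    intro w hw
    rw [mem_closedBall_zero_iff] at hw ⊢
    simpa using hw
  have hEq : EqOn (fun w => mob η (mob z w)) (fun w => mob (mob η z) (L w)) (ball 0 1) := by
    intro w hw
    exact hL w (mem_ball_zero_iff.1 hw)
  have hcl : closedBall (0:E) 1 ⊆ closure (ball (0:E) 1) := by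
    rw [closure_ball (0:E) one_ne_zero]
  have := hEq.of_subset_closure hc1 hc2 ball_subset_closedBall hcl
  intro w hw
  exact this (mem_closedBall_zero_iff.2 hw)

end B

end Pool.Agent.Helper287.MB.B

namespace Pool.Agent.Helper287.MB
alias mob_comp := B.mob_comp
alias aut_form := B.aut_form
end Pool.Agent.Helper287.MB
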