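import Pool.Agent.Helper287.MB.Api0
set_option autoImplicit false
open MeasureTheory Metric Set
open scoped InnerProductSpace ComplexConjugate
namespace Pool.Agent.Helper287.MB

/-- The unitary group carries a compact second countable topology and a bi-invariant probability
measure `μ`; it maps to linear isometries; the law of `U e` is `σ`.  Packaged without mentioning the
unitary group: `K` is a compact metric probability space, `act k` a linear isometry. -/
structure HaarData (E : Type) [NormedAddCommGroup E] [InnerProductSpace ℂ E] [MeasurableSpace E]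
    where
  K : Type
  [iM : MetricSpace K]
  [iC : CompactSpace K]
  [iB : MeasurableSpace K]
  [iBo : BorelSpace K]
  μ : Measure K
  [prob : IsProbabilityMeasure μ]
  act : K → (E ≃ₗᵢ[ℂ] E)
  cont : Continuous (fun p : K × E => act p.1 p.2)
  cont_symm : Continuous (fun p : K × E => (act p.1).symm p.2)
  left : ∀ (F : Type) [NormedAddCommGroup F] [NormedSpace ℝ F] (g : (E ≃ₗᵢ[ℂ] E) → F)
    (L : E ≃ₗᵢ[ℂ] E), ∫ k, g ((act k).trans L) ∂μ = ∫ k, g (act k) ∂μ
  symm : ∀ (F : Type) [NormedAddCommGroup F] [NormedSpace ℝ F] (g : (E ≃ₗᵢ[ℂ] E) → F),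
    ∫ k, g ((act k).symm) ∂μ = ∫ k, g (act k) ∂μ
  law : ∀ σ : Measure E, IsSph σ → ∀ e : E, ‖e‖ = 1 → μ.map (fun k => act k e) = σ

attribute [instance] HaarData.iM HaarData.iC HaarData.iB HaarData.iBo HaarData.prob

end Pool.Agent.Helper287.MB
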