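import Pool.Agent.Helper287.MB.Api0
import Pool.Agent.Helper287.MB.HaarData
set_option autoImplicit false
open MeasureTheory Metric Set Filter Topology
open scoped InnerProductSpace ComplexConjugate

namespace Pool.Agent.Helper287.MB.J0


theorem exists_unit_h (E : Type) [NormedAddCommGroup E] [InnerProductSpace ℂ E] [Nontrivial E] :
    ∃ e : E, ‖e‖ = 1 := by
  obtain ⟨x, hx⟩ := exists_ne (0 : E)
  refine ⟨((‖x‖⁻¹ : ℝ) : ℂ) • x, ?_⟩
  rw [norm_smul, Complex.norm_real, norm_inv, norm_norm,
    inv_mul_cancel₀ (norm_ne_zero_iff.2 hx)]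


theorem sph_exists (E : Type) [NormedAddCommGroup E] [InnerProductSpace ℂ E]
    [FiniteDimensional ℂ E] [MeasurableSpace E] [BorelSpace E] [Nontrivial E] :
    ∃ σ : Measure E, IsSph σ := by
  have : CompleteSpace E := FiniteDimensional.complete ℂ E
  letI : MeasurableSpace (unitary (E →L[ℂ] E)) := borel _
  haveI : BorelSpace (unitary (E →L[ℂ] E)) := ⟨rfl⟩
  obtain ⟨hc, μ, h1, h2, h3, h4⟩ := exists_unitary_haar E
  exact (sph_of_haar hc μ h1 h2 h3).1


theorem sph_unique {E : Type} [NormedAddCommGroup E] [InnerProductSpace ℂ E]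
    [FiniteDimensional ℂ E] [MeasurableSpace E] [BorelSpace E] [Nontrivial E] {σ σ' : Measure E}
    (h : IsSph σ) (h' : IsSph σ') : σ = σ' := by
  have : CompleteSpace E := FiniteDimensional.complete ℂ E
  letI : MeasurableSpace (unitary (E →L[ℂ] E)) := borel _
  haveI : BorelSpace (unitary (E →L[ℂ] E)) := ⟨rfl⟩
  obtain ⟨hc, μ, h1, h2, h3, h4⟩ := exists_unitary_haar E
  obtain ⟨e, he⟩ := exists_unit_h E
  have h5 := (sph_of_haar hc μ h1 h2 h3).2
  rw [← h5 σ h e he, ← h5 σ' h' e he]


theorem exists_haarData (E : Type) [NormedAddCommGroup E] [InnerProductSpace ℂ E]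
    [FiniteDimensional ℂ E] [MeasurableSpace E] [BorelSpace E] [Nontrivial E] :
    Nonempty (HaarData E) := by
  have hE : CompleteSpace E := FiniteDimensional.complete ℂ E
  letI iMS : MeasurableSpace (unitary (E →L[ℂ] E)) := borel _
  haveI iBS : BorelSpace (unitary (E →L[ℂ] E)) := ⟨rfl⟩
  obtain ⟨hc, μ, h1, h2, h3, h4⟩ := exists_unitary_haar E
  have h5 := (sph_of_haar hc μ h1 h2 h3).2
  exact ⟨{
    K := unitary (E →L[ℂ] E)
    iM := inferInstance
    iC := hc
    iB := iMS
    iBo := iBS
    μ := μ
    prob := h1
    act := fun U => Unitary.linearIsometryEquiv U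
    cont := by
      have h : Continuous fun p : (unitary (E →L[ℂ] E)) × E => (p.1 : E →L[ℂ] E) p.2 :=
        (continuous_subtype_val.comp continuous_fst).clm_apply continuous_snd
      exact h
    cont_symm := by
      have h : Continuous fun p : (unitary (E →L[ℂ] E)) × E => (star (p.1 : E →L[ℂ] E)) p.2 :=
        ((continuous_subtype_val.comp continuous_fst).star).clm_apply continuous_snd
      exact h
    left := by
      intro F _ _ g L
      set M : unitary (E →L[ℂ] E) := Unitary.linearIsometryEquiv.symm L with hM
      have e1 : ∀ V : unitary (E →L[ℂ] E), (Unitary.linearIsometryEquiv V).trans L =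
          Unitary.linearIsometryEquiv (M * V) := by
        intro V
        rw [map_mul, hM, MulEquiv.apply_symm_apply]
        rfl
      simp only [e1]
      have hmp : MeasurePreserving (fun V => M * V) μ μ :=
        ⟨(continuous_const.mul continuous_id).measurable, h2 M⟩
      exact hmp.integral_comp (Homeomorph.mulLeft M).measurableEmbedding
        (fun V => g (Unitary.linearIsometryEquiv V))
    symm := by
      intro F _ _ g
      have e1 : ∀ V : unitary (E →L[ℂ] E), (Unitary.linearIsometryEquiv V).symm =
          Unitary.linearIsometryEquiv (V⁻¹) := by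
        intro V
        rw [map_inv]
        rfl
      simp only [e1]
      have hmp : MeasurePreserving (fun V : unitary (E →L[ℂ] E) => V⁻¹) μ μ :=
        ⟨continuous_inv.measurable, h4⟩
      exact hmp.integral_comp (Homeomorph.inv (unitary (E →L[ℂ] E))).measurableEmbedding
        (fun V => g (Unitary.linearIsometryEquiv V))
    law := by
      intro σ hσ e he
      exact h5 σ hσ e he }⟩


end Pool.Agent.Helper287.MB.J0

namespace Pool.Agent.Helper287.MB
alias sph_exists := J0.sph_exists
alias sph_unique := J0.sph_unique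
alias exists_haarData := J0.exists_haarData
end Pool.Agent.Helper287.MB
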