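import Pool.Agent.Helper287.MB.OpsA
import Pool.Agent.Helper287.MB.Comp
import Pool.Agent.Helper287.MB.Haar0
set_option autoImplicit false
open MeasureTheory Metric Set Filter Topology
open scoped InnerProductSpace ComplexConjugate

namespace Pool.Agent.Helper287.MB.C


section C
variable {E : Type} [NormedAddCommGroup E] [InnerProductSpace ℂ E] [FiniteDimensional ℂ E]
  [MeasurableSpace E] [BorelSpace E]


theorem C_integral_iso (σ : Measure E) (hσ : IsSph σ) {F : Type} [NormedAddCommGroup F]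
    [NormedSpace ℝ F] (g : E → F) (L : E ≃ₗᵢ[ℂ] E) :
    ∫ ζ, g (L ζ) ∂σ = ∫ ζ, g ζ ∂σ := by
  have h := L.toHomeomorph.measurableEmbedding.integral_map (μ := σ) g
  have h2 : Measure.map (⇑L.toHomeomorph) σ = σ := hσ.inv L
  rw [h2] at h
  exact h.symm

theorem HH_mob (σ : Measure E) (hσ : IsSph σ) (f : E → ℂ)
    {η z : E} (hη : ‖η‖ < 1) (hz : ‖z‖ ≤ 1) :
    HH σ (fun w => f (mob η w)) z = HH σ f (mob η z) := by
  rcases hz.lt_or_eq with hz | hz
  · obtain ⟨L, hL⟩ := mob_comp hη hz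
    unfold HH
    rw [← C_integral_iso σ hσ (fun ζ => f (mob (mob η z) ζ)) L]
    apply integral_congr_ae
    filter_upwards [hσ.supp] with ζ hζ
    rw [hL ζ hζ.le]
  · rw [HH_bdry σ hσ _ hz, HH_bdry σ hσ _ (norm_mob_one hη hz)]

theorem C_norm_smul {r : ℝ} (hr0 : 0 ≤ r) {ζ : E} (hζ : ‖ζ‖ = 1) : ‖(r : ℂ) • ζ‖ = r := by
  rw [norm_smul, hζ, mul_one, Complex.norm_real, Real.norm_eq_abs, abs_of_nonneg hr0]

theorem TT_mob (σ : Measure E) (hσ : IsSph σ) (f : E → ℂ)
    {r : ℝ} (hr0 : 0 ≤ r) (hr1 : r < 1) {η z : E} (hη : ‖η‖ < 1) (hz : ‖z‖ ≤ 1) :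
    TT σ r (fun w => f (mob η w)) z = TT σ r f (mob η z) := by
  rcases hz.lt_or_eq with hz | hz
  · obtain ⟨L, hL⟩ := mob_comp hη hz
    unfold TT
    rw [← C_integral_iso σ hσ (fun ζ => f (mob (mob η z) ((r : ℂ) • ζ))) L]
    apply integral_congr_ae
    filter_upwards [hσ.supp] with ζ hζ
    rw [hL _ (by rw [C_norm_smul hr0 hζ]; exact hr1.le), map_smul]
  · rw [TT_bdry σ hσ _ hr0 hr1 hz, TT_bdry σ hσ _ hr0 hr1 (norm_mob_one hη hz)]

theorem HH_iso (σ : Measure E) (hσ : IsSph σ) (f : E → ℂ) (L : E ≃ₗᵢ[ℂ] E) (z : E) :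
    HH σ (fun w => f (L w)) z = HH σ f (L z) := by
  unfold HH
  rw [← C_integral_iso σ hσ (fun ζ => f (mob (L z) ζ)) L]
  apply integral_congr_ae
  filter_upwards with ζ
  rw [mob_iso]

theorem TT_iso (σ : Measure E) (hσ : IsSph σ) (f : E → ℂ) (r : ℝ) (L : E ≃ₗᵢ[ℂ] E) (z : E) :
    TT σ r (fun w => f (L w)) z = TT σ r f (L z) := by
  unfold TT
  rw [← C_integral_iso σ hσ (fun ζ => f (mob (L z) ((r : ℂ) • ζ))) L]
  apply integral_congr_ae
  filter_upwards with ζ
  rw [← map_smul, mob_iso]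

theorem C_meas_mob : Measurable (fun p : E × E => mob p.1 p.2) := by
  have : ProperSpace E := FiniteDimensional.proper ℂ E
  have h1 : Measurable (fun p : E × E => ⟪p.1, p.2⟫_ℂ) :=
    (continuous_fst.inner continuous_snd).measurable
  have h2 : Measurable (fun p : E × E => (sq p.1 : ℂ)) :=
    (Complex.continuous_ofReal.comp (continuous_sq.comp continuous_fst)).measurable
  have h3 : Measurable (fun p : E × E => p.1) := measurable_fst
  have h4 : Measurable (fun p : E × E => p.2) := measurable_snd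
  unfold mob
  exact ((measurable_const.add h1).inv).smul
    ((h3.add (h2.smul h4)).add ((h1.div (measurable_const.add h2)).smul h3))

theorem C_meas_mob2 {X : Type} [MeasurableSpace X] {u v : X → E} (hu : Measurable u)
    (hv : Measurable v) : Measurable (fun x => mob (u x) (v x)) := by
  have h := (C_meas_mob (E := E)).comp (hu.prodMk hv)
  exact h

theorem C_cont_mob {z : E} (hz : ‖z‖ < 1) (f : E → ℂ) (hf : ContinuousOn f (closedBall 0 1)) :
    ContinuousOn (fun w => f (mob z w)) (closedBall 0 1) := by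
  have h1 : ContinuousOn (mob z) (closedBall (0 : E) 1) :=
    (differentiableOn_mob z).continuousOn.mono
      (fun w hw => one_add_inner_ne hz (mem_closedBall_zero_iff.1 hw))
  refine hf.comp h1 ?_
  intro w hw
  have hw' : ‖w‖ ≤ 1 := by simpa using hw
  simpa using norm_mob_le hz.le hw'

theorem C_ae_prod (σ : Measure E) (hσ : IsSph σ) :
    ∀ᵐ p ∂(σ.prod σ), ‖p.1‖ = 1 ∧ ‖p.2‖ = 1 := by
  have := hσ.prob
  have h1 : ∀ᵐ p ∂(σ.prod σ), ‖p.1‖ = 1 :=
    Measure.quasiMeasurePreserving_fst.ae hσ.supp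
  have h2 : ∀ᵐ p ∂(σ.prod σ), ‖p.2‖ = 1 :=
    Measure.quasiMeasurePreserving_snd.ae hσ.supp
  filter_upwards [h1, h2] with p a b using ⟨a, b⟩

theorem C_sph_conv (σ : Measure E) (hσ : IsSph σ) {r : ℝ} (hr0 : 0 ≤ r) (hr1 : r < 1) :
    IsSph ((σ.prod σ).map (fun p : E × E => mob ((r : ℂ) • p.1) p.2)) := by
  have : ProperSpace E := FiniteDimensional.proper ℂ E
  have := hσ.prob
  have hm : Measurable (fun p : E × E => mob ((r : ℂ) • p.1) p.2) :=
    C_meas_mob2 (measurable_fst.const_smul (r : ℂ)) measurable_snd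
  refine ⟨?_, ?_, ?_⟩
  · exact Measure.isProbabilityMeasure_map hm.aemeasurable
  · intro L
    have hLm : Measurable (L : E → E) := L.continuous.measurable
    rw [Measure.map_map hLm hm]
    have h1 : ((L : E → E) ∘ fun p : E × E => mob ((r : ℂ) • p.1) p.2) =
        (fun p : E × E => mob ((r : ℂ) • p.1) p.2) ∘ (Prod.map L L) := by
      ext p
      simp only [Function.comp_apply, Prod.map_fst, Prod.map_snd]
      rw [← map_smul, mob_iso]
    rw [h1, ← Measure.map_map hm (hLm.prodMap hLm), ← Measure.map_prod_map _ _ hLm hLm, hσ.inv L]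
  · rw [ae_map_iff hm.aemeasurable (measurableSet_eq_fun measurable_norm measurable_const)]
    filter_upwards [C_ae_prod σ hσ] with p hp
    exact norm_mob_one (by rw [C_norm_smul hr0 hp.1]; exact hr1) hp.2

theorem C_TT_HH_cont (σ : Measure E) (hσ : IsSph σ) [Nontrivial E] (g : E → ℂ)
    (hg : Continuous g) {r : ℝ} (hr0 : 0 ≤ r) (hr1 : r < 1) :
    TT σ r (HH σ g) 0 = HH σ g 0 := by
  have : ProperSpace E := FiniteDimensional.proper ℂ E
  have := hσ.prob
  have hm : Measurable (fun p : E × E => mob ((r : ℂ) • p.1) p.2) :=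
    C_meas_mob2 (measurable_fst.const_smul (r : ℂ)) measurable_snd
  have hν := C_sph_conv σ hσ hr0 hr1
  have hνσ := sph_unique hν hσ
  rw [HH_zero_eq]
  conv_rhs => rw [← hνσ]
  rw [integral_map hm.aemeasurable hg.aestronglyMeasurable]
  obtain ⟨C, hC0, hC⟩ := ball_bdd g hg.continuousOn
  have hint : Integrable (fun p : E × E => g (mob ((r : ℂ) • p.1) p.2)) (σ.prod σ) := by
    refine Integrable.of_bound (hg.measurable.comp hm).aestronglyMeasurable C ?_
    filter_upwards [C_ae_prod σ hσ] with p hp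
    apply hC
    exact norm_mob_le (by rw [C_norm_smul hr0 hp.1]; exact hr1.le) hp.2.le
  rw [integral_prod _ hint]
  unfold TT HH
  simp only [mob_zero_left]

/-- `HH σ f` has the (invariant) mean value property -/
theorem TT_HH (σ : Measure E) (hσ : IsSph σ) [Nontrivial E] (f : E → ℂ)
    (hf : ContinuousOn f (closedBall 0 1))
    {r : ℝ} (hr0 : 0 ≤ r) (hr1 : r < 1) {z : E} (hz : ‖z‖ ≤ 1) :
    TT σ r (HH σ f) z = HH σ f z := by
  rcases hz.lt_or_eq with hz | hz
  · have h0 : ‖(0 : E)‖ ≤ 1 := by simp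
    have h1 : TT σ r (HH σ f) z = TT σ r (fun w => HH σ f (mob z w)) 0 := by
      rw [TT_mob σ hσ (HH σ f) hr0 hr1 hz h0, mob_zero_right]
    have h2 : TT σ r (fun w => HH σ f (mob z w)) 0
        = TT σ r (HH σ (fun w => f (mob z w))) 0 := by
      apply TT_congr σ hσ _ _ _ hr0 hr1 h0
      intro w hw
      exact (HH_mob σ hσ f hz hw).symm
    obtain ⟨g, hg, hgf⟩ := exists_ext (fun w => f (mob z w)) (C_cont_mob hz f hf)
    have h3 : ∀ w : E, ‖w‖ ≤ 1 → HH σ (fun w => f (mob z w)) w = HH σ g w := by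
      intro w hw
      apply HH_congr σ hσ _ _ _ hw
      intro x hx
      exact (hgf x hx.le).symm
    have h4 : TT σ r (HH σ (fun w => f (mob z w))) 0 = TT σ r (HH σ g) 0 :=
      TT_congr σ hσ _ _ h3 hr0 hr1 h0
    have h5 : HH σ f z = HH σ (fun w => f (mob z w)) 0 := by
      rw [HH_mob σ hσ f hz h0, mob_zero_right]
    rw [h1, h2, h4, h5, h3 0 h0]
    exact C_TT_HH_cont σ hσ g hg hr0 hr1
  · rw [TT_bdry σ hσ _ hr0 hr1 hz]

theorem SS_TT_comm (σ : Measure E) (hσ : IsSph σ) (f : E → ℂ)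
    (hf : ContinuousOn f (closedBall 0 1))
    {r s : ℝ} (hr0 : 0 ≤ r) (hr1 : r < 1) (hs0 : 0 ≤ s) (hs1 : s < 1) {z : E} (hz : ‖z‖ ≤ 1) :
    SS σ r (TT σ s f) z = TT σ s (SS σ r f) z := by
  have : ProperSpace E := FiniteDimensional.proper ℂ E
  have := hσ.prob
  obtain ⟨g, hg, hgf⟩ := exists_ext f hf
  obtain ⟨C, hC0, hC⟩ := ball_bdd g hg.continuousOn
  have hm : Measurable (fun p : E × E => mob ((r : ℂ) • p.1) (mob z ((s : ℂ) • p.2))) :=
    C_meas_mob2 (measurable_fst.const_smul (r : ℂ))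
      (C_meas_mob2 measurable_const (measurable_snd.const_smul (s : ℂ)))
  have hin : ∀ p : E × E, ‖p.1‖ = 1 → ‖p.2‖ = 1 →
      ‖mob ((r : ℂ) • p.1) (mob z ((s : ℂ) • p.2))‖ ≤ 1 := by
    intro p h1 h2
    exact norm_mob_le (by rw [C_norm_smul hr0 h1]; exact hr1.le)
      (norm_mob_le hz (by rw [C_norm_smul hs0 h2]; exact hs1.le))
  have hint : Integrable (Function.uncurry
      fun ζ ξ : E => f (mob ((r : ℂ) • ζ) (mob z ((s : ℂ) • ξ)))) (σ.prod σ) := by
    have h1 : Integrable (fun p : E × E => g (mob ((r : ℂ) • p.1) (mob z ((s : ℂ) • p.2))))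
        (σ.prod σ) := by
      refine Integrable.of_bound (hg.measurable.comp hm).aestronglyMeasurable C ?_
      filter_upwards [C_ae_prod σ hσ] with p hp
      exact hC _ (hin p hp.1 hp.2)
    refine h1.congr ?_
    filter_upwards [C_ae_prod σ hσ] with p hp
    exact hgf _ (hin p hp.1 hp.2)
  have h1 : SS σ r (TT σ s f) z =
      ∫ ζ, ∫ ξ, f (mob ((r : ℂ) • ζ) (mob z ((s : ℂ) • ξ))) ∂σ ∂σ := by
    unfold SS
    apply integral_congr_ae
    filter_upwards [hσ.supp] with ζ hζ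
    rw [← TT_mob σ hσ f hs0 hs1 (by rw [C_norm_smul hr0 hζ]; exact hr1) hz]
    rfl
  rw [h1, integral_integral_swap hint]
  rfl
end C

end Pool.Agent.Helper287.MB.C

namespace Pool.Agent.Helper287.MB
alias HH_mob := C.HH_mob
alias TT_mob := C.TT_mob
alias HH_iso := C.HH_iso
alias TT_iso := C.TT_iso
alias TT_HH := C.TT_HH
alias SS_TT_comm := C.SS_TT_comm
end Pool.Agent.Helper287.MB
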