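import Pool.Agent.Helper287.MB.Ann
import Pool.Agent.Helper287.MB.Equi
set_option autoImplicit false
open MeasureTheory Metric Set Filter Topology
open scoped InnerProductSpace ComplexConjugate

namespace Pool.Agent.Helper287.MB.JJ


section JJ
variable {E : Type} [NormedAddCommGroup E] [InnerProductSpace ℂ E] [FiniteDimensional ℂ E]
  [MeasurableSpace E] [BorelSpace E] [Nontrivial E]

theorem ev_add' (w v : (ℕ × ℕ) →₀ ℂ) (x : ℂ) : ev (w + v) x = ev w x + ev v x := by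
  unfold ev
  exact Finsupp.sum_add_index' (by simp) (by intros; ring)

theorem ev_zero' (x : ℂ) : ev 0 x = 0 := by simp [ev]

theorem ev_single' (p : ℕ × ℕ) (c : ℂ) (x : ℂ) :
    ev (Finsupp.single p c) x = c * (x ^ p.1 * (conj x) ^ p.2) := by
  unfold ev
  rw [Finsupp.sum_single_index (by simp)]

theorem ev_smul' (c : ℂ) (w : (ℕ × ℕ) →₀ ℂ) (x : ℂ) : ev (c • w) x = c * ev w x := by
  induction w using Finsupp.induction_linear with
  | zero => simp [ev_zero']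
  | add f g hf hg => rw [smul_add, ev_add', ev_add', hf, hg]; ring
  | single p k => rw [Finsupp.smul_single, ev_single', ev_single', smul_eq_mul]; ring

theorem ev_contDiff (w : (ℕ × ℕ) →₀ ℂ) : ContDiff ℝ 1 (ev w) := by
  have h1 : ContDiff ℝ 1 (fun x : ℂ => conj x) := Complex.conjCLE.contDiff
  have : ev w = fun x => ∑ p ∈ w.support, w p * (x ^ p.1 * (conj x) ^ p.2) := by
    funext x; rfl
  rw [this]
  refine ContDiff.sum fun p _ => ?_
  exact contDiff_const.mul ((contDiff_id.pow _).mul (h1.pow _))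

theorem ev_cont (w : (ℕ × ℕ) →₀ ℂ) : Continuous (ev w) := (ev_contDiff w).continuous

theorem inner_contDiff (e : E) : ContDiff ℝ 1 (fun ζ : E => ⟪e, ζ⟫_ℂ) := by
  have : (fun ζ : E => ⟪e, ζ⟫_ℂ) = ((innerSL ℂ e).restrictScalars ℝ : E →L[ℝ] ℂ) := by
    funext ζ; simp
  rw [this]
  exact ContinuousLinearMap.contDiff _

theorem ann_int (σ : Measure E) (hσ : IsSph σ) {Y : (E → ℂ) → Prop} (hY : Inv Y) (f : E → ℂ)
    (hf : Y f) (w : (ℕ × ℕ) →₀ ℂ) (e : E) :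
    Integrable (fun ζ => f ζ * conj (ev w ⟪e, ζ⟫_ℂ)) σ := by
  have hc : ContinuousOn (fun ζ => f ζ * conj (ev w ⟪e, ζ⟫_ℂ)) (closedBall 0 1) := by
    refine (hY.cont f hf).mul (Continuous.continuousOn ?_)
    exact Complex.continuous_conj.comp ((ev_cont w).comp (by fun_prop))
  have := HH_integrable σ hσ _ hc (z := 0) (by simp)
  simpa using this

/-- TARGET 0: annihilators form a subspace -/
theorem ann_sub (σ : Measure E) (hσ : IsSph σ) {Y : (E → ℂ) → Prop} (hY : Inv Y) :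
    ∃ V : Submodule ℂ ((ℕ × ℕ) →₀ ℂ), ∀ w, w ∈ V ↔ Ann σ Y w := by
  refine ⟨{ carrier := {w | Ann σ Y w}, zero_mem' := ?_, add_mem' := ?_, smul_mem' := ?_ },
    fun w => Iff.rfl⟩
  · intro a b ha hb f hf e he
    have h1 := ha f hf e he
    have h2 := hb f hf e he
    have : (fun ζ => f ζ * conj (ev (a + b) ⟪e, ζ⟫_ℂ))
        = fun ζ => f ζ * conj (ev a ⟪e, ζ⟫_ℂ) + f ζ * conj (ev b ⟪e, ζ⟫_ℂ) := by
      funext ζ; rw [ev_add', map_add]; ring
    rw [this, integral_add (ann_int σ hσ hY f hf a e) (ann_int σ hσ hY f hf b e), h1, h2, add_zero]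
  · intro f hf e he
    simp [ev_zero']
  · intro c a ha f hf e he
    have h1 := ha f hf e he
    have : (fun ζ => f ζ * conj (ev (c • a) ⟪e, ζ⟫_ℂ))
        = fun ζ => conj c * (f ζ * conj (ev a ⟪e, ζ⟫_ℂ)) := by
      funext ζ; rw [ev_smul', map_mul]; ring
    rw [this, integral_const_mul, h1, mul_zero]

/-- real directional derivative of `ev w` -/
noncomputable def dev (w : (ℕ × ℕ) →₀ ℂ) (x u : ℂ) : ℂ := fderiv ℝ (ev w) x u

theorem dev_add (w v : (ℕ × ℕ) →₀ ℂ) (x u : ℂ) : dev (w + v) x u = dev w x u + dev v x u := by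
  unfold dev
  have h : ev (w + v) = ev w + ev v := by funext y; exact ev_add' w v y
  rw [h, fderiv_add ((ev_contDiff w).differentiable (by norm_num)).differentiableAt
    ((ev_contDiff v).differentiable (by norm_num)).differentiableAt]
  rfl

theorem dev_single (a b : ℕ) (k : ℂ) (x u : ℂ) :
    dev (Finsupp.single (a, b) k) x u =
      k * ((a : ℂ) * x ^ (a - 1) * u * (conj x) ^ b + x ^ a * ((b : ℂ) * (conj x) ^ (b - 1) * conj u)) := by
  unfold dev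
  have h0 : ev (Finsupp.single (a, b) k) = fun y => k * (y ^ a * (conj y) ^ b) := by
    funext y; exact ev_single' (a, b) k y
  have h1 : HasFDerivAt (fun y : ℂ => y ^ a)
      (((ContinuousLinearMap.toSpanSingleton ℂ ((a : ℂ) * x ^ (a - 1))) : ℂ →L[ℂ] ℂ).restrictScalars ℝ) x :=
    ((hasDerivAt_pow a x).hasFDerivAt).restrictScalars ℝ
  have h2' : HasFDerivAt (fun y : ℂ => y ^ b)
      (((ContinuousLinearMap.toSpanSingleton ℂ ((b : ℂ) * (conj x) ^ (b - 1))) : ℂ →L[ℂ] ℂ).restrictScalars ℝ) (conj x) :=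
    ((hasDerivAt_pow b (conj x)).hasFDerivAt).restrictScalars ℝ
  have h2 : HasFDerivAt (fun y : ℂ => (conj y) ^ b)
      ((((ContinuousLinearMap.toSpanSingleton ℂ ((b : ℂ) * (conj x) ^ (b - 1))) : ℂ →L[ℂ] ℂ).restrictScalars ℝ).comp
        (Complex.conjCLE : ℂ →L[ℝ] ℂ)) x := by
    exact h2'.comp x (Complex.conjCLE.hasFDerivAt)
  have h3 := (h1.mul h2).const_mul k
  have h4 : fderiv ℝ (fun y => k * (y ^ a * (starRingEnd ℂ) y ^ b)) x = _ := HasFDerivAt.fderiv h3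
  rw [h0, h4]
  simp
  ring

/-- the key identity -/
theorem key (n : ℕ) (w : (ℕ × ℕ) →₀ ℂ) (x c : ℂ) :
    (n : ℂ) * (conj c * x + c * conj x) * ev w x - dev w x (c - conj c * x ^ 2)
      = conj c * ev (opB n w) x + c * ev (opA n w) x := by
  induction w using Finsupp.induction_linear with
  | zero =>
    have : dev 0 x (c - conj c * x ^ 2) = 0 := by
      unfold dev
      have : ev 0 = fun _ => (0:ℂ) := by funext y; exact ev_zero' y
      rw [this]; simp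
    rw [this]; simp [ev_zero']
  | add f g hf hg =>
    rw [ev_add', dev_add, map_add, map_add, ev_add', ev_add']
    linear_combination hf + hg
  | single p k =>
    obtain ⟨a, b⟩ := p
    have hB : ev (opB n (Finsupp.single (a, b) k)) x =
        k * (((n : ℂ) + a) * (x ^ (a + 1) * conj x ^ b) - b * (x ^ a * conj x ^ (b - 1))) := by
      unfold opB
      rw [Finsupp.linearCombination_single, ev_smul', sub_eq_add_neg, ev_add', ← neg_smul, ev_smul',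
        ev_smul', ev_single', ev_single']
      ring
    have hA : ev (opA n (Finsupp.single (a, b) k)) x =
        k * (((n : ℂ) + b) * (x ^ a * conj x ^ (b + 1)) - a * (x ^ (a - 1) * conj x ^ b)) := by
      unfold opA
      rw [Finsupp.linearCombination_single, ev_smul', sub_eq_add_neg, ev_add', ← neg_smul, ev_smul',
        ev_smul', ev_single', ev_single']
      ring
    rw [hA, hB, dev_single, ev_single']
    simp only [map_sub, map_mul, map_pow, Complex.conj_conj]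
    rcases a with _ | a <;> rcases b with _ | b <;> simp <;> ring

theorem fderiv_q (w : (ℕ × ℕ) →₀ ℂ) (e ζ v : E) :
    fderiv ℝ (fun ζ : E => ev w ⟪e, ζ⟫_ℂ) ζ v = dev w ⟪e, ζ⟫_ℂ ⟪e, v⟫_ℂ := by
  have h1 : HasFDerivAt (ev w) (fderiv ℝ (ev w) ⟪e, ζ⟫_ℂ) ⟪e, ζ⟫_ℂ :=
    ((ev_contDiff w).differentiable (by norm_num)).differentiableAt.hasFDerivAt
  have h2 : HasFDerivAt (fun ζ : E => ⟪e, ζ⟫_ℂ) ((innerSL ℂ e).restrictScalars ℝ : E →L[ℝ] ℂ) ζ := by
    have := ((innerSL ℂ e).restrictScalars ℝ : E →L[ℝ] ℂ).hasFDerivAt (x := ζ)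
    exact this
  have h3 := h1.comp ζ h2
  have h4 : fderiv ℝ (fun ζ : E => ev w ⟪e, ζ⟫_ℂ) ζ = _ := h3.fderiv
  rw [h4]
  simp [dev]

theorem ext_Y {Y : (E → ℂ) → Prop} (hY : Inv Y) (f : E → ℂ) (hf : Y f) :
    ∃ g : E → ℂ, Continuous g ∧ Y g ∧ ∀ z, ‖z‖ ≤ 1 → g z = f z := by
  obtain ⟨g, hg, hgf⟩ := exists_ext f (hY.cont f hf)
  exact ⟨g, hg, hY.congr f g hf hgf, hgf⟩

theorem norm_tanh_smul (t : ℝ) (e : E) (he : ‖e‖ = 1) :
    ‖(((Real.tanh t : ℝ) : ℂ) • e)‖ < 1 := by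
  rw [norm_smul, he, mul_one, Complex.norm_real, Real.norm_eq_abs]
  exact Real.abs_tanh_lt_one t

theorem ann_aux (σ : Measure E) (hσ : IsSph σ) {Y : (E → ℂ) → Prop} (hY : Inv Y)
    (w : (ℕ × ℕ) →₀ ℂ) (hw : Ann σ Y w) (f : E → ℂ) (hfc : Continuous f) (hf : Y f)
    (e : E) (he : ‖e‖ = 1) (c : ℂ) (hc : ‖c‖ = 1) :
    ∫ ζ, f ζ * conj (conj c * ev (opB (Module.finrank ℂ E) w) ⟪e, ζ⟫_ℂ
      + c * ev (opA (Module.finrank ℂ E) w) ⟪e, ζ⟫_ℂ) ∂σ = 0 := by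
  have he' : ‖c • e‖ = 1 := by rw [norm_smul, hc, he, mul_one]
  have hq : ContDiff ℝ 1 (fun ζ : E => ev w ⟪e, ζ⟫_ℂ) := (ev_contDiff w).comp (inner_contDiff e)
  have hd := flow_deriv σ hσ f hfc (fun ζ : E => ev w ⟪e, ζ⟫_ℂ) hq (c • e) he' 0
  have hz : (fun t : ℝ => ∫ ζ, f (mob (((Real.tanh t : ℝ) : ℂ) • (c • e)) ζ)
      * conj (ev w ⟪e, ζ⟫_ℂ) ∂σ) = fun _ => 0 := by
    funext t
    exact hw _ (hY.mobI f _ hf (norm_tanh_smul t _ he')) e he
  rw [hz] at hd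
  have h0 := hd.unique (hasDerivAt_const (0:ℝ) (0:ℂ))
  rw [← h0]
  congr 1
  funext ζ
  rw [Real.tanh_zero, Complex.ofReal_zero, zero_smul, mob_zero_left]
  congr 2
  rw [fderiv_q, ← key]
  have h5 : ⟪c • e, ζ⟫_ℂ = conj c * ⟪e, ζ⟫_ℂ := inner_smul_left _ _ _
  have h6 : ⟪e, c • e - ⟪c • e, ζ⟫_ℂ • ζ⟫_ℂ = c - conj c * ⟪e, ζ⟫_ℂ ^ 2 := by
    rw [inner_sub_right, inner_smul_right, inner_smul_right, h5, inner_self_eq_norm_sq_to_K, he]
    simp
    ring
  rw [h6, h5]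
  have h7 : (2:ℂ) * ((conj c * ⟪e, ζ⟫_ℂ).re : ℂ) = conj c * ⟪e, ζ⟫_ℂ + c * conj (⟪e, ζ⟫_ℂ) := by
    have := Complex.add_conj (conj c * ⟪e, ζ⟫_ℂ)
    rw [map_mul, Complex.conj_conj] at this
    rw [this]; push_cast; ring
  linear_combination ((Module.finrank ℂ E : ℂ) * ev w ⟪e, ζ⟫_ℂ) * (-h7)

/-- TARGET 1: annihilators are stable under the two operators -/
theorem ann_op (σ : Measure E) (hσ : IsSph σ) {Y : (E → ℂ) → Prop} (hY : Inv Y)
    (w : (ℕ × ℕ) →₀ ℂ) (hw : Ann σ Y w) :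
    Ann σ Y (opA (Module.finrank ℂ E) w) ∧ Ann σ Y (opB (Module.finrank ℂ E) w) := by
  have main : ∀ f, Y f → ∀ e : E, ‖e‖ = 1 →
      (∫ ζ, f ζ * conj (ev (opA (Module.finrank ℂ E) w) ⟪e, ζ⟫_ℂ) ∂σ = 0) ∧
      (∫ ζ, f ζ * conj (ev (opB (Module.finrank ℂ E) w) ⟪e, ζ⟫_ℂ) ∂σ = 0) := by
    intro f hf e he
    obtain ⟨g, hgc, hgY, hgf⟩ := ext_Y hY f hf
    have hcongr : ∀ v : (ℕ × ℕ) →₀ ℂ, ∫ ζ, f ζ * conj (ev v ⟪e, ζ⟫_ℂ) ∂σ
        = ∫ ζ, g ζ * conj (ev v ⟪e, ζ⟫_ℂ) ∂σ := by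
      intro v
      refine integral_congr_ae ?_
      filter_upwards [hσ.supp] with ζ hζ
      rw [hgf ζ hζ.le]
    have h1 := ann_aux σ hσ hY w hw g hgc hgY e he 1 (by simp)
    have h2 := ann_aux σ hσ hY w hw g hgc hgY e he Complex.I (by simp)
    have iA := ann_int σ hσ hY g hgY (opA (Module.finrank ℂ E) w) e
    have iB := ann_int σ hσ hY g hgY (opB (Module.finrank ℂ E) w) e
    have e1 : (fun ζ => g ζ * conj (conj 1 * ev (opB (Module.finrank ℂ E) w) ⟪e, ζ⟫_ℂ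
      + 1 * ev (opA (Module.finrank ℂ E) w) ⟪e, ζ⟫_ℂ)) = fun ζ =>
        g ζ * conj (ev (opB (Module.finrank ℂ E) w) ⟪e, ζ⟫_ℂ)
        + g ζ * conj (ev (opA (Module.finrank ℂ E) w) ⟪e, ζ⟫_ℂ) := by
      funext ζ; simp only [map_one, one_mul, map_add]; ring
    have e2 : (fun ζ => g ζ * conj (conj Complex.I * ev (opB (Module.finrank ℂ E) w) ⟪e, ζ⟫_ℂ
      + Complex.I * ev (opA (Module.finrank ℂ E) w) ⟪e, ζ⟫_ℂ)) = fun ζ =>
        Complex.I * (g ζ * conj (ev (opB (Module.finrank ℂ E) w) ⟪e, ζ⟫_ℂ))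
        - Complex.I * (g ζ * conj (ev (opA (Module.finrank ℂ E) w) ⟪e, ζ⟫_ℂ)) := by
      funext ζ
      simp only [map_add, map_mul, Complex.conj_I, map_neg, neg_neg]
      ring
    rw [e1, integral_add iB iA] at h1
    rw [e2, integral_sub (iB.const_mul _) (iA.const_mul _), integral_const_mul,
      integral_const_mul, ← mul_sub] at h2
    have h3 := (mul_eq_zero.mp h2).resolve_left Complex.I_ne_zero
    rw [hcongr, hcongr]
    constructor
    · linear_combination (1/2:ℂ) * h1 - (1/2:ℂ) * h3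
    · linear_combination (1/2:ℂ) * h1 + (1/2:ℂ) * h3
  exact ⟨fun f hf e he => (main f hf e he).1, fun f hf e he => (main f hf e he).2⟩

/-- TARGET 2: if all first moments vanish on `Y` then Poisson extensions are constant. -/
theorem const_of_moments (σ : Measure E) (hσ : IsSph σ) {Y : (E → ℂ) → Prop} (hY : Inv Y)
    (h10 : ∀ f, Y f → ∀ a : E, ∫ ζ, f ζ * ⟪ζ, a⟫_ℂ ∂σ = 0)
    (h01 : ∀ f, Y f → ∀ a : E, ∫ ζ, f ζ * ⟪a, ζ⟫_ℂ ∂σ = 0) (f : E → ℂ) (hf : Y f)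
    (z : E) (hz : ‖z‖ ≤ 1) : HH σ f z = ∫ ζ, f ζ ∂σ := by
  obtain ⟨g, hgc, hgY, hgf⟩ := ext_Y hY f hf
  have hint : ∀ (h : E → ℂ), Y h → ∀ (q : E → ℂ), Continuous q → Integrable (fun ζ => h ζ * q ζ) σ := by
    intro h hh q hq
    have hc : ContinuousOn (fun ζ => h ζ * q ζ) (closedBall 0 1) :=
      (hY.cont h hh).mul hq.continuousOn
    have := HH_integrable σ hσ _ hc (z := 0) (by simp)
    simpa using this
  -- derivative zero
  have hder : ∀ e : E, ‖e‖ = 1 → ∀ t : ℝ,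
      HasDerivAt (fun t : ℝ => ∫ ζ, g (mob (((Real.tanh t : ℝ) : ℂ) • e) ζ) ∂σ) 0 t := by
    intro e he t
    have hd := flow_deriv σ hσ g hgc (fun _ => 1) contDiff_const e he t
    have hYg := hY.mobI g _ hgY (norm_tanh_smul t e he)
    have e1 : (fun t : ℝ => ∫ ζ, g (mob (((Real.tanh t : ℝ) : ℂ) • e) ζ) * conj (1:ℂ) ∂σ)
        = fun t : ℝ => ∫ ζ, g (mob (((Real.tanh t : ℝ) : ℂ) • e) ζ) ∂σ := by
      funext t; simp
    rw [e1] at hd
    convert hd using 1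
    have e2 : (fun ζ => g (mob (((Real.tanh t : ℝ) : ℂ) • e) ζ) *
        conj (2 * (Module.finrank ℂ E : ℂ) * ((⟪e, ζ⟫_ℂ).re : ℂ) * 1
          - fderiv ℝ (fun _ : E => (1:ℂ)) ζ (e - ⟪e, ζ⟫_ℂ • ζ)))
        = fun ζ => (Module.finrank ℂ E : ℂ) * (g (mob (((Real.tanh t : ℝ) : ℂ) • e) ζ) * ⟪ζ, e⟫_ℂ)
          + (Module.finrank ℂ E : ℂ) * (g (mob (((Real.tanh t : ℝ) : ℂ) • e) ζ) * ⟪e, ζ⟫_ℂ) := by
      funext ζ
      have h8 : (2:ℂ) * ((⟪e, ζ⟫_ℂ).re : ℂ) = ⟪e, ζ⟫_ℂ + ⟪ζ, e⟫_ℂ := by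
        have := Complex.add_conj (⟪e, ζ⟫_ℂ)
        rw [inner_conj_symm] at this
        rw [this]; push_cast; ring
      simp only [fderiv_fun_const, Pi.zero_apply, _root_.zero_apply, sub_zero, mul_one,
        map_mul, Complex.conj_ofReal, map_ofNat, map_natCast]
      linear_combination (g (mob (((Real.tanh t : ℝ) : ℂ) • e) ζ) * (Module.finrank ℂ E : ℂ)) * h8
    rw [e2, integral_add ((hint _ hYg (fun ζ => ⟪ζ, e⟫_ℂ) (by fun_prop)).const_mul _)
      ((hint _ hYg (fun ζ => ⟪e, ζ⟫_ℂ) (by fun_prop)).const_mul _), integral_const_mul,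
      integral_const_mul, h10 _ hYg, h01 _ hYg]
    simp
  have hconst : ∀ e : E, ‖e‖ = 1 → ∀ t : ℝ,
      ∫ ζ, g (mob (((Real.tanh t : ℝ) : ℂ) • e) ζ) ∂σ = ∫ ζ, g ζ ∂σ := by
    intro e he t
    have h1 := is_const_of_deriv_eq_zero (fun s => (hder e he s).differentiableAt)
      (fun s => (hder e he s).deriv) t 0
    rw [h1, Real.tanh_zero, Complex.ofReal_zero, zero_smul]
    simp
  have hfg : ∫ ζ, f ζ ∂σ = ∫ ζ, g ζ ∂σ := by
    refine integral_congr_ae ?_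
    filter_upwards [hσ.supp] with ζ hζ
    rw [hgf ζ hζ.le]
  have hHg : ∀ z : E, ‖z‖ ≤ 1 → HH σ f z = HH σ g z := fun z hz =>
    HH_congr σ hσ f g (fun y hy => (hgf y hy.le).symm) hz
  have hball : ∀ z : E, ‖z‖ < 1 → HH σ g z = ∫ ζ, g ζ ∂σ := by
    intro z hz
    by_cases h0 : z = 0
    · rw [h0, HH_zero_eq]
    · have hn : ‖z‖ ≠ 0 := norm_ne_zero_iff.mpr h0
      have he : ‖((‖z‖⁻¹ : ℝ) : ℂ) • z‖ = 1 := by
        rw [norm_smul, Complex.norm_real, Real.norm_eq_abs, abs_of_nonneg (by positivity),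
          inv_mul_cancel₀ hn]
      have h2 := hconst _ he (Real.artanh ‖z‖)
      rw [Real.tanh_artanh ⟨by linarith [norm_nonneg z], hz⟩, smul_smul] at h2
      have h3 : ((‖z‖ : ℝ) : ℂ) * ((‖z‖⁻¹ : ℝ) : ℂ) = 1 := by
        rw [← Complex.ofReal_mul, mul_inv_cancel₀ hn, Complex.ofReal_one]
      rw [h3, one_smul] at h2
      exact h2
  rw [hHg z hz, hfg]
  have hEq : Set.EqOn (HH σ g) (fun _ => ∫ ζ, g ζ ∂σ) (ball 0 1) := by
    intro y hy
    exact hball y (by simpa using hy)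
  have hcl : closure (ball (0:E) 1) = closedBall 0 1 := closure_ball 0 one_ne_zero
  have h9 := Set.EqOn.of_subset_closure hEq (HH_cont σ hσ g hgc.continuousOn)
    continuousOn_const ball_subset_closedBall (by rw [hcl])
  exact h9 (by simpa using hz)
end JJ

end Pool.Agent.Helper287.MB.JJ

namespace Pool.Agent.Helper287.MB
alias ann_sub := JJ.ann_sub
alias ann_op := JJ.ann_op
alias const_of_moments := JJ.const_of_moments
end Pool.Agent.Helper287.MB
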