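import Pool.Agent.Helper287.MB.Base
set_option autoImplicit false
open MeasureTheory Metric Set
open scoped InnerProductSpace
namespace Pool.Agent.Helper287.MB.J2


theorem compact_group_haar (G : Type*) [Group G] [TopologicalSpace G] [IsTopologicalGroup G]
    [CompactSpace G] [SecondCountableTopology G] [MeasurableSpace G] [BorelSpace G] :
    ∃ μ : Measure G, IsProbabilityMeasure μ ∧
      (∀ U : G, μ.map (fun V => U * V) = μ) ∧
      (∀ U : G, μ.map (fun V => V * U) = μ) ∧
      μ.map (fun V => V⁻¹) = μ := by
  let μ : Measure G := Measure.haarMeasure (⊤ : TopologicalSpace.PositiveCompacts G)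
  have hμ1 : μ univ = 1 := by
    have := Measure.haarMeasure_self (K₀ := (⊤ : TopologicalSpace.PositiveCompacts G))
    simpa using this
  have hμp : IsProbabilityMeasure μ := ⟨hμ1⟩
  have hμl : μ.IsMulLeftInvariant := inferInstance
  let ν : Measure G := μ.inv
  have hνr : ν.IsMulRightInvariant := inferInstance
  have hνp : IsProbabilityMeasure ν := by
    refine ⟨?_⟩
    show μ.inv univ = 1
    rw [Measure.inv_apply]
    simpa using hμ1
  have hμν : ν = μ := by
    ext s hs
    have hm : Measurable (fun p : G × G => s.indicator (1 : G → ENNReal) (p.1 * p.2)) :=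
      (measurable_one.indicator hs).comp measurable_mul
    have e1 : ∫⁻ x, ∫⁻ y, s.indicator (1 : G → ENNReal) (x * y) ∂μ ∂ν = μ s := by
      have : ∀ x, ∫⁻ y, s.indicator (1 : G → ENNReal) (x * y) ∂μ = μ s := by
        intro x
        rw [lintegral_mul_left_eq_self (fun z => s.indicator (1 : G → ENNReal) z) x,
          lintegral_indicator_one hs]
      simp only [this]
      rw [lintegral_const, measure_univ, mul_one]
    have e2 : ∫⁻ y, ∫⁻ x, s.indicator (1 : G → ENNReal) (x * y) ∂ν ∂μ = ν s := by
      have : ∀ y, ∫⁻ x, s.indicator (1 : G → ENNReal) (x * y) ∂ν = ν s := by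
        intro y
        rw [lintegral_mul_right_eq_self (fun z => s.indicator (1 : G → ENNReal) z) y,
          lintegral_indicator_one hs]
      simp only [this]
      rw [lintegral_const, measure_univ, mul_one]
    rw [← e1, ← e2]
    exact (lintegral_lintegral_swap hm.aemeasurable).symm
  have hμr : μ.IsMulRightInvariant := by
    rw [← hμν]; exact hνr
  refine ⟨μ, hμp, fun U => map_mul_left_eq_self μ U, fun U => map_mul_right_eq_self μ U, hμν⟩

/-- The unitary group of a finite dimensional complex Hilbert space is compact and carries a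
bi-invariant, inversion invariant Borel probability measure. -/
theorem exists_unitary_haar (E : Type) [NormedAddCommGroup E] [InnerProductSpace ℂ E]
    [FiniteDimensional ℂ E] [CompleteSpace E]
    [MeasurableSpace (unitary (E →L[ℂ] E))] [BorelSpace (unitary (E →L[ℂ] E))] :
    CompactSpace (unitary (E →L[ℂ] E)) ∧
    ∃ μ : Measure (unitary (E →L[ℂ] E)), IsProbabilityMeasure μ ∧
      (∀ U : unitary (E →L[ℂ] E), μ.map (fun V => U * V) = μ) ∧
      (∀ U : unitary (E →L[ℂ] E), μ.map (fun V => V * U) = μ) ∧
      μ.map (fun V => V⁻¹) = μ := by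
  have hprop : ProperSpace (E →L[ℂ] E) := FiniteDimensional.proper ℂ (E →L[ℂ] E)
  have hcpt : IsCompact (unitary (E →L[ℂ] E) : Set (E →L[ℂ] E)) := by
    apply Metric.isCompact_of_isClosed_isBounded isClosed_unitary
    rw [isBounded_iff_forall_norm_le]
    refine ⟨1, fun U hU => ?_⟩
    have h1 : star U * U = 1 := (Unitary.mem_iff.1 hU).1
    have h2 : ‖star U * U‖ = ‖U‖ * ‖U‖ := CStarRing.norm_star_mul_self
    rw [h1] at h2
    have h3 : ‖(1 : E →L[ℂ] E)‖ ≤ 1 := ContinuousLinearMap.norm_id_le
    nlinarith [norm_nonneg U]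
  have hc : CompactSpace (unitary (E →L[ℂ] E)) := isCompact_iff_compactSpace.1 hcpt
  exact ⟨hc, compact_group_haar _⟩

end Pool.Agent.Helper287.MB.J2
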