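import Pool.Agent.Helper287.MB.Base
set_option autoImplicit false
set_option linter.unusedSectionVars false
open MeasureTheory Metric Set Filter Topology
open scoped InnerProductSpace ComplexConjugate

namespace Pool.Agent.Helper287.MB.J13

variable {E : Type} [NormedAddCommGroup E] [InnerProductSpace ℂ E]


-- ===================== TARGET =====================

/-- multiplication by a unimodular scalar -/
noncomputable def unimod {E : Type} [NormedAddCommGroup E] [InnerProductSpace ℂ E] (c : ℂ)
    (hc : ‖c‖ = 1) : E ≃ₗᵢ[ℂ] E where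
  toFun z := c • z
  invFun z := c⁻¹ • z
  map_add' x y := smul_add _ _ _
  map_smul' a x := smul_comm _ _ _
  left_inv z := by
    have : c ≠ 0 := by rintro rfl; simp at hc
    simp [smul_smul, inv_mul_cancel₀ this]
  right_inv z := by
    have : c ≠ 0 := by rintro rfl; simp at hc
    simp [smul_smul, mul_inv_cancel₀ this]
  norm_map' z := by
    change ‖c • z‖ = ‖z‖
    rw [norm_smul, hc, one_mul]

/-- TARGET.  Mean value property of holomorphic functions (only uses one-variable theory on the
discs `λ ↦ λ ζ` and invariance of `σ` under multiplication by unimodular scalars). -/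
theorem mean_holo {E : Type} [NormedAddCommGroup E] [InnerProductSpace ℂ E]
    [FiniteDimensional ℂ E] [MeasurableSpace E] [BorelSpace E]
    (σ : Measure E) (hσ : IsSph σ) (g : E → ℂ) (hg : ContinuousOn g (closedBall 0 1))
    (hd : DifferentiableOn ℂ g (ball 0 1)) :
    ∫ ζ, g ζ ∂σ = g 0 := by
  have hprob := hσ.prob
  -- continuous replacement of g
  set ρ : E → E := fun z => ((max 1 ‖z‖ : ℝ)⁻¹ : ℂ) • z with hρ
  have hmaxpos : ∀ z : E, 0 < max 1 ‖z‖ := fun z => lt_of_lt_of_le one_pos (le_max_left _ _)
  have hρc : Continuous ρ := by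
    apply Continuous.smul _ continuous_id
    apply Continuous.inv₀
    · exact Complex.continuous_ofReal.comp (by fun_prop)
    · intro z
      exact_mod_cast (hmaxpos z).ne'
  have hρb : ∀ z, ρ z ∈ closedBall (0:E) 1 := by
    intro z
    rw [mem_closedBall_zero_iff, hρ]
    simp only [norm_smul, norm_inv, Complex.norm_real, Real.norm_eq_abs]
    rw [abs_of_pos (hmaxpos z), inv_mul_le_iff₀ (hmaxpos z), mul_one]
    exact le_max_right _ _
  have hρid : ∀ z : E, ‖z‖ ≤ 1 → ρ z = z := by
    intro z hz
    simp only [hρ, max_eq_left hz]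
    simp
  set h : E → ℂ := fun z => g (ρ z) with hh
  have hhc : Continuous h := hg.comp_continuous hρc hρb
  have hhg : ∀ z : E, ‖z‖ ≤ 1 → h z = g z := by
    intro z hz
    simp only [hh, hρid z hz]
  -- boundedness
  obtain ⟨K, hK⟩ : ∃ K : ℝ, ∀ z, ‖h z‖ ≤ K := by
    have : ProperSpace E := FiniteDimensional.proper ℂ E
    obtain ⟨K, hK⟩ := (isCompact_closedBall (0:E) 1).exists_bound_of_continuousOn hg
    exact ⟨K, fun z => hK _ (hρb z)⟩
  have e1 : ∫ ζ, g ζ ∂σ = ∫ ζ, h ζ ∂σ := by
    apply integral_congr_ae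
    filter_upwards [hσ.supp] with ζ hζ
    exact (hhg ζ hζ.le).symm
  have e2 : ∀ θ : ℝ, ∫ ζ, h ζ ∂σ = ∫ ζ, h (Complex.exp (θ * Complex.I) • ζ) ∂σ := by
    intro θ
    have h1 := hσ.inv (unimod (Complex.exp (θ * Complex.I)) (Complex.norm_exp_ofReal_mul_I θ))
    conv_lhs => rw [← h1]
    rw [integral_map]
    · rfl
    · exact (LinearIsometryEquiv.continuous _).measurable.aemeasurable
    · exact hhc.aestronglyMeasurable
  -- circle averages
  have e3 : ∀ ζ : E, ‖ζ‖ = 1 →
      ∫ θ in (0:ℝ)..2 * Real.pi, h (Complex.exp (θ * Complex.I) • ζ) = 2 * Real.pi * g 0 := by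
    intro ζ hζ
    have hdc : DiffContOnCl ℂ (fun w : ℂ => g (w • ζ)) (ball 0 |1|) := by
      rw [abs_one]
      constructor
      · apply hd.comp
        · fun_prop
        · intro w hw
          rw [mem_ball_zero_iff] at hw ⊢
          rwa [norm_smul, hζ, mul_one]
      · rw [closure_ball _ one_ne_zero]
        apply hg.comp
        · fun_prop
        · intro w hw
          rw [mem_closedBall_zero_iff] at hw ⊢
          rwa [norm_smul, hζ, mul_one]
    have h1 := hdc.circleAverage
    rw [Real.circleAverage_def] at h1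
    have h2 : ∫ θ in (0:ℝ)..2 * Real.pi, g (circleMap 0 1 θ • ζ) = 2 * Real.pi * g 0 := by
      have hpi : (2 * Real.pi : ℝ) ≠ 0 := Real.two_pi_pos.ne'
      have h3 := congrArg (fun x : ℂ => (2 * Real.pi : ℝ) • x) h1
      simp only [smul_smul, mul_inv_cancel₀ hpi, one_smul, zero_smul] at h3
      rw [h3, Complex.real_smul]
      push_cast
      ring
    rw [← h2]
    apply intervalIntegral.integral_congr
    intro θ _
    simp only
    rw [hhg]
    · congr 2
      rw [circleMap, zero_add, Complex.ofReal_one, one_mul]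
    · rw [norm_smul, Complex.norm_exp_ofReal_mul_I, one_mul, hζ]
  -- Fubini
  have hcont2 : Continuous (fun p : ℝ × E => h (Complex.exp (p.1 * Complex.I) • p.2)) := by
    apply hhc.comp
    apply Continuous.smul
    · exact Complex.continuous_exp.comp
        ((Complex.continuous_ofReal.comp continuous_fst).mul continuous_const)
    · exact continuous_snd
  have hfub := intervalIntegral_integral_swap (a := (0:ℝ)) (b := 2 * Real.pi) (μ := σ)
    (f := fun θ ζ => h (Complex.exp (θ * Complex.I) • ζ)) (by
      have hfin : IsFiniteMeasure ((volume : Measure ℝ).restrict (uIoc 0 (2 * Real.pi))) :=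
        ⟨by rw [Measure.restrict_apply_univ, uIoc_of_le Real.two_pi_pos.le, Real.volume_Ioc]
            exact ENNReal.ofReal_lt_top⟩
      apply Integrable.of_bound (C := K)
      · exact hcont2.aestronglyMeasurable
      · exact Eventually.of_forall (fun p => hK _))
  have e4 : ∫ θ in (0:ℝ)..2 * Real.pi, (∫ ζ, h (Complex.exp (θ * Complex.I) • ζ) ∂σ) =
      2 * Real.pi * ∫ ζ, h ζ ∂σ := by
    have : ∀ θ : ℝ, (∫ ζ, h (Complex.exp (θ * Complex.I) • ζ) ∂σ) = ∫ ζ, h ζ ∂σ :=
      fun θ => (e2 θ).symm
    simp_rw [this]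
    rw [intervalIntegral.integral_const, sub_zero, Complex.real_smul]
    push_cast
    ring
  have e5 : ∫ ζ, (∫ θ in (0:ℝ)..2 * Real.pi, h (Complex.exp (θ * Complex.I) • ζ)) ∂σ =
      2 * Real.pi * g 0 := by
    rw [integral_congr_ae (g := fun _ => 2 * Real.pi * g 0)]
    · rw [integral_const]
      simp
    · filter_upwards [hσ.supp] with ζ hζ
      exact e3 ζ hζ
  rw [e1]
  have hpi : (2 * (Real.pi : ℂ)) ≠ 0 := by
    have := Real.two_pi_pos.ne'
    exact_mod_cast this
  apply mul_left_cancel₀ hpi
  rw [← e4, hfub, e5]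

end Pool.Agent.Helper287.MB.J13
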