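import Pool.Agent.Helper287.MB.Base
set_option autoImplicit false
open MeasureTheory Metric Set
open scoped InnerProductSpace ComplexConjugate
namespace Pool.Agent.Helper287.MB.J6


variable {E : Type} [NormedAddCommGroup E] [InnerProductSpace ℂ E] [FiniteDimensional ℂ E]
  [MeasurableSpace E] [BorelSpace E]

omit [MeasurableSpace E] [BorelSpace E] in
theorem pk_trans (e e' : E) (he : ‖e‖ = 1) (he' : ‖e'‖ = 1) :
    ∃ L : E ≃ₗᵢ[ℂ] E, L e = e' := by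
  let a := LinearIsometryEquiv.toSpanUnitSingleton (𝕜 := ℂ) e he
  let b := LinearIsometryEquiv.toSpanUnitSingleton (𝕜 := ℂ) e' he'
  let L0 : (Submodule.span ℂ {e}) →ₗᵢ[ℂ] E :=
    (Submodule.span ℂ {e'}).subtypeₗᵢ.comp ((a.symm.trans b).toLinearIsometry)
  refine ⟨(L0.extend).toLinearIsometryEquiv rfl, ?_⟩
  rw [LinearIsometry.toLinearIsometryEquiv_apply]
  have h1 : L0.extend ((a 1 : Submodule.span ℂ {e}) : E) = L0 (a 1) := LinearIsometry.extend_apply _ _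
  have h2 : ((a 1 : Submodule.span ℂ {e}) : E) = e := by simp [a]
  have h3 : L0 (a 1) = e' := by simp [L0, b]
  rw [h2, h3] at h1
  exact h1

omit [FiniteDimensional ℂ E] in
theorem pk_int (σ : Measure E) (hσ : IsSph σ) (L : E ≃ₗᵢ[ℂ] E) (g : E → ℝ) :
    ∫ ζ, g ζ ∂σ = ∫ ζ, g (L ζ) ∂σ := by
  conv_lhs => rw [← hσ.inv L]
  have := MeasureTheory.integral_map_equiv (μ := σ) (L.toHomeomorph.toMeasurableEquiv) g
  simpa using this

/-- the normalising constant does not depend on the unit vector -/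
theorem peak_const (σ : Measure E) (hσ : IsSph σ) (j : ℕ) (e e' : E) (he : ‖e‖ = 1)
    (he' : ‖e'‖ = 1) :
    ∫ ζ, ‖1 + ⟪e, ζ⟫_ℂ‖ ^ (2 * j) ∂σ = ∫ ζ, ‖1 + ⟪e', ζ⟫_ℂ‖ ^ (2 * j) ∂σ := by
  obtain ⟨L, hL⟩ := pk_trans e e' he he'
  rw [pk_int σ hσ L (fun ζ => ‖1 + ⟪e', ζ⟫_ℂ‖ ^ (2 * j))]
  simp only [← hL, LinearIsometryEquiv.inner_map_map]

theorem pk_ball (σ : Measure E) (hσ : IsSph σ) (e e' : E) (he : ‖e‖ = 1)
    (he' : ‖e'‖ = 1) (δ : ℝ) : σ (ball e δ) = σ (ball e' δ) := by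
  obtain ⟨L, hL⟩ := pk_trans e e' he he'
  have h : σ (ball e' δ) = (σ.map L) (ball e' δ) := by rw [hσ.inv L]
  rw [h, Measure.map_apply L.continuous.measurable isOpen_ball.measurableSet]
  congr 1
  ext x
  simp only [mem_ball, mem_preimage, ← hL]
  rw [L.dist_map]

theorem pk_ball_pos (σ : Measure E) (hσ : IsSph σ) (e : E) (he : ‖e‖ = 1)
    (δ : ℝ) (hδ : 0 < δ) : 0 < σ (ball e δ) := by
  by_contra hcon
  have h0 : σ (ball e δ) = 0 := by simpa using hcon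
  have hall : ∀ x ∈ sphere (0 : E) 1, σ (ball x δ) = 0 := by
    intro x hx
    have hx' : ‖x‖ = 1 := by simpa using hx
    rw [← h0]
    exact pk_ball σ hσ x e hx' he δ
  have hcomp : IsCompact (sphere (0 : E) 1) := by
    have : ProperSpace E := FiniteDimensional.proper ℂ E
    exact isCompact_sphere 0 1
  have hs : σ (sphere (0 : E) 1) = 0 := by
    refine hcomp.measure_zero_of_nhdsWithin ?_
    intro x hx
    exact ⟨ball x δ, mem_nhdsWithin_of_mem_nhds (ball_mem_nhds x hδ), hall x hx⟩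
  have hu : σ (sphere (0 : E) 1)ᶜ = 0 := by
    have := hσ.supp
    rw [ae_iff] at this
    convert this using 2
    ext x
    simp
  have h1 : σ univ ≤ 0 := by
    rw [← union_compl_self (sphere (0 : E) 1)]
    refine (measure_union_le _ _).trans ?_
    rw [hs, hu]; simp
  have := hσ.prob
  rw [measure_univ] at h1
  simp at h1

omit [FiniteDimensional ℂ E] [MeasurableSpace E] [BorelSpace E] in
theorem pk_le (z ζ : E) (hz : ‖z‖ = 1) (hζ : ‖ζ‖ = 1) :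
    ‖1 + ⟪z, ζ⟫_ℂ‖ ^ 2 ≤ 4 - ‖ζ - z‖ ^ 2 := by
  have h1 : ‖ζ - z‖ ^ 2 = 2 - 2 * (⟪z, ζ⟫_ℂ).re := by
    rw [@norm_sub_sq ℂ, hz, hζ]
    have : RCLike.re ⟪ζ, z⟫_ℂ = (⟪z, ζ⟫_ℂ).re := by
      rw [← inner_conj_symm z ζ]
      rfl
    rw [this]; ring
  have h2 : ‖1 + ⟪z, ζ⟫_ℂ‖ ^ 2 = 1 + 2 * (⟪z, ζ⟫_ℂ).re + ‖⟪z, ζ⟫_ℂ‖ ^ 2 := by
    rw [Complex.sq_norm, Complex.sq_norm, Complex.normSq_apply, Complex.normSq_apply]
    simp
    ring
  have h3 : ‖⟪z, ζ⟫_ℂ‖ ≤ 1 := by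
    have := norm_inner_le_norm (𝕜 := ℂ) z ζ
    rw [hz, hζ] at this
    simpa using this
  have h4 : ‖⟪z, ζ⟫_ℂ‖ ^ 2 ≤ 1 := by
    have := norm_nonneg (⟪z, ζ⟫_ℂ)
    nlinarith
  rw [h1, h2]; linarith

omit [FiniteDimensional ℂ E] [MeasurableSpace E] [BorelSpace E] in
theorem pk_ge (z ζ : E) (hz : ‖z‖ = 1) :
    2 - ‖ζ - z‖ ≤ ‖1 + ⟪z, ζ⟫_ℂ‖ := by
  have h1 : ⟪z, ζ⟫_ℂ = 1 + ⟪z, ζ - z⟫_ℂ := by
    rw [inner_sub_right, inner_self_eq_norm_sq_to_K, hz]; simp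
  have h2 : ‖⟪z, ζ - z⟫_ℂ‖ ≤ ‖ζ - z‖ := by
    have := norm_inner_le_norm (𝕜 := ℂ) z (ζ - z)
    rw [hz, one_mul] at this
    exact this
  have h3 : (1 : ℂ) + ⟪z, ζ⟫_ℂ = 2 - (- ⟪z, ζ - z⟫_ℂ) := by
    rw [h1]; ring
  rw [h3]
  have h4 := norm_sub_norm_le (2 : ℂ) (- ⟪z, ζ - z⟫_ℂ)
  rw [norm_neg] at h4
  have h5 : ‖(2 : ℂ)‖ = 2 := by simp
  rw [h5] at h4
  linarith

theorem pk_integrable (σ : Measure E) (hσ : IsSph σ) (j : ℕ) (z : E) (hz : ‖z‖ = 1) :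
    Integrable (fun ζ => ‖1 + ⟪z, ζ⟫_ℂ‖ ^ (2 * j)) σ := by
  have := hσ.prob
  refine Integrable.of_bound (C := 4 ^ j) ?_ ?_
  · have hc : Continuous (fun ζ : E => ‖1 + ⟪z, ζ⟫_ℂ‖ ^ (2 * j)) := by fun_prop
    exact hc.aestronglyMeasurable
  · filter_upwards [hσ.supp] with ζ hζ
    rw [Real.norm_of_nonneg (by positivity), pow_mul]
    apply pow_le_pow_left₀ (by positivity)
    have := pk_le z ζ hz hζ
    nlinarith [sq_nonneg ‖ζ - z‖]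

theorem pk_lower (σ : Measure E) (hσ : IsSph σ) (j : ℕ) (z : E) (hz : ‖z‖ = 1) (η : ℝ)
    (hη : η ≤ 2) :
    σ.real (ball z η) * ((2 - η) ^ 2) ^ j ≤ ∫ ζ, ‖1 + ⟪z, ζ⟫_ℂ‖ ^ (2 * j) ∂σ := by
  have := hσ.prob
  have h1 : ∫ ζ in ball z η, ‖1 + ⟪z, ζ⟫_ℂ‖ ^ (2 * j) ∂σ ≤ ∫ ζ, ‖1 + ⟪z, ζ⟫_ℂ‖ ^ (2 * j) ∂σ := by
    apply setIntegral_le_integral (pk_integrable σ hσ j z hz)
    filter_upwards with ζ
    simp only [Pi.zero_apply]
    positivity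
  refine le_trans ?_ h1
  have h2 : ∫ ζ in ball z η, ((2 - η) ^ 2) ^ j ∂σ = σ.real (ball z η) * ((2 - η) ^ 2) ^ j := by
    rw [setIntegral_const]; simp
  rw [← h2]
  apply setIntegral_mono_on
  · exact integrableOn_const (by finiteness)
  · exact (pk_integrable σ hσ j z hz).integrableOn
  · exact isOpen_ball.measurableSet
  · intro ζ hζ
    rw [pow_mul]
    apply pow_le_pow_left₀ (by positivity)
    apply pow_le_pow_left₀ (by linarith)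
    have := pk_ge z ζ hz
    rw [mem_ball, dist_eq_norm] at hζ
    linarith

theorem peak_const_pos (σ : Measure E) (hσ : IsSph σ) (j : ℕ) (e : E) (he : ‖e‖ = 1) :
    0 < ∫ ζ, ‖1 + ⟪e, ζ⟫_ℂ‖ ^ (2 * j) ∂σ := by
  have := hσ.prob
  refine lt_of_lt_of_le ?_ (pk_lower σ hσ j e he 1 (by norm_num))
  have h := pk_ball_pos σ hσ e he 1 one_pos
  have h2 : 0 < σ.real (ball e 1) := by
    rw [Measure.real, ENNReal.toReal_pos_iff]
    exact ⟨h, by finiteness⟩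
  positivity

/-- Peaking kernels: `‖1 + ⟪z,ζ⟫‖^(2j)`, normalised, is an approximate identity on the sphere,
uniformly. -/
theorem peak_approx (σ : Measure E) (hσ : IsSph σ) (f : E → ℂ)
    (hf : ContinuousOn f (sphere 0 1)) (ε : ℝ) (hε : 0 < ε) :
    ∃ J : ℕ, ∀ j ≥ J, ∀ z : E, ‖z‖ = 1 →
      ‖(((∫ ζ, ‖1 + ⟪z, ζ⟫_ℂ‖ ^ (2 * j) ∂σ : ℝ) : ℂ))⁻¹ *
          (∫ ζ, f ζ * ((‖1 + ⟪z, ζ⟫_ℂ‖ ^ (2 * j) : ℝ) : ℂ) ∂σ) - f z‖ ≤ ε := by
  have hprob := hσ.prob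
  have hcomp : IsCompact (sphere (0 : E) 1) := by
    have : ProperSpace E := FiniteDimensional.proper ℂ E
    exact isCompact_sphere 0 1
  by_cases hE : ∃ e : E, ‖e‖ = 1
  swap
  · exact ⟨0, fun j _ z hz => absurd ⟨z, hz⟩ hE⟩
  obtain ⟨e, he⟩ := hE
  -- bound
  obtain ⟨M, hM⟩ := hcomp.exists_bound_of_continuousOn hf
  have hM0 : 0 ≤ M := (norm_nonneg _).trans (hM e (by simpa using he))
  -- uniform continuity
  have huc := hcomp.uniformContinuousOn_of_continuous hf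
  rw [Metric.uniformContinuousOn_iff] at huc
  obtain ⟨δ0, hδ0, huc⟩ := huc (ε / 2) (by positivity)
  set δ := min δ0 1 with hδdef
  have hδ : 0 < δ := lt_min hδ0 one_pos
  have hδ1 : δ ≤ 1 := min_le_right _ _
  set η := δ ^ 2 / 4 with hηdef
  have hη : 0 < η := by positivity
  have hη1 : η ≤ 1 := by rw [hηdef]; nlinarith
  set c := σ.real (ball e η) with hc
  have hcpos : 0 < c := by
    have h := pk_ball_pos σ hσ e he η hη
    rw [hc, Measure.real, ENNReal.toReal_pos_iff]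
    exact ⟨h, by finiteness⟩
  set r := (4 - δ ^ 2) / (2 - η) ^ 2 with hr
  have hden : 0 < (2 - η) ^ 2 := by
    have : 0 < 2 - η := by linarith
    positivity
  have hnum : 0 ≤ 4 - δ ^ 2 := by nlinarith
  have hr0 : 0 ≤ r := by positivity
  have hr1 : r < 1 := by
    rw [hr, div_lt_one hden]
    have : η ^ 2 > 0 := by positivity
    have h4 : 4 * η = δ ^ 2 := by rw [hηdef]; ring
    nlinarith
  obtain ⟨J, hJ⟩ := exists_pow_lt_of_lt_one (show 0 < ε * c / (4 * M + 1) by positivity) hr1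
  refine ⟨J, fun j hj z hz => ?_⟩
  have hrj : r ^ j < ε * c / (4 * M + 1) :=
    lt_of_le_of_lt (pow_le_pow_of_le_one hr0 hr1.le hj) hJ
  set N := ∫ ζ, ‖1 + ⟪z, ζ⟫_ℂ‖ ^ (2 * j) ∂σ with hN
  have hNpos : 0 < N := peak_const_pos σ hσ j z hz
  have hNlow : c * ((2 - η) ^ 2) ^ j ≤ N := by
    have := pk_lower σ hσ j z hz η (by linarith)
    rw [hc, Measure.real, pk_ball σ hσ e z he hz η]
    exact this
  have hNne : ((N : ℝ) : ℂ) ≠ 0 := by exact_mod_cast hNpos.ne'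
  have hKint := pk_integrable σ hσ j z hz
  have hfm : AEStronglyMeasurable f σ := by
    have h1 : AEStronglyMeasurable f (σ.restrict (sphere (0 : E) 1)) :=
      hf.aestronglyMeasurable isClosed_sphere.measurableSet
    have h2 : σ.restrict (sphere (0 : E) 1) = σ := by
      apply Measure.restrict_eq_self_of_ae_mem
      filter_upwards [hσ.supp] with ζ hζ
      simpa using hζ
    rwa [h2] at h1
  have hfb : ∀ᵐ ζ ∂σ, ‖f ζ‖ ≤ M := by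
    filter_upwards [hσ.supp] with ζ hζ
    exact hM ζ (by simpa using hζ)
  have hKC : Integrable (fun ζ => ((‖1 + ⟪z, ζ⟫_ℂ‖ ^ (2 * j) : ℝ) : ℂ)) σ := hKint.ofReal
  have hfK : Integrable (fun ζ => f ζ * ((‖1 + ⟪z, ζ⟫_ℂ‖ ^ (2 * j) : ℝ) : ℂ)) σ :=
    hKC.bdd_mul hfm hfb
  have hzK : Integrable (fun ζ => f z * ((‖1 + ⟪z, ζ⟫_ℂ‖ ^ (2 * j) : ℝ) : ℂ)) σ :=
    hKC.const_mul _
  have hNC : (N : ℂ) = ∫ ζ, ((‖1 + ⟪z, ζ⟫_ℂ‖ ^ (2 * j) : ℝ) : ℂ) ∂σ := by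
    rw [hN]; exact integral_ofReal.symm
  have key : ((N : ℝ) : ℂ)⁻¹ * (∫ ζ, f ζ * ((‖1 + ⟪z, ζ⟫_ℂ‖ ^ (2 * j) : ℝ) : ℂ) ∂σ) - f z =
      ((N : ℝ) : ℂ)⁻¹ * (∫ ζ, (f ζ - f z) * ((‖1 + ⟪z, ζ⟫_ℂ‖ ^ (2 * j) : ℝ) : ℂ) ∂σ) := by
    have h1 : ∫ ζ, (f ζ - f z) * ((‖1 + ⟪z, ζ⟫_ℂ‖ ^ (2 * j) : ℝ) : ℂ) ∂σ =
        (∫ ζ, f ζ * ((‖1 + ⟪z, ζ⟫_ℂ‖ ^ (2 * j) : ℝ) : ℂ) ∂σ) - f z * (N : ℂ) := by
      rw [hNC, ← integral_const_mul, ← integral_sub hfK hzK]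
      congr 1
      ext ζ
      ring
    rw [h1, mul_sub]
    congr 1
    field_simp
  rw [key, norm_mul, norm_inv]
  have hNn : ‖((N : ℝ) : ℂ)‖ = N := by
    rw [Complex.norm_real, Real.norm_of_nonneg hNpos.le]
  rw [hNn]
  have hbound : ‖∫ ζ, (f ζ - f z) * ((‖1 + ⟪z, ζ⟫_ℂ‖ ^ (2 * j) : ℝ) : ℂ) ∂σ‖ ≤
      ε / 2 * N + 2 * M * (4 - δ ^ 2) ^ j := by
    have h1 : ‖∫ ζ, (f ζ - f z) * ((‖1 + ⟪z, ζ⟫_ℂ‖ ^ (2 * j) : ℝ) : ℂ) ∂σ‖ ≤
        ∫ ζ, (ε / 2 * ‖1 + ⟪z, ζ⟫_ℂ‖ ^ (2 * j) + 2 * M * (4 - δ ^ 2) ^ j) ∂σ := by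
      apply norm_integral_le_of_norm_le
      · exact (hKint.const_mul _).add (integrable_const _)
      · filter_upwards [hσ.supp] with ζ hζ
        have hζs : ζ ∈ sphere (0 : E) 1 := by simpa using hζ
        have hzs : z ∈ sphere (0 : E) 1 := by simpa using hz
        rw [norm_mul, Complex.norm_real, Real.norm_of_nonneg (by positivity)]
        by_cases hd : dist ζ z < δ
        · have h2 := huc ζ hζs z hzs (lt_of_lt_of_le hd (min_le_left _ _))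
          rw [dist_eq_norm] at h2
          have h3 : 0 ≤ 2 * M * (4 - δ ^ 2) ^ j := by positivity
          have h4 : 0 ≤ ‖1 + ⟪z, ζ⟫_ℂ‖ ^ (2 * j) := by positivity
          nlinarith
        · rw [not_lt, dist_eq_norm] at hd
          have h2 : ‖f ζ - f z‖ ≤ 2 * M := by
            refine (norm_sub_le _ _).trans ?_
            have := hM ζ hζs
            have := hM z hzs
            linarith
          have h3 : ‖1 + ⟪z, ζ⟫_ℂ‖ ^ (2 * j) ≤ (4 - δ ^ 2) ^ j := by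
            rw [pow_mul]
            apply pow_le_pow_left₀ (by positivity)
            have := pk_le z ζ hz hζ
            nlinarith
          have h4 : 0 ≤ ‖1 + ⟪z, ζ⟫_ℂ‖ ^ (2 * j) := by positivity
          have h5 : ‖f ζ - f z‖ * ‖1 + ⟪z, ζ⟫_ℂ‖ ^ (2 * j) ≤ 2 * M * (4 - δ ^ 2) ^ j :=
            mul_le_mul h2 h3 h4 (by positivity)
          have h6 : 0 ≤ ε / 2 * ‖1 + ⟪z, ζ⟫_ℂ‖ ^ (2 * j) := by positivity
          linarith
    refine h1.trans (le_of_eq ?_)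
    rw [integral_add (hKint.const_mul _) (integrable_const _), integral_const_mul, integral_const]
    simp [hN]
  have hfin : 2 * M * (4 - δ ^ 2) ^ j ≤ ε / 2 * N := by
    have h1 : (4 - δ ^ 2) ^ j = r ^ j * ((2 - η) ^ 2) ^ j := by
      rw [hr, div_pow, div_mul_cancel₀]
      positivity
    have h2 : r ^ j * (4 * M + 1) ≤ ε * c := by
      rw [lt_div_iff₀ (by positivity)] at hrj
      exact hrj.le
    have h3 : 0 ≤ r ^ j := by positivity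
    have h4 : 4 * M * r ^ j ≤ ε * c := by nlinarith
    have h5 : 0 ≤ ((2 - η) ^ 2) ^ j := by positivity
    rw [h1]
    have h6 : 4 * M * r ^ j * ((2 - η) ^ 2) ^ j ≤ ε * c * ((2 - η) ^ 2) ^ j :=
      mul_le_mul_of_nonneg_right h4 h5
    nlinarith
  calc N⁻¹ * ‖∫ ζ, (f ζ - f z) * ((‖1 + ⟪z, ζ⟫_ℂ‖ ^ (2 * j) : ℝ) : ℂ) ∂σ‖
      ≤ N⁻¹ * (ε * N) := by
        apply mul_le_mul_of_nonneg_left _ (by positivity)
        linarith
    _ = ε := by field_simp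

end Pool.Agent.Helper287.MB.J6
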