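import Pool.Agent.Helper287.MB.Base
set_option autoImplicit false
open MeasureTheory Metric Set
open scoped InnerProductSpace ComplexConjugate
namespace Pool.Agent.Helper287.MB.J3


variable {E : Type} [NormedAddCommGroup E] [InnerProductSpace ℂ E] [FiniteDimensional ℂ E]
  [MeasurableSpace E] [BorelSpace E]

omit [FiniteDimensional ℂ E] in
theorem int_inv {F : Type*} [NormedAddCommGroup F] [NormedSpace ℝ F] (σ : Measure E) (hσ : IsSph σ)
    (L : E ≃ₗᵢ[ℂ] E) (f : E → F) : ∫ ζ, f (L ζ) ∂σ = ∫ ζ, f ζ ∂σ := by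
  have h1 : MeasurableEmbedding L := L.toHomeomorph.measurableEmbedding
  rw [← h1.integral_map (μ := σ) f, hσ.inv L]

/-- multiplication by a unit complex number -/
noncomputable def rot (E : Type) [NormedAddCommGroup E] [InnerProductSpace ℂ E] (w : ℂ) (hw : ‖w‖ = 1) :
    E ≃ₗᵢ[ℂ] E where
  toLinearEquiv := LinearEquiv.smulOfNeZero ℂ E w (by
    intro h; rw [h, norm_zero] at hw; exact zero_ne_one hw)
  norm_map' := by
    intro x
    show ‖w • x‖ = ‖x‖
    rw [norm_smul, hw, one_mul]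

omit [FiniteDimensional ℂ E] [MeasurableSpace E] [BorelSpace E] in
theorem rot_apply (w : ℂ) (hw : ‖w‖ = 1) (x : E) : rot E w hw x = w • x := rfl

omit [MeasurableSpace E] [BorelSpace E] in
theorem exists_basis [Nontrivial E] (e : E) (he : ‖e‖ = 1) :
    ∃ b : OrthonormalBasis (Fin (Module.finrank ℂ E)) ℂ E, b ⟨0, Module.finrank_pos⟩ = e := by
  have hv : Orthonormal ℂ (({(⟨0, Module.finrank_pos⟩ : Fin (Module.finrank ℂ E))} : Set _).domRestrict
      (fun _ : Fin (Module.finrank ℂ E) => e)) := by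
    constructor
    · intro i
      exact he
    · intro i j hij
      exact absurd (Subsingleton.elim i j) hij
  obtain ⟨b, hb⟩ := hv.exists_orthonormalBasis_extension_of_card_eq (by simp)
  exact ⟨b, hb _ rfl⟩

omit [MeasurableSpace E] [BorelSpace E] in
theorem exists_isom (e e' : E) (he : ‖e‖ = 1) (he' : ‖e'‖ = 1) : ∃ L : E ≃ₗᵢ[ℂ] E, L e = e' := by
  have hnt : Nontrivial E := ⟨⟨e, 0, by intro h; rw [h, norm_zero] at he; exact zero_ne_one he⟩⟩
  obtain ⟨b, hb⟩ := exists_basis e he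
  obtain ⟨b', hb'⟩ := exists_basis e' he'
  refine ⟨b.equiv b' (Equiv.refl _), ?_⟩
  conv_lhs => rw [← hb]
  rw [OrthonormalBasis.equiv_apply_basis]
  exact hb'

/-- existence (given the Haar measure of the unitary group as hypothesis) and the formula
law of `U e` is `σ` for every unitarily invariant probability `σ` on the sphere. -/
theorem sph_of_haar [CompleteSpace E] [Nontrivial E]
    [MeasurableSpace (unitary (E →L[ℂ] E))] [BorelSpace (unitary (E →L[ℂ] E))]
    (hc : CompactSpace (unitary (E →L[ℂ] E)))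
    (μ : Measure (unitary (E →L[ℂ] E))) (h1 : IsProbabilityMeasure μ)
    (h2 : ∀ U : unitary (E →L[ℂ] E), μ.map (fun V => U * V) = μ)
    (h3 : ∀ U : unitary (E →L[ℂ] E), μ.map (fun V => V * U) = μ) :
    (∃ σ : Measure E, IsSph σ) ∧
    (∀ σ : Measure E, IsSph σ → ∀ e : E, ‖e‖ = 1 →
      μ.map (fun U : unitary (E →L[ℂ] E) => (U : E →L[ℂ] E) e) = σ) := by
  have hev : ∀ e : E, Continuous (fun U : unitary (E →L[ℂ] E) => (U : E →L[ℂ] E) e) := fun e =>
    (ContinuousLinearMap.apply ℂ E e).continuous.comp continuous_subtype_val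
  have hevm : ∀ e : E, Measurable (fun U : unitary (E →L[ℂ] E) => (U : E →L[ℂ] E) e) :=
    fun e => (hev e).measurable
  have hml : ∀ U : unitary (E →L[ℂ] E), Measurable (fun V : unitary (E →L[ℂ] E) => U * V) :=
    fun U => (continuous_const.mul continuous_id).measurable
  have hmr : ∀ U : unitary (E →L[ℂ] E), Measurable (fun V : unitary (E →L[ℂ] E) => V * U) :=
    fun U => (continuous_id.mul continuous_const).measurable
  constructor
  · obtain ⟨x, hx⟩ := exists_ne (0 : E)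
    have he : ‖((‖x‖⁻¹ : ℝ) : ℂ) • x‖ = 1 := by
      rw [norm_smul, Complex.norm_real, norm_inv, norm_norm, inv_mul_cancel₀ (norm_ne_zero_iff.2 hx)]
    set e := ((‖x‖⁻¹ : ℝ) : ℂ) • x
    refine ⟨μ.map (fun U : unitary (E →L[ℂ] E) => (U : E →L[ℂ] E) e), ⟨?_, ?_, ?_⟩⟩
    · exact Measure.isProbabilityMeasure_map (hevm e).aemeasurable
    · intro L
      rw [Measure.map_map L.continuous.measurable (hevm e)]
      have h4 := h2 (Unitary.linearIsometryEquiv.symm L)
      conv_rhs => rw [← h4]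
      rw [Measure.map_map (hevm e) (hml _)]
      rfl
    · rw [ae_map_iff (hevm e).aemeasurable (measurableSet_eq_fun measurable_norm measurable_const)]
      refine Filter.Eventually.of_forall (fun U => ?_)
      rw [Unitary.norm_map, he]
  · intro σ hσ e he
    have hprob := hσ.prob
    ext A hA
    -- every unit vector gives the same law
    have hlaw : ∀ ζ : E, ‖ζ‖ = 1 →
        μ.map (fun U : unitary (E →L[ℂ] E) => (U : E →L[ℂ] E) ζ) =
        μ.map (fun U : unitary (E →L[ℂ] E) => (U : E →L[ℂ] E) e) := by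
      intro ζ hζ
      obtain ⟨L, hL⟩ := exists_isom e ζ he hζ
      have h4 := h3 (Unitary.linearIsometryEquiv.symm L)
      conv_rhs => rw [← h4]
      rw [Measure.map_map (hevm e) (hmr _)]
      congr 1
      funext U
      show (U : E →L[ℂ] E) ζ = (U : E →L[ℂ] E) (L e)
      rw [hL]
    have hjoint : Measurable (fun q : (unitary (E →L[ℂ] E)) × E => (q.1 : E →L[ℂ] E) q.2) := by
      have : Continuous (fun q : (unitary (E →L[ℂ] E)) × E => (q.1 : E →L[ℂ] E) q.2) :=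
        (continuous_subtype_val.comp continuous_fst).clm_apply continuous_snd
      have hsc : SecondCountableTopology E := by
        have : ProperSpace E := FiniteDimensional.proper ℂ E
        infer_instance
      exact this.measurable
    have hS : MeasurableSet {q : (unitary (E →L[ℂ] E)) × E | (q.1 : E →L[ℂ] E) q.2 ∈ A} := hjoint hA
    have hσU : ∀ U : unitary (E →L[ℂ] E), σ {ζ | (U : E →L[ℂ] E) ζ ∈ A} = σ A := by
      intro U
      have h5 := hσ.inv (Unitary.linearIsometryEquiv U)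
      conv_rhs => rw [← h5]
      rw [Measure.map_apply (LinearIsometryEquiv.continuous _).measurable hA]
      rfl
    calc μ.map (fun U : unitary (E →L[ℂ] E) => (U : E →L[ℂ] E) e) A
        = ∫⁻ ζ, μ.map (fun U : unitary (E →L[ℂ] E) => (U : E →L[ℂ] E) e) A ∂σ := by
          rw [lintegral_const, measure_univ, mul_one]
      _ = ∫⁻ ζ, μ {U : unitary (E →L[ℂ] E) | (U : E →L[ℂ] E) ζ ∈ A} ∂σ := by
          apply lintegral_congr_ae
          filter_upwards [hσ.supp] with ζ hζ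
          rw [← hlaw ζ hζ, Measure.map_apply (hevm ζ) hA]
          rfl
      _ = (μ.prod σ) {q : (unitary (E →L[ℂ] E)) × E | (q.1 : E →L[ℂ] E) q.2 ∈ A} := by
          rw [Measure.prod_apply_symm hS]
          rfl
      _ = ∫⁻ U, σ {ζ | (U : E →L[ℂ] E) ζ ∈ A} ∂μ := by
          rw [Measure.prod_apply hS]
          rfl
      _ = ∫⁻ U, σ A ∂μ := by simp_rw [hσU]
      _ = σ A := by rw [lintegral_const, measure_univ, mul_one]

/-- points have measure zero -/
theorem sph_singleton (σ : Measure E) (hσ : IsSph σ) (ζ : E) : σ {ζ} = 0 := by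
  have hprob := hσ.prob
  by_cases hζ : ‖ζ‖ = 1
  · by_contra hne
    have hζ0 : ζ ≠ 0 := by intro h; rw [h, norm_zero] at hζ; exact zero_ne_one hζ
    have hinf : (Set.range (fun w : Circle => (w : ℂ) • ζ)).Infinite := by
      have : Infinite Circle := by
        rw [Circle.argEquiv.infinite_iff]
        exact (Set.Ioc_infinite (by linarith [Real.pi_pos])).to_subtype
      apply Set.infinite_range_of_injective
      intro w w' h
      have h1 : ((w : ℂ) - w') • ζ = 0 := by rw [sub_smul]; exact sub_eq_zero.2 h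
      rcases smul_eq_zero.1 h1 with h2 | h2
      · exact Circle.ext (sub_eq_zero.1 h2)
      · exact absurd h2 hζ0
    have h2 := hinf.meas_eq_top (μ := σ) ⟨σ {ζ}, hne, by
      rintro _ ⟨w, rfl⟩
      have hw : ‖(w : ℂ)‖ = 1 := Circle.norm_coe w
      have h3 := hσ.inv (rot E w hw)
      have h5 : σ {(w : ℂ) • ζ} = σ ((rot E w hw) ⁻¹' {(w : ℂ) • ζ}) := by
        conv_lhs => rw [← h3]
        rw [Measure.map_apply (LinearIsometryEquiv.continuous _).measurable
          (measurableSet_singleton _)]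
      show σ {ζ} ≤ σ {(w : ℂ) • ζ}
      rw [h5]
      apply measure_mono
      intro x hx
      rw [mem_singleton_iff] at hx
      rw [hx]
      rfl⟩
    have h4 : σ (Set.range (fun w : Circle => (w : ℂ) • ζ)) ≤ 1 := prob_le_one
    rw [h2] at h4
    exact absurd h4 (by simp)
  · have h1 := hσ.supp
    rw [ae_iff] at h1
    refine measure_mono_null ?_ h1
    rintro x rfl
    exact hζ

omit [FiniteDimensional ℂ E] in
theorem sph_mean_aux (σ : Measure E) (hσ : IsSph σ) (f : E → ℂ) (w : ℂ) (hw : ‖w‖ = 1)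
    (hf : ∀ ζ, f (w • ζ) = - f ζ) : ∫ ζ, f ζ ∂σ = 0 := by
  have h1 := int_inv σ hσ (rot E w hw) f
  simp only [rot_apply, hf] at h1
  rw [integral_neg] at h1
  have h2 : (2:ℂ) * ∫ ζ, f ζ ∂σ = 0 := by linear_combination -h1
  rcases mul_eq_zero.1 h2 with h3 | h3
  · norm_num at h3
  · exact h3

theorem sph_mean (σ : Measure E) (hσ : IsSph σ) (a : E) : ∫ ζ, ⟪a, ζ⟫_ℂ ∂σ = 0 := by
  apply sph_mean_aux σ hσ _ (-1) (by simp)
  intro ζ
  rw [inner_smul_right]; ring

theorem sph_sq (σ : Measure E) (hσ : IsSph σ) (a : E) : ∫ ζ, ⟪a, ζ⟫_ℂ ^ 2 ∂σ = 0 := by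
  apply sph_mean_aux σ hσ _ Complex.I (by simp)
  intro ζ
  rw [inner_smul_right, mul_pow, Complex.I_sq]; ring

theorem integrable_of_cont {F : Type*} [NormedAddCommGroup F] (σ : Measure E) (hσ : IsSph σ)
    (f : E → F) (hf : Continuous f) : Integrable f σ := by
  have hprob := hσ.prob
  have : ProperSpace E := FiniteDimensional.proper ℂ E
  obtain ⟨C, hC⟩ := (isCompact_sphere (0 : E) 1).exists_bound_of_continuousOn hf.continuousOn
  refine Integrable.of_bound hf.aestronglyMeasurable C ?_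
  filter_upwards [hσ.supp] with ζ hζ
  exact hC ζ (by simpa using hζ)

theorem sph_normsq (σ : Measure E) (hσ : IsSph σ) (a : E) :
    (Module.finrank ℂ E : ℝ) * ∫ ζ, ‖⟪a, ζ⟫_ℂ‖ ^ 2 ∂σ = ‖a‖ ^ 2 := by
  have hprob := hσ.prob
  by_cases ha : a = 0
  · subst ha
    simp
  · let b := stdOrthonormalBasis ℂ E
    have hna : (‖a‖ : ℝ) ≠ 0 := norm_ne_zero_iff.2 ha
    have key : ∀ i, ∫ ζ, ‖⟪a, ζ⟫_ℂ‖ ^ 2 ∂σ = ‖a‖ ^ 2 * ∫ ζ, ‖⟪b i, ζ⟫_ℂ‖ ^ 2 ∂σ := by
      intro i
      have hu : ‖((‖a‖⁻¹ : ℝ) : ℂ) • a‖ = 1 := by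
        rw [norm_smul, Complex.norm_real, norm_inv, norm_norm, inv_mul_cancel₀ hna]
      obtain ⟨L, hL⟩ := exists_isom (b i) _ (b.orthonormal.1 i) hu
      have h1 := int_inv σ hσ L (fun ζ => ‖⟪a, ζ⟫_ℂ‖ ^ 2)
      rw [← h1, ← integral_const_mul]
      congr 1
      funext ζ
      have h2 : a = ((‖a‖ : ℝ) : ℂ) • L (b i) := by
        rw [hL, smul_smul, ← Complex.ofReal_mul, mul_inv_cancel₀ hna, Complex.ofReal_one, one_smul]
      have h3 : ⟪a, L ζ⟫_ℂ = ((‖a‖ : ℝ) : ℂ) * ⟪b i, ζ⟫_ℂ := by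
        conv_lhs => rw [h2]
        rw [inner_smul_left, LinearIsometryEquiv.inner_map_map, Complex.conj_ofReal]
      rw [h3, norm_mul, mul_pow, Complex.norm_real, norm_norm]
    have hint : ∀ i, Integrable (fun ζ => ‖⟪b i, ζ⟫_ℂ‖ ^ 2) σ := fun i =>
      integrable_of_cont σ hσ _ (by fun_prop)
    have hsum : ∑ i, ∫ ζ, ‖⟪b i, ζ⟫_ℂ‖ ^ 2 ∂σ = 1 := by
      rw [← integral_finset_sum _ (fun i _ => hint i)]
      have : ∀ ζ, ∑ i, ‖⟪b i, ζ⟫_ℂ‖ ^ 2 = ‖ζ‖ ^ 2 := fun ζ => b.sum_sq_norm_inner_right ζ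
      simp_rw [this]
      have h5 : ∫ ζ, ‖ζ‖ ^ 2 ∂σ = ∫ ζ, (1:ℝ) ∂σ := by
        apply integral_congr_ae
        filter_upwards [hσ.supp] with ζ hζ
        rw [hζ]; norm_num
      rw [h5]
      simp
    calc (Module.finrank ℂ E : ℝ) * ∫ ζ, ‖⟪a, ζ⟫_ℂ‖ ^ 2 ∂σ
        = ∑ i : Fin (Module.finrank ℂ E), ∫ ζ, ‖⟪a, ζ⟫_ℂ‖ ^ 2 ∂σ := by
          rw [Finset.sum_const, Finset.card_univ, Fintype.card_fin, nsmul_eq_mul]
      _ = ∑ i, ‖a‖ ^ 2 * ∫ ζ, ‖⟪b i, ζ⟫_ℂ‖ ^ 2 ∂σ := Finset.sum_congr rfl (fun i _ => key i)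
      _ = ‖a‖ ^ 2 := by rw [← Finset.mul_sum, hsum, mul_one]

/-- circle means -/
theorem circle_mean (φ : ℂ → ℂ) (z : ℂ) :
    ∫ θ in (0:ℝ)..(2 * Real.pi), φ (Complex.exp (θ * Complex.I) * z) =
    ∫ θ in (0:ℝ)..(2 * Real.pi), φ (conj (Complex.exp (θ * Complex.I) * z)) := by
  set h : ℝ → ℂ := fun s => φ (Complex.exp (s * Complex.I) * (‖z‖ : ℂ)) with hh
  have hz : z = (‖z‖ : ℂ) * Complex.exp (z.arg * Complex.I) := (Complex.norm_mul_exp_arg_mul_I z).symm
  have hper : Function.Periodic h (2 * Real.pi) := by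
    intro s
    simp only [hh]
    congr 2
    push_cast
    rw [add_mul, Complex.exp_add, Complex.exp_two_pi_mul_I, mul_one]
  have hper' : Function.Periodic (fun s => h (-s)) (2 * Real.pi) := by
    intro s
    show h (-(s + 2 * Real.pi)) = h (-s)
    have := hper (-(s + 2 * Real.pi))
    rw [← this]
    congr 1; ring
  have e1 : ∀ θ : ℝ, φ (Complex.exp (θ * Complex.I) * z) = h (θ + z.arg) := by
    intro θ
    simp only [hh]
    congr 1
    conv_lhs => rw [hz]
    push_cast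
    rw [add_mul, Complex.exp_add]
    ring
  have e2 : ∀ θ : ℝ, φ (conj (Complex.exp (θ * Complex.I) * z)) = h (-(θ + z.arg)) := by
    intro θ
    simp only [hh]
    congr 1
    conv_lhs => rw [hz]
    rw [map_mul, map_mul, Complex.conj_ofReal, ← Complex.exp_conj, ← Complex.exp_conj]
    simp only [map_mul, Complex.conj_ofReal, Complex.conj_I]
    push_cast
    rw [neg_add, add_mul, Complex.exp_add]
    have a1 : (θ:ℂ) * -Complex.I = -θ * Complex.I := by ring
    have a2 : (z.arg:ℂ) * -Complex.I = -z.arg * Complex.I := by ring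
    rw [a1, a2]
    ring
  simp_rw [e1, e2]
  rw [intervalIntegral.integral_comp_add_right (fun s => h s) z.arg,
    intervalIntegral.integral_comp_add_right (fun s => h (-s)) z.arg]
  rw [zero_add, add_comm (2 * Real.pi) z.arg, hper.intervalIntegral_add_eq z.arg 0,
    hper'.intervalIntegral_add_eq z.arg 0]
  rw [zero_add, intervalIntegral.integral_comp_neg (fun s => h s), neg_zero]
  have := hper.intervalIntegral_add_eq (-(2 * Real.pi)) 0
  rw [neg_add_cancel, zero_add] at this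
  exact this.symm

theorem sph_circle (σ : Measure E) (hσ : IsSph σ) (a : E) (φ : ℂ → ℂ) (hφ : Continuous φ) :
    (2 * Real.pi : ℂ) * ∫ ζ, φ (⟪a, ζ⟫_ℂ) ∂σ =
      ∫ ζ, (∫ θ in (0:ℝ)..(2 * Real.pi), φ (Complex.exp (θ * Complex.I) * ⟪a, ζ⟫_ℂ)) ∂σ := by
  have hprob := hσ.prob
  have hprop : ProperSpace E := FiniteDimensional.proper ℂ E
  have hpi : (0:ℝ) ≤ 2 * Real.pi := by positivity
  have h1 : ∀ θ : ℝ, ∫ ζ, φ (Complex.exp (θ * Complex.I) * ⟪a, ζ⟫_ℂ) ∂σ = ∫ ζ, φ (⟪a, ζ⟫_ℂ) ∂σ := by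
    intro θ
    have := int_inv σ hσ (rot E (Complex.exp (θ * Complex.I)) (Complex.norm_exp_ofReal_mul_I θ))
      (fun ζ => φ (⟪a, ζ⟫_ℂ))
    rw [← this]
    simp only [rot_apply, inner_smul_right]
  have h2 : ∫ θ in (0:ℝ)..(2 * Real.pi), (∫ ζ, φ (Complex.exp (θ * Complex.I) * ⟪a, ζ⟫_ℂ) ∂σ) =
      (2 * Real.pi : ℂ) * ∫ ζ, φ (⟪a, ζ⟫_ℂ) ∂σ := by
    simp_rw [h1]
    rw [intervalIntegral.integral_const, sub_zero]
    rw [Complex.real_smul]
    push_cast
    ring
  rw [← h2]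
  simp_rw [intervalIntegral.integral_of_le hpi]
  have hcont : Continuous (fun q : ℝ × E => φ (Complex.exp (q.1 * Complex.I) * ⟪a, q.2⟫_ℂ)) := by
    fun_prop
  have hint : Integrable (Function.uncurry fun (θ : ℝ) (ζ : E) =>
      φ (Complex.exp (θ * Complex.I) * ⟪a, ζ⟫_ℂ)) ((volume.restrict (Ioc 0 (2 * Real.pi))).prod σ) := by
    have hK : IsCompact (Icc (0:ℝ) (2 * Real.pi) ×ˢ sphere (0 : E) 1) :=
      isCompact_Icc.prod (isCompact_sphere _ _)
    obtain ⟨C, hC⟩ := hK.exists_bound_of_continuousOn hcont.continuousOn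
    refine Integrable.of_bound hcont.aestronglyMeasurable C ?_
    have g1 : ∀ᵐ q : ℝ × E ∂((volume.restrict (Ioc 0 (2 * Real.pi))).prod σ), q.1 ∈ Ioc 0 (2 * Real.pi) :=
      Measure.quasiMeasurePreserving_fst.ae (ae_restrict_mem measurableSet_Ioc)
    have g2 : ∀ᵐ q : ℝ × E ∂((volume.restrict (Ioc 0 (2 * Real.pi))).prod σ), ‖q.2‖ = 1 :=
      Measure.quasiMeasurePreserving_snd.ae hσ.supp
    filter_upwards [g1, g2] with q hq1 hq2
    exact hC q ⟨Ioc_subset_Icc_self hq1, by simpa using hq2⟩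
  exact integral_integral_swap hint

/-- the law of `⟪a, ζ⟫` is invariant under complex conjugation -/
theorem sph_conj (σ : Measure E) (hσ : IsSph σ) (a : E) (φ : ℂ → ℂ) (hφ : Continuous φ) :
    ∫ ζ, φ (⟪a, ζ⟫_ℂ) ∂σ = ∫ ζ, φ (conj ⟪a, ζ⟫_ℂ) ∂σ := by
  have h1 := sph_circle σ hσ a φ hφ
  have h2 := sph_circle σ hσ a (fun z => φ (conj z)) (hφ.comp Complex.continuous_conj)
  have h3 : (2 * Real.pi : ℂ) * ∫ ζ, φ (⟪a, ζ⟫_ℂ) ∂σ = (2 * Real.pi : ℂ) * ∫ ζ, φ (conj ⟪a, ζ⟫_ℂ) ∂σ := by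
    rw [h1, h2]
    congr 1
    funext ζ
    exact circle_mean φ _
  have h4 : (2 * Real.pi : ℂ) ≠ 0 := by
    have := Real.pi_ne_zero
    simp [this]
  exact mul_left_cancel₀ h4 h3

end Pool.Agent.Helper287.MB.J3
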