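import Pool.Agent.Helper287.MB.Base
set_option autoImplicit false
open Metric Set Filter Topology
namespace Pool.Agent.Helper287.MB.J5

theorem fderiv_bound_aux {E : Type} [NormedAddCommGroup E] [NormedSpace ℂ E]
    (v : E → ℂ) (hv : DifferentiableOn ℂ v (ball 0 1)) (y : E) (r M : ℝ) (hr : 0 < r)
    (hsub : ∀ x : E, ‖x - y‖ ≤ r → ‖x‖ < 1) (hM : ∀ x : E, ‖x - y‖ ≤ r → ‖v x‖ ≤ M) :
    ‖fderiv ℂ v y‖ ≤ M / r := by
  have hM0 : 0 ≤ M := le_trans (norm_nonneg _) (hM y (by simpa using hr.le))
  have hy : DifferentiableAt ℂ v y :=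
    (hv y (by simpa using hsub y (by simpa using hr.le))).differentiableAt
      (isOpen_ball.mem_nhds (by simpa using hsub y (by simpa using hr.le)))
  have key : ∀ w : E, ‖w‖ ≤ 1 → ‖fderiv ℂ v y w‖ ≤ M / r := by
    intro w hw
    have hmem : ∀ l : ℂ, ‖l‖ ≤ r → ‖(y + l • w) - y‖ ≤ r := by
      intro l hl
      rw [add_sub_cancel_left, norm_smul]
      calc ‖l‖ * ‖w‖ ≤ r * 1 := mul_le_mul hl hw (norm_nonneg _) hr.le
        _ = r := mul_one r
    have hdiff : DifferentiableOn ℂ (fun l : ℂ => v (y + l • w)) (closedBall 0 r) := by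
      intro l hl
      have hl' : ‖l‖ ≤ r := by simpa using hl
      have h1 : DifferentiableAt ℂ v (y + l • w) :=
        (hv _ (by simpa using hsub _ (hmem l hl'))).differentiableAt
          (isOpen_ball.mem_nhds (by simpa using hsub _ (hmem l hl')))
      have h2 : DifferentiableAt ℂ (fun l : ℂ => y + l • w) l := by fun_prop
      exact (DifferentiableAt.comp l h1 h2).differentiableWithinAt
    have hd : DiffContOnCl ℂ (fun l : ℂ => v (y + l • w)) (ball 0 r) :=
      hdiff.diffContOnCl_ball (subset_refl _)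
    have hb := Complex.norm_deriv_le_of_forall_mem_sphere_norm_le hr hd (C := M) (by
      intro l hl
      have hl' : ‖l‖ ≤ r := by
        have : ‖l‖ = r := by simpa using hl
        exact this.le
      exact hM _ (hmem l hl'))
    have hder : HasDerivAt (fun l : ℂ => v (y + l • w)) (fderiv ℂ v y w) 0 := by
      have h2 : HasDerivAt (fun l : ℂ => y + l • w) w 0 := by
        simpa using ((hasDerivAt_id (0:ℂ)).smul_const w).const_add y
      have h3 : HasFDerivAt v (fderiv ℂ v y) (y + (0:ℂ) • w) := by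
        simpa using hy.hasFDerivAt
      exact h3.comp_hasDerivAt (0:ℂ) h2
    rw [hder.deriv] at hb
    exact hb
  refine ContinuousLinearMap.opNorm_le_bound _ (by positivity) ?_
  intro w
  by_cases hw : w = 0
  · simp [hw]
  · have hwn : 0 < ‖w‖ := norm_pos_iff.mpr hw
    have hk := key (((‖w‖⁻¹ : ℝ) : ℂ) • w) (by
      rw [norm_smul, Complex.norm_real, norm_inv, norm_norm, inv_mul_cancel₀ hwn.ne'])
    rw [map_smul, norm_smul, Complex.norm_real, norm_inv, norm_norm] at hk
    rw [inv_mul_le_iff₀ hwn] at hk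
    linarith [mul_comm (M / r) ‖w‖]

/-- Weierstrass theorem in several variables on the unit ball (no several-variable theory is in
Mathlib; use one-variable Cauchy estimates along complex lines to bound the derivatives). -/
theorem weierstrass_ball {E : Type} [NormedAddCommGroup E] [NormedSpace ℂ E]
    [FiniteDimensional ℂ E] (u : ℕ → E → ℂ) (F : E → ℂ)
    (hu : ∀ j, DifferentiableOn ℂ (u j) (ball 0 1))
    (hlim : ∀ ρ < (1:ℝ), ∀ ε > (0:ℝ), ∃ J, ∀ j ≥ J, ∀ z : E, ‖z‖ ≤ ρ → ‖u j z - F z‖ ≤ ε) :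
    DifferentiableOn ℂ F (ball 0 1) := by
  intro z hz
  have hz1 : ‖z‖ < 1 := by simpa using hz
  set r : ℝ := (1 - ‖z‖) / 4 with hrdef
  have hr : 0 < r := by rw [hrdef]; linarith
  set ρ : ℝ := (1 + ‖z‖) / 2 with hρdef
  have hρ : ρ < 1 := by rw [hρdef]; linarith
  have hsub : ∀ y ∈ ball z r, ∀ x : E, ‖x - y‖ ≤ r → ‖x‖ ≤ ρ := by
    intro y hy x hx
    have hy' : ‖y - z‖ < r := by simpa [dist_eq_norm] using hy
    have h1 : ‖x‖ ≤ ‖x - y‖ + ‖y - z‖ + ‖z‖ := by
      calc ‖x‖ = ‖(x - y) + (y - z) + z‖ := by congr 1; abel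
        _ ≤ _ := norm_add₃_le
    rw [hρdef]; rw [hrdef] at hx hy'; linarith
  have hsball : ball z r ⊆ ball (0:E) 1 := by
    intro y hy
    have := hsub y hy y (by simpa using hr.le)
    simp only [mem_ball_zero_iff]; linarith
  have hcau : UniformCauchySeqOn (fun j => fderiv ℂ (u j)) atTop (ball z r) := by
    rw [Metric.uniformCauchySeqOn_iff]
    intro ε hε
    obtain ⟨J, hJ⟩ := hlim ρ hρ (ε * r / 4) (by positivity)
    refine ⟨J, fun m hm n hn y hy => ?_⟩
    have hdm : DifferentiableAt ℂ (u m) y :=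
      (hu m y (hsball hy)).differentiableAt (isOpen_ball.mem_nhds (hsball hy))
    have hdn : DifferentiableAt ℂ (u n) y :=
      (hu n y (hsball hy)).differentiableAt (isOpen_ball.mem_nhds (hsball hy))
    have hb := fderiv_bound_aux (fun x => u m x - u n x) ((hu m).sub (hu n)) y r (ε * r / 2) hr
      (fun x hx => lt_of_le_of_lt (hsub y hy x hx) hρ) (by
        intro x hx
        have h1 := hJ m hm x (hsub y hy x hx)
        have h2 := hJ n hn x (hsub y hy x hx)
        calc ‖u m x - u n x‖ = ‖(u m x - F x) - (u n x - F x)‖ := by congr 1; ring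
          _ ≤ ‖u m x - F x‖ + ‖u n x - F x‖ := norm_sub_le _ _
          _ ≤ ε * r / 2 := by linarith)
    have hfd : fderiv ℂ (fun x => u m x - u n x) y = fderiv ℂ (u m) y - fderiv ℂ (u n) y :=
      fderiv_fun_sub hdm hdn
    rw [hfd] at hb
    rw [dist_eq_norm]
    have : ε * r / 2 / r = ε / 2 := by field_simp
    rw [this] at hb
    linarith
  have hex : ∀ y : E, ∃ L : E →L[ℂ] ℂ, y ∈ ball z r → Tendsto (fun j => fderiv ℂ (u j) y) atTop (𝓝 L) := by
    intro y
    by_cases hy : y ∈ ball z r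
    · have hc : CauchySeq (fun j => fderiv ℂ (u j) y) := hcau.cauchySeq hy
      obtain ⟨L, hL⟩ := cauchySeq_tendsto_of_complete hc
      exact ⟨L, fun _ => hL⟩
    · exact ⟨0, fun h => absurd h hy⟩
  choose g' hg' using hex
  have hunif : TendstoUniformlyOn (fun j => fderiv ℂ (u j)) g' atTop (ball z r) :=
    hcau.tendstoUniformlyOn_of_tendsto (fun y hy => hg' y hy)
  have hfin : HasFDerivAt F (g' z) z := by
    refine hasFDerivAt_of_tendstoUniformlyOn (𝕜 := ℂ) (l := atTop) (f := u) isOpen_ball hunif ?_ ?_ (mem_ball_self hr)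
    · intro j y hy
      exact ((hu j y (hsball hy)).differentiableAt (isOpen_ball.mem_nhds (hsball hy))).hasFDerivAt
    · intro y hy
      rw [Metric.tendsto_atTop]
      intro ε hε
      obtain ⟨J, hJ⟩ := hlim ρ hρ (ε / 2) (by positivity)
      refine ⟨J, fun n hn => ?_⟩
      have := hJ n hn y (hsub y hy y (by simpa using hr.le))
      rw [dist_eq_norm]; linarith
  exact hfin.differentiableAt.differentiableWithinAt

end Pool.Agent.Helper287.MB.J5
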