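import Pool.Agent.Helper287.MB.Cartan
import Pool.Agent.Helper287.MB.Haar
import Pool.Agent.Helper287.MB.Sph
import Pool.Agent.Helper287.MB.Peak
import Pool.Agent.Helper287.MB.MeanHolo
import Pool.Agent.Helper287.MB.Weier
set_option autoImplicit false
open MeasureTheory Metric Set
open scoped InnerProductSpace ComplexConjugate
namespace Pool.Agent.Helper287.MB

alias cartan := J1.cartan
alias exists_unitary_haar := J2.exists_unitary_haar
alias sph_of_haar := J3.sph_of_haar
alias sph_singleton := J3.sph_singleton
alias sph_mean := J3.sph_mean
alias sph_sq := J3.sph_sq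
alias sph_normsq := J3.sph_normsq
alias sph_conj := J3.sph_conj
alias iso_trans := J6.pk_trans
alias mean_holo := J13.mean_holo
alias weierstrass_ball := J5.weierstrass_ball

end Pool.Agent.Helper287.MB
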