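import Pool.Agent.Helper287.MB.Base
set_option autoImplicit false
set_option linter.unusedSectionVars false
open MeasureTheory Metric Set Filter Topology
open scoped InnerProductSpace ComplexConjugate

namespace Pool.Agent.Helper287.MB.J16

variable {E : Type} [NormedAddCommGroup E] [InnerProductSpace ℂ E]


-- ===================== TARGET =====================

theorem b16_alg {x N r : ℝ} (hr : 0 < r) (hr1 : r < 1 / 64) (hx : |x| ≤ r) (hN0 : 0 ≤ N)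
    (hN : N ≤ r ^ 2) :
    0 < 1 - x - N / 2 + 3 / 2 * x ^ 2 + 8 * r ^ 3 ∧
    1 ≤ (1 - x - N / 2 + 3 / 2 * x ^ 2 + 8 * r ^ 3) ^ 2 * (1 + 2 * x + N) := by
  have hx1 := abs_le.1 hx
  obtain ⟨hx2, hx3⟩ := hx1
  have hr2 : r ^ 2 ≤ 1 / 64 * r := by
    rw [pow_two]
    exact mul_le_mul_of_nonneg_right hr1.le hr.le
  set u := 2 * x + N with hu
  have hux : 1 + 2 * x + N = 1 + u := by rw [hu]; ring
  have hua : |u| ≤ 21 / 10 * r := by
    rw [abs_le]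
    constructor <;> linarith
  have hu1 := abs_le.1 hua
  set p0 := 1 - u / 2 + 3 / 8 * u ^ 2 with hp0
  have hp0a : 9 / 10 ≤ p0 := by
    have h1 : 0 ≤ u ^ 2 := sq_nonneg u
    rw [hp0]
    linarith [hu1.2]
  have hxN : x * N ≤ r ^ 3 := by
    have h1 : x * N ≤ r * N := mul_le_mul_of_nonneg_right hx3 hN0
    have h2 : r * N ≤ r * r ^ 2 := mul_le_mul_of_nonneg_left hN hr.le
    calc x * N ≤ r * r ^ 2 := h1.trans h2
      _ = r ^ 3 := by ring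
  have hNN : N ^ 2 ≤ r ^ 3 := by
    have h1 : N ^ 2 ≤ (r ^ 2) ^ 2 := pow_le_pow_left₀ hN0 hN 2
    have h2 : (r ^ 2) ^ 2 = r * r ^ 3 := by ring
    have h3 : r * r ^ 3 ≤ 1 * r ^ 3 := mul_le_mul_of_nonneg_right (by linarith) (by positivity)
    linarith
  have hge : p0 + 6 * r ^ 3 ≤ 1 - x - N / 2 + 3 / 2 * x ^ 2 + 8 * r ^ 3 := by
    have : 1 - x - N / 2 + 3 / 2 * x ^ 2 + 8 * r ^ 3 - (p0 + 6 * r ^ 3) =
        2 * r ^ 3 - 3 / 2 * (x * N) - 3 / 8 * N ^ 2 := by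
      rw [hp0, hu]; ring
    have h1 : 0 ≤ 2 * r ^ 3 - 3 / 2 * (x * N) - 3 / 8 * N ^ 2 := by
      have : 0 < r ^ 3 := by positivity
      linarith
    linarith
  have hr3 : 0 < r ^ 3 := by positivity
  refine ⟨by linarith, ?_⟩
  rw [hux]
  have hpu : 0 < 1 + u := by linarith [hu1.1]
  have h1 : (p0 + 6 * r ^ 3) ^ 2 * (1 + u) ≤
      (1 - x - N / 2 + 3 / 2 * x ^ 2 + 8 * r ^ 3) ^ 2 * (1 + u) :=
    mul_le_mul_of_nonneg_right (pow_le_pow_left₀ (by linarith) hge 2) hpu.le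
  refine le_trans ?_ h1
  have h2 : p0 ^ 2 * (1 + u) = 1 + 5 / 8 * u ^ 3 - 15 / 64 * u ^ 4 + 9 / 64 * u ^ 5 := by
    rw [hp0]; ring
  have h3 : |u| ^ 3 ≤ 9261 / 1000 * r ^ 3 := by
    calc |u| ^ 3 ≤ (21 / 10 * r) ^ 3 := pow_le_pow_left₀ (abs_nonneg _) hua 3
      _ = 9261 / 1000 * r ^ 3 := by ring
  have hu30 : |u| ≤ 1 / 30 := by linarith
  have hu3n : 0 ≤ |u| ^ 3 := by positivity
  have h4 : -(|u| ^ 3) ≤ u ^ 3 := by
    rw [← abs_pow]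
    exact neg_abs_le _
  have h5 : u ^ 4 ≤ 1 / 30 * |u| ^ 3 := by
    have e : u ^ 4 = |u| * |u| ^ 3 := by
      rw [← pow_succ', show (3 + 1) = 4 from rfl, ← abs_pow, abs_of_nonneg (by positivity)]
    rw [e]
    exact mul_le_mul_of_nonneg_right hu30 hu3n
  have h6 : -(1 / 900 * |u| ^ 3) ≤ u ^ 5 := by
    have e : |u ^ 5| = |u| ^ 2 * |u| ^ 3 := by rw [abs_pow]; ring
    have e2 : |u| ^ 2 ≤ 1 / 900 := by
      calc |u| ^ 2 ≤ (1 / 30) ^ 2 := pow_le_pow_left₀ (abs_nonneg _) hu30 2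
        _ = 1 / 900 := by norm_num
    have e3 : |u ^ 5| ≤ 1 / 900 * |u| ^ 3 := by
      rw [e]
      exact mul_le_mul_of_nonneg_right e2 hu3n
    have := neg_abs_le (u ^ 5)
    linarith
  have h7 : 1 - 6 * r ^ 3 ≤ p0 ^ 2 * (1 + u) := by
    rw [h2]
    linarith
  have h8 : 6 * r ^ 3 ≤ (12 * p0 * r ^ 3) * (1 + u) := by
    have e1 : 54 / 5 * r ^ 3 ≤ 12 * p0 * r ^ 3 :=
      mul_le_mul_of_nonneg_right (by linarith) hr3.le
    have e2 : 29 / 30 ≤ 1 + u := by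
      have := (abs_le.1 hu30).1
      linarith
    calc 6 * r ^ 3 ≤ 54 / 5 * r ^ 3 * (29 / 30) := by linarith
      _ ≤ (12 * p0 * r ^ 3) * (1 + u) := mul_le_mul e1 e2 (by norm_num) (by positivity)
  have h9 : 0 ≤ 36 * (r ^ 3) ^ 2 * (1 + u) := by positivity
  calc (1 : ℝ) ≤ p0 ^ 2 * (1 + u) + (12 * p0 * r ^ 3) * (1 + u) + 36 * (r ^ 3) ^ 2 * (1 + u) := by
        linarith
    _ = (p0 + 6 * r ^ 3) ^ 2 * (1 + u) := by ring

/-- TARGET.  `√(1-‖z‖²)` is strictly superharmonic, quantitatively and uniformly. -/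
theorem barrier {E : Type} [NormedAddCommGroup E] [InnerProductSpace ℂ E]
    [FiniteDimensional ℂ E] [MeasurableSpace E] [BorelSpace E] [Nontrivial E]
    (σ : Measure E) (hσ : IsSph σ)
    (hmean : ∀ a : E, ∫ ζ, ⟪a, ζ⟫_ℂ ∂σ = 0)
    (hsq : ∀ a : E, ∫ ζ, ⟪a, ζ⟫_ℂ ^ 2 ∂σ = 0)
    (hnormsq : ∀ a : E, (Module.finrank ℂ E : ℝ) * ∫ ζ, ‖⟪a, ζ⟫_ℂ‖ ^ 2 ∂σ = ‖a‖ ^ 2) :
    ∃ r₀ : ℝ, 0 < r₀ ∧ r₀ < 1 ∧ ∀ r : ℝ, 0 < r → r < r₀ → ∀ z : E, ‖z‖ ≤ 1 →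
      ∫ ζ, sq (mob z ((r:ℂ) • ζ)) ∂σ ≤ (1 - r ^ 2 / 8) * sq z := by
  have := hσ.prob
  refine ⟨1 / 64, by norm_num, by norm_num, ?_⟩
  intro r hr hr1 z hz
  have hr2 : r ^ 2 < 1 := pow_lt_one₀ hr.le (by linarith) two_ne_zero
  set a : E → ℂ := fun ζ => ⟪z, ζ⟫_ℂ with ha
  have hac : Continuous a := by
    rw [ha]
    exact continuous_const.inner continuous_id
  have hab : ∀ᵐ ζ ∂σ, ‖a ζ‖ ≤ 1 := by
    filter_upwards [hσ.supp] with ζ hζ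
    calc ‖a ζ‖ ≤ ‖z‖ * ‖ζ‖ := norm_inner_le_norm _ _
      _ ≤ 1 := by rw [hζ, mul_one]; exact hz
  have hai : Integrable a σ := Integrable.of_bound hac.aestronglyMeasurable 1 hab
  have ha2 : Integrable (fun ζ => a ζ ^ 2) σ := by
    refine Integrable.of_bound (hac.pow 2).aestronglyMeasurable 1 ?_
    filter_upwards [hab] with ζ hζ
    rw [norm_pow]
    exact pow_le_one₀ (norm_nonneg _) hζ
  have hni : Integrable (fun ζ => ‖a ζ‖ ^ 2) σ := by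
    refine Integrable.of_bound (hac.norm.pow 2).aestronglyMeasurable 1 ?_
    filter_upwards [hab] with ζ hζ
    rw [norm_pow, norm_norm]
    exact pow_le_one₀ (norm_nonneg _) hζ
  have hI0 : ∫ ζ, (a ζ).re ∂σ = 0 := by
    have h1 := integral_re hai
    rw [hmean z] at h1
    simpa using h1
  have hI1 : ∫ ζ, (a ζ ^ 2).re ∂σ = 0 := by
    have h1 := integral_re ha2
    rw [hsq z] at h1
    simpa using h1
  set I := ∫ ζ, ‖a ζ‖ ^ 2 ∂σ with hI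
  have hIn : 0 ≤ I := integral_nonneg (fun ζ => by positivity)
  have hI2 : I ≤ 1 := by
    have h1 := hnormsq z
    have h2 : (1 : ℝ) ≤ Module.finrank ℂ E := by
      have : 0 < Module.finrank ℂ E := Module.finrank_pos
      exact_mod_cast this
    have h3 : ‖z‖ ^ 2 ≤ 1 := pow_le_one₀ (norm_nonneg _) hz
    have h4 : I ≤ Module.finrank ℂ E * I := le_mul_of_one_le_left hIn h2
    exact h4.trans (h1.le.trans h3)
  have hre2 : ∀ c : ℂ, c.re ^ 2 = (‖c‖ ^ 2 + (c ^ 2).re) / 2 := by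
    intro c
    rw [Complex.sq_norm, Complex.normSq_apply, pow_two c, Complex.mul_re]
    ring
  have hrei : Integrable (fun ζ => (a ζ).re) σ := hai.re
  have hre2i : Integrable (fun ζ => (a ζ ^ 2).re) σ := ha2.re
  have hI3 : ∫ ζ, (a ζ).re ^ 2 ∂σ = I / 2 := by
    simp_rw [hre2]
    rw [integral_div, integral_add hni hre2i, hI1, add_zero]
  have hx2i : Integrable (fun ζ => (a ζ).re ^ 2) σ := by
    simp_rw [hre2]
    exact (hni.add hre2i).div_const 2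
  set K := sq z * √(1 - r ^ 2) with hK
  have hK0 : 0 ≤ K := mul_nonneg (sq_nonneg' z) (Real.sqrt_nonneg _)
  have hpt : ∀ᵐ ζ ∂σ, sq (mob z ((r:ℂ) • ζ)) ≤
      K * (1 - r * (a ζ).re - r ^ 2 / 2 * ‖a ζ‖ ^ 2 + 3 / 2 * r ^ 2 * (a ζ).re ^ 2 + 8 * r ^ 3) := by
    filter_upwards [hσ.supp, hab] with ζ hζ haζ
    have hrz : ‖(r:ℂ) • ζ‖ = r := by
      rw [norm_smul, hζ, mul_one, Complex.norm_real, Real.norm_of_nonneg hr.le]
    have hw : ⟪z, (r:ℂ) • ζ⟫_ℂ = r * a ζ := inner_smul_right _ _ _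
    have h1 : 1 + ⟪z, (r:ℂ) • ζ⟫_ℂ ≠ 0 := one_add_inner_ne' hz (by rw [hrz]; linarith)
    have h2 := norm_mob_sq' hz h1
    rw [hrz, hw] at h2
    set x := r * (a ζ).re with hx
    set N := r ^ 2 * ‖a ζ‖ ^ 2 with hN
    have h3 : ‖1 + (r : ℂ) * a ζ‖ ^ 2 = 1 + 2 * x + N := by
      rw [Complex.sq_norm, Complex.normSq_apply, hN, Complex.sq_norm, Complex.normSq_apply, hx]
      simp
      ring
    have hxa : |x| ≤ r := by
      rw [hx, abs_mul, abs_of_pos hr]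
      have h5 := (Complex.abs_re_le_norm (a ζ)).trans haζ
      calc r * |(a ζ).re| ≤ r * 1 := mul_le_mul_of_nonneg_left h5 hr.le
        _ = r := mul_one r
    have hN0 : 0 ≤ N := by positivity
    have hNr : N ≤ r ^ 2 := by
      have h5 : ‖a ζ‖ ^ 2 ≤ 1 := pow_le_one₀ (norm_nonneg _) haζ
      calc N = r ^ 2 * ‖a ζ‖ ^ 2 := hN
        _ ≤ r ^ 2 * 1 := mul_le_mul_of_nonneg_left h5 (sq_nonneg r)
        _ = r ^ 2 := mul_one _
    obtain ⟨hp, hq⟩ := b16_alg hr hr1 hxa hN0 hNr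
    have hp2 : 1 - r * (a ζ).re - r ^ 2 / 2 * ‖a ζ‖ ^ 2 + 3 / 2 * r ^ 2 * (a ζ).re ^ 2 + 8 * r ^ 3 =
        1 - x - N / 2 + 3 / 2 * x ^ 2 + 8 * r ^ 3 := by
      rw [hx, hN]; ring
    rw [hp2]
    set p := 1 - x - N / 2 + 3 / 2 * x ^ 2 + 8 * r ^ 3 with hpdef
    have hpos : 0 < 1 + 2 * x + N := by
      rw [← h3, ← hw]
      exact pow_pos (norm_pos_iff.2 h1) 2
    unfold sq
    rw [h2, h3]
    apply Real.sqrt_le_iff.2
    refine ⟨mul_nonneg hK0 hp.le, ?_⟩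
    have hKsq : K ^ 2 = (1 - ‖z‖ ^ 2) * (1 - r ^ 2) := by
      rw [hK, mul_pow, sq_sq hz, Real.sq_sqrt (by linarith)]
    rw [mul_pow, hKsq, div_le_iff₀ hpos, mul_assoc]
    have h4 : 0 ≤ (1 - ‖z‖ ^ 2) * (1 - r ^ 2) := by rw [← hKsq]; positivity
    exact le_mul_of_one_le_right h4 hq
  have hgi : Integrable (fun ζ => K * (1 - r * (a ζ).re - r ^ 2 / 2 * ‖a ζ‖ ^ 2 +
      3 / 2 * r ^ 2 * (a ζ).re ^ 2 + 8 * r ^ 3)) σ := by
    refine Integrable.const_mul ?_ K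
    exact ((((integrable_const 1).sub (hrei.const_mul r)).sub (hni.const_mul (r ^ 2 / 2))).add
      (hx2i.const_mul (3 / 2 * r ^ 2))).add (integrable_const _)
  have hmono := integral_mono_of_nonneg (μ := σ)
    (Filter.Eventually.of_forall (fun ζ => sq_nonneg' (mob z ((r:ℂ) • ζ)))) hgi hpt
  refine hmono.trans ?_
  have hint : ∫ ζ, K * (1 - r * (a ζ).re - r ^ 2 / 2 * ‖a ζ‖ ^ 2 +
      3 / 2 * r ^ 2 * (a ζ).re ^ 2 + 8 * r ^ 3) ∂σ = K * (1 + r ^ 2 * I / 4 + 8 * r ^ 3) := by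
    rw [integral_const_mul]
    congr 1
    have i0 : Integrable (fun ζ => r * (a ζ).re) σ := hrei.const_mul r
    have i1 : Integrable (fun ζ => 1 - r * (a ζ).re) σ := (integrable_const 1).sub i0
    have i2 : Integrable (fun ζ => r ^ 2 / 2 * ‖a ζ‖ ^ 2) σ := hni.const_mul _
    have i3 : Integrable (fun ζ => 1 - r * (a ζ).re - r ^ 2 / 2 * ‖a ζ‖ ^ 2) σ := i1.sub i2
    have i4 : Integrable (fun ζ => 3 / 2 * r ^ 2 * (a ζ).re ^ 2) σ := hx2i.const_mul _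
    have i5 : Integrable (fun ζ => 1 - r * (a ζ).re - r ^ 2 / 2 * ‖a ζ‖ ^ 2 +
      3 / 2 * r ^ 2 * (a ζ).re ^ 2) σ := i3.add i4
    rw [integral_add i5 (integrable_const _), integral_add i3 i4, integral_sub i1 i2,
      integral_sub (integrable_const 1) i0, integral_const_mul, integral_const_mul,
      integral_const_mul, hI0, hI3]
    simp only [integral_const, probReal_univ, smul_eq_mul]
    ring
  rw [hint]
  have hs : √(1 - r ^ 2) ≤ 1 - r ^ 2 / 2 := by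
    apply Real.sqrt_le_iff.2
    constructor
    · linarith
    · have h6 : 0 ≤ (r ^ 2) ^ 2 := sq_nonneg _
      have h7 : (1 - r ^ 2 / 2) ^ 2 = 1 - r ^ 2 + (r ^ 2) ^ 2 / 4 := by ring
      rw [h7]
      linarith
  have h5 : √(1 - r ^ 2) * (1 + r ^ 2 * I / 4 + 8 * r ^ 3) ≤ 1 - r ^ 2 / 8 := by
    have h6 : 1 + r ^ 2 * I / 4 + 8 * r ^ 3 ≤ 1 + r ^ 2 / 4 + 8 * r ^ 3 := by
      have h8 := mul_le_mul_of_nonneg_left hI2 (sq_nonneg r)
      linarith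
    have h7 : 0 ≤ 1 + r ^ 2 * I / 4 + 8 * r ^ 3 := by positivity
    calc √(1 - r ^ 2) * (1 + r ^ 2 * I / 4 + 8 * r ^ 3)
        ≤ (1 - r ^ 2 / 2) * (1 + r ^ 2 / 4 + 8 * r ^ 3) :=
          mul_le_mul hs h6 h7 (by linarith)
      _ = 1 - r ^ 2 / 4 + 8 * r ^ 3 - r ^ 4 / 8 - 4 * r ^ 5 := by ring
      _ ≤ 1 - r ^ 2 / 8 := by
        have h8 : 8 * r ^ 3 ≤ r ^ 2 / 8 := by
          have : r ^ 3 = r ^ 2 * r := by ring
          rw [this]
          have h11 := mul_le_mul_of_nonneg_left hr1.le (sq_nonneg r)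
          linarith
        have h9 : 0 ≤ r ^ 4 := by positivity
        have h10 : 0 ≤ r ^ 5 := by positivity
        linarith
  calc K * (1 + r ^ 2 * I / 4 + 8 * r ^ 3)
      = sq z * (√(1 - r ^ 2) * (1 + r ^ 2 * I / 4 + 8 * r ^ 3)) := by rw [hK]; ring
    _ ≤ sq z * (1 - r ^ 2 / 8) := mul_le_mul_of_nonneg_left h5 (sq_nonneg' z)
    _ = (1 - r ^ 2 / 8) * sq z := by ring

end Pool.Agent.Helper287.MB.J16
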