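import Pool.Agent.Helper287.MB.Base
set_option autoImplicit false
open MeasureTheory Metric Set
open scoped InnerProductSpace ComplexConjugate
namespace Pool.Agent.Helper287.MB.J4


variable {E : Type} [NormedAddCommGroup E] [InnerProductSpace ℂ E] [FiniteDimensional ℂ E]
  [MeasurableSpace E] [BorelSpace E] [NormedSpace ℝ E] [IsScalarTower ℝ ℂ E]


section divaux

theorem dv_supp_ball {σ : Measure E} (hσ : IsSph σ) {R : ℝ} (hR : 1 < R) :
    ∀ᵐ ζ ∂σ, ζ ∈ ball (0 : E) R := by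
  filter_upwards [hσ.supp] with ζ hζ
  rw [mem_ball_zero_iff, hζ]; exact hR

theorem dv_aesm {σ : Measure E} (hσ : IsSph σ) {R : ℝ} (hR : 1 < R) {f : E → ℂ}
    (hf : ContinuousOn f (ball 0 R)) : AEStronglyMeasurable f σ := by
  have h := hf.aestronglyMeasurable (μ := σ) measurableSet_ball
  rwa [Measure.restrict_eq_self_of_ae_mem (dv_supp_ball hσ hR)] at h

theorem dv_int {σ : Measure E} (hσ : IsSph σ) {R : ℝ} (hR : 1 < R) {f : E → ℂ}
    (hf : ContinuousOn f (ball 0 R)) : Integrable f σ := by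
  haveI := hσ.prob
  haveI : ProperSpace E := FiniteDimensional.proper ℂ E
  have hsub : sphere (0 : E) 1 ⊆ ball 0 R := by
    intro z hz
    rw [mem_sphere_zero_iff_norm] at hz
    rw [mem_ball_zero_iff, hz]; exact hR
  obtain ⟨C, hC⟩ := (isCompact_sphere (0 : E) 1).exists_bound_of_continuousOn (hf.mono hsub)
  refine Integrable.of_bound (dv_aesm hσ hR hf) C ?_
  filter_upwards [hσ.supp] with ζ hζ
  exact hC ζ (by rw [mem_sphere_zero_iff_norm]; exact hζ)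

/-- the integral of the derivative along a skew field vanishes -/
theorem dv_skew {σ : Measure E} (hσ : IsSph σ) {R : ℝ} (hR : 1 < R) {G : E → ℂ}
    (hG : ContDiffOn ℝ 1 G (ball 0 R)) (T : E →L[ℂ] E)
    (hT : ∀ z w : E, ⟪T z, w⟫_ℂ = - ⟪z, T w⟫_ℂ) :
    ∫ ζ, fderiv ℝ G ζ (T ζ) ∂σ = 0 := by
  haveI := hσ.prob
  haveI : ProperSpace E := FiniteDimensional.proper ℂ E
  haveI : CompleteSpace E := FiniteDimensional.complete ℂ E
  have hTs : ∀ θ : ℝ, ((θ : ℂ) • T) ∈ skewAdjoint (E →L[ℂ] E) := by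
    intro θ
    rw [skewAdjoint.mem_iff]
    have h1 : star T = -T := by
      rw [ContinuousLinearMap.star_eq_adjoint]
      have h2 : -T = ContinuousLinearMap.adjoint T := by
        rw [ContinuousLinearMap.eq_adjoint_iff]
        intro x y
        have h3 := hT x y
        rw [neg_apply, inner_neg_left, h3, neg_neg]
      exact h2.symm
    rw [star_smul, h1]
    simp
  letI : NormedAlgebra ℚ (E →L[ℂ] E) := NormedAlgebra.restrictScalars ℚ ℂ _
  -- the isometries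
  let U : ℝ → unitary (E →L[ℂ] E) := fun θ =>
    ⟨NormedSpace.exp ((θ : ℂ) • T), NormedSpace.exp_mem_unitary_of_mem_skewAdjoint (hTs θ)⟩
  let L : ℝ → (E ≃ₗᵢ[ℂ] E) := fun θ => Unitary.linearIsometryEquiv (U θ)
  have hL : ∀ (θ : ℝ) (z : E), L θ z = NormedSpace.exp ((θ : ℂ) • T) z := by
    intro θ z
    rfl
  have hLn : ∀ (θ : ℝ) (z : E), ‖NormedSpace.exp ((θ : ℂ) • T) z‖ = ‖z‖ := by
    intro θ z
    rw [← hL]; exact (L θ).norm_map z
  have hcurve : ∀ (θ : ℝ) (z : E), HasDerivAt (fun θ : ℝ => NormedSpace.exp ((θ : ℂ) • T) z)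
      (T (NormedSpace.exp ((θ : ℂ) • T) z)) θ := by
    intro θ z
    have h1 := hasDerivAt_exp_smul_const' T (θ : ℂ)
    have h2 := h1.clm_apply (hasDerivAt_const (θ : ℂ) z)
    have h3 : HasDerivAt (fun θ : ℝ => (θ : ℂ)) 1 θ := by
      simpa using (hasDerivAt_id θ).ofReal_comp
    have h4 := HasDerivAt.scomp θ h2 h3
    refine h4.congr_deriv ?_
    simp
  -- the integrals are constant
  have hconst : ∀ θ : ℝ, ∫ ζ, G (NormedSpace.exp ((θ : ℂ) • T) ζ) ∂σ = ∫ ζ, G ζ ∂σ := by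
    intro θ
    have h1 := integral_map_equiv (μ := σ) (L θ).toHomeomorph.toMeasurableEquiv G
    have h2 : σ.map (L θ).toHomeomorph.toMeasurableEquiv = σ := hσ.inv (L θ)
    rw [h2] at h1
    rw [h1]
    rfl
  have hGc : ContinuousOn G (ball 0 R) := hG.continuousOn
  have hGd : ContinuousOn (fderiv ℝ G) (ball 0 R) :=
    hG.continuousOn_fderiv_of_isOpen isOpen_ball le_rfl
  have hsub : sphere (0 : E) 1 ⊆ ball 0 R := by
    intro z hz
    rw [mem_sphere_zero_iff_norm] at hz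
    rw [mem_ball_zero_iff, hz]; exact hR
  obtain ⟨C, hC⟩ := (isCompact_sphere (0 : E) 1).exists_bound_of_continuousOn (hGd.mono hsub)
  have hcontU : ∀ θ : ℝ, Continuous (fun z : E => NormedSpace.exp ((θ : ℂ) • T) z) := fun θ =>
    (NormedSpace.exp ((θ : ℂ) • T)).continuous
  have hmaps : ∀ θ : ℝ, MapsTo (fun z : E => NormedSpace.exp ((θ : ℂ) • T) z) (ball 0 R) (ball 0 R) := by
    intro θ z hz
    rw [mem_ball_zero_iff] at hz ⊢
    rw [hLn]; exact hz
  have key := hasDerivAt_integral_of_dominated_loc_of_deriv_le (μ := σ) (𝕜 := ℝ)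
    (F := fun (θ : ℝ) (ζ : E) => G (NormedSpace.exp ((θ : ℂ) • T) ζ)) (x₀ := 0)
    (F' := fun (θ : ℝ) (ζ : E) => fderiv ℝ G (NormedSpace.exp ((θ : ℂ) • T) ζ)
      (T (NormedSpace.exp ((θ : ℂ) • T) ζ))) (s := univ) (bound := fun _ => C * ‖T‖)
    Filter.univ_mem
    (Filter.Eventually.of_forall fun θ =>
      dv_aesm hσ hR (hGc.comp (hcontU θ).continuousOn (hmaps θ)))
    (dv_int hσ hR (hGc.comp (hcontU 0).continuousOn (hmaps 0)))
    (dv_aesm hσ hR (by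
      have h1 : ContinuousOn (fun ζ : E => fderiv ℝ G (NormedSpace.exp (((0 : ℝ) : ℂ) • T) ζ))
        (ball 0 R) := hGd.comp (hcontU 0).continuousOn (hmaps 0)
      have h2 : ContinuousOn (fun ζ : E => T (NormedSpace.exp (((0 : ℝ) : ℂ) • T) ζ)) (ball 0 R) :=
        (T.continuous.comp (hcontU 0)).continuousOn
      exact h1.clm_apply h2))
    (by
      filter_upwards [hσ.supp] with ζ hζ θ _
      have h1 : NormedSpace.exp ((θ : ℂ) • T) ζ ∈ sphere (0 : E) 1 := by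
        rw [mem_sphere_zero_iff_norm, hLn]; exact hζ
      have h2 := hC _ h1
      have hC0 : 0 ≤ C := (norm_nonneg _).trans h2
      have h3 : ‖T (NormedSpace.exp ((θ : ℂ) • T) ζ)‖ ≤ ‖T‖ := by
        refine (T.le_opNorm _).trans ?_
        rw [hLn, hζ, mul_one]
      exact ((fderiv ℝ G _).le_opNorm _).trans (mul_le_mul h2 h3 (norm_nonneg _) hC0))
    (integrable_const _)
    (by
      filter_upwards [hσ.supp] with ζ hζ θ _
      have h1 : NormedSpace.exp ((θ : ℂ) • T) ζ ∈ ball (0 : E) R := by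
        rw [mem_ball_zero_iff, hLn, hζ]; exact hR
      have h2 : HasFDerivAt G (fderiv ℝ G (NormedSpace.exp ((θ : ℂ) • T) ζ))
          (NormedSpace.exp ((θ : ℂ) • T) ζ) :=
        ((hG.contDiffAt (isOpen_ball.mem_nhds h1)).differentiableAt (by norm_num)).hasFDerivAt
      exact h2.comp_hasDerivAt θ (hcurve θ ζ))
  have h1 := key.2
  have h2 : (fun θ : ℝ => ∫ ζ, G (NormedSpace.exp ((θ : ℂ) • T) ζ) ∂σ) = fun _ => ∫ ζ, G ζ ∂σ := by
    funext θ; exact hconst θ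
  rw [h2] at h1
  have h3 := h1.unique (hasDerivAt_const (0 : ℝ) (∫ ζ, G ζ ∂σ))
  rw [← h3]
  refine integral_congr_ae (Filter.Eventually.of_forall fun ζ => ?_)
  simp

/-- product rule version -/
theorem dv_skew_mul {σ : Measure E} (hσ : IsSph σ) {R : ℝ} (hR : 1 < R) {g : E → ℂ}
    (hg : ContDiffOn ℝ 1 g (ball 0 R)) (T : E →L[ℂ] E)
    (hT : ∀ z w : E, ⟪T z, w⟫_ℂ = - ⟪z, T w⟫_ℂ) (l : E →L[ℝ] ℂ) :
    ∫ ζ, l ζ * fderiv ℝ g ζ (T ζ) ∂σ = - ∫ ζ, g ζ * l (T ζ) ∂σ := by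
  have h1 := dv_skew hσ hR (G := fun ζ => l ζ * g ζ) (l.contDiff.contDiffOn.mul hg) T hT
  have hgd : ContinuousOn (fderiv ℝ g) (ball 0 R) :=
    hg.continuousOn_fderiv_of_isOpen isOpen_ball le_rfl
  have hTc : ContinuousOn (fun ζ : E => T ζ) (ball 0 R) := T.continuous.continuousOn
  have i1 : Integrable (fun ζ => l ζ * fderiv ℝ g ζ (T ζ)) σ :=
    dv_int hσ hR (l.continuous.continuousOn.mul (hgd.clm_apply hTc))
  have i2 : Integrable (fun ζ => g ζ * l (T ζ)) σ :=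
    dv_int hσ hR (hg.continuousOn.mul (l.continuous.comp T.continuous).continuousOn)
  have h2 : ∫ ζ, fderiv ℝ (fun ζ => l ζ * g ζ) ζ (T ζ) ∂σ =
      ∫ ζ, (l ζ * fderiv ℝ g ζ (T ζ) + g ζ * l (T ζ)) ∂σ := by
    refine integral_congr_ae ?_
    filter_upwards [dv_supp_ball hσ hR] with ζ hζ
    have hd : DifferentiableAt ℝ g ζ :=
      (hg.contDiffAt (isOpen_ball.mem_nhds hζ)).differentiableAt (by norm_num)
    rw [fderiv_fun_mul l.differentiableAt hd, l.fderiv]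
    simp
  rw [h2, integral_add i1 i2] at h1
  exact eq_neg_of_add_eq_zero_left h1

end divaux

/-- Divergence identity on the sphere for the vector field `ζ ↦ e - ⟪e,ζ⟫ ζ`. -/
theorem divergence (σ : Measure E) (hσ : IsSph σ) (g : E → ℂ) (R : ℝ) (hR : 1 < R)
    (hg : ContDiffOn ℝ 1 g (ball 0 R)) (e : E) :
    ∫ ζ, fderiv ℝ g ζ (e - ⟪e, ζ⟫_ℂ • ζ) ∂σ
      = 2 * (Module.finrank ℂ E : ℂ) * ∫ ζ, g ζ * ((⟪e, ζ⟫_ℂ).re : ℂ) ∂σ := by
  haveI := hσ.prob
  let b := stdOrthonormalBasis ℂ E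
  -- the skew fields
  let T : Fin (Module.finrank ℂ E) → (E →L[ℂ] E) := fun i =>
    (innerSL ℂ (b i)).smulRight e - (innerSL ℂ e).smulRight (b i)
  let T' : Fin (Module.finrank ℂ E) → (E →L[ℂ] E) := fun i =>
    Complex.I • ((innerSL ℂ (b i)).smulRight e + (innerSL ℂ e).smulRight (b i))
  have hTa : ∀ i z, T i z = ⟪b i, z⟫_ℂ • e - ⟪e, z⟫_ℂ • b i := by
    intro i z; simp [T]
  have hTa' : ∀ i z, T' i z = Complex.I • (⟪b i, z⟫_ℂ • e + ⟪e, z⟫_ℂ • b i) := by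
    intro i z; simp [T']
  have hT : ∀ i, ∀ z w : E, ⟪T i z, w⟫_ℂ = - ⟪z, T i w⟫_ℂ := by
    intro i z w
    rw [hTa, hTa]
    simp only [inner_sub_left, inner_sub_right, inner_smul_left, inner_smul_right,
      inner_conj_symm]
    ring
  have hT' : ∀ i, ∀ z w : E, ⟪T' i z, w⟫_ℂ = - ⟪z, T' i w⟫_ℂ := by
    intro i z w
    rw [hTa', hTa']
    simp only [inner_add_left, inner_add_right, inner_smul_left, inner_smul_right,
      inner_conj_symm, Complex.conj_I]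
    ring
  -- the functionals
  let la : Fin (Module.finrank ℂ E) → (E →L[ℝ] ℂ) := fun i =>
    Complex.ofRealCLM.comp (Complex.reCLM.comp ((innerSL ℂ (b i)).restrictScalars ℝ))
  let lb : Fin (Module.finrank ℂ E) → (E →L[ℝ] ℂ) := fun i =>
    Complex.ofRealCLM.comp (Complex.imCLM.comp ((innerSL ℂ (b i)).restrictScalars ℝ))
  have hla : ∀ i z, la i z = (((⟪b i, z⟫_ℂ).re : ℝ) : ℂ) := by intro i z; simp [la]
  have hlb : ∀ i z, lb i z = (((⟪b i, z⟫_ℂ).im : ℝ) : ℂ) := by intro i z; simp [lb]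
  have hgd : ContinuousOn (fderiv ℝ g) (ball 0 R) :=
    hg.continuousOn_fderiv_of_isOpen isOpen_ball le_rfl
  have i1 : ∀ i, Integrable (fun ζ => la i ζ * fderiv ℝ g ζ (T i ζ)) σ := fun i =>
    dv_int hσ hR ((la i).continuous.continuousOn.mul (hgd.clm_apply (T i).continuous.continuousOn))
  have i2 : ∀ i, Integrable (fun ζ => lb i ζ * fderiv ℝ g ζ (T' i ζ)) σ := fun i =>
    dv_int hσ hR ((lb i).continuous.continuousOn.mul (hgd.clm_apply (T' i).continuous.continuousOn))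
  have i3 : ∀ i, Integrable (fun ζ => g ζ * la i (T i ζ)) σ := fun i =>
    dv_int hσ hR (hg.continuousOn.mul ((la i).continuous.comp (T i).continuous).continuousOn)
  have i4 : ∀ i, Integrable (fun ζ => g ζ * lb i (T' i ζ)) σ := fun i =>
    dv_int hσ hR (hg.continuousOn.mul ((lb i).continuous.comp (T' i).continuous).continuousOn)
  -- pointwise decomposition
  have hdec : ∀ᵐ ζ ∂σ, fderiv ℝ g ζ (e - ⟪e, ζ⟫_ℂ • ζ) =
      ∑ i, (la i ζ * fderiv ℝ g ζ (T i ζ) - lb i ζ * fderiv ℝ g ζ (T' i ζ)) := by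
    filter_upwards [hσ.supp] with ζ hζ
    have hvec : e - ⟪e, ζ⟫_ℂ • ζ =
        ∑ i, ((⟪b i, ζ⟫_ℂ).re • T i ζ - (⟪b i, ζ⟫_ℂ).im • T' i ζ) := by
      have hreal : ∀ (r : ℝ) (v : E), r • v = (r : ℂ) • v := fun r v =>
        (algebraMap_smul ℂ r v).symm
      have hterm : ∀ i, ((⟪b i, ζ⟫_ℂ).re • T i ζ - (⟪b i, ζ⟫_ℂ).im • T' i ζ) =
          ((‖⟪b i, ζ⟫_ℂ‖ ^ 2 : ℝ) : ℂ) • e - ⟪e, ζ⟫_ℂ • (⟪b i, ζ⟫_ℂ • b i) := by
        intro i
        rw [hreal, hreal, hTa, hTa']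
        set z := ⟪b i, ζ⟫_ℂ with hz
        have hz1 : z = (z.re : ℂ) + (z.im : ℂ) * Complex.I := (Complex.re_add_im z).symm
        have hz2 : ((‖z‖ ^ 2 : ℝ) : ℂ) = (starRingEnd ℂ) z * z := by
          rw [← Complex.normSq_eq_norm_sq, Complex.normSq_eq_conj_mul_self]
        have hz3 : (starRingEnd ℂ) z = (z.re : ℂ) - (z.im : ℂ) * Complex.I := by
          apply Complex.ext <;> simp
        rw [hz2, hz3]
        simp only [smul_sub, smul_add, smul_smul]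
        have e1 : ((z.re : ℂ) - (z.im : ℂ) * Complex.I) * z =
            (z.re : ℂ) * z - (z.im : ℂ) * (Complex.I * z) := by ring
        have e2 : ⟪e, ζ⟫_ℂ * z = (z.re : ℂ) * ⟪e, ζ⟫_ℂ + (z.im : ℂ) * (Complex.I * ⟪e, ζ⟫_ℂ) := by
          conv_lhs => rw [hz1]
          ring
        rw [e1, e2, sub_smul, add_smul]
        abel
      rw [Finset.sum_congr rfl fun i _ => hterm i, Finset.sum_sub_distrib, ← Finset.sum_smul,
        ← Finset.smul_sum, b.sum_repr' ζ, ← Complex.ofReal_sum, b.sum_sq_norm_inner_right ζ, hζ]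
      simp
    rw [hvec, map_sum]
    refine Finset.sum_congr rfl fun i _ => ?_
    rw [map_sub, map_smul, map_smul, hla, hlb, Complex.real_smul, Complex.real_smul]
  have i12 : ∀ i, Integrable (fun ζ => la i ζ * fderiv ℝ g ζ (T i ζ) -
      lb i ζ * fderiv ℝ g ζ (T' i ζ)) σ := fun i => (i1 i).sub (i2 i)
  rw [integral_congr_ae hdec, integral_finsetSum _ (fun i _ => i12 i)]
  have hterm : ∀ i, ∫ ζ, (la i ζ * fderiv ℝ g ζ (T i ζ) - lb i ζ * fderiv ℝ g ζ (T' i ζ)) ∂σ =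
      2 * ∫ ζ, g ζ * ((⟪e, ζ⟫_ℂ).re : ℂ) ∂σ := by
    intro i
    rw [integral_sub (i1 i) (i2 i), dv_skew_mul hσ hR hg (T i) (hT i) (la i),
      dv_skew_mul hσ hR hg (T' i) (hT' i) (lb i), sub_neg_eq_add, neg_add_eq_sub,
      ← integral_sub (i4 i) (i3 i), ← integral_const_mul]
    refine integral_congr_ae (Filter.Eventually.of_forall fun ζ => ?_)
    show g ζ * lb i (T' i ζ) - g ζ * la i (T i ζ) = 2 * (g ζ * ((⟪e, ζ⟫_ℂ).re : ℂ))
    have hbb : ⟪b i, b i⟫_ℂ = 1 := by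
      rw [inner_self_eq_norm_sq_to_K, b.norm_eq_one]; simp
    rw [hla, hlb, hTa, hTa']
    simp only [inner_sub_right, inner_add_right, inner_smul_right, hbb, mul_one]
    rw [← mul_sub, ← Complex.ofReal_sub]
    have : (Complex.I * (⟪b i, ζ⟫_ℂ * ⟪b i, e⟫_ℂ + ⟪e, ζ⟫_ℂ)).im -
        (⟪b i, ζ⟫_ℂ * ⟪b i, e⟫_ℂ - ⟪e, ζ⟫_ℂ).re = 2 * (⟪e, ζ⟫_ℂ).re := by
      simp only [Complex.mul_im, Complex.I_re, Complex.I_im, Complex.add_re, Complex.sub_re,
        zero_mul, one_mul]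
      ring
    rw [this]; push_cast; ring
  rw [Finset.sum_congr rfl fun i _ => hterm i, Finset.sum_const, Finset.card_univ,
    Fintype.card_fin, nsmul_eq_mul]
  ring

end Pool.Agent.Helper287.MB.J4
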