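import Pool.Agent.Helper287.MB.Base
set_option autoImplicit false
set_option linter.unusedSectionVars false
open MeasureTheory Metric Set Filter Topology
open scoped InnerProductSpace ComplexConjugate

namespace Pool.Agent.Helper287.MB.J11

variable {E : Type} [NormedAddCommGroup E] [InnerProductSpace ℂ E]


section J11
variable {E : Type} [NormedAddCommGroup E] [InnerProductSpace ℂ E]

private noncomputable def J11_Phi (e : E) (p : ℝ × E) : E :=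
  ((Real.cosh p.1 : ℂ) + (Real.sinh p.1 : ℂ) * ⟪e, p.2⟫_ℂ)⁻¹ •
    (((Real.sinh p.1 : ℂ) + (Real.cosh p.1 : ℂ) * ⟪e, p.2⟫_ℂ - ⟪e, p.2⟫_ℂ) • e + p.2)

private theorem J11_Phi_eq {e : E} (he : ‖e‖ = 1) (t : ℝ) (ζ : E) :
    mob (((Real.tanh t : ℝ) : ℂ) • e) ζ = J11_Phi e (t, ζ) := by
  have hC : 0 < Real.cosh t := Real.cosh_pos t
  have hCC : (Real.cosh t : ℂ) ≠ 0 := by exact_mod_cast hC.ne'
  have h1 : √(1 - Real.tanh t ^ 2) = (Real.cosh t)⁻¹ := by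
    have h2 : 1 - Real.tanh t ^ 2 = ((Real.cosh t)⁻¹) ^ 2 := by
      rw [Real.tanh_eq_sinh_div_cosh]
      have := Real.cosh_sq t
      field_simp
      linarith
    rw [h2, Real.sqrt_sq (by positivity)]
  rw [mob_unit he (Real.abs_tanh_lt_one t).le, h1, Real.tanh_eq_sinh_div_cosh]
  unfold J11_Phi
  simp only []
  rw [Complex.ofReal_div, Complex.ofReal_inv]
  generalize ⟪e, ζ⟫_ℂ = a
  generalize (Real.cosh t : ℂ) = C at *
  generalize (Real.sinh t : ℂ) = S at *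
  have h3 : (1 + S / C * a)⁻¹ = (C + S * a)⁻¹ * C := by
    have : 1 + S / C * a = (C + S * a) / C := by field_simp
    rw [this, inv_div, div_eq_mul_inv, mul_comm]
  rw [h3, mul_smul]
  congr 1
  match_scalars
  · field_simp
    ring
  · field_simp

private theorem J11_Phi_mob {e : E} (he : ‖e‖ = 1) (t s : ℝ) {ζ : E} (hζ : ‖ζ‖ ≤ 1) :
    J11_Phi e (t, J11_Phi e (s, ζ)) = J11_Phi e (t + s, ζ) := by
  rw [← J11_Phi_eq he, ← J11_Phi_eq he, ← J11_Phi_eq he,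
    mob_unit_mob he (Real.abs_tanh_lt_one t) (Real.abs_tanh_lt_one s) hζ]
  congr 3
  rw [Real.tanh_eq_sinh_div_cosh, Real.tanh_eq_sinh_div_cosh, Real.tanh_eq_sinh_div_cosh,
    Real.sinh_add, Real.cosh_add]
  have h1 := Real.cosh_pos t
  have h2 := Real.cosh_pos s
  field_simp

private theorem J11_Phi_zero (e ζ : E) : J11_Phi e (0, ζ) = ζ := by
  simp [J11_Phi]

private def J11_Om (e : E) : Set (ℝ × E) :=
  {p | (Real.cosh p.1 : ℂ) + (Real.sinh p.1 : ℂ) * ⟪e, p.2⟫_ℂ ≠ 0}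

private theorem J11_Om_open [NormedSpace ℝ E] (e : E) : IsOpen (J11_Om e) := by
  have h1 : Continuous fun p : ℝ × E =>
      (Real.cosh p.1 : ℂ) + (Real.sinh p.1 : ℂ) * ⟪e, p.2⟫_ℂ := by
    have h2 : Continuous fun p : ℝ × E => ⟪e, p.2⟫_ℂ := continuous_const.inner continuous_snd
    have h3 : Continuous fun p : ℝ × E => (Real.cosh p.1 : ℂ) :=
      Complex.continuous_ofReal.comp (Real.continuous_cosh.comp continuous_fst)
    have h4 : Continuous fun p : ℝ × E => (Real.sinh p.1 : ℂ) :=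
      Complex.continuous_ofReal.comp (Real.continuous_sinh.comp continuous_fst)
    exact h3.add (h4.mul h2)
  exact isOpen_ne_fun h1 continuous_const

private theorem J11_mem {e : E} (t : ℝ) {ζ : E} (h : ‖(Real.tanh t : ℂ) * ⟪e, ζ⟫_ℂ‖ < 1) :
    (t, ζ) ∈ J11_Om e := by
  have hC : 0 < Real.cosh t := Real.cosh_pos t
  have hCC : (Real.cosh t : ℂ) ≠ 0 := by exact_mod_cast hC.ne'
  show (Real.cosh t : ℂ) + (Real.sinh t : ℂ) * ⟪e, ζ⟫_ℂ ≠ 0
  have h1 : (Real.cosh t : ℂ) + (Real.sinh t : ℂ) * ⟪e, ζ⟫_ℂ =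
      (Real.cosh t : ℂ) * (1 + (Real.tanh t : ℂ) * ⟪e, ζ⟫_ℂ) := by
    rw [Real.tanh_eq_sinh_div_cosh, Complex.ofReal_div]
    field_simp
  rw [h1]
  exact mul_ne_zero hCC (one_add_ne_of_norm_lt h)

private theorem J11_mem' {e : E} (he : ‖e‖ = 1) (t : ℝ) {ζ : E} (h : ‖ζ‖ ≤ 1) :
    (t, ζ) ∈ J11_Om e := by
  apply J11_mem
  have h1 : ‖⟪e, ζ⟫_ℂ‖ ≤ 1 := by
    calc _ ≤ ‖e‖ * ‖ζ‖ := norm_inner_le_norm _ _
      _ ≤ 1 := by rw [he, one_mul]; exact h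
  rw [norm_mul, Complex.norm_real, Real.norm_eq_abs]
  have := Real.abs_tanh_lt_one t
  nlinarith [norm_nonneg (⟪e, ζ⟫_ℂ), abs_nonneg (Real.tanh t)]

private theorem J11_inner [NormedSpace ℝ E] [IsScalarTower ℝ ℂ E] (e : E) :
    ContDiff ℝ 1 fun z : E => ⟪e, z⟫_ℂ :=
  ((innerSL ℂ e).restrictScalars ℝ).contDiff

private theorem J11_ofReal {F : Type} [NormedAddCommGroup F] [NormedSpace ℝ F] {g : F → ℝ}
    (hg : ContDiff ℝ 1 g) : ContDiff ℝ 1 fun z => (g z : ℂ) :=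
  Complex.ofRealCLM.contDiff.comp hg

private theorem J11_Phi_contDiff [NormedSpace ℝ E] [IsScalarTower ℝ ℂ E] (e : E) :
    ContDiffOn ℝ 1 (J11_Phi e) (J11_Om e) := by
  have hi : ContDiff ℝ 1 fun p : ℝ × E => ⟪e, p.2⟫_ℂ := (J11_inner e).comp contDiff_snd
  have hc : ContDiff ℝ 1 fun p : ℝ × E => (Real.cosh p.1 : ℂ) :=
    J11_ofReal (Real.contDiff_cosh.comp contDiff_fst)
  have hs : ContDiff ℝ 1 fun p : ℝ × E => (Real.sinh p.1 : ℂ) :=
    J11_ofReal (Real.contDiff_sinh.comp contDiff_fst)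
  have h1 : ContDiff ℝ 1 fun p : ℝ × E =>
      (Real.cosh p.1 : ℂ) + (Real.sinh p.1 : ℂ) * ⟪e, p.2⟫_ℂ := hc.add (hs.mul hi)
  have h2 : ContDiff ℝ 1 fun p : ℝ × E =>
      (Real.sinh p.1 : ℂ) + (Real.cosh p.1 : ℂ) * ⟪e, p.2⟫_ℂ - ⟪e, p.2⟫_ℂ :=
    (hs.add (hc.mul hi)).sub hi
  have h3 : ContDiff ℝ 1 fun p : ℝ × E =>
      ((Real.sinh p.1 : ℂ) + (Real.cosh p.1 : ℂ) * ⟪e, p.2⟫_ℂ - ⟪e, p.2⟫_ℂ) • e + p.2 :=
    (h2.smul contDiff_const).add contDiff_snd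
  have h4 := (h1.contDiffOn (s := J11_Om e)).inv (fun p hp => hp)
  exact h4.smul h3.contDiffOn

private theorem J11_Phi_deriv [NormedSpace ℝ E] [IsScalarTower ℝ ℂ E] (e ζ : E) :
    HasDerivAt (fun s : ℝ => J11_Phi e (s, ζ)) (e - ⟪e, ζ⟫_ℂ • ζ) 0 := by
  have hc : HasDerivAt (fun s : ℝ => (Real.cosh s : ℂ)) ((Real.sinh 0 : ℝ) : ℂ) 0 :=
    (Real.hasDerivAt_cosh 0).ofReal_comp
  have hs : HasDerivAt (fun s : ℝ => (Real.sinh s : ℂ)) ((Real.cosh 0 : ℝ) : ℂ) 0 :=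
    (Real.hasDerivAt_sinh 0).ofReal_comp
  rw [Real.sinh_zero] at hc
  rw [Real.cosh_zero] at hs
  have h1 : HasDerivAt (fun s : ℝ => (Real.cosh s : ℂ) + (Real.sinh s : ℂ) * ⟪e, ζ⟫_ℂ)
      (((0:ℝ):ℂ) + ((1:ℝ):ℂ) * ⟪e, ζ⟫_ℂ) 0 := hc.add (hs.mul_const _)
  have h2 : HasDerivAt (fun s : ℝ =>
      (Real.sinh s : ℂ) + (Real.cosh s : ℂ) * ⟪e, ζ⟫_ℂ - ⟪e, ζ⟫_ℂ)
      (((1:ℝ):ℂ) + ((0:ℝ):ℂ) * ⟪e, ζ⟫_ℂ) 0 := (hs.add (hc.mul_const _)).sub_const _
  have h3 : HasDerivAt (fun s : ℝ =>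
      ((Real.sinh s : ℂ) + (Real.cosh s : ℂ) * ⟪e, ζ⟫_ℂ - ⟪e, ζ⟫_ℂ) • e + ζ)
      ((((1:ℝ):ℂ) + ((0:ℝ):ℂ) * ⟪e, ζ⟫_ℂ) • e) 0 := (h2.smul_const e).add_const ζ
  have h4 := h1.inv (by simp)
  have h5 := h4.smul h3
  refine (h5.congr_deriv ?_)
  simp
  module

private theorem J11_int [FiniteDimensional ℂ E] [MeasurableSpace E] [BorelSpace E]
    {σ : Measure E} (hσ : IsSph σ) {h : E → ℂ} (hc : ContinuousOn h (closedBall 0 1)) :
    Integrable h σ := by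
  have := hσ.prob
  have : ProperSpace E := FiniteDimensional.proper ℂ E
  have hr : σ.restrict (closedBall 0 1) = σ :=
    Measure.restrict_eq_self_of_ae_mem (hσ.supp.mono fun ζ h => by simp [h.le])
  have h1 := hc.integrableOn_compact (μ := σ) (isCompact_closedBall (0 : E) 1)
  rwa [IntegrableOn, hr] at h1

private theorem J11_flow [NormedSpace ℝ E] [IsScalarTower ℝ ℂ E] {e : E} (he : ‖e‖ = 1)
    {u : ℝ × E → ℂ} {f : E → ℂ} (hu : ∀ p, u p = f (J11_Phi e p)) (τ : ℝ) {ζ : E} (hζ : ‖ζ‖ ≤ 1)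
    (hd : DifferentiableAt ℝ (fun z => u (τ, z)) ζ) :
    HasDerivAt (fun t => u (t, ζ)) (fderiv ℝ (fun z => u (τ, z)) ζ (e - ⟪e, ζ⟫_ℂ • ζ)) τ := by
  have h1 := J11_Phi_deriv e ζ
  have h2 : HasFDerivAt (fun z => u (τ, z)) (fderiv ℝ (fun z => u (τ, z)) ζ)
      (J11_Phi e ((0 : ℝ), ζ)) := by
    rw [J11_Phi_zero]; exact hd.hasFDerivAt
  have h3 := h2.comp_hasDerivAt (0 : ℝ) h1
  have h4 : ∀ s : ℝ, (fun z => u (τ, z)) (J11_Phi e (s, ζ)) = u (τ + s, ζ) := by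
    intro s
    show u (τ, J11_Phi e (s, ζ)) = u (τ + s, ζ)
    rw [hu, hu, J11_Phi_mob he τ s hζ]
  have h5 : HasDerivAt (fun s : ℝ => u (τ + s, ζ))
      (fderiv ℝ (fun z => u (τ, z)) ζ (e - ⟪e, ζ⟫_ℂ • ζ)) (τ - τ) := by
    rw [sub_self]
    exact h3.congr_of_eventuallyEq (Eventually.of_forall fun s => (h4 s).symm)
  have h6 := h5.comp_sub_const τ τ
  refine h6.congr_of_eventuallyEq (Eventually.of_forall fun s => ?_)
  show u (s, ζ) = u (τ + (s - τ), ζ)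
  rw [add_sub_cancel]

private theorem J11_C1 [FiniteDimensional ℂ E] [MeasurableSpace E] [BorelSpace E]
    [NormedSpace ℝ E] [IsScalarTower ℝ ℂ E]
    (σ : Measure E) (hσ : IsSph σ)
    (hdiv : ∀ (g : E → ℂ) (R : ℝ), 1 < R → ContDiffOn ℝ 1 g (ball 0 R) → ∀ e : E,
      ∫ ζ, fderiv ℝ g ζ (e - ⟪e, ζ⟫_ℂ • ζ) ∂σ
        = 2 * (Module.finrank ℂ E : ℂ) * ∫ ζ, g ζ * ((⟪e, ζ⟫_ℂ).re : ℂ) ∂σ)
    (f : E → ℂ) (hf : ContDiff ℝ 1 f) (q : E → ℂ) (hq : ContDiff ℝ 1 q) (e : E) (he : ‖e‖ = 1)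
    (τ : ℝ) :
    HasDerivAt (fun t : ℝ => ∫ ζ, f (J11_Phi e (t, ζ)) * conj (q ζ) ∂σ)
      (∫ ζ, f (J11_Phi e (τ, ζ)) *
        conj (2 * (Module.finrank ℂ E : ℂ) * ((⟪e, ζ⟫_ℂ).re : ℂ) * q ζ
          - fderiv ℝ q ζ (e - ⟪e, ζ⟫_ℂ • ζ)) ∂σ) τ := by
  have := hσ.prob
  have : ProperSpace E := FiniteDimensional.proper ℂ E
  obtain ⟨u, hu⟩ : ∃ u : ℝ × E → ℂ, ∀ p, u p = f (J11_Phi e p) := ⟨_, fun _ => rfl⟩
  have huC : ContDiffOn ℝ 1 u (J11_Om e) :=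
    (hf.comp_contDiffOn (J11_Phi_contDiff e)).congr (fun p _ => hu p)
  have hOm := J11_Om_open e
  have hfd : ContinuousOn (fderiv ℝ u) (J11_Om e) := huC.continuousOn_fderiv_of_isOpen hOm le_rfl
  have hud : ∀ p ∈ J11_Om e, HasFDerivAt u (fderiv ℝ u p) p := fun p hp =>
    ((huC.contDiffAt (hOm.mem_nhds hp)).differentiableAt one_ne_zero).hasFDerivAt
  have hqc : Continuous q := hq.continuous
  have hconj : Continuous fun ζ => conj (q ζ) := Complex.continuous_conj.comp hqc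
  have hmaps : ∀ t : ℝ, MapsTo (fun z : E => (t, z)) (closedBall 0 1) (J11_Om e) := by
    intro t z hz
    exact J11_mem' he t (by simpa using hz)
  have hcu : ∀ t : ℝ, ContinuousOn (fun z => u (t, z)) (closedBall 0 1) := fun t =>
    huC.continuousOn.comp (by fun_prop) (hmaps t)
  have hder : ∀ t : ℝ, ContinuousOn (fun z => fderiv ℝ u (t, z) ((1 : ℝ), (0 : E))) (closedBall 0 1) := by
    intro t
    have h1 : ContinuousOn (fun z => fderiv ℝ u (t, z)) (closedBall 0 1) :=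
      hfd.comp (by fun_prop) (hmaps t)
    exact h1.clm_apply continuousOn_const
  -- bound
  obtain ⟨B, hB⟩ : ∃ B : ℝ, ∀ p ∈ Icc (τ - 1) (τ + 1) ×ˢ closedBall (0 : E) 1,
      ‖fderiv ℝ u p ((1 : ℝ), (0 : E)) * conj (q p.2)‖ ≤ B := by
    refine (isCompact_Icc.prod (isCompact_closedBall _ _)).exists_bound_of_continuousOn ?_
    have h1 : ContinuousOn (fun p => fderiv ℝ u p)
        (Icc (τ - 1) (τ + 1) ×ˢ closedBall (0 : E) 1) :=
      hfd.mono (fun p hp => hmaps p.1 hp.2)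
    exact (h1.clm_apply continuousOn_const).mul (hconj.comp continuous_snd).continuousOn
  have key := hasDerivAt_integral_of_dominated_loc_of_deriv_le (μ := σ) (x₀ := τ)
    (s := Icc (τ - 1) (τ + 1)) (F := fun t ζ => u (t, ζ) * conj (q ζ))
    (F' := fun t ζ => fderiv ℝ u (t, ζ) ((1 : ℝ), (0 : E)) * conj (q ζ)) (bound := fun _ => B)
    (Icc_mem_nhds (by linarith) (by linarith))
    (Eventually.of_forall fun t => (J11_int hσ ((hcu t).mul hconj.continuousOn)).aestronglyMeasurable)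
    (J11_int hσ ((hcu τ).mul hconj.continuousOn))
    (J11_int hσ ((hder τ).mul hconj.continuousOn)).aestronglyMeasurable
    (hσ.supp.mono fun ζ hζ t ht => hB (t, ζ) ⟨ht, by simp [hζ.le]⟩)
    (integrable_const _)
    (hσ.supp.mono fun ζ hζ t _ => by
      have h1 := hud (t, ζ) (J11_mem' he t hζ.le)
      have h2 : HasDerivAt (fun s : ℝ => (s, ζ)) ((1 : ℝ), (0 : E)) t :=
        (hasDerivAt_id t).prodMk (hasDerivAt_const t ζ)
      exact (h1.comp_hasDerivAt t h2).mul_const _)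
  obtain ⟨hI, hD⟩ := key
  have hD' : HasDerivAt (fun t : ℝ => ∫ ζ, f (J11_Phi e (t, ζ)) * conj (q ζ) ∂σ)
      (∫ ζ, fderiv ℝ u (τ, ζ) ((1 : ℝ), (0 : E)) * conj (q ζ) ∂σ) τ := by
    simp only [hu] at hD
    exact hD
  refine hD'.congr_deriv ?_
  -- the function v
  obtain ⟨v, hv⟩ : ∃ v : E → ℂ, ∀ z, v z = u (τ, z) := ⟨_, fun _ => rfl⟩
  have hveq : v = fun z => u (τ, z) := funext hv
  obtain ⟨R, hR1, hR2⟩ : ∃ R : ℝ, 1 < R ∧ |Real.tanh τ| * R < 1 := by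
    have h1 := Real.abs_tanh_lt_one τ
    have h0 := abs_nonneg (Real.tanh τ)
    refine ⟨2 / (1 + |Real.tanh τ|), ?_, ?_⟩
    · rw [lt_div_iff₀ (by linarith)]; linarith
    · rw [mul_div_assoc', div_lt_iff₀ (by linarith)]; linarith
  have hmR : MapsTo (fun z : E => (τ, z)) (ball 0 R) (J11_Om e) := by
    intro z hz
    apply J11_mem
    rw [mem_ball_zero_iff] at hz
    rw [norm_mul, Complex.norm_real, Real.norm_eq_abs]
    have h1 : ‖⟪e, z⟫_ℂ‖ ≤ R := by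
      calc _ ≤ ‖e‖ * ‖z‖ := norm_inner_le_norm _ _
        _ ≤ R := by rw [he, one_mul]; exact hz.le
    calc |Real.tanh τ| * ‖⟪e, z⟫_ℂ‖ ≤ |Real.tanh τ| * R := by gcongr
      _ < 1 := hR2
  have hvC : ContDiffOn ℝ 1 v (ball 0 R) := by
    rw [hveq]
    exact huC.comp (by fun_prop) hmR
  have hqC : ContDiff ℝ 1 fun z => conj (q z) := Complex.conjCLE.contDiff.comp hq
  have hgC : ContDiffOn ℝ 1 (fun z => v z * conj (q z)) (ball 0 R) := hvC.mul hqC.contDiffOn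
  have hdivg := hdiv _ R hR1 hgC e
  have hvd : ∀ z ∈ ball (0 : E) R, DifferentiableAt ℝ v z := fun z hz =>
    (hvC.contDiffAt (isOpen_ball.mem_nhds hz)).differentiableAt one_ne_zero
  have hsph : ∀ z : E, ‖z‖ = 1 → z ∈ ball (0 : E) R := by
    intro z hz
    rw [mem_ball_zero_iff, hz]; exact hR1
  have hX : Continuous fun z : E => e - ⟪e, z⟫_ℂ • z := by
    have h2 : Continuous fun z : E => ⟪e, z⟫_ℂ := continuous_const.inner continuous_id
    exact continuous_const.sub (h2.smul continuous_id)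
  have hqd : Continuous fun z : E => fderiv ℝ q z (e - ⟪e, z⟫_ℂ • z) :=
    (hq.continuous_fderiv one_ne_zero).clm_apply hX
  have hqd' : Continuous fun z : E => conj (fderiv ℝ q z (e - ⟪e, z⟫_ℂ • z)) :=
    Complex.continuous_conj.comp hqd
  have hvc : ContinuousOn v (closedBall 0 1) := by rw [hveq]; exact hcu τ
  have hI2 : Integrable (fun z => v z * conj (fderiv ℝ q z (e - ⟪e, z⟫_ℂ • z))) σ :=
    J11_int hσ (hvc.mul hqd'.continuousOn)
  have hre : Continuous fun z : E => ((⟪e, z⟫_ℂ).re : ℂ) := by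
    have h2 : Continuous fun z : E => ⟪e, z⟫_ℂ := continuous_const.inner continuous_id
    exact Complex.continuous_ofReal.comp (Complex.continuous_re.comp h2)
  have hI3 : Integrable (fun z => v z * conj (q z) * ((⟪e, z⟫_ℂ).re : ℂ)) σ :=
    J11_int hσ ((hvc.mul hconj.continuousOn).mul hre.continuousOn)
  -- derivative of the product
  have hprod : ∀ᵐ ζ ∂σ, fderiv ℝ (fun z => v z * conj (q z)) ζ (e - ⟪e, ζ⟫_ℂ • ζ) =
      fderiv ℝ u (τ, ζ) ((1 : ℝ), (0 : E)) * conj (q ζ) +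
        v ζ * conj (fderiv ℝ q ζ (e - ⟪e, ζ⟫_ℂ • ζ)) := by
    filter_upwards [hσ.supp] with ζ hζ
    have h1 := (hvd ζ (hsph ζ hζ)).hasFDerivAt
    have h2 : HasFDerivAt (fun z => conj (q z))
        ((Complex.conjCLE : ℂ →L[ℝ] ℂ).comp (fderiv ℝ q ζ)) ζ :=
      (Complex.conjCLE : ℂ →L[ℝ] ℂ).hasFDerivAt.comp ζ
        ((hq.differentiable one_ne_zero) ζ).hasFDerivAt
    have h3 := (h1.mul h2).fderiv
    have h4 : fderiv ℝ (fun z => v z * conj (q z)) ζ = _ := h3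
    rw [h4]
    have h5 : fderiv ℝ v ζ (e - ⟪e, ζ⟫_ℂ • ζ) = fderiv ℝ u (τ, ζ) ((1 : ℝ), (0 : E)) := by
      have h6 := hud (τ, ζ) (J11_mem' he τ hζ.le)
      have h7 : HasDerivAt (fun s : ℝ => (s, ζ)) ((1 : ℝ), (0 : E)) τ :=
        (hasDerivAt_id τ).prodMk (hasDerivAt_const τ ζ)
      have h8 := h6.comp_hasDerivAt τ h7
      have h9 := J11_flow he hu τ hζ.le (by rw [← hveq]; exact hvd ζ (hsph ζ hζ))
      rw [← hveq] at h9
      exact h9.unique h8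
    simp only [_root_.add_apply, _root_.smul_apply, smul_eq_mul,
      ContinuousLinearMap.comp_apply, h5]
    simp only [ContinuousLinearEquiv.coe_coe, Complex.conjCLE_apply]
    ring
  rw [integral_congr_ae hprod, integral_add hI hI2] at hdivg
  have hfin : ∫ ζ, fderiv ℝ u (τ, ζ) ((1 : ℝ), (0 : E)) * conj (q ζ) ∂σ =
      2 * (Module.finrank ℂ E : ℂ) * ∫ ζ, v ζ * conj (q ζ) * ((⟪e, ζ⟫_ℂ).re : ℂ) ∂σ -
        ∫ ζ, v ζ * conj (fderiv ℝ q ζ (e - ⟪e, ζ⟫_ℂ • ζ)) ∂σ := by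
    rw [← hdivg]; ring
  rw [hfin, ← integral_const_mul, ← integral_sub (hI3.const_mul _) hI2]
  refine integral_congr_ae (Eventually.of_forall fun ζ => ?_)
  simp only [hv, hu, map_sub, map_mul, Complex.conj_ofReal, map_ofNat, map_natCast]
  ring

private theorem J11_approx [FiniteDimensional ℂ E] [NormedSpace ℝ E] [IsScalarTower ℝ ℂ E]
    (f : E → ℂ) (hf : Continuous f) {ε : ℝ} (hε : 0 < ε) :
    ∃ g : E → ℂ, ContDiff ℝ 1 g ∧ ∀ x ∈ closedBall (0 : E) 1, ‖g x - f x‖ < ε := by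
  have : ProperSpace E := FiniteDimensional.proper ℂ E
  let A : Subalgebra ℝ C(E, ℝ) :=
    { carrier := {h | ContDiff ℝ 1 h}
      mul_mem' := by
        intro a b ha hb
        rw [Set.mem_ofPred_eq] at *
        exact ContDiff.mul (f := (a : E → ℝ)) (g := (b : E → ℝ)) ha hb
      add_mem' := by
        intro a b ha hb
        rw [Set.mem_ofPred_eq] at *
        exact ContDiff.add (f := (a : E → ℝ)) (g := (b : E → ℝ)) ha hb
      algebraMap_mem' := by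
        intro r
        rw [Set.mem_ofPred_eq]
        exact contDiff_const }
  have hA : A.SeparatesPoints := by
    intro x y hxy
    have hc : ContDiff ℝ 1 fun z : E => (⟪x - y, z⟫_ℂ).re :=
      Complex.reCLM.contDiff.comp (J11_inner (x - y))
    refine ⟨_, ⟨⟨fun z : E => (⟪x - y, z⟫_ℂ).re, hc.continuous⟩, hc, rfl⟩, ?_⟩
    show (⟪x - y, x⟫_ℂ).re ≠ (⟪x - y, y⟫_ℂ).re
    intro h
    have h1 : (⟪x - y, x - y⟫_ℂ).re = 0 := by
      rw [inner_sub_right, Complex.sub_re, h, sub_self]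
    rw [inner_self_cast, Complex.ofReal_re] at h1
    exact hxy (sub_eq_zero.1 (norm_eq_zero.1 (pow_eq_zero_iff two_ne_zero |>.1 h1)))
  obtain ⟨g1, hg1, h1⟩ :=
    ContinuousMap.exists_mem_subalgebra_near_continuous_of_isCompact_of_separatesPoints hA
      ⟨fun x => (f x).re, Complex.continuous_re.comp hf⟩ (isCompact_closedBall (0 : E) 1)
      (half_pos hε)
  obtain ⟨g2, hg2, h2⟩ :=
    ContinuousMap.exists_mem_subalgebra_near_continuous_of_isCompact_of_separatesPoints hA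
      ⟨fun x => (f x).im, Complex.continuous_im.comp hf⟩ (isCompact_closedBall (0 : E) 1)
      (half_pos hε)
  refine ⟨fun x => (g1 x : ℂ) + (g2 x : ℂ) * Complex.I, ?_, ?_⟩
  · exact (J11_ofReal hg1).add ((J11_ofReal hg2).mul contDiff_const)
  · intro x hx
    have e1 := h1 x hx
    have e2 := h2 x hx
    have e3 : (g1 x : ℂ) + (g2 x : ℂ) * Complex.I - f x =
        ((g1 x - (f x).re : ℝ) : ℂ) + ((g2 x - (f x).im : ℝ) : ℂ) * Complex.I := by
      apply Complex.ext <;> simp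
    show ‖(g1 x : ℂ) + (g2 x : ℂ) * Complex.I - f x‖ < ε
    rw [e3]
    refine lt_of_le_of_lt (norm_add_le _ _) ?_
    rw [norm_mul, Complex.norm_I, mul_one, Complex.norm_real, Complex.norm_real]
    have e1' : ‖g1 x - (f x).re‖ < ε / 2 := e1
    have e2' : ‖g2 x - (f x).im‖ < ε / 2 := e2
    linarith

private theorem J11_contPhi [NormedSpace ℝ E] [IsScalarTower ℝ ℂ E] {e : E} (he : ‖e‖ = 1)
    (t : ℝ) : ContinuousOn (fun z => J11_Phi e (t, z)) (closedBall 0 1) :=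
  (J11_Phi_contDiff e).continuousOn.comp (by fun_prop)
    (fun z hz => J11_mem' he t (by simpa using hz))

private theorem J11_close [FiniteDimensional ℂ E] [MeasurableSpace E] [BorelSpace E]
    [NormedSpace ℝ E] [IsScalarTower ℝ ℂ E] {σ : Measure E} (hσ : IsSph σ) {e : E}
    (he : ‖e‖ = 1) {f g : E → ℂ} (hf : Continuous f) (hg : Continuous g) {ε : ℝ}
    (h : ∀ x ∈ closedBall (0 : E) 1, ‖g x - f x‖ < ε) {w : E → ℂ} (hw : Continuous w) (t : ℝ) :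
    ‖(∫ ζ, f (J11_Phi e (t, ζ)) * w ζ ∂σ) - ∫ ζ, g (J11_Phi e (t, ζ)) * w ζ ∂σ‖ ≤
      ε * ∫ ζ, ‖w ζ‖ ∂σ := by
  have hcf : ContinuousOn (fun ζ => f (J11_Phi e (t, ζ)) * w ζ) (closedBall 0 1) :=
    (hf.comp_continuousOn (J11_contPhi he t)).mul hw.continuousOn
  have hcg : ContinuousOn (fun ζ => g (J11_Phi e (t, ζ)) * w ζ) (closedBall 0 1) :=
    (hg.comp_continuousOn (J11_contPhi he t)).mul hw.continuousOn
  rw [← integral_sub (J11_int hσ hcf) (J11_int hσ hcg), ← integral_const_mul]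
  refine norm_integral_le_of_norm_le ((J11_int hσ hw.continuousOn).norm.const_mul ε) ?_
  filter_upwards [hσ.supp] with ζ hζ
  rw [← sub_mul, norm_mul]
  gcongr
  rw [norm_sub_rev]
  refine (h _ ?_).le
  rw [← J11_Phi_eq he, mem_closedBall_zero_iff]
  refine norm_mob_le ?_ hζ.le
  rw [norm_smul, he, mul_one, Complex.norm_real, Real.norm_eq_abs]
  exact (Real.abs_tanh_lt_one t).le

end J11

-- ===================== TARGET =====================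

/-- TARGET.  Derivative of the flow of `mob (tanh τ • e)` tested against `q`; continuous `f`. -/
theorem flow_deriv {E : Type} [NormedAddCommGroup E] [InnerProductSpace ℂ E]
    [FiniteDimensional ℂ E] [MeasurableSpace E] [BorelSpace E]
    [NormedSpace ℝ E] [IsScalarTower ℝ ℂ E]
    (σ : Measure E) (hσ : IsSph σ)
    (hdiv : ∀ (g : E → ℂ) (R : ℝ), 1 < R → ContDiffOn ℝ 1 g (ball 0 R) → ∀ e : E,
      ∫ ζ, fderiv ℝ g ζ (e - ⟪e, ζ⟫_ℂ • ζ) ∂σ
        = 2 * (Module.finrank ℂ E : ℂ) * ∫ ζ, g ζ * ((⟪e, ζ⟫_ℂ).re : ℂ) ∂σ)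
    (f : E → ℂ) (hf : Continuous f) (q : E → ℂ) (hq : ContDiff ℝ 1 q) (e : E) (he : ‖e‖ = 1)
    (τ : ℝ) :
    HasDerivAt (fun t : ℝ => ∫ ζ, f (mob (((Real.tanh t : ℝ) : ℂ) • e) ζ) * conj (q ζ) ∂σ)
      (∫ ζ, f (mob (((Real.tanh τ : ℝ) : ℂ) • e) ζ) *
        conj (2 * (Module.finrank ℂ E : ℂ) * ((⟪e, ζ⟫_ℂ).re : ℂ) * q ζ
          - fderiv ℝ q ζ (e - ⟪e, ζ⟫_ℂ • ζ)) ∂σ) τ := by
  simp only [J11_Phi_eq he]
  have := hσ.prob
  choose F hF1 hF2 using fun k : ℕ =>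
    J11_approx f hf (ε := 1 / ((k : ℝ) + 1)) (by positivity)
  have hX : Continuous fun z : E => e - ⟪e, z⟫_ℂ • z := by
    have h2 : Continuous fun z : E => ⟪e, z⟫_ℂ := continuous_const.inner continuous_id
    exact continuous_const.sub (h2.smul continuous_id)
  have hqd : Continuous fun z : E => fderiv ℝ q z (e - ⟪e, z⟫_ℂ • z) :=
    (hq.continuous_fderiv one_ne_zero).clm_apply hX
  have hre : Continuous fun z : E => ((⟪e, z⟫_ℂ).re : ℂ) := by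
    have h2 : Continuous fun z : E => ⟪e, z⟫_ℂ := continuous_const.inner continuous_id
    exact Complex.continuous_ofReal.comp (Complex.continuous_re.comp h2)
  have hw1 : Continuous fun ζ => conj (q ζ) := Complex.continuous_conj.comp hq.continuous
  have hw2 : Continuous fun ζ => conj (2 * (Module.finrank ℂ E : ℂ) * ((⟪e, ζ⟫_ℂ).re : ℂ) * q ζ
          - fderiv ℝ q ζ (e - ⟪e, ζ⟫_ℂ • ζ)) :=
    Complex.continuous_conj.comp (((continuous_const.mul hre).mul hq.continuous).sub hqd)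
  have hlim : ∀ M : ℝ, Tendsto (fun k : ℕ => 1 / ((k : ℝ) + 1) * M) atTop (𝓝 0) := by
    intro M
    have := (tendsto_one_div_add_atTop_nhds_zero_nat (𝕜 := ℝ)).mul_const M
    rwa [zero_mul] at this
  refine hasDerivAt_of_tendstoUniformly (l := atTop)
    (f := fun (k : ℕ) (t : ℝ) => ∫ ζ, F k (J11_Phi e (t, ζ)) * conj (q ζ) ∂σ)
    (f' := fun (k : ℕ) (t : ℝ) => ∫ ζ, F k (J11_Phi e (t, ζ)) *
        conj (2 * (Module.finrank ℂ E : ℂ) * ((⟪e, ζ⟫_ℂ).re : ℂ) * q ζ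
          - fderiv ℝ q ζ (e - ⟪e, ζ⟫_ℂ • ζ)) ∂σ)
    (g' := fun (t : ℝ) => ∫ ζ, f (J11_Phi e (t, ζ)) *
        conj (2 * (Module.finrank ℂ E : ℂ) * ((⟪e, ζ⟫_ℂ).re : ℂ) * q ζ
          - fderiv ℝ q ζ (e - ⟪e, ζ⟫_ℂ • ζ)) ∂σ) ?_
    (Eventually.of_forall fun k t => J11_C1 σ hσ hdiv (F k) (hF1 k) q hq e he t) ?_ τ
  · rw [Metric.tendstoUniformly_iff]
    intro δ hδ
    filter_upwards [(hlim (∫ ζ, ‖conj (2 * (Module.finrank ℂ E : ℂ) * ((⟪e, ζ⟫_ℂ).re : ℂ) * q ζ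
          - fderiv ℝ q ζ (e - ⟪e, ζ⟫_ℂ • ζ))‖ ∂σ)).eventually (gt_mem_nhds hδ)] with k hk t
    rw [dist_eq_norm]
    exact (J11_close hσ he hf (hF1 k).continuous (hF2 k) hw2 t).trans_lt hk
  · intro t
    rw [tendsto_iff_norm_sub_tendsto_zero]
    refine squeeze_zero (fun _ => norm_nonneg _) (fun k => ?_) (hlim (∫ ζ, ‖conj (q ζ)‖ ∂σ))
    rw [norm_sub_rev]
    exact J11_close hσ he hf (hF1 k).continuous (hF2 k) hw1 t

end Pool.Agent.Helper287.MB.J11
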