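import Pool.Agent.Helper287.MB.Base
set_option autoImplicit false
open Filter Topology
namespace Pool.Agent.Helper287.MB.J10

/-- TARGET.  Abstract telescoping lemma. -/
theorem telescoping {X : Type} [NormedAddCommGroup X] [NormedSpace ℂ X]
    (Y : Submodule ℂ X) (hY : IsClosed (Y : Set X))
    (S T : ℝ → X →L[ℂ] X) (r₀ : ℝ) (hr₀ : 0 < r₀) (hr₀' : r₀ ≤ 1)
    (hS : ∀ r, 0 < r → r < r₀ → ∀ x, ‖S r x‖ ≤ ‖x‖)
    (hT : ∀ r, 0 < r → r < r₀ → ∀ x, ‖T r x‖ ≤ ‖x‖)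
    (hcomm : ∀ r, 0 < r → r < r₀ → ∀ x, S r (T r x) = T r (S r x))
    (hSY : ∀ r, 0 < r → r < r₀ → ∀ x ∈ Y, S r x ∈ Y)
    (f h : X) (hf : f ∈ Y) (κ : ℝ) (hκ : 0 ≤ κ)
    (hclose : ∀ ε > 0, ∃ r₁ > 0, ∀ r, 0 < r → r < r₁ → r < r₀ →
      ‖S r f - (((1 - κ * r ^ 2 : ℝ)) : ℂ) • T r f‖ ≤ ε * r ^ 2)
    (hconv : ∀ ε > 0, ∃ C : ℝ, ∀ r, 0 < r → r < r₀ → ∀ m : ℕ,
      ‖((T r) ^ m) f - h‖ ≤ ε + C * (1 - r ^ 2 / 8) ^ m) :
    h ∈ Y := by
  rw [← SetLike.mem_coe, ← hY.closure_eq, Metric.mem_closure_iff]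
  intro δ hδ
  obtain ⟨C, hC⟩ := hconv (δ / 4) (by positivity)
  set C' : ℝ := max C 1 with hC'
  have hC'1 : 1 ≤ C' := le_max_right _ _
  have hCC' : C ≤ C' := le_max_left _ _
  set x : ℝ := C' / (δ / 4) with hx
  have hxpos : 0 < x := by positivity
  set t : ℝ := 8 * x with ht
  have htpos : 0 < t := by positivity
  have hexp : C' * Real.exp (-t / 8) ≤ δ / 4 := by
    have h1 : -t / 8 = -x := by rw [ht]; ring
    have h2 : x ≤ Real.exp x := by linarith [Real.add_one_le_exp x]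
    rw [h1, Real.exp_neg]
    have h3 : (Real.exp x)⁻¹ ≤ x⁻¹ := inv_anti₀ hxpos h2
    calc C' * (Real.exp x)⁻¹ ≤ C' * x⁻¹ := by gcongr
      _ = δ / 4 := by rw [hx]; field_simp
  set E : ℝ := Real.exp (2 * κ * (t + 1)) with hE
  have hEpos : 0 < E := Real.exp_pos _
  obtain ⟨r₁, hr₁, hcl⟩ := hclose (δ / 4 / ((t + 1) * E)) (by positivity)
  set r : ℝ := min (min r₁ r₀) (1 / (2 * (κ + 1))) / 2 with hr
  have hm0 : 0 < min (min r₁ r₀) (1 / (2 * (κ + 1))) := by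
    apply lt_min (lt_min hr₁ hr₀); positivity
  have hrpos : 0 < r := by positivity
  have hr_lt : r < min (min r₁ r₀) (1 / (2 * (κ + 1))) := by rw [hr]; linarith
  have hrr1 : r < r₁ := lt_of_lt_of_le hr_lt ((min_le_left _ _).trans (min_le_left _ _))
  have hrr0 : r < r₀ := lt_of_lt_of_le hr_lt ((min_le_left _ _).trans (min_le_right _ _))
  have hrk : r < 1 / (2 * (κ + 1)) := lt_of_lt_of_le hr_lt (min_le_right _ _)
  have hr1 : r < 1 := lt_of_lt_of_le hrr0 hr₀'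
  have hr2 : r ^ 2 ≤ r := by nlinarith
  have hr2' : r ^ 2 ≤ 1 := by nlinarith
  have hr2pos : 0 < r ^ 2 := by positivity
  have hu : κ * r ^ 2 ≤ 1 / 2 := by
    have h1 : r * (2 * (κ + 1)) < 1 := by
      rwa [lt_div_iff₀ (by positivity)] at hrk
    nlinarith
  have hu0 : 0 ≤ κ * r ^ 2 := by positivity
  set a : ℝ := 1 - κ * r ^ 2 with ha
  have ha2 : 1 / 2 ≤ a := by rw [ha]; linarith
  have ha1 : a ≤ 1 := by rw [ha]; linarith
  have hapos : 0 < a := by linarith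
  have hainv : a⁻¹ ≤ Real.exp (2 * (κ * r ^ 2)) := by
    have h1 : 1 + 2 * (κ * r ^ 2) ≤ Real.exp (2 * (κ * r ^ 2)) := by
      linarith [Real.add_one_le_exp (2 * (κ * r ^ 2))]
    refine le_trans ?_ h1
    rw [inv_le_iff_one_le_mul₀ hapos]
    rw [ha]
    nlinarith
  set m : ℕ := ⌈t / r ^ 2⌉₊ with hm
  have hm1 : t / r ^ 2 ≤ m := Nat.le_ceil _
  have hm2 : (m : ℝ) < t / r ^ 2 + 1 := Nat.ceil_lt_add_one (by positivity)
  have hmt : t ≤ m * r ^ 2 := by rwa [div_le_iff₀ hr2pos] at hm1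
  have hmt2 : m * r ^ 2 ≤ t + 1 := by
    have h1 : (m : ℝ) * r ^ 2 ≤ (t / r ^ 2 + 1) * r ^ 2 := by gcongr
    have h2 : (t / r ^ 2 + 1) * r ^ 2 = t + r ^ 2 := by field_simp
    linarith
  -- contraction facts
  have hTm : ∀ (k : ℕ) (y : X), ‖((T r) ^ k) y‖ ≤ ‖y‖ := by
    intro k
    induction k with
    | zero => intro y; simp
    | succ k ih =>
      intro y
      rw [pow_succ']
      exact (hT r hrpos hrr0 _).trans (ih y)
  have hcm : ∀ (k : ℕ) (y : X), S r (((T r) ^ k) y) = ((T r) ^ k) (S r y) := by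
    intro k
    induction k with
    | zero => intro y; simp
    | succ k ih =>
      intro y
      rw [pow_succ']
      change S r (T r ((T r ^ k) y)) = T r ((T r ^ k) (S r y))
      rw [hcomm r hrpos hrr0, ih]
  have hSm : ∀ (k : ℕ), ((S r) ^ k) f ∈ Y := by
    intro k
    induction k with
    | zero => simpa using hf
    | succ k ih =>
      rw [pow_succ']
      exact hSY r hrpos hrr0 _ ih
  set ε : ℝ := δ / 4 / ((t + 1) * E) with hε
  have hεpos : 0 < ε := by positivity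
  have hD := hcl r hrpos hrr1 hrr0
  rw [← ha] at hD
  have hmain : ∀ k : ℕ, ‖((S r) ^ k) f - ((a : ℂ) ^ k) • ((T r) ^ k) f‖ ≤ k * (ε * r ^ 2) := by
    intro k
    induction k with
    | zero => simp
    | succ k ih =>
      have hsplit : ((S r) ^ (k + 1)) f - ((a : ℂ) ^ (k + 1)) • ((T r) ^ (k + 1)) f
          = S r (((S r) ^ k) f - ((a : ℂ) ^ k) • ((T r) ^ k) f)
            + ((a : ℂ) ^ k) • ((T r) ^ k) (S r f - (a : ℂ) • T r f) := by
        have h1 : ((S r) ^ (k + 1)) f = S r (((S r) ^ k) f) := by rw [pow_succ']; rfl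
        have h2 : ((T r) ^ (k + 1)) f = ((T r) ^ k) (T r f) := by rw [pow_succ]; rfl
        rw [h1, h2, map_sub, map_sub, map_smul, map_smul, hcm, smul_sub, smul_smul, pow_succ]
        abel
      rw [hsplit]
      refine (norm_add_le _ _).trans ?_
      have h3 : ‖S r (((S r) ^ k) f - ((a : ℂ) ^ k) • ((T r) ^ k) f)‖ ≤ k * (ε * r ^ 2) :=
        (hS r hrpos hrr0 _).trans ih
      have h4 : ‖((a : ℂ) ^ k) • ((T r) ^ k) (S r f - (a : ℂ) • T r f)‖ ≤ ε * r ^ 2 := by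
        rw [norm_smul, norm_pow, Complex.norm_real, Real.norm_of_nonneg hapos.le]
        calc a ^ k * ‖((T r) ^ k) (S r f - (a : ℂ) • T r f)‖
            ≤ 1 * ‖S r f - (a : ℂ) • T r f‖ := by
              gcongr
              · exact pow_le_one₀ hapos.le ha1
              · exact hTm k _
          _ ≤ ε * r ^ 2 := by rw [one_mul]; exact hD
      rw [Nat.cast_add, Nat.cast_one]
      linarith
  refine ⟨((a : ℂ) ^ m)⁻¹ • ((S r) ^ m) f, Y.smul_mem _ (hSm m), ?_⟩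
  rw [dist_eq_norm]
  have hane : ((a : ℂ) ^ m) ≠ 0 := pow_ne_zero _ (by exact_mod_cast hapos.ne')
  have hsplit2 : h - ((a : ℂ) ^ m)⁻¹ • ((S r) ^ m) f
      = -(((T r) ^ m) f - h) - ((a : ℂ) ^ m)⁻¹ •
        (((S r) ^ m) f - ((a : ℂ) ^ m) • ((T r) ^ m) f) := by
    rw [smul_sub, smul_smul, inv_mul_cancel₀ hane, one_smul]
    abel
  rw [hsplit2]
  have h5 : ‖-(((T r) ^ m) f - h)‖ ≤ δ / 4 + δ / 4 := by
    rw [norm_neg]
    refine (hC r hrpos hrr0 m).trans ?_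
    have hb0 : 0 ≤ 1 - r ^ 2 / 8 := by linarith
    have hb : (1 - r ^ 2 / 8) ^ m ≤ Real.exp (-t / 8) := by
      have h6 : 1 - r ^ 2 / 8 ≤ Real.exp (-(r ^ 2 / 8)) := Real.one_sub_le_exp_neg _
      calc (1 - r ^ 2 / 8) ^ m ≤ (Real.exp (-(r ^ 2 / 8))) ^ m := by gcongr
        _ = Real.exp (m * (-(r ^ 2 / 8))) := by rw [Real.exp_nat_mul]
        _ ≤ Real.exp (-t / 8) := by
          apply Real.exp_le_exp.mpr
          linarith
    have hbpos : 0 ≤ (1 - r ^ 2 / 8) ^ m := pow_nonneg hb0 m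
    have h7 : C * (1 - r ^ 2 / 8) ^ m ≤ C' * Real.exp (-t / 8) := by
      calc C * (1 - r ^ 2 / 8) ^ m ≤ C' * (1 - r ^ 2 / 8) ^ m := by gcongr
        _ ≤ C' * Real.exp (-t / 8) := by gcongr
    linarith
  have h8 : ‖((a : ℂ) ^ m)⁻¹ • (((S r) ^ m) f - ((a : ℂ) ^ m) • ((T r) ^ m) f)‖ ≤ δ / 4 := by
    rw [norm_smul, norm_inv, norm_pow, Complex.norm_real, Real.norm_of_nonneg hapos.le]
    have h9 : (a ^ m)⁻¹ ≤ E := by
      rw [← inv_pow]
      calc a⁻¹ ^ m ≤ (Real.exp (2 * (κ * r ^ 2))) ^ m := by gcongr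
        _ = Real.exp (m * (2 * (κ * r ^ 2))) := by rw [Real.exp_nat_mul]
        _ ≤ E := by
          rw [hE]
          apply Real.exp_le_exp.mpr
          nlinarith
    calc (a ^ m)⁻¹ * ‖((S r) ^ m) f - ((a : ℂ) ^ m) • ((T r) ^ m) f‖
        ≤ E * (m * (ε * r ^ 2)) := by
          gcongr
          exact hmain m
      _ = E * ε * (m * r ^ 2) := by ring
      _ ≤ E * ε * (t + 1) := by gcongr
      _ = δ / 4 := by rw [hε]; field_simp
  refine lt_of_le_of_lt (norm_sub_le _ _) ?_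
  linarith

end Pool.Agent.Helper287.MB.J10
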