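import Pool.Agent.Helper287.MB.Base
set_option autoImplicit false
set_option linter.unusedSectionVars false
open MeasureTheory Metric Set Filter Topology
open scoped InnerProductSpace ComplexConjugate

namespace Pool.Agent.Helper287.MB.J9

variable {E : Type} [NormedAddCommGroup E] [InnerProductSpace ℂ E]



section structureLemmas
variable {E : Type} [NormedAddCommGroup E] [InnerProductSpace ℂ E] [FiniteDimensional ℂ E]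

theorem exists_iso_map {a b : E} (h : ‖a‖ = ‖b‖) : ∃ L : E ≃ₗᵢ[ℂ] E, L a = b := by
  by_cases ha : a = 0
  · subst ha
    rw [norm_zero] at h
    have hb : b = 0 := norm_eq_zero.1 h.symm
    exact ⟨LinearIsometryEquiv.refl ℂ E, by simp [hb]⟩
  have hna : (‖a‖ : ℂ) ≠ 0 := by exact_mod_cast (norm_ne_zero_iff.2 ha)
  have hb : ‖b‖ ≠ 0 := by rw [← h]; exact norm_ne_zero_iff.2 ha
  have hnb : (‖b‖ : ℂ) ≠ 0 := by exact_mod_cast hb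
  have hna' : ‖a‖ ≠ 0 := norm_ne_zero_iff.2 ha
  have ua : ‖((‖a‖ : ℂ)⁻¹ • a)‖ = 1 := by
    rw [norm_smul, norm_inv, Complex.norm_real, norm_norm, inv_mul_cancel₀ hna']
  have ub : ‖((‖b‖ : ℂ)⁻¹ • b)‖ = 1 := by
    rw [norm_smul, norm_inv, Complex.norm_real, norm_norm, inv_mul_cancel₀ hb]
  set a' := ((‖a‖ : ℂ)⁻¹ • a) with ha'
  set b' := ((‖b‖ : ℂ)⁻¹ • b) with hb'
  let T : (ℂ ∙ a') →ₗᵢ[ℂ] E :=
    ((ℂ ∙ b').subtypeₗᵢ.comp (LinearIsometryEquiv.toSpanUnitSingleton b' ub).toLinearIsometry).comp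
      (LinearIsometryEquiv.toSpanUnitSingleton a' ua).symm.toLinearIsometry
  have hmem : a' ∈ (ℂ ∙ a') := Submodule.mem_span_singleton_self a'
  have hT : T ⟨a', hmem⟩ = b' := by
    have h1 : (LinearIsometryEquiv.toSpanUnitSingleton a' ua).symm ⟨a', hmem⟩ = 1 := by
      rw [LinearIsometryEquiv.symm_apply_eq]
      apply Subtype.ext
      simp
    simp only [T]
    simp
    rw [h1, one_smul]
  refine ⟨T.extend.toLinearIsometryEquiv rfl, ?_⟩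
  have h2 : T.extend a' = b' := by
    have := LinearIsometry.extend_apply T ⟨a', hmem⟩
    rw [hT] at this
    exact this
  rw [LinearIsometry.toLinearIsometryEquiv_apply]
  have h3 : a = (‖a‖ : ℂ) • a' := by rw [ha', smul_smul, mul_inv_cancel₀ hna, one_smul]
  rw [h3, map_smul, h2, hb', smul_smul, h, mul_inv_cancel₀ hnb, one_smul]

theorem refl_fix {z v : E} (h : ⟪z, v⟫_ℂ = 0) : (ℂ ∙ v)ᗮ.reflection z = z := by
  apply Submodule.reflection_mem_subspace_eq_self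
  rw [Submodule.mem_orthogonal_singleton_iff_inner_right]
  rw [← inner_conj_symm, h, map_zero]

/-- vectors orthogonal to `z` are eigenvectors -/
theorem eig_of_comm {z : E} {A : E →L[ℂ] E}
    (hA : ∀ L : E ≃ₗᵢ[ℂ] E, L z = z → ∀ x, A (L x) = L (A x)) {v : E} (h : ⟪z, v⟫_ℂ = 0) :
    ∃ l : ℂ, A v = l • v := by
  have h1 := hA _ (refl_fix h) v
  rw [Submodule.reflection_orthogonalComplement_singleton_eq_neg, map_neg,
    Submodule.reflection_orthogonal_apply, neg_inj, eq_comm, Submodule.reflection_eq_self_iff,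
    Submodule.mem_span_singleton] at h1
  obtain ⟨l, hl⟩ := h1
  exact ⟨l, hl.symm⟩

theorem orth_of_comm {z : E} {A : E →L[ℂ] E}
    (hA : ∀ L : E ≃ₗᵢ[ℂ] E, L z = z → ∀ x, A (L x) = L (A x)) {v : E} (h : ⟪z, v⟫_ℂ = 0) :
    ⟪v, A z⟫_ℂ = 0 := by
  have h1 := hA _ (refl_fix h) z
  rw [refl_fix h, eq_comm, Submodule.reflection_eq_self_iff,
    Submodule.mem_orthogonal_singleton_iff_inner_right] at h1
  exact h1

theorem scal_of_comm {z : E} {A : E →L[ℂ] E}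
    (hA : ∀ L : E ≃ₗᵢ[ℂ] E, L z = z → ∀ x, A (L x) = L (A x)) :
    ∃ l : ℂ, ∀ v, ⟪z, v⟫_ℂ = 0 → A v = l • v := by
  by_cases hex : ∃ v0 : E, v0 ≠ 0 ∧ ⟪z, v0⟫_ℂ = 0
  · obtain ⟨v0, hv0, hzv0⟩ := hex
    obtain ⟨l0, hl0⟩ := eig_of_comm hA hzv0
    refine ⟨l0, fun v hv => ?_⟩
    obtain ⟨l, hl⟩ := eig_of_comm hA hv
    obtain ⟨m, hm⟩ := eig_of_comm hA (v := v + v0) (by rw [inner_add_right, hv, hzv0, add_zero])
    rw [map_add, hl, hl0] at hm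
    have h1 : (l - m) • v = (m - l0) • v0 := by
      have h2 : l • v + l0 • v0 = m • v + m • v0 := by rw [hm, smul_add]
      have h3 : l • v - m • v = m • v0 - l0 • v0 := by
        rw [sub_eq_sub_iff_add_eq_add, h2]; abel
      rw [sub_smul, sub_smul, h3]
    by_cases hlm : l - m = 0
    · rw [hlm, zero_smul] at h1
      have h2 := (smul_eq_zero.1 h1.symm).resolve_right hv0
      rw [hl]
      congr 1
      linear_combination hlm + h2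
    · have h2 : v = ((l - m)⁻¹ * (m - l0)) • v0 := by
        rw [mul_smul, ← h1, smul_smul, inv_mul_cancel₀ hlm, one_smul]
      rw [h2, map_smul, hl0, smul_comm]
  · push Not at hex
    refine ⟨0, fun v hv => ?_⟩
    by_cases hv0 : v = 0
    · simp [hv0]
    · exact absurd hv (hex v hv0)

/-- the basic traceless operator -/
theorem struct_zero {A : E →L[ℂ] E} (hdim : 2 ≤ Module.finrank ℂ E)
    (hA : ∀ L : E ≃ₗᵢ[ℂ] E, ∀ x, A (L x) = L (A x))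
    (htr : LinearMap.trace ℂ E (A : E →ₗ[ℂ] E) = 0) : A = 0 := by
  obtain ⟨l, hl⟩ := scal_of_comm (z := (0 : E)) (A := A) (fun L _ => hA L)
  have h1 : (A : E →ₗ[ℂ] E) = l • LinearMap.id := by
    ext x
    simpa using hl x (inner_zero_left x)
  rw [h1, map_smul, LinearMap.trace_id, smul_eq_mul] at htr
  have h2 : (Module.finrank ℂ E : ℂ) ≠ 0 := by
    have : Module.finrank ℂ E ≠ 0 := by omega
    exact_mod_cast this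
  have h3 := (mul_eq_zero.1 htr).resolve_right h2
  ext x
  rw [hl x (inner_zero_left x), h3]; simp

theorem struct_ne {A : E →L[ℂ] E} (hdim : 2 ≤ Module.finrank ℂ E) {z : E} (hz : z ≠ 0)
    (hA : ∀ L : E ≃ₗᵢ[ℂ] E, L z = z → ∀ x, A (L x) = L (A x))
    (htr : LinearMap.trace ℂ E (A : E →ₗ[ℂ] E) = 0) :
    ∃ g : ℂ, ∀ x, A x = g • (⟪z, x⟫_ℂ • z - ((‖z‖ ^ 2 / Module.finrank ℂ E : ℝ) : ℂ) • x) := by
  obtain ⟨l, hl⟩ := scal_of_comm hA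
  have hnz : (‖z‖ : ℂ) ≠ 0 := by exact_mod_cast (norm_ne_zero_iff.2 hz)
  have hzz : ⟪z, z⟫_ℂ = (‖z‖ : ℂ) ^ 2 := by rw [inner_self_cast]; push_cast; ring
  -- A z is a multiple of z
  have h1 : A z = (⟪z, A z⟫_ℂ / (‖z‖ : ℂ) ^ 2) • z := by
    set v := A z - (⟪z, A z⟫_ℂ / (‖z‖ : ℂ) ^ 2) • z with hv
    have h2 : ⟪z, v⟫_ℂ = 0 := by
      rw [hv, inner_sub_right, inner_smul_right, hzz]
      field_simp
      ring
    have h3 := orth_of_comm hA h2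
    have h4 : ⟪v, z⟫_ℂ = 0 := by rw [← inner_conj_symm, h2, map_zero]
    have h5 : ⟪v, v⟫_ℂ = 0 := by
      nth_rewrite 2 [hv]
      rw [inner_sub_right, inner_smul_right, h3, h4]; simp
    have h6 := inner_self_eq_zero.1 h5
    rw [hv] at h6
    exact sub_eq_zero.1 h6
  set m := ⟪z, A z⟫_ℂ / (‖z‖ : ℂ) ^ 2 with hm
  have hform : ∀ x, A x = l • x + ((m - l) / (‖z‖ : ℂ) ^ 2) • (⟪z, x⟫_ℂ • z) := by
    intro x
    have h2 : ⟪z, x - (⟪z, x⟫_ℂ / (‖z‖ : ℂ) ^ 2) • z⟫_ℂ = 0 := by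
      rw [inner_sub_right, inner_smul_right, hzz]
      field_simp
      ring
    have h3 := hl _ h2
    have h4 : x = (x - (⟪z, x⟫_ℂ / (‖z‖ : ℂ) ^ 2) • z) + (⟪z, x⟫_ℂ / (‖z‖ : ℂ) ^ 2) • z := by abel
    rw [h4, map_add, h3, map_smul, h1, ← h4]
    match_scalars
    · ring
    · field_simp
      ring
  have hn : (Module.finrank ℂ E : ℂ) ≠ 0 := by
    have : Module.finrank ℂ E ≠ 0 := by omega
    exact_mod_cast this
  have htr2 : l * (Module.finrank ℂ E : ℂ) + (m - l) = 0 := by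
    have h2 : (A : E →ₗ[ℂ] E) = l • LinearMap.id +
        ((m - l) / (‖z‖ : ℂ) ^ 2) • ((innerSL ℂ z : E →ₗ[ℂ] ℂ).smulRight z) := by
      ext x
      simpa using hform x
    rw [h2, map_add, map_smul, map_smul, LinearMap.trace_id, LinearMap.trace_smulRight,
      smul_eq_mul, smul_eq_mul] at htr
    have h3 : ((innerSL ℂ z : E →L[ℂ] ℂ) : E →ₗ[ℂ] ℂ) z = (‖z‖ : ℂ) ^ 2 := by
      rw [← hzz]; rfl
    rw [h3] at htr
    rw [← htr]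
    field_simp
  refine ⟨(m - l) / (‖z‖ : ℂ) ^ 2, fun x => ?_⟩
  rw [hform x]
  have h5 : m - l = -(l * (Module.finrank ℂ E : ℂ)) := by linear_combination htr2
  rw [h5]
  push_cast
  match_scalars
  · field_simp
  · field_simp

end structureLemmas

section realLemmas

theorem real_basic {r ρ u W N : ℝ} (hr : 0 < r) (hr2 : r ≤ 3 / 4) (hρ : 0 ≤ ρ)
    (hρ2 : ρ ≤ 1) (huW : u ^ 2 ≤ W)
    (hW : W ≤ r ^ 2 * ρ ^ 2) (hN : N = 1 + 2 * u + W) :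
    |u| ≤ r * ρ ∧ (1 - √W) ^ 2 ≤ N ∧ √W ≤ r * ρ ∧ 0 ≤ W ∧ 0 < N := by
  have hW0 : 0 ≤ W := (sq_nonneg u).trans huW
  have h1 : √W ≤ r * ρ := by
    rw [Real.sqrt_le_left (by positivity)]
    calc W ≤ r ^ 2 * ρ ^ 2 := hW
      _ = (r * ρ) ^ 2 := by ring
  have h2 : |u| ≤ √W := Real.abs_le_sqrt huW
  have h3 : (√W) ^ 2 = W := Real.sq_sqrt hW0
  have h4 := abs_le.1 h2
  have h5 : (1 - √W) ^ 2 ≤ N := by
    have : (1 - √W) ^ 2 = 1 - 2 * √W + W := by rw [sub_sq, h3]; ring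
    rw [hN, this]; linarith
  refine ⟨h2.trans h1, h5, h1, hW0, ?_⟩
  have h6 : r * ρ ≤ 3 / 4 := by nlinarith
  have h7 : 0 < 1 - √W := by linarith
  have : 0 < (1 - √W) ^ 2 := by positivity
  linarith

theorem delta_bd {r ρ s W : ℝ} (hr : 0 < r) (hs0 : 0 ≤ s) (hs : s ^ 2 = 1 - r ^ 2)
    (hW : W ≤ r ^ 2 * ρ ^ 2) :
    0 ≤ (1 - s) * (ρ ^ 2 - W / r ^ 2) ∧ (1 - s) * (ρ ^ 2 - W / r ^ 2) ≤ r ^ 2 * ρ ^ 2 - W ∧
      0 ≤ 1 - s ∧ 1 - s ≤ r ^ 2 := by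
  have h1 : 0 ≤ 1 - s := by nlinarith
  have h2 : 1 - s ≤ r ^ 2 := by nlinarith
  have h3 : ρ ^ 2 - W / r ^ 2 = (r ^ 2 * ρ ^ 2 - W) / r ^ 2 := by field_simp
  have h4 : 0 ≤ r ^ 2 * ρ ^ 2 - W := by linarith
  refine ⟨?_, ?_, h1, h2⟩
  · rw [h3]; positivity
  · rw [h3, mul_div_assoc', div_le_iff₀ (by positivity)]
    nlinarith

theorem near_aux1 {r ρ ω W P N : ℝ} (hω2 : ω ^ 2 = W) (b2 : (1 - ω) ^ 2 ≤ N)
    (hP : (1 - P) * N = (1 - r ^ 2) * (1 - ρ ^ 2)) :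
    (1 - r ^ 2) * (r ^ 2 * ρ ^ 2 - W) ≤ P * N * r ^ 2 := by
  have e : P * N = N - (1 - r ^ 2) * (1 - ρ ^ 2) := by linear_combination -hP
  rw [e, ← hω2]
  have : r ^ 2 * (1 - ω) ^ 2 ≤ r ^ 2 * N := mul_le_mul_of_nonneg_left b2 (by positivity)
  have h2 : (N - (1 - r ^ 2) * (1 - ρ ^ 2)) * r ^ 2 - (1 - r ^ 2) * (r ^ 2 * ρ ^ 2 - ω ^ 2) =
    (r ^ 2 * N - r ^ 2 * (1 - ω) ^ 2) + (r ^ 2 - ω) ^ 2 := by ring
  have h3 := sq_nonneg (r ^ 2 - ω)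
  linarith

theorem near_aux2 {r ρ ω W P N : ℝ} (hω2 : ω ^ 2 = W) (b2 : (1 - ω) ^ 2 ≤ N)
    (hP : (1 - P) * N = (1 - r ^ 2) * (1 - ρ ^ 2)) :
    (1 - ρ ^ 2) * (r ^ 2 * ρ ^ 2 - W) ≤ P * N * ρ ^ 2 := by
  have := near_aux1 (r := ρ) (ρ := r) hω2 b2 (by rw [hP]; ring)
  linarith

theorem near_aux3 {r ρ y P : ℝ} (hr : 0 < r) (hρ : 0 < ρ) (hρ2 : ρ ^ 2 ≤ 1 / 2)
    (hy0 : 0 ≤ y) (hP0 : 0 ≤ P) (y1 : y ≤ 2 * P * r ^ 2) (y2 : y ≤ 2 * P * ρ ^ 2) :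
    y * (2 * (r * ρ) + 2 * ρ ^ 2 + r ^ 2 * ρ ^ 2) ≤ 10 * (P * (r ^ 2 * ρ ^ 2)) := by
  have y3 : y ≤ 2 * P * (r * ρ) := by
    apply le_of_sq_le_sq _ (by positivity)
    calc y ^ 2 = y * y := by ring
      _ ≤ (2 * P * r ^ 2) * (2 * P * ρ ^ 2) := mul_le_mul y1 y2 hy0 (by positivity)
      _ = (2 * P * (r * ρ)) ^ 2 := by ring
  have k1 : y * (2 * (r * ρ)) ≤ (2 * P * (r * ρ)) * (2 * (r * ρ)) :=
    mul_le_mul_of_nonneg_right y3 (by positivity)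
  have k2 : y * (2 * ρ ^ 2) ≤ (2 * P * r ^ 2) * (2 * ρ ^ 2) :=
    mul_le_mul_of_nonneg_right y1 (by positivity)
  have k3 : y * (r ^ 2 * ρ ^ 2) ≤ (2 * P * ρ ^ 2) * (r ^ 2 * ρ ^ 2) :=
    mul_le_mul_of_nonneg_right y2 (by positivity)
  have k4 : (P * (r ^ 2 * ρ ^ 2)) * (2 * ρ ^ 2) ≤ (P * (r ^ 2 * ρ ^ 2)) * 1 :=
    mul_le_mul_of_nonneg_left (by linarith) (by positivity)
  have k5 : 0 ≤ P * (r ^ 2 * ρ ^ 2) := by positivity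
  linarith

theorem real_near {r ρ s u W P N : ℝ} (hr : 0 < r) (hr2 : r ^ 2 ≤ 1 / 2) (hρ : 0 < ρ)
    (hρ2 : ρ ^ 2 ≤ 1 / 2) (hs0 : 0 ≤ s) (hs : s ^ 2 = 1 - r ^ 2) (huW : u ^ 2 ≤ W)
    (hW : W ≤ r ^ 2 * ρ ^ 2) (hN : N = 1 + 2 * u + W)
    (hP : (1 - P) * N = (1 - r ^ 2) * (1 - ρ ^ 2)) :
    |((u + ρ ^ 2 - (1 - s) * (ρ ^ 2 - W / r ^ 2)) ^ 2 + W - u ^ 2) / N -
      ((u + ρ ^ 2) ^ 2 + W - u ^ 2) / N| ≤ 10 * (P * (r ^ 2 * ρ ^ 2)) := by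
  have hr3 : r ≤ 3 / 4 := by nlinarith
  have hρ3 : ρ ≤ 1 := by nlinarith
  obtain ⟨b1, b2, b3, b4, b5⟩ := real_basic hr hr3 hρ.le hρ3 huW hW hN
  obtain ⟨d1, d2, d3, d4⟩ := delta_bd (ρ := ρ) hr hs0 hs hW
  have hω2 : (√W) ^ 2 = W := Real.sq_sqrt b4
  have h1 := near_aux1 hω2 b2 hP
  have h2 := near_aux2 hω2 b2 hP
  clear hω2 b2 b3
  generalize (1 - s) * (ρ ^ 2 - W / r ^ 2) = Δ at *
  have hm : 0 ≤ r ^ 2 * ρ ^ 2 - W := by linarith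
  obtain ⟨y, hy⟩ : ∃ y, y = (r ^ 2 * ρ ^ 2 - W) / N := ⟨_, rfl⟩
  have hy0 : 0 ≤ y := by rw [hy]; exact div_nonneg hm b5.le
  have hyN : r ^ 2 * ρ ^ 2 - W = y * N := by rw [hy]; field_simp
  have y1 : (1 - r ^ 2) * y ≤ P * r ^ 2 := by
    rw [hyN] at h1
    have h3 : ((1 - r ^ 2) * y) * N ≤ (P * r ^ 2) * N := by linarith
    exact le_of_mul_le_mul_right h3 b5
  have y2 : (1 - ρ ^ 2) * y ≤ P * ρ ^ 2 := by
    rw [hyN] at h2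
    have h3 : ((1 - ρ ^ 2) * y) * N ≤ (P * ρ ^ 2) * N := by linarith
    exact le_of_mul_le_mul_right h3 b5
  have y1' : y ≤ 2 * P * r ^ 2 := by
    have : (1 / 2) * y ≤ (1 - r ^ 2) * y := mul_le_mul_of_nonneg_right (by linarith) hy0
    linarith
  have y2' : y ≤ 2 * P * ρ ^ 2 := by
    have : (1 / 2) * y ≤ (1 - ρ ^ 2) * y := mul_le_mul_of_nonneg_right (by linarith) hy0
    linarith
  have hP0 : 0 ≤ P := by
    have h3 : 0 ≤ P * (2 * ρ ^ 2) := by linarith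
    exact nonneg_of_mul_nonneg_left h3 (by positivity)
  have e1 : ((u + ρ ^ 2 - Δ) ^ 2 + W - u ^ 2) / N - ((u + ρ ^ 2) ^ 2 + W - u ^ 2) / N =
      -(Δ * (2 * u + 2 * ρ ^ 2 - Δ)) / N := by ring
  rw [e1, abs_div, abs_neg, abs_mul, abs_of_nonneg d1, abs_of_pos b5]
  have hT : 0 ≤ r ^ 2 * ρ ^ 2 := by positivity
  have hS : 0 ≤ ρ ^ 2 := by positivity
  have hb : |2 * u + 2 * ρ ^ 2 - Δ| ≤ 2 * (r * ρ) + 2 * ρ ^ 2 + r ^ 2 * ρ ^ 2 := by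
    have := abs_le.1 b1
    rw [abs_le]
    constructor <;> linarith
  have hb2 : Δ * |2 * u + 2 * ρ ^ 2 - Δ| ≤
      (r ^ 2 * ρ ^ 2 - W) * (2 * (r * ρ) + 2 * ρ ^ 2 + r ^ 2 * ρ ^ 2) :=
    mul_le_mul d2 hb (abs_nonneg _) hm
  calc Δ * |2 * u + 2 * ρ ^ 2 - Δ| / N
      ≤ (r ^ 2 * ρ ^ 2 - W) * (2 * (r * ρ) + 2 * ρ ^ 2 + r ^ 2 * ρ ^ 2) / N :=
        div_le_div_of_nonneg_right hb2 b5.le
    _ = y * (2 * (r * ρ) + 2 * ρ ^ 2 + r ^ 2 * ρ ^ 2) := by rw [hy]; ring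
    _ ≤ 10 * (P * (r ^ 2 * ρ ^ 2)) := near_aux3 hr hρ hρ2 hy0 hP0 y1' y2'

theorem far_t1 {r ρ u Δ N : ℝ} (hr : 0 < r) (hρ4 : ρ ^ 2 ≤ 1) (hu : |u| ≤ r)
    (d1 : 0 ≤ Δ) (hΔ : Δ ≤ r ^ 2) (hr22 : r ^ 2 ≤ r) (hN4 : 1 / 4 ≤ N)
    (hN1 : |N - 1| ≤ 3 * r) :
    |Δ * (2 * ρ ^ 2 * (N - 1) - 2 * u + Δ) / N| ≤ 36 * r ^ 3 := by
  have b5 : 0 < N := by linarith
  rw [abs_div, abs_of_pos b5, div_le_iff₀ b5, abs_mul, abs_of_nonneg d1]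
  have h1 : |2 * ρ ^ 2 * (N - 1) - 2 * u + Δ| ≤ 9 * r := by
    have h2 : |2 * ρ ^ 2 * (N - 1)| ≤ 6 * r := by
      rw [abs_mul, abs_of_nonneg (by positivity)]
      have := mul_le_mul hρ4 hN1 (abs_nonneg _) (by norm_num)
      linarith
    have h3 := abs_le.1 h2
    have h4 := abs_le.1 hu
    rw [abs_le]; constructor <;> linarith
  have h4 : Δ * |2 * ρ ^ 2 * (N - 1) - 2 * u + Δ| ≤ r ^ 2 * (9 * r) :=
    mul_le_mul hΔ h1 (abs_nonneg _) (by positivity)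
  calc _ ≤ r ^ 2 * (9 * r) := h4
    _ = 36 * r ^ 3 * (1 / 4) := by ring
    _ ≤ 36 * r ^ 3 * N := mul_le_mul_of_nonneg_left hN4 (by positivity)

theorem far_t2 {r ρ u W N : ℝ} (hr : 0 < r) (hρ2 : ρ ^ 2 ≤ 1) (hρ4 : ρ ^ 4 ≤ 1) (hu : |u| ≤ r)
    (hW0 : 0 ≤ W) (hWr : W ≤ r) (hN4 : 1 / 4 ≤ N) :
    |r ^ 2 * ((2 * ρ ^ 2 * (1 - ρ ^ 2) * u + (1 - ρ ^ 4) * W) / N)| ≤ 12 * r ^ 3 := by
  have b5 : 0 < N := by linarith
  rw [abs_mul, abs_of_nonneg (by positivity), abs_div, abs_of_pos b5, mul_div_assoc',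
    div_le_iff₀ b5]
  have h1 : |2 * ρ ^ 2 * (1 - ρ ^ 2) * u + (1 - ρ ^ 4) * W| ≤ 3 * r := by
    have h2 : |2 * ρ ^ 2 * (1 - ρ ^ 2) * u| ≤ 2 * r := by
      have h00 : 0 ≤ 1 - ρ ^ 2 := by linarith
      have h01 : 0 ≤ ρ ^ 2 := by positivity
      have h0 : 0 ≤ 2 * ρ ^ 2 * (1 - ρ ^ 2) := by positivity
      rw [abs_mul, abs_of_nonneg h0]
      have h6 : 2 * ρ ^ 2 * (1 - ρ ^ 2) ≤ 2 := by
        have := mul_le_mul hρ2 (show 1 - ρ ^ 2 ≤ 1 by linarith) h00 (by norm_num)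
        linarith
      exact mul_le_mul h6 hu (abs_nonneg _) (by norm_num)
    have h3 := abs_le.1 h2
    have h01 : 0 ≤ ρ ^ 4 := by positivity
    have h8 : 0 ≤ (1 - ρ ^ 4) * W := mul_nonneg (by linarith) hW0
    have h7 : (1 - ρ ^ 4) * W ≤ r := by
      have := mul_le_mul (show 1 - ρ ^ 4 ≤ 1 by linarith) hWr hW0 (by norm_num)
      linarith
    rw [abs_le]; constructor <;> linarith
  have h4 : r ^ 2 * |2 * ρ ^ 2 * (1 - ρ ^ 2) * u + (1 - ρ ^ 4) * W| ≤ r ^ 2 * (3 * r) :=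
    mul_le_mul_of_nonneg_left h1 (by positivity)
  calc _ ≤ r ^ 2 * (3 * r) := h4
    _ = 12 * r ^ 3 * (1 / 4) := by ring
    _ ≤ 12 * r ^ 3 * N := mul_le_mul_of_nonneg_left hN4 (by positivity)

theorem far_t3 {r ρ ν N : ℝ} (hr : 0 < r) (hρ2 : ρ ^ 2 ≤ 1) (hν0 : 0 ≤ ν) (hν1 : ν ≤ 1)
    (hr22 : r ^ 2 ≤ r) (hN4 : 1 / 4 ≤ N) (hN1 : |N - 1| ≤ 3 * r) :
    |r ^ 2 * (ν * ρ ^ 2 * ((1 - ρ ^ 2) * (N - 1 + r ^ 2) / N))| ≤ 16 * r ^ 3 := by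
  have b5 : 0 < N := by linarith
  have h00 : 0 ≤ 1 - ρ ^ 2 := by linarith
  have h01 : 0 ≤ ρ ^ 2 := by positivity
  have h1 : |(1 - ρ ^ 2) * (N - 1 + r ^ 2) / N| ≤ 16 * r := by
    rw [abs_div, abs_of_pos b5, div_le_iff₀ b5, abs_mul, abs_of_nonneg h00]
    have h2 : |N - 1 + r ^ 2| ≤ 4 * r := by
      have := abs_le.1 hN1
      have hrr : 0 ≤ r ^ 2 := by positivity
      rw [abs_le]; constructor <;> linarith
    have h3 : (1 - ρ ^ 2) * |N - 1 + r ^ 2| ≤ 1 * (4 * r) :=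
      mul_le_mul (by linarith) h2 (abs_nonneg _) (by norm_num)
    calc _ ≤ 1 * (4 * r) := h3
      _ = 16 * r * (1 / 4) := by ring
      _ ≤ 16 * r * N := mul_le_mul_of_nonneg_left hN4 (by positivity)
  rw [abs_mul, abs_mul, abs_of_nonneg (show 0 ≤ r ^ 2 by positivity),
    abs_of_nonneg (show 0 ≤ ν * ρ ^ 2 by positivity)]
  have h4 : ν * ρ ^ 2 ≤ 1 := by
    have := mul_le_mul hν1 hρ2 h01 (by norm_num)
    linarith
  have h5 : ν * ρ ^ 2 * |(1 - ρ ^ 2) * (N - 1 + r ^ 2) / N| ≤ 1 * (16 * r) :=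
    mul_le_mul h4 h1 (abs_nonneg _) (by norm_num)
  calc _ ≤ r ^ 2 * (1 * (16 * r)) := mul_le_mul_of_nonneg_left h5 (by positivity)
    _ = 16 * r ^ 3 := by ring

theorem real_far {r ρ s u W P N ν : ℝ} (hr : 0 < r) (hr2 : r ≤ 1 / 2) (hρ : 0 ≤ ρ)
    (hρ2 : ρ ≤ 1) (hs0 : 0 ≤ s) (hs : s ^ 2 = 1 - r ^ 2) (huW : u ^ 2 ≤ W)
    (hW : W ≤ r ^ 2 * ρ ^ 2) (hN : N = 1 + 2 * u + W)
    (hP : (1 - P) * N = (1 - r ^ 2) * (1 - ρ ^ 2)) (hν0 : 0 ≤ ν) (hν1 : ν ≤ 1) :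
    |((((u + ρ ^ 2 - (1 - s) * (ρ ^ 2 - W / r ^ 2)) ^ 2 + W - u ^ 2) / N - P * ρ ^ 2 * ν) -
      (1 - r ^ 2) * (((u + ρ ^ 2) ^ 2 + W - u ^ 2) / N - P * ρ ^ 2 * ν)) -
      (-(2 * ρ ^ 2 * ((1 - s) * (ρ ^ 2 - W / r ^ 2))) + r ^ 2 * ρ ^ 4 * (1 - ν))| ≤ 64 * r ^ 3 ∧
    |-(2 * ρ ^ 2 * ((1 - s) * (ρ ^ 2 - W / r ^ 2))) + r ^ 2 * ρ ^ 4 * (1 - ν)| ≤ 3 * r ^ 2 := by
  obtain ⟨b1, b2, b3, b4, b5⟩ := real_basic hr (by linarith) hρ hρ2 huW hW hN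
  obtain ⟨d1, d2, d3, d4⟩ := delta_bd (ρ := ρ) hr hs0 hs hW
  have hρsq : ρ ^ 2 ≤ 1 := pow_le_one₀ hρ hρ2
  have hρ4 : ρ ^ 4 ≤ 1 := pow_le_one₀ hρ hρ2
  have hrρ : r * ρ ≤ r := by nlinarith
  have hrr0 : 0 ≤ r ^ 2 := by positivity
  have hρ0 : 0 ≤ ρ ^ 2 := by positivity
  have hrρ2 : r ^ 2 * ρ ^ 2 ≤ r ^ 2 := by nlinarith
  have hr22 : r ^ 2 ≤ r := by nlinarith
  have hΔ : (1 - s) * (ρ ^ 2 - W / r ^ 2) ≤ r ^ 2 := by linarith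
  have hWr : W ≤ r := by linarith
  have hω : √W ≤ 1 / 2 := by linarith
  have hN4 : 1 / 4 ≤ N := by
    have : (1 / 2 : ℝ) ^ 2 ≤ (1 - √W) ^ 2 := pow_le_pow_left₀ (by norm_num) (by linarith) 2
    norm_num at this
    linarith
  clear b2 b3 hω d3 d4 hs0 hs
  generalize (1 - s) * (ρ ^ 2 - W / r ^ 2) = Δ at *
  have hu' : |u| ≤ r := b1.trans hrρ
  have hu := abs_le.1 hu'
  have hN1 : |N - 1| ≤ 3 * r := by
    rw [abs_le, hN]; constructor <;> linarith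
  constructor
  · have hPN : P - ρ ^ 2 = (1 - ρ ^ 2) * (N - 1 + r ^ 2) / N := by
      rw [eq_div_iff b5.ne']
      linear_combination -hP
    have e : ((((u + ρ ^ 2 - Δ) ^ 2 + W - u ^ 2) / N - P * ρ ^ 2 * ν) -
      (1 - r ^ 2) * (((u + ρ ^ 2) ^ 2 + W - u ^ 2) / N - P * ρ ^ 2 * ν)) -
      (-(2 * ρ ^ 2 * Δ) + r ^ 2 * ρ ^ 4 * (1 - ν)) =
      Δ * (2 * ρ ^ 2 * (N - 1) - 2 * u + Δ) / N +
      r ^ 2 * ((2 * ρ ^ 2 * (1 - ρ ^ 2) * u + (1 - ρ ^ 4) * W) / N) -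
      r ^ 2 * (ν * ρ ^ 2 * (P - ρ ^ 2)) := by
      have hq : N * N⁻¹ = 1 := mul_inv_cancel₀ b5.ne'
      simp only [div_eq_mul_inv]
      generalize N⁻¹ = q at hq
      linear_combination (r ^ 2 * ρ ^ 4 - 2 * ρ ^ 2 * Δ) * hq - r ^ 2 * ρ ^ 4 * q * hN
    rw [e, hPN]
    have t1 := far_t1 hr hρsq hu' d1 hΔ hr22 hN4 hN1
    have t2 := far_t2 hr hρsq hρ4 hu' b4 hWr hN4
    have t3 := far_t3 hr hρsq hν0 hν1 hr22 hN4 hN1
    have a1 := abs_le.1 t1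
    have a2 := abs_le.1 t2
    have a3 := abs_le.1 t3
    rw [abs_le]; constructor <;> linarith
  · have h1 : 0 ≤ 2 * ρ ^ 2 * Δ := by positivity
    have h2 : 2 * ρ ^ 2 * Δ ≤ 2 * r ^ 2 := by
      have := mul_le_mul hρsq hΔ d1 (by norm_num)
      linarith
    have h3 : 0 ≤ r ^ 2 * ρ ^ 4 * (1 - ν) := by
      have : 0 ≤ 1 - ν := by linarith
      positivity
    have h4 : r ^ 2 * ρ ^ 4 * (1 - ν) ≤ r ^ 2 := by
      have h0 : 0 ≤ ρ ^ 4 := by positivity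
      have h5 : ρ ^ 4 * (1 - ν) ≤ 1 * 1 :=
        mul_le_mul hρ4 (by linarith) (by linarith) (by norm_num)
      have h6 := mul_le_mul_of_nonneg_left h5 hrr0
      linarith
    rw [abs_le]; constructor <;> linarith

end realLemmas

section pointwise
variable {E : Type} [NormedAddCommGroup E] [InnerProductSpace ℂ E]

theorem normSq_re_im (a : ℂ) : ‖a‖ ^ 2 = a.re ^ 2 + a.im ^ 2 := by
  rw [Complex.sq_norm, Complex.normSq_apply]; ring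

theorem pt_formulas {r : ℝ} (hr0 : 0 < r) (hr1 : r ≤ 3 / 4) {ζ z : E} (hζ : ‖ζ‖ = 1)
    (hz : ‖z‖ ≤ 1) {u W N P s : ℝ} (hu : u = (⟪z, (r:ℂ) • ζ⟫_ℂ).re)
    (hW : W = ‖⟪z, (r:ℂ) • ζ⟫_ℂ‖ ^ 2) (hN : N = 1 + 2 * u + W)
    (hP : P = ‖mob ((r:ℂ) • ζ) z‖ ^ 2) (hs : s = √(1 - r ^ 2)) :
    ‖⟪z, mob ((r:ℂ) • ζ) z⟫_ℂ‖ ^ 2 =
      ((u + ‖z‖ ^ 2 - (1 - s) * (‖z‖ ^ 2 - W / r ^ 2)) ^ 2 + W - u ^ 2) / N ∧
    ‖⟪z, mob z ((r:ℂ) • ζ)⟫_ℂ‖ ^ 2 = ((u + ‖z‖ ^ 2) ^ 2 + W - u ^ 2) / N ∧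
    (1 - P) * N = (1 - r ^ 2) * (1 - ‖z‖ ^ 2) ∧ u ^ 2 ≤ W ∧ W ≤ r ^ 2 * ‖z‖ ^ 2 := by
  have hη : ‖(r:ℂ) • ζ‖ = r := by
    rw [norm_smul, hζ, mul_one, Complex.norm_real, Real.norm_eq_abs, abs_of_pos hr0]
  set η := (r:ℂ) • ζ with hηdef
  have hη1 : ‖η‖ < 1 := by rw [hη]; linarith
  have hsq : sq η = s := by rw [hs]; unfold sq; rw [hη]
  have hs0 : 0 ≤ s := by rw [hs]; exact Real.sqrt_nonneg _
  have hs2 : s ^ 2 = 1 - r ^ 2 := by rw [← hsq, sq_sq hη1.le, hη]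
  have hconj : ⟪η, z⟫_ℂ = conj ⟪z, η⟫_ℂ := (inner_conj_symm η z).symm
  have hne := one_add_inner_ne hη1 hz
  have hWle : W ≤ r ^ 2 * ‖z‖ ^ 2 := by
    rw [hW, ← hη, ← mul_pow]
    apply pow_le_pow_left₀ (norm_nonneg _)
    rw [mul_comm]; exact norm_inner_le_norm _ _
  have hN1 : ‖1 + ⟪η, z⟫_ℂ‖ ^ 2 = N := by
    rw [hconj, normSq_re_im, hN, hW, hu, normSq_re_im]
    generalize ⟪z, η⟫_ℂ = w
    simp
    ring
  have hWuv : W = u ^ 2 + (⟪z, η⟫_ℂ).im ^ 2 := by rw [hW, hu, normSq_re_im]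
  have hNpos : N ≠ 0 := by
    rw [← hN1]; exact pow_ne_zero 2 (norm_ne_zero_iff.2 hne)
  have hzz := inner_self_cast z
  clear_value η
  refine ⟨?_, ?_, ?_, ?_, hWle⟩
  · have h1 : ⟪z, mob η z⟫_ℂ = (1 + ⟪η, z⟫_ℂ)⁻¹ *
        (((u + (s * ‖z‖ ^ 2 + W / (1 + s)) : ℝ) : ℂ) + ((⟪z, η⟫_ℂ).im : ℂ) * Complex.I) := by
      unfold mob
      rw [inner_smul_right, inner_add_right, inner_add_right, inner_smul_right, inner_smul_right,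
        hzz, hsq, hconj]
      congr 1
      have h2 : conj ⟪z, η⟫_ℂ / (1 + (s:ℂ)) * ⟪z, η⟫_ℂ = ((W / (1 + s) : ℝ) : ℂ) := by
        rw [div_mul_eq_mul_div, mul_comm, Complex.mul_conj, Complex.normSq_eq_norm_sq, ← hW]
        push_cast; ring
      rw [h2]
      apply Complex.ext
      · simp [hu]; ring
      · simp; ring
    rw [h1, norm_mul, mul_pow, norm_inv, inv_pow, hN1, Complex.sq_norm, Complex.normSq_add_mul_I]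
    have h3 : s * ‖z‖ ^ 2 + W / (1 + s) = ‖z‖ ^ 2 - (1 - s) * (‖z‖ ^ 2 - W / r ^ 2) := by
      have h4 : W / (1 + s) = (1 - s) * (W / r ^ 2) := by
        have h5 : r ^ 2 = (1 - s) * (1 + s) := by linear_combination hs2
        have h6 : (1 - s) * (1 + s) ≠ 0 := by rw [← h5]; positivity
        have h7 : 1 - s ≠ 0 := left_ne_zero_of_mul h6
        have h8 : 1 + s ≠ 0 := right_ne_zero_of_mul h6
        rw [h5]; field_simp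
      rw [h4]; ring
    rw [h3, hWuv]
    field_simp
    ring
  · have h1 : ⟪z, mob z η⟫_ℂ = (1 + ⟪z, η⟫_ℂ)⁻¹ *
        (((u + ‖z‖ ^ 2 : ℝ) : ℂ) + ((⟪z, η⟫_ℂ).im : ℂ) * Complex.I) := by
      rw [inner_mob hz]
      congr 1
      apply Complex.ext
      · simp [hu]; ring
      · simp
    have hN2 : ‖1 + ⟪z, η⟫_ℂ‖ ^ 2 = N := by
      rw [normSq_re_im, hN, hW, hu, normSq_re_im]
      simp
      ring
    rw [h1, norm_mul, mul_pow, norm_inv, inv_pow, hN2, Complex.sq_norm, Complex.normSq_add_mul_I]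
    rw [hWuv]
    field_simp
    ring
  · have h1 := norm_mob_sq' hη1.le hne
    rw [hP, h1, hN1, hη]
    field_simp
  · rw [hWuv]; nlinarith [sq_nonneg (⟪z, η⟫_ℂ).im]

theorem norm_mob_sub {η z : E} (hη : ‖η‖ ≤ 1 / 2) (hz : ‖z‖ ≤ 1) :
    ‖mob η z - z‖ ≤ 6 * ‖η‖ := by
  have hη1 : ‖η‖ < 1 := by linarith
  have hne := one_add_inner_ne hη1 hz
  have hn0 := norm_nonneg η
  have ha : ‖⟪η, z⟫_ℂ‖ ≤ ‖η‖ := by
    calc _ ≤ ‖η‖ * ‖z‖ := norm_inner_le_norm _ _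
      _ ≤ ‖η‖ * 1 := by gcongr
      _ = ‖η‖ := mul_one _
  have h2 : 1 / 2 ≤ ‖1 + ⟪η, z⟫_ℂ‖ := by
    have h3 : ‖(1:ℂ)‖ - ‖⟪η, z⟫_ℂ‖ ≤ ‖1 + ⟪η, z⟫_ℂ‖ := by
      have := norm_sub_norm_le (1:ℂ) (-⟪η, z⟫_ℂ)
      rwa [norm_neg, sub_neg_eq_add] at this
    rw [norm_one] at h3
    linarith
  have e1 : mob η z - z = (1 + ⟪η, z⟫_ℂ)⁻¹ •
      (η + (((sq η - 1 : ℝ) : ℂ)) • z + (⟪η, z⟫_ℂ / (1 + (sq η : ℂ))) • η - ⟪η, z⟫_ℂ • z) := by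
    have h4 : z = (1 + ⟪η, z⟫_ℂ)⁻¹ • ((1 + ⟪η, z⟫_ℂ) • z) := by
      rw [smul_smul, inv_mul_cancel₀ hne, one_smul]
    nth_rewrite 2 [h4]
    unfold mob
    rw [← smul_sub]
    congr 1
    push_cast
    module
  have hs0 := sq_nonneg' η
  have hs1 := sq_le_one η
  have hs2 := sq_sq hη1.le
  have k1 : ‖(((sq η - 1 : ℝ) : ℂ)) • z‖ ≤ ‖η‖ / 2 := by
    rw [norm_smul, Complex.norm_real, Real.norm_eq_abs, abs_of_nonpos (by linarith)]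
    have : -(sq η - 1) ≤ ‖η‖ / 2 := by nlinarith
    calc _ ≤ (‖η‖ / 2) * 1 := mul_le_mul this hz (norm_nonneg _) (by positivity)
      _ = _ := mul_one _
  have k2 : ‖(⟪η, z⟫_ℂ / (1 + (sq η : ℂ))) • η‖ ≤ ‖η‖ / 2 := by
    rw [norm_smul, norm_div]
    have h5 : 1 ≤ ‖1 + (sq η : ℂ)‖ := by
      have : (1 + (sq η : ℂ)) = ((1 + sq η : ℝ) : ℂ) := by push_cast; ring
      rw [this, Complex.norm_real, Real.norm_eq_abs, abs_of_nonneg (by linarith)]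
      linarith
    have h6 : ‖⟪η, z⟫_ℂ‖ / ‖1 + (sq η : ℂ)‖ ≤ 1 / 2 := by
      rw [div_le_iff₀ (by linarith)]
      linarith
    calc _ ≤ (1 / 2) * ‖η‖ := by gcongr
      _ = _ := by ring
  have k3 : ‖⟪η, z⟫_ℂ • z‖ ≤ ‖η‖ := by
    rw [norm_smul]
    calc _ ≤ ‖η‖ * 1 := mul_le_mul ha hz (norm_nonneg _) hn0
      _ = _ := mul_one _
  have k4 : ‖η + (((sq η - 1 : ℝ) : ℂ)) • z + (⟪η, z⟫_ℂ / (1 + (sq η : ℂ))) • η - ⟪η, z⟫_ℂ • z‖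
      ≤ 3 * ‖η‖ := by
    calc _ ≤ ‖η‖ + ‖(((sq η - 1 : ℝ) : ℂ)) • z‖ + ‖(⟪η, z⟫_ℂ / (1 + (sq η : ℂ))) • η‖ +
          ‖⟪η, z⟫_ℂ • z‖ := by
          refine (norm_sub_le _ _).trans (add_le_add_left ?_ _)
          refine (norm_add_le _ _).trans (add_le_add_left ?_ _)
          exact norm_add_le _ _
      _ ≤ _ := by linarith
  rw [e1, norm_smul, norm_inv]
  have k5 : ‖1 + ⟪η, z⟫_ℂ‖⁻¹ ≤ 2 := by
    rw [inv_le_comm₀ (by linarith) (by norm_num)]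
    linarith
  calc _ ≤ 2 * (3 * ‖η‖) := mul_le_mul k5 k4 (norm_nonneg _) (by norm_num)
    _ = _ := by ring

end pointwise

section fieldStructure
variable {E : Type} [NormedAddCommGroup E] [InnerProductSpace ℂ E] [FiniteDimensional ℂ E]

theorem inner_mul_self_cast (p z : E) : ⟪p, z⟫_ℂ * ⟪z, p⟫_ℂ = ((‖⟪z, p⟫_ℂ‖ ^ 2 : ℝ) : ℂ) := by
  rw [← inner_conj_symm p z, mul_comm, Complex.mul_conj, Complex.normSq_eq_norm_sq]

/-- quadratic form of the basic operator -/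
theorem quad_formula {A : E →L[ℂ] E} {p : E} {g : ℂ} {n : ℕ}
    (h : ∀ x, A x = g • (⟪p, x⟫_ℂ • p - ((‖p‖ ^ 2 / n : ℝ) : ℂ) • x)) (z : E) :
    ⟪z, A z⟫_ℂ = g * ((‖⟪z, p⟫_ℂ‖ ^ 2 - ‖p‖ ^ 2 * ‖z‖ ^ 2 * (1 / (n : ℝ)) : ℝ) : ℂ) := by
  rw [h z, inner_smul_right, inner_sub_right, inner_smul_right, inner_smul_right,
    inner_mul_self_cast, inner_self_cast]
  push_cast
  ring

theorem F_struct (hdim : 2 ≤ Module.finrank ℂ E)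
    (F : E → (E →L[ℂ] E)) (hF : Continuous F)
    (hequi : ∀ (L : E ≃ₗᵢ[ℂ] E) (z x : E), ‖z‖ ≤ 1 → F (L z) (L x) = L (F z x))
    (htr : ∀ z : E, ‖z‖ ≤ 1 → LinearMap.trace ℂ E (F z : E →ₗ[ℂ] E) = 0) :
    F 0 = 0 ∧ ∃ g : ℝ → ℂ, ContinuousOn g (Ioc 0 1) ∧ ∀ p : E, p ≠ 0 → ‖p‖ ≤ 1 →
      (∀ x, F p x = g ‖p‖ • (⟪p, x⟫_ℂ • p - ((‖p‖ ^ 2 / Module.finrank ℂ E : ℝ) : ℂ) • x)) ∧
      ‖g ‖p‖‖ * ‖p‖ ^ 2 ≤ 2 * ‖F p‖ := by
  have hF0 : F 0 = 0 := by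
    apply struct_zero hdim _ (htr 0 (by simp))
    intro L x
    have := hequi L 0 x (by simp)
    rwa [map_zero] at this
  refine ⟨hF0, ?_⟩
  have hn : (2 : ℝ) ≤ Module.finrank ℂ E := by exact_mod_cast hdim
  have hk : (1 / 2 : ℝ) ≤ 1 - 1 / (Module.finrank ℂ E : ℝ) := by
    have : 1 / (Module.finrank ℂ E : ℝ) ≤ 1 / 2 := one_div_le_one_div_of_le (by norm_num) hn
    linarith
  haveI : Nontrivial E := Module.nontrivial_of_finrank_pos (R := ℂ) (by omega)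
  obtain ⟨v, hv⟩ := exists_ne (0 : E)
  obtain ⟨e, he⟩ : ∃ e : E, ‖e‖ = 1 := by
    refine ⟨((‖v‖ : ℂ)⁻¹) • v, ?_⟩
    rw [norm_smul, norm_inv, Complex.norm_real, norm_norm, inv_mul_cancel₀ (norm_ne_zero_iff.2 hv)]
  let φ : ℝ → ℂ := fun t => ⟪(t:ℂ) • e, F ((t:ℂ) • e) ((t:ℂ) • e)⟫_ℂ
  have hφ : Continuous φ := by
    have h1 : Continuous fun t : ℝ => (t:ℂ) • e := Complex.continuous_ofReal.smul continuous_const
    exact h1.inner ((hF.comp h1).clm_apply h1)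
  refine ⟨fun t => φ t / ((t ^ 4 * (1 - 1 / (Module.finrank ℂ E : ℝ)) : ℝ) : ℂ), ?_, ?_⟩
  · apply ContinuousOn.div hφ.continuousOn
    · apply Continuous.continuousOn
      fun_prop
    · intro t ht
      have : t ^ 4 * (1 - 1 / (Module.finrank ℂ E : ℝ)) ≠ 0 := by
        have : 0 < t := ht.1
        positivity
      exact_mod_cast this
  · intro p hp hp1
    have hpn : 0 < ‖p‖ := norm_pos_iff.2 hp
    obtain ⟨g, hg⟩ := struct_ne hdim hp (A := F p) (by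
      intro L hL x
      have := hequi L p x hp1
      rwa [hL] at this) (htr p hp1)
    have hne : ‖p‖ ^ 4 * (1 - 1 / (Module.finrank ℂ E : ℝ)) ≠ 0 := by positivity
    have h1 : ⟪p, F p p⟫_ℂ = g * ((‖p‖ ^ 4 * (1 - 1 / (Module.finrank ℂ E : ℝ)) : ℝ) : ℂ) := by
      rw [quad_formula hg]
      congr 2
      rw [inner_self_cast, Complex.norm_real, Real.norm_eq_abs, sq_abs]
      ring
    have h2 : φ ‖p‖ = ⟪p, F p p⟫_ℂ := by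
      obtain ⟨L, hL⟩ := exists_iso_map (a := (‖p‖ : ℂ) • e) (b := p) (by
        rw [norm_smul, he, mul_one, Complex.norm_real, norm_norm])
      have h3 : ‖(‖p‖ : ℂ) • e‖ ≤ 1 := by
        rw [norm_smul, he, mul_one, Complex.norm_real, norm_norm]; exact hp1
      have h4 := hequi L ((‖p‖ : ℂ) • e) ((‖p‖ : ℂ) • e) h3
      rw [hL] at h4
      rw [h4]
      nth_rewrite 2 [← hL]
      rw [L.inner_map_map]
    have h3 : φ ‖p‖ / ((‖p‖ ^ 4 * (1 - 1 / (Module.finrank ℂ E : ℝ)) : ℝ) : ℂ) = g := by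
      rw [h2, h1, mul_div_assoc, div_self (by exact_mod_cast hne), mul_one]
    refine ⟨fun x => ?_, ?_⟩
    · show F p x = (φ ‖p‖ / ((‖p‖ ^ 4 * (1 - 1 / (Module.finrank ℂ E : ℝ)) : ℝ) : ℂ)) • _
      rw [h3]; exact hg x
    · show ‖φ ‖p‖ / ((‖p‖ ^ 4 * (1 - 1 / (Module.finrank ℂ E : ℝ)) : ℝ) : ℂ)‖ * _ ≤ _
      rw [h3]
      have h4 : ‖⟪p, F p p⟫_ℂ‖ ≤ ‖p‖ * (‖F p‖ * ‖p‖) :=
        (norm_inner_le_norm _ _).trans (mul_le_mul_of_nonneg_left ((F p).le_opNorm p) hpn.le)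
      rw [h1, norm_mul, Complex.norm_real, Real.norm_eq_abs, abs_of_pos (by positivity)] at h4
      have h5 : (‖g‖ * ‖p‖ ^ 2 * (1 - 1 / (Module.finrank ℂ E : ℝ))) * ‖p‖ ^ 2 ≤
          ‖F p‖ * ‖p‖ ^ 2 := by
        calc _ = ‖g‖ * (‖p‖ ^ 4 * (1 - 1 / (Module.finrank ℂ E : ℝ))) := by ring
          _ ≤ _ := h4
          _ = _ := by ring
      have h6 := le_of_mul_le_mul_right h5 (by positivity)
      have h7 : ‖g‖ * ‖p‖ ^ 2 * (1 / 2) ≤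
          ‖g‖ * ‖p‖ ^ 2 * (1 - 1 / (Module.finrank ℂ E : ℝ)) :=
        mul_le_mul_of_nonneg_left hk (by positivity)
      linarith

/-- operator norm of a basic operator from its quadratic form -/
theorem norm_le_of_quad (hdim : 2 ≤ Module.finrank ℂ E) {A : E →L[ℂ] E} {z : E} {d : ℂ}
    (hd : ∀ x, A x = d • (⟪z, x⟫_ℂ • z - ((‖z‖ ^ 2 / Module.finrank ℂ E : ℝ) : ℂ) • x)) :
    ‖A‖ * ‖z‖ ^ 2 ≤ 3 * ‖⟪z, A z⟫_ℂ‖ := by
  have hn : (2 : ℝ) ≤ Module.finrank ℂ E := by exact_mod_cast hdim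
  have hν : 1 / (Module.finrank ℂ E : ℝ) ≤ 1 / 2 := one_div_le_one_div_of_le (by norm_num) hn
  have hk : (1 / 2 : ℝ) ≤ 1 - 1 / (Module.finrank ℂ E : ℝ) := by linarith
  have h1 : ‖A‖ ≤ ‖d‖ * (3 / 2 * ‖z‖ ^ 2) := by
    apply ContinuousLinearMap.opNorm_le_bound _ (by positivity)
    intro x
    rw [hd x, norm_smul]
    have h2 : ‖⟪z, x⟫_ℂ • z - ((‖z‖ ^ 2 / Module.finrank ℂ E : ℝ) : ℂ) • x‖ ≤
        3 / 2 * ‖z‖ ^ 2 * ‖x‖ := by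
      calc _ ≤ ‖⟪z, x⟫_ℂ • z‖ + ‖((‖z‖ ^ 2 / Module.finrank ℂ E : ℝ) : ℂ) • x‖ := norm_sub_le _ _
        _ ≤ (‖z‖ * ‖x‖) * ‖z‖ + (‖z‖ ^ 2 * (1 / 2)) * ‖x‖ := by
          apply add_le_add
          · rw [norm_smul]
            exact mul_le_mul_of_nonneg_right (norm_inner_le_norm _ _) (norm_nonneg _)
          · rw [norm_smul, Complex.norm_real, Real.norm_eq_abs, abs_of_nonneg (by positivity)]
            apply mul_le_mul_of_nonneg_right _ (norm_nonneg _)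
            rw [div_eq_mul_one_div]
            exact mul_le_mul_of_nonneg_left hν (by positivity)
        _ = _ := by ring
    calc _ ≤ ‖d‖ * (3 / 2 * ‖z‖ ^ 2 * ‖x‖) := mul_le_mul_of_nonneg_left h2 (norm_nonneg _)
      _ = _ := by ring
  have h3 : ‖⟪z, A z⟫_ℂ‖ = ‖d‖ * (‖z‖ ^ 4 * (1 - 1 / (Module.finrank ℂ E : ℝ))) := by
    rw [quad_formula hd, norm_mul, Complex.norm_real, Real.norm_eq_abs]
    congr 1
    rw [inner_self_cast, Complex.norm_real, Real.norm_eq_abs, sq_abs]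
    rw [show (‖z‖ ^ 2) ^ 2 - ‖z‖ ^ 2 * ‖z‖ ^ 2 * (1 / (Module.finrank ℂ E : ℝ)) =
      ‖z‖ ^ 4 * (1 - 1 / (Module.finrank ℂ E : ℝ)) by ring]
    exact abs_of_nonneg (by positivity)
  rw [h3]
  calc ‖A‖ * ‖z‖ ^ 2 ≤ (‖d‖ * (3 / 2 * ‖z‖ ^ 2)) * ‖z‖ ^ 2 :=
        mul_le_mul_of_nonneg_right h1 (by positivity)
    _ = 3 * (‖d‖ * (‖z‖ ^ 4 * (1 / 2))) := by ring
    _ ≤ _ := by gcongr

end fieldStructure

section integrals
variable {E : Type} [NormedAddCommGroup E] [InnerProductSpace ℂ E]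
    [FiniteDimensional ℂ E] [MeasurableSpace E] [BorelSpace E]

theorem norm_rz {r : ℝ} (hr0 : 0 < r) (ζ : E) : ‖(r:ℂ) • ζ‖ = r * ‖ζ‖ := by
  rw [norm_smul, Complex.norm_real, Real.norm_eq_abs, abs_of_pos hr0]

theorem int_aux {σ : Measure E} (hσ : IsSph σ) {G : Type} [NormedAddCommGroup G]
    (f : E → G) (hf : ContinuousOn f (closedBall 0 1)) : Integrable f σ := by
  have hp : ProperSpace E := FiniteDimensional.proper ℂ E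
  have := hσ.prob
  have hae : σ.restrict (closedBall 0 1) = σ := by
    apply Measure.restrict_eq_self_of_ae_mem
    filter_upwards [hσ.supp] with ζ hζ
    rw [mem_closedBall_zero_iff, hζ]
  obtain ⟨M, hM⟩ := (isCompact_closedBall (0:E) 1).exists_bound_of_continuousOn hf
  have hm : AEStronglyMeasurable f σ := by
    rw [← hae]
    exact hf.aestronglyMeasurable measurableSet_closedBall
  refine Integrable.of_bound hm M ?_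
  filter_upwards [hσ.supp] with ζ hζ
  exact hM ζ (by rw [mem_closedBall_zero_iff, hζ])

theorem cont_left {r : ℝ} (hr0 : 0 < r) (hr1 : r < 1) {z : E} (hz : ‖z‖ ≤ 1) :
    ContinuousOn (fun ζ : E => mob ((r:ℂ) • ζ) z) (closedBall 0 1) := by
  apply continuousOn_mob.comp (f := fun ζ : E => ((r:ℂ) • ζ, z))
  · apply Continuous.continuousOn
    exact (continuous_const.smul continuous_id).prodMk continuous_const
  · intro ζ hζ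
    rw [mem_closedBall_zero_iff] at hζ
    apply one_add_inner_ne _ hz
    rw [norm_rz hr0]; nlinarith

theorem cont_right {r : ℝ} (hr0 : 0 < r) (hr1 : r < 1) {z : E} (hz : ‖z‖ ≤ 1) :
    ContinuousOn (fun ζ : E => mob z ((r:ℂ) • ζ)) (closedBall 0 1) := by
  apply continuousOn_mob.comp (f := fun ζ : E => (z, (r:ℂ) • ζ))
  · apply Continuous.continuousOn
    exact continuous_const.prodMk (continuous_const.smul continuous_id)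
  · intro ζ hζ
    rw [mem_closedBall_zero_iff] at hζ
    apply one_add_inner_ne' hz
    rw [norm_rz hr0]; nlinarith

theorem inv_int {σ : Measure E} (hσ : IsSph σ) (L : E ≃ₗᵢ[ℂ] E) (f : E → E) :
    ∫ ζ, f (L ζ) ∂σ = ∫ ζ, f ζ ∂σ := by
  have h1 := L.toHomeomorph.measurableEmbedding.integral_map (μ := σ) f
  have h2 : σ.map L.toHomeomorph = σ := hσ.inv L
  rw [h2] at h1
  exact h1.symm

variable {F : E → (E →L[ℂ] E)}

/-- the difference -/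
noncomputable def DD (F : E → (E →L[ℂ] E)) (σ : Measure E) (r : ℝ) (z : E) : E →L[ℂ] E :=
  (∫ ζ, F (mob ((r:ℂ) • ζ) z) ∂σ)
        - (((1 - r ^ 2 : ℝ)) : ℂ) • (∫ ζ, F (mob z ((r:ℂ) • ζ)) ∂σ)

theorem comm_left {σ : Measure E} (hσ : IsSph σ) (hF : Continuous F)
    (hequi : ∀ (L : E ≃ₗᵢ[ℂ] E) (z x : E), ‖z‖ ≤ 1 → F (L z) (L x) = L (F z x))
    {r : ℝ} (hr0 : 0 < r) (hr1 : r < 1) {z : E} (hz : ‖z‖ ≤ 1)
    (L : E ≃ₗᵢ[ℂ] E) (hL : L z = z) (x : E) :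
    (∫ ζ, F (mob ((r:ℂ) • ζ) z) ∂σ) (L x) = L ((∫ ζ, F (mob ((r:ℂ) • ζ) z) ∂σ) x) := by
  have hi : Integrable (fun ζ => F (mob ((r:ℂ) • ζ) z)) σ :=
    int_aux hσ _ (hF.comp_continuousOn (cont_left hr0 hr1 hz))
  rw [ContinuousLinearMap.integral_apply hi, ContinuousLinearMap.integral_apply hi,
    ← inv_int hσ L]
  have h3 := L.toContinuousLinearEquiv.integral_comp_comm (μ := σ)
    (fun ζ => F (mob ((r:ℂ) • ζ) z) x)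
  refine Eq.trans ?_ h3
  apply integral_congr_ae
  filter_upwards [hσ.supp] with ζ hζ
  have h4 : mob ((r:ℂ) • L ζ) z = L (mob ((r:ℂ) • ζ) z) := by
    nth_rewrite 1 [← hL]
    rw [← map_smul, mob_iso]
  rw [h4, hequi L _ x]
  · rfl
  · apply norm_mob_le _ hz
    rw [norm_rz hr0, hζ]; linarith

theorem comm_right {σ : Measure E} (hσ : IsSph σ) (hF : Continuous F)
    (hequi : ∀ (L : E ≃ₗᵢ[ℂ] E) (z x : E), ‖z‖ ≤ 1 → F (L z) (L x) = L (F z x))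
    {r : ℝ} (hr0 : 0 < r) (hr1 : r < 1) {z : E} (hz : ‖z‖ ≤ 1)
    (L : E ≃ₗᵢ[ℂ] E) (hL : L z = z) (x : E) :
    (∫ ζ, F (mob z ((r:ℂ) • ζ)) ∂σ) (L x) = L ((∫ ζ, F (mob z ((r:ℂ) • ζ)) ∂σ) x) := by
  have hi : Integrable (fun ζ => F (mob z ((r:ℂ) • ζ))) σ :=
    int_aux hσ _ (hF.comp_continuousOn (cont_right hr0 hr1 hz))
  rw [ContinuousLinearMap.integral_apply hi, ContinuousLinearMap.integral_apply hi,
    ← inv_int hσ L]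
  have h3 := L.toContinuousLinearEquiv.integral_comp_comm (μ := σ)
    (fun ζ => F (mob z ((r:ℂ) • ζ)) x)
  refine Eq.trans ?_ h3
  apply integral_congr_ae
  filter_upwards [hσ.supp] with ζ hζ
  have h4 : mob z ((r:ℂ) • L ζ) = L (mob z ((r:ℂ) • ζ)) := by
    nth_rewrite 1 [← hL]
    rw [← map_smul, mob_iso]
  rw [h4, hequi L _ x]
  · rfl
  · apply norm_mob_le hz
    rw [norm_rz hr0, hζ]; linarith

theorem DD_comm {σ : Measure E} (hσ : IsSph σ) (hF : Continuous F)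
    (hequi : ∀ (L : E ≃ₗᵢ[ℂ] E) (z x : E), ‖z‖ ≤ 1 → F (L z) (L x) = L (F z x))
    {r : ℝ} (hr0 : 0 < r) (hr1 : r < 1) {z : E} (hz : ‖z‖ ≤ 1)
    (L : E ≃ₗᵢ[ℂ] E) (hL : L z = z) (x : E) :
    DD F σ r z (L x) = L (DD F σ r z x) := by
  unfold DD
  rw [ContinuousLinearMap.sub_apply, ContinuousLinearMap.sub_apply, ContinuousLinearMap.smul_apply,
    ContinuousLinearMap.smul_apply, map_sub, map_smul, comm_left hσ hF hequi hr0 hr1 hz L hL,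
    comm_right hσ hF hequi hr0 hr1 hz L hL]

/-- the trace as a continuous functional -/
noncomputable def TT : (E →L[ℂ] E) →L[ℂ] ℂ :=
  LinearMap.toContinuousLinearMap ((LinearMap.trace ℂ E).comp (ContinuousLinearMap.coeLM ℂ))

theorem TT_apply (A : E →L[ℂ] E) : TT A = LinearMap.trace ℂ E (A : E →ₗ[ℂ] E) := rfl

theorem DD_trace {σ : Measure E} (hσ : IsSph σ) (hF : Continuous F)
    (htr : ∀ z : E, ‖z‖ ≤ 1 → LinearMap.trace ℂ E (F z : E →ₗ[ℂ] E) = 0)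
    {r : ℝ} (hr0 : 0 < r) (hr1 : r < 1) {z : E} (hz : ‖z‖ ≤ 1) :
    LinearMap.trace ℂ E (DD F σ r z : E →ₗ[ℂ] E) = 0 := by
  have hi : Integrable (fun ζ => F (mob ((r:ℂ) • ζ) z)) σ :=
    int_aux hσ _ (hF.comp_continuousOn (cont_left hr0 hr1 hz))
  have hi' : Integrable (fun ζ => F (mob z ((r:ℂ) • ζ))) σ :=
    int_aux hσ _ (hF.comp_continuousOn (cont_right hr0 hr1 hz))
  rw [← TT_apply]
  unfold DD
  rw [map_sub, map_smul, ← ContinuousLinearMap.integral_comp_comm TT hi,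
    ← ContinuousLinearMap.integral_comp_comm TT hi']
  have h1 : ∫ ζ, TT (F (mob ((r:ℂ) • ζ) z)) ∂σ = 0 := by
    apply integral_eq_zero_of_ae
    filter_upwards [hσ.supp] with ζ hζ
    rw [TT_apply]
    apply htr
    apply norm_mob_le _ hz
    rw [norm_rz hr0, hζ]; linarith
  have h2 : ∫ ζ, TT (F (mob z ((r:ℂ) • ζ))) ∂σ = 0 := by
    apply integral_eq_zero_of_ae
    filter_upwards [hσ.supp] with ζ hζ
    rw [TT_apply]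
    apply htr
    apply norm_mob_le hz
    rw [norm_rz hr0, hζ]; linarith
  rw [h1, h2]; simp

/-- the integrand of the quadratic form -/
noncomputable def qq (F : E → (E →L[ℂ] E)) (r : ℝ) (z ζ : E) : ℂ :=
  ⟪z, F (mob ((r:ℂ) • ζ) z) z⟫_ℂ - (((1 - r ^ 2 : ℝ)) : ℂ) * ⟪z, F (mob z ((r:ℂ) • ζ)) z⟫_ℂ

theorem DD_quad {σ : Measure E} (hσ : IsSph σ) (hF : Continuous F)
    {r : ℝ} (hr0 : 0 < r) (hr1 : r < 1) {z : E} (hz : ‖z‖ ≤ 1) :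
    ⟪z, DD F σ r z z⟫_ℂ = ∫ ζ, qq F r z ζ ∂σ ∧ Integrable (qq F r z) σ := by
  have hi : Integrable (fun ζ => F (mob ((r:ℂ) • ζ) z)) σ :=
    int_aux hσ _ (hF.comp_continuousOn (cont_left hr0 hr1 hz))
  have hi' : Integrable (fun ζ => F (mob z ((r:ℂ) • ζ))) σ :=
    int_aux hσ _ (hF.comp_continuousOn (cont_right hr0 hr1 hz))
  let Q : (E →L[ℂ] E) →L[ℂ] ℂ := (innerSL ℂ z).comp (ContinuousLinearMap.apply ℂ E z)
  have hQ : ∀ A : E →L[ℂ] E, Q A = ⟪z, A z⟫_ℂ := fun A => rfl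
  have j1 : Integrable (fun ζ => Q (F (mob ((r:ℂ) • ζ) z))) σ := Q.integrable_comp hi
  have j2 : Integrable (fun ζ => Q (F (mob z ((r:ℂ) • ζ)))) σ := Q.integrable_comp hi'
  refine ⟨?_, ?_⟩
  · rw [← hQ]
    unfold DD
    rw [map_sub, map_smul, ← ContinuousLinearMap.integral_comp_comm Q hi,
      ← ContinuousLinearMap.integral_comp_comm Q hi', smul_eq_mul, ← integral_const_mul,
      ← integral_sub j1 (j2.const_mul _)]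
    rfl
  · exact j1.sub (j2.const_mul _)

end integrals

section final
variable {E : Type} [NormedAddCommGroup E] [InnerProductSpace ℂ E]
    [FiniteDimensional ℂ E] [MeasurableSpace E] [BorelSpace E]

/-- structure hypothesis -/
def GS (F : E → (E →L[ℂ] E)) (g : ℝ → ℂ) : Prop := ∀ p : E, p ≠ 0 → ‖p‖ ≤ 1 →
      (∀ x, F p x = g ‖p‖ • (⟪p, x⟫_ℂ • p - ((‖p‖ ^ 2 / Module.finrank ℂ E : ℝ) : ℂ) • x)) ∧
      ‖g ‖p‖‖ * ‖p‖ ^ 2 ≤ 2 * ‖F p‖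

theorem near_pt {F : E → (E →L[ℂ] E)} {g : ℝ → ℂ} (hg : GS F g) (hF0 : F 0 = 0)
    {r : ℝ} (hr0 : 0 < r) (hr2 : r ^ 2 ≤ 1 / 2) {ζ z : E} (hζ : ‖ζ‖ = 1) (hz0 : z ≠ 0)
    (hz2 : ‖z‖ ^ 2 ≤ 1 / 2) :
    ‖qq F r z ζ‖ ≤ r ^ 2 * ‖z‖ ^ 2 *
      (20 * ‖F (mob ((r:ℂ) • ζ) z)‖ + ‖F (mob z ((r:ℂ) • ζ))‖) := by
  have hr1 : r ≤ 3 / 4 := by nlinarith
  have hzn := norm_pos_iff.2 hz0
  have hz1 : ‖z‖ ≤ 1 := by nlinarith
  have hη : ‖(r:ℂ) • ζ‖ = r := by rw [norm_rz hr0, hζ, mul_one]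
  obtain ⟨f1, f2, f3, f4, f5⟩ := pt_formulas hr0 hr1 hζ hz1 rfl rfl rfl rfl rfl
  have hpp : ‖mob ((r:ℂ) • ζ) z‖ = ‖mob z ((r:ℂ) • ζ)‖ :=
    norm_mob_symm (by rw [hη]; linarith) hz1
  have hp1 : ‖mob ((r:ℂ) • ζ) z‖ ≤ 1 := norm_mob_le (by rw [hη]; linarith) hz1
  have hs2 : (√(1 - r ^ 2)) ^ 2 = 1 - r ^ 2 := Real.sq_sqrt (by linarith)
  have hB := real_near hr0 hr2 hzn hz2 (Real.sqrt_nonneg (1 - r ^ 2)) hs2 f4 f5 rfl f3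
  rw [← f1, ← f2] at hB
  unfold qq
  set p := mob ((r:ℂ) • ζ) z with hp
  set p' := mob z ((r:ℂ) • ζ) with hp'
  by_cases hp0 : p = 0
  · have hp0' : p' = 0 := by
      rw [← norm_eq_zero, ← hpp, hp0, norm_zero]
    rw [hp0, hp0', hF0]
    simp
  · have hp0' : p' ≠ 0 := by
      rw [← norm_ne_zero_iff, ← hpp]; exact norm_ne_zero_iff.2 hp0
    obtain ⟨a1, a2⟩ := hg p hp0 hp1
    obtain ⟨b1, b2⟩ := hg p' hp0' (hpp ▸ hp1)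
    have e1 := quad_formula a1 z
    have e2 := quad_formula b1 z
    rw [← hpp] at e2
    have e3 : ⟪z, F p z⟫_ℂ - (((1 - r ^ 2 : ℝ)) : ℂ) * ⟪z, F p' z⟫_ℂ =
        g ‖p‖ * ((‖⟪z, p⟫_ℂ‖ ^ 2 - ‖⟪z, p'⟫_ℂ‖ ^ 2 : ℝ) : ℂ) + ((r ^ 2 : ℝ) : ℂ) * ⟪z, F p' z⟫_ℂ := by
      rw [e1, e2]; push_cast; ring
    rw [e3]
    refine (norm_add_le _ _).trans ?_
    have k1 : ‖g ‖p‖ * ((‖⟪z, p⟫_ℂ‖ ^ 2 - ‖⟪z, p'⟫_ℂ‖ ^ 2 : ℝ) : ℂ)‖ ≤
        r ^ 2 * ‖z‖ ^ 2 * (20 * ‖F p‖) := by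
      rw [norm_mul, Complex.norm_real, Real.norm_eq_abs]
      calc _ ≤ ‖g ‖p‖‖ * (10 * (‖p‖ ^ 2 * (r ^ 2 * ‖z‖ ^ 2))) :=
            mul_le_mul_of_nonneg_left hB (norm_nonneg _)
        _ = 10 * (r ^ 2 * ‖z‖ ^ 2) * (‖g ‖p‖‖ * ‖p‖ ^ 2) := by ring
        _ ≤ 10 * (r ^ 2 * ‖z‖ ^ 2) * (2 * ‖F p‖) :=
            mul_le_mul_of_nonneg_left a2 (by positivity)
        _ = _ := by ring
    have k2 : ‖((r ^ 2 : ℝ) : ℂ) * ⟪z, F p' z⟫_ℂ‖ ≤ r ^ 2 * ‖z‖ ^ 2 * ‖F p'‖ := by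
      rw [norm_mul, Complex.norm_real, Real.norm_eq_abs, abs_of_pos (by positivity)]
      have h4 : ‖⟪z, F p' z⟫_ℂ‖ ≤ ‖z‖ * (‖F p'‖ * ‖z‖) :=
        (norm_inner_le_norm _ _).trans
          (mul_le_mul_of_nonneg_left ((F p').le_opNorm z) (norm_nonneg _))
      calc _ ≤ r ^ 2 * (‖z‖ * (‖F p'‖ * ‖z‖)) := mul_le_mul_of_nonneg_left h4 (by positivity)
        _ = _ := by ring
    linarith

/-- the main term -/
noncomputable def B0 (E : Type) [NormedAddCommGroup E] [InnerProductSpace ℂ E] (r : ℝ) (z ζ : E) :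
    ℝ :=
  -(2 * ‖z‖ ^ 2 * ((1 - √(1 - r ^ 2)) * (‖z‖ ^ 2 - ‖⟪z, (r:ℂ) • ζ⟫_ℂ‖ ^ 2 / r ^ 2))) +
    r ^ 2 * ‖z‖ ^ 4 * (1 - 1 / (Module.finrank ℂ E : ℝ))

theorem far_pt {F : E → (E →L[ℂ] E)} {g : ℝ → ℂ} (hg : GS F g)
    {r : ℝ} (hr0 : 0 < r) (hr2 : r ≤ 1 / 2) {ζ z : E} (hζ : ‖ζ‖ = 1)
    (hz1 : ‖z‖ ≤ 1) (hp0 : mob ((r:ℂ) • ζ) z ≠ 0) {a M : ℝ}
    (ha : ‖g ‖mob ((r:ℂ) • ζ) z‖ - g ‖z‖‖ ≤ a) (hM : ‖g ‖z‖‖ ≤ M) :
    ‖qq F r z ζ - g ‖z‖ * (B0 E r z ζ : ℂ)‖ ≤ 35 * a * r ^ 2 + 64 * M * r ^ 3 := by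
  have hη : ‖(r:ℂ) • ζ‖ = r := by rw [norm_rz hr0, hζ, mul_one]
  obtain ⟨f1, f2, f3, f4, f5⟩ := pt_formulas hr0 (by linarith) hζ hz1 rfl rfl rfl rfl rfl
  have hpp : ‖mob ((r:ℂ) • ζ) z‖ = ‖mob z ((r:ℂ) • ζ)‖ :=
    norm_mob_symm (by rw [hη]; linarith) hz1
  have hp1 : ‖mob ((r:ℂ) • ζ) z‖ ≤ 1 := norm_mob_le (by rw [hη]; linarith) hz1
  have hs2 : (√(1 - r ^ 2)) ^ 2 = 1 - r ^ 2 := Real.sq_sqrt (by nlinarith)
  have hν : 1 / (Module.finrank ℂ E : ℝ) ≤ 1 := by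
    by_cases h : Module.finrank ℂ E = 0
    · rw [h]; simp
    · have : (1:ℝ) ≤ Module.finrank ℂ E := by exact_mod_cast Nat.one_le_iff_ne_zero.2 h
      rw [div_le_one (by linarith)]; exact this
  obtain ⟨hB, hB'⟩ := real_far (ν := 1 / (Module.finrank ℂ E : ℝ)) hr0 hr2 (norm_nonneg z) hz1
    (Real.sqrt_nonneg (1 - r ^ 2)) hs2 f4 f5 rfl f3 (by positivity) hν
  rw [← f1, ← f2] at hB
  change |_ - B0 E r z ζ| ≤ _ at hB
  change |B0 E r z ζ| ≤ _ at hB'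
  unfold qq
  generalize B0 E r z ζ = b0 at hB hB' ⊢
  set p := mob ((r:ℂ) • ζ) z with hp
  set p' := mob z ((r:ℂ) • ζ) with hp'
  have hp0' : p' ≠ 0 := by
    rw [← norm_ne_zero_iff, ← hpp]; exact norm_ne_zero_iff.2 hp0
  obtain ⟨a1, a2⟩ := hg p hp0 hp1
  obtain ⟨b1, b2⟩ := hg p' hp0' (hpp ▸ hp1)
  have e1 := quad_formula a1 z
  have e2 := quad_formula b1 z
  rw [← hpp] at e2
  obtain ⟨BB, hBB⟩ : ∃ BB : ℝ, BB = ((‖⟪z, p⟫_ℂ‖ ^ 2 - ‖p‖ ^ 2 * ‖z‖ ^ 2 *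
      (1 / (Module.finrank ℂ E : ℝ))) - (1 - r ^ 2) * (‖⟪z, p'⟫_ℂ‖ ^ 2 - ‖p‖ ^ 2 * ‖z‖ ^ 2 *
      (1 / (Module.finrank ℂ E : ℝ)))) := ⟨_, rfl⟩
  rw [← hBB] at hB
  have e3 : ⟪z, F p z⟫_ℂ - (((1 - r ^ 2 : ℝ)) : ℂ) * ⟪z, F p' z⟫_ℂ - g ‖z‖ * (b0 : ℂ) =
      (g ‖p‖ - g ‖z‖) * (BB : ℂ) + g ‖z‖ * ((BB - b0 : ℝ) : ℂ) := by
    rw [e1, e2, hBB]; push_cast; ring
  have hr3 : r ^ 3 ≤ r ^ 2 / 2 := by nlinarith [sq_nonneg r]
  have hBBn : |BB| ≤ 35 * r ^ 2 := by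
    have h1 := abs_le.1 hB
    have h2 := abs_le.1 hB'
    rw [abs_le]; constructor <;> linarith
  rw [e3]
  refine (norm_add_le _ _).trans (add_le_add ?_ ?_)
  · rw [norm_mul, Complex.norm_real, Real.norm_eq_abs]
    calc _ ≤ a * (35 * r ^ 2) := mul_le_mul ha hBBn (abs_nonneg _) ((norm_nonneg _).trans ha)
      _ = _ := by ring
  · rw [norm_mul, Complex.norm_real, Real.norm_eq_abs]
    calc _ ≤ M * (64 * r ^ 3) := mul_le_mul hM hB (abs_nonneg _) ((norm_nonneg _).trans hM)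
      _ = _ := by ring

theorem int_B0 {σ : Measure E} (hσ : IsSph σ) (hdim : 2 ≤ Module.finrank ℂ E)
    (hnormsq : ∀ a : E, (Module.finrank ℂ E : ℝ) * ∫ ζ, ‖⟪a, ζ⟫_ℂ‖ ^ 2 ∂σ = ‖a‖ ^ 2)
    {r : ℝ} (hr0 : 0 < r) (hr2 : r ≤ 1 / 2) {z : E} (hz1 : ‖z‖ ≤ 1) :
    |∫ ζ, B0 E r z ζ ∂σ| ≤ r ^ 4 ∧ Integrable (B0 E r z) σ := by
  have := hσ.prob
  have hc : Continuous (fun ζ : E => ‖⟪z, ζ⟫_ℂ‖ ^ 2) :=
    ((continuous_const.inner continuous_id).norm).pow 2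
  have hi : Integrable (fun ζ : E => ‖⟪z, ζ⟫_ℂ‖ ^ 2) σ := int_aux hσ _ hc.continuousOn
  have hs2 : (√(1 - r ^ 2)) ^ 2 = 1 - r ^ 2 := Real.sq_sqrt (by nlinarith)
  have hs0 := Real.sqrt_nonneg (1 - r ^ 2)
  have hn : (2 : ℝ) ≤ Module.finrank ℂ E := by exact_mod_cast hdim
  have hform : B0 E r z = fun ζ => (-(2 * ‖z‖ ^ 2 * ((1 - √(1 - r ^ 2)) * ‖z‖ ^ 2)) +
      r ^ 2 * ‖z‖ ^ 4 * (1 - 1 / (Module.finrank ℂ E : ℝ))) +
      (2 * ‖z‖ ^ 2 * (1 - √(1 - r ^ 2))) * ‖⟪z, ζ⟫_ℂ‖ ^ 2 := by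
    funext ζ
    unfold B0
    have h1 : ‖⟪z, (r:ℂ) • ζ⟫_ℂ‖ ^ 2 / r ^ 2 = ‖⟪z, ζ⟫_ℂ‖ ^ 2 := by
      rw [inner_smul_right, norm_mul, Complex.norm_real, Real.norm_eq_abs, abs_of_pos hr0]
      field_simp
    rw [h1]; ring
  constructor
  · rw [hform, integral_add (integrable_const _) (hi.const_mul _), integral_const_mul]
    have h2 : ∫ ζ, ‖⟪z, ζ⟫_ℂ‖ ^ 2 ∂σ = ‖z‖ ^ 2 / (Module.finrank ℂ E : ℝ) := by
      rw [eq_div_iff (by positivity), mul_comm]; exact hnormsq z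
    rw [h2]
    simp only [integral_const, probReal_univ, one_smul]
    generalize √(1 - r ^ 2) = s at hs2 hs0
    have h3 : -(2 * ‖z‖ ^ 2 * ((1 - s) * ‖z‖ ^ 2)) +
        r ^ 2 * ‖z‖ ^ 4 * (1 - 1 / (Module.finrank ℂ E : ℝ)) +
        2 * ‖z‖ ^ 2 * (1 - s) * (‖z‖ ^ 2 / (Module.finrank ℂ E : ℝ)) =
        -(‖z‖ ^ 4 * (1 - 1 / (Module.finrank ℂ E : ℝ)) * (1 - s) ^ 2) := by
      have h4 : r ^ 2 = 1 - s ^ 2 := by linarith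
      rw [h4]; ring
    rw [h3, abs_neg]
    have hs1 : 0 ≤ 1 - s := by nlinarith
    have hs3 : 1 - s ≤ r ^ 2 := by nlinarith
    have hν : 1 / (Module.finrank ℂ E : ℝ) ≤ 1 / 2 := one_div_le_one_div_of_le (by norm_num) hn
    have hν0 : 0 ≤ 1 / (Module.finrank ℂ E : ℝ) := by positivity
    have hν1 : 0 ≤ 1 - 1 / (Module.finrank ℂ E : ℝ) := by linarith
    rw [abs_of_nonneg (by positivity)]
    have k1 : ‖z‖ ^ 4 ≤ 1 := pow_le_one₀ (norm_nonneg _) hz1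
    have k2 : (1 - s) ^ 2 ≤ (r ^ 2) ^ 2 := pow_le_pow_left₀ hs1 hs3 2
    calc _ ≤ 1 * 1 * (r ^ 2) ^ 2 := by
          apply mul_le_mul _ k2 (by positivity) (by norm_num)
          exact mul_le_mul k1 (by linarith) hν1 (by norm_num)
      _ = _ := by ring
  · rw [hform]
    exact (integrable_const _).add (hi.const_mul _)

/-- TARGET.  The same for traceless matrix valued equivariant fields, with `κ = 1`. -/
theorem type_matrix {E : Type} [NormedAddCommGroup E] [InnerProductSpace ℂ E]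
    [FiniteDimensional ℂ E] [MeasurableSpace E] [BorelSpace E]
    (hdim : 2 ≤ Module.finrank ℂ E)
    (σ : Measure E) (hσ : IsSph σ)
    (hmean : ∀ a : E, ∫ ζ, ⟪a, ζ⟫_ℂ ∂σ = 0)
    (hsq : ∀ a : E, ∫ ζ, ⟪a, ζ⟫_ℂ ^ 2 ∂σ = 0)
    (hnormsq : ∀ a : E, (Module.finrank ℂ E : ℝ) * ∫ ζ, ‖⟪a, ζ⟫_ℂ‖ ^ 2 ∂σ = ‖a‖ ^ 2)
    (F : E → (E →L[ℂ] E)) (hF : Continuous F)
    (hequi : ∀ (L : E ≃ₗᵢ[ℂ] E) (z x : E), ‖z‖ ≤ 1 → F (L z) (L x) = L (F z x))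
    (htr : ∀ z : E, ‖z‖ ≤ 1 → LinearMap.trace ℂ E (F z : E →ₗ[ℂ] E) = 0)
    (ε : ℝ) (hε : 0 < ε) :
    ∃ r₁ : ℝ, 0 < r₁ ∧ r₁ < 1 ∧ ∀ r : ℝ, 0 < r → r < r₁ → ∀ z : E, ‖z‖ ≤ 1 →
      ‖(∫ ζ, F (mob ((r:ℂ) • ζ) z) ∂σ)
        - (((1 - r ^ 2 : ℝ)) : ℂ) • (∫ ζ, F (mob z ((r:ℂ) • ζ)) ∂σ)‖ ≤ ε * r ^ 2 := by
  have hprob := hσ.prob
  obtain ⟨hF0, g, hgc, hg⟩ := F_struct hdim F hF hequi htr
  have hg' : GS F g := hg
  -- smallness near zero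
  have hF0c := hF.continuousAt (x := (0:E))
  rw [Metric.continuousAt_iff] at hF0c
  obtain ⟨δ₁, hδ₁, hδF⟩ := hF0c (ε / 63) (by positivity)
  have hδF' : ∀ x : E, ‖x‖ < δ₁ → ‖F x‖ ≤ ε / 63 := by
    intro x hx
    have := hδF (x := x) (by rwa [dist_zero_right])
    rw [hF0, dist_zero_right] at this
    exact this.le
  obtain ⟨δ, hδdef⟩ : ∃ δ, δ = min (1 / 2) (δ₁ / 2) := ⟨_, rfl⟩
  have hδ0 : 0 < δ := by rw [hδdef]; positivity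
  have hδ1 : δ ≤ 1 / 2 := by rw [hδdef]; exact min_le_left _ _
  have hδ2 : δ ≤ δ₁ / 2 := by rw [hδdef]; exact min_le_right _ _
  -- bounds for g
  have hsub : Icc (δ / 2) 1 ⊆ Ioc (0:ℝ) 1 := fun t ht => ⟨by linarith [ht.1], ht.2⟩
  have hgc' : ContinuousOn g (Icc (δ / 2) 1) := hgc.mono hsub
  obtain ⟨M, hM⟩ := isCompact_Icc.exists_bound_of_continuousOn hgc'
  have hM0 : 0 ≤ M := (norm_nonneg _).trans (hM 1 ⟨by linarith, le_refl _⟩)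
  have hunif := isCompact_Icc.uniformContinuousOn_of_continuous hgc'
  rw [Metric.uniformContinuousOn_iff] at hunif
  obtain ⟨δ₂, hδ₂, hg2⟩ := hunif (ε * δ ^ 2 / 210) (by positivity)
  obtain ⟨r₁, hr₁⟩ : ∃ r₁, r₁ = min (1 / 2) (min (δ₁ / 12) (min (δ / 12) (min (δ₂ / 6)
    (ε * δ ^ 2 / (390 * (M + 1)))))) := ⟨_, rfl⟩
  have c1 : r₁ ≤ 1 / 2 := by rw [hr₁]; exact min_le_left _ _
  have c2 : r₁ ≤ δ₁ / 12 := by rw [hr₁]; exact (min_le_right _ _).trans (min_le_left _ _)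
  have c3 : r₁ ≤ δ / 12 := by
    rw [hr₁]; exact (min_le_right _ _).trans ((min_le_right _ _).trans (min_le_left _ _))
  have c4 : r₁ ≤ δ₂ / 6 := by
    rw [hr₁]
    exact (min_le_right _ _).trans ((min_le_right _ _).trans ((min_le_right _ _).trans
      (min_le_left _ _)))
  have c5 : r₁ ≤ ε * δ ^ 2 / (390 * (M + 1)) := by
    rw [hr₁]
    exact (min_le_right _ _).trans ((min_le_right _ _).trans ((min_le_right _ _).trans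
      (min_le_right _ _)))
  have hr₁0 : 0 < r₁ := by rw [hr₁]; positivity
  refine ⟨r₁, hr₁0, by linarith, ?_⟩
  intro r hr0 hrlt z hz
  have hr1 : r < 1 := by linarith
  have hrh : r ≤ 1 / 2 := by linarith
  change ‖DD F σ r z‖ ≤ ε * r ^ 2
  by_cases hz0 : z = 0
  · have : DD F σ r z = 0 := by
      apply struct_zero hdim _ (DD_trace hσ hF htr hr0 hr1 hz)
      intro L x
      exact DD_comm hσ hF hequi hr0 hr1 hz L (by rw [hz0, map_zero]) x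
    rw [this, norm_zero]; positivity
  obtain ⟨d, hd⟩ := struct_ne hdim hz0 (DD_comm hσ hF hequi hr0 hr1 hz)
    (DD_trace hσ hF htr hr0 hr1 hz)
  have hnorm := norm_le_of_quad hdim hd
  obtain ⟨hquad, hqi⟩ := DD_quad (σ := σ) hσ hF hr0 hr1 hz
  rw [hquad] at hnorm
  have hzn := norm_pos_iff.2 hz0
  have hmob : ∀ ζ : E, ‖ζ‖ = 1 → ‖mob ((r:ℂ) • ζ) z - z‖ ≤ 6 * r := by
    intro ζ hζ
    have h1 : ‖(r:ℂ) • ζ‖ = r := by rw [norm_rz hr0, hζ, mul_one]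
    have := norm_mob_sub (η := (r:ℂ) • ζ) (z := z) (by rw [h1]; exact hrh) hz
    rwa [h1] at this
  have key : ‖∫ ζ, qq F r z ζ ∂σ‖ ≤ ε / 3 * r ^ 2 * ‖z‖ ^ 2 := by
    rcases lt_or_ge ‖z‖ δ with hzδ | hzδ
    · -- near zero
      have hb : ∀ᵐ ζ ∂σ, ‖qq F r z ζ‖ ≤ ε / 3 * r ^ 2 * ‖z‖ ^ 2 := by
        filter_upwards [hσ.supp] with ζ hζ
        have h1 : ‖(r:ℂ) • ζ‖ = r := by rw [norm_rz hr0, hζ, mul_one]
        have hpp : ‖mob ((r:ℂ) • ζ) z‖ = ‖mob z ((r:ℂ) • ζ)‖ :=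
          norm_mob_symm (by rw [h1]; linarith) hz
        have h2 : ‖mob ((r:ℂ) • ζ) z‖ < δ₁ := by
          have h3 := norm_sub_norm_le (mob ((r:ℂ) • ζ) z) z
          have h4 := hmob ζ hζ
          linarith
        have h5 := near_pt hg' hF0 hr0 (by nlinarith) hζ hz0 (by nlinarith)
        have h6 := hδF' _ h2
        have h7 := hδF' _ (hpp ▸ h2)
        calc _ ≤ _ := h5
          _ ≤ r ^ 2 * ‖z‖ ^ 2 * (20 * (ε / 63) + ε / 63) := by gcongr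
          _ = _ := by ring
      calc _ ≤ (ε / 3 * r ^ 2 * ‖z‖ ^ 2) * (σ.real univ) := norm_integral_le_of_norm_le_const hb
        _ = _ := by rw [probReal_univ, mul_one]
    · -- away from zero
      obtain ⟨i1, i2⟩ := int_B0 hσ hdim hnormsq hr0 hrh hz
      have hzI : ‖z‖ ∈ Icc (δ / 2) 1 := ⟨by linarith, hz⟩
      have hb : ∀ᵐ ζ ∂σ, ‖qq F r z ζ - g ‖z‖ * (B0 E r z ζ : ℂ)‖ ≤
          35 * (ε * δ ^ 2 / 210) * r ^ 2 + 64 * M * r ^ 3 := by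
        filter_upwards [hσ.supp] with ζ hζ
        have h1 : ‖(r:ℂ) • ζ‖ = r := by rw [norm_rz hr0, hζ, mul_one]
        have hp1 : ‖mob ((r:ℂ) • ζ) z‖ ≤ 1 := norm_mob_le (by rw [h1]; linarith) hz
        have h3 := abs_norm_sub_norm_le (mob ((r:ℂ) • ζ) z) z
        have h4 := hmob ζ hζ
        have h5 := abs_le.1 (h3.trans h4)
        have h6 : δ / 2 ≤ ‖mob ((r:ℂ) • ζ) z‖ := by linarith
        apply far_pt hg' hr0 hrh hζ hz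
        · rw [← norm_ne_zero_iff]; linarith
        · have := hg2 ‖mob ((r:ℂ) • ζ) z‖ ⟨h6, hp1⟩ ‖z‖ hzI (by
            rw [Real.dist_eq]
            calc _ ≤ _ := h3.trans h4
              _ < δ₂ := by linarith)
          rw [dist_eq_norm] at this
          exact this.le
        · exact hM _ hzI
      have hi3 : Integrable (fun ζ => g ‖z‖ * (B0 E r z ζ : ℂ)) σ := (i2.ofReal).const_mul _
      have e1 : ∫ ζ, qq F r z ζ ∂σ = ∫ ζ, (qq F r z ζ - g ‖z‖ * (B0 E r z ζ : ℂ)) ∂σ +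
          g ‖z‖ * ((∫ ζ, B0 E r z ζ ∂σ : ℝ) : ℂ) := by
        rw [integral_sub hqi hi3, integral_const_mul, integral_complex_ofReal]
        ring
      have k1 : ‖∫ ζ, (qq F r z ζ - g ‖z‖ * (B0 E r z ζ : ℂ)) ∂σ‖ ≤
          35 * (ε * δ ^ 2 / 210) * r ^ 2 + 64 * M * r ^ 3 := by
        calc _ ≤ (35 * (ε * δ ^ 2 / 210) * r ^ 2 + 64 * M * r ^ 3) * (σ.real univ) :=
              norm_integral_le_of_norm_le_const hb
          _ = _ := by rw [probReal_univ, mul_one]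
      have k2 : ‖g ‖z‖ * ((∫ ζ, B0 E r z ζ ∂σ : ℝ) : ℂ)‖ ≤ M * r ^ 4 := by
        rw [norm_mul, Complex.norm_real, Real.norm_eq_abs]
        exact mul_le_mul (hM _ hzI) i1 (abs_nonneg _) hM0
      have k3 : r ^ 4 ≤ r ^ 3 := by
        have : 0 < r ^ 3 := by positivity
        nlinarith
      have k4 : M * r ^ 4 ≤ M * r ^ 3 := mul_le_mul_of_nonneg_left k3 hM0
      have k5 : 65 * M * r ≤ ε * δ ^ 2 / 6 := by
        have h7 : r ≤ ε * δ ^ 2 / (390 * (M + 1)) := hrlt.le.trans c5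
        rw [le_div_iff₀ (by positivity)] at h7
        nlinarith
      have k6 : 65 * M * r ^ 3 ≤ ε * δ ^ 2 / 6 * r ^ 2 := by
        have := mul_le_mul_of_nonneg_right k5 (sq_nonneg r)
        calc _ = 65 * M * r * r ^ 2 := by ring
          _ ≤ _ := this
      have k7 : ε / 3 * r ^ 2 * δ ^ 2 ≤ ε / 3 * r ^ 2 * ‖z‖ ^ 2 := by
        have : δ ^ 2 ≤ ‖z‖ ^ 2 := pow_le_pow_left₀ hδ0.le hzδ 2
        exact mul_le_mul_of_nonneg_left this (by positivity)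
      rw [e1]
      calc _ ≤ (35 * (ε * δ ^ 2 / 210) * r ^ 2 + 64 * M * r ^ 3) + M * r ^ 4 :=
            (norm_add_le _ _).trans (add_le_add k1 k2)
        _ ≤ ε / 3 * r ^ 2 * δ ^ 2 := by linarith
        _ ≤ _ := k7
  have hfin : ‖DD F σ r z‖ * ‖z‖ ^ 2 ≤ (ε * r ^ 2) * ‖z‖ ^ 2 := by
    calc _ ≤ _ := hnorm
      _ ≤ 3 * (ε / 3 * r ^ 2 * ‖z‖ ^ 2) := by linarith
      _ = _ := by ring
  exact le_of_mul_le_mul_right hfin (by positivity)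

end final

end Pool.Agent.Helper287.MB.J9
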