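import Pool.Agent.Helper287.MB.Base
set_option autoImplicit false
set_option linter.unusedSectionVars false
open MeasureTheory Metric Set Filter Topology
open scoped InnerProductSpace ComplexConjugate

namespace Pool.Agent.Helper287.MB.J8

variable {E : Type} [NormedAddCommGroup E] [InnerProductSpace ℂ E]


-- ===================== auxiliary lemmas (helper504) =====================


noncomputable def PP (w : ℂ) : ℝ := (1 + w.re) ^ 2 + w.im ^ 2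
noncomputable def QQ (r ρ : ℝ) (w : ℂ) : ℝ := √(1 - (1 - ρ ^ 2) * (1 - r ^ 2) / PP w)
noncomputable def DD (r ρ : ℝ) (w : ℂ) : ℝ := (1 - √(1 - r ^ 2)) * (ρ ^ 2 - (w.re ^ 2 + w.im ^ 2) / r ^ 2)
noncomputable def Num (κ r ρ : ℝ) (w : ℂ) : ℝ :=
  -(2 * w.im ^ 2 + DD r ρ w * (1 + w.re)) + κ * r ^ 2 * (ρ ^ 2 * (1 + w.re) + w.re + (w.re ^ 2 + w.im ^ 2))
noncomputable def Psi (κ r ρ : ℝ) (w : ℂ) : ℝ := Num κ r ρ w / PP w
noncomputable def HH (κ r ρ : ℝ) (w : ℂ) : ℂ :=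
  (w + ((ρ ^ 2 - DD r ρ w : ℝ) : ℂ)) / (1 + conj w) - ((1 - κ * r ^ 2 : ℝ) : ℂ) * ((((ρ ^ 2 : ℝ) : ℂ) + w) / (1 + w))

theorem PP_eq (w : ℂ) : ((PP w : ℝ) : ℂ) = (1 + w) * (1 + conj w) := by
  unfold PP
  apply Complex.ext
  · rw [Complex.ofReal_re]; simp; ring
  · rw [Complex.ofReal_im]; simp; ring

theorem PP_norm (w : ℂ) : PP w = ‖1 + w‖ ^ 2 := by
  rw [Complex.sq_norm, Complex.normSq_apply]
  unfold PP; simp; ring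

theorem QQ_conj (r ρ : ℝ) (w : ℂ) : QQ r ρ (conj w) = QQ r ρ w := by
  unfold QQ PP; simp

theorem DD_conj (r ρ : ℝ) (w : ℂ) : DD r ρ (conj w) = DD r ρ w := by
  unfold DD; simp

theorem HH_sym (κ r ρ : ℝ) (w : ℂ) (h : 1 + w ≠ 0) :
    HH κ r ρ w + HH κ r ρ (conj w) = 2 * ((Psi κ r ρ w : ℝ) : ℂ) := by
  have h' : 1 + conj w ≠ 0 := by
    intro h2
    apply h
    have := congrArg conj h2
    simpa using this
  unfold Psi HH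
  rw [Complex.ofReal_div, PP_eq, DD_conj, Complex.conj_conj]
  field_simp
  unfold Num
  generalize DD r ρ w = D
  apply Complex.ext
  · simp
    ring_nf
    simp [pow_two]
    ring
  · simp
    ring_nf
    simp [pow_two]

theorem basic_bounds (r ρ : ℝ) (hr : 0 < r) (hr2 : r ≤ 1 / 2) (hρ : 0 < ρ) (hρ1 : ρ ≤ 1) (w : ℂ)
    (hw : w.re ^ 2 + w.im ^ 2 ≤ r ^ 2 * ρ ^ 2) :
    |w.re| ≤ r * ρ ∧ 1 / 4 ≤ PP w ∧ PP w ≤ 9 / 4 ∧ |1 - PP w| ≤ 3 * r := by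
  have hx2 : w.re ^ 2 ≤ (r * ρ) ^ 2 := by nlinarith [sq_nonneg w.im]
  have hx : |w.re| ≤ r * ρ := abs_le_of_sq_le_sq hx2 (by positivity)
  have hx' := abs_le.1 hx
  have hrρ : r * ρ ≤ r := by nlinarith
  have hρ2 : ρ ^ 2 ≤ 1 := by nlinarith
  have hw1 : w.re ^ 2 + w.im ^ 2 ≤ r ^ 2 := by nlinarith [sq_nonneg r]
  unfold PP
  refine ⟨hx, ?_, ?_, ?_⟩
  · nlinarith
  · nlinarith
  · rw [abs_le]
    constructor
    · nlinarith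
    · nlinarith [sq_nonneg w.re, sq_nonneg w.im]

theorem QQ_sq (r ρ : ℝ) (hr : 0 < r) (hr2 : r ≤ 1 / 2) (hρ : 0 < ρ) (hρ1 : ρ ≤ 1) (w : ℂ)
    (hw : w.re ^ 2 + w.im ^ 2 ≤ r ^ 2 * ρ ^ 2) :
    (1 - r ^ 2) * (ρ ^ 2 - w.re ^ 2 / r ^ 2) ≤ QQ r ρ w ^ 2 * PP w ∧
      QQ r ρ w ^ 2 = 1 - (1 - ρ ^ 2) * (1 - r ^ 2) / PP w := by
  obtain ⟨hx, hP1, hP2, hP3⟩ := basic_bounds r ρ hr hr2 hρ hρ1 w hw
  have hPpos : 0 < PP w := by linarith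
  have h0 : (1 - (1 - ρ ^ 2) * (1 - r ^ 2) / PP w) * PP w
      = PP w - (1 - ρ ^ 2) * (1 - r ^ 2) := by field_simp
  have h1 : (1 - r ^ 2) * (ρ ^ 2 - w.re ^ 2 / r ^ 2) ≤ PP w - (1 - ρ ^ 2) * (1 - r ^ 2) := by
    have e1 : PP w - (1 - ρ ^ 2) * (1 - r ^ 2) - (1 - r ^ 2) * (ρ ^ 2 - w.re ^ 2 / r ^ 2)
        = (r + w.re / r) ^ 2 + w.im ^ 2 := by
      unfold PP
      field_simp
      ring
    nlinarith [sq_nonneg (r + w.re / r), sq_nonneg w.im]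
  have h2 : 0 ≤ (1 - r ^ 2) * (ρ ^ 2 - w.re ^ 2 / r ^ 2) := by
    apply mul_nonneg
    · nlinarith
    · rw [sub_nonneg, div_le_iff₀ (by positivity)]
      nlinarith [sq_nonneg w.im]
  have h3 : 0 ≤ 1 - (1 - ρ ^ 2) * (1 - r ^ 2) / PP w := by
    have : 0 ≤ (1 - (1 - ρ ^ 2) * (1 - r ^ 2) / PP w) * PP w := by rw [h0]; linarith
    exact nonneg_of_mul_nonneg_left this hPpos
  have h4 : QQ r ρ w ^ 2 = 1 - (1 - ρ ^ 2) * (1 - r ^ 2) / PP w := by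
    unfold QQ; rw [Real.sq_sqrt h3]
  refine ⟨?_, h4⟩
  rw [h4, h0]; exact h1

theorem QQ_nonneg (r ρ : ℝ) (w : ℂ) : 0 ≤ QQ r ρ w := Real.sqrt_nonneg _

theorem QQ_le_one (r ρ : ℝ) (hr : 0 < r) (hr2 : r ≤ 1 / 2) (hρ : 0 < ρ) (hρ1 : ρ ≤ 1) (w : ℂ)
    (hw : w.re ^ 2 + w.im ^ 2 ≤ r ^ 2 * ρ ^ 2) : QQ r ρ w ≤ 1 := by
  obtain ⟨hx, hP1, hP2, hP3⟩ := basic_bounds r ρ hr hr2 hρ hρ1 w hw
  unfold QQ
  apply Real.sqrt_le_one.2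
  have : 0 ≤ (1 - ρ ^ 2) * (1 - r ^ 2) / PP w := by
    apply div_nonneg
    · apply mul_nonneg <;> nlinarith
    · linarith
  linarith

theorem QQ_near (r ρ : ℝ) (hr : 0 < r) (hr2 : r ≤ 1 / 2) (hρ : 0 < ρ) (hρ1 : ρ ≤ 1) (w : ℂ)
    (hw : w.re ^ 2 + w.im ^ 2 ≤ r ^ 2 * ρ ^ 2) : |QQ r ρ w - ρ| ^ 2 ≤ 16 * r := by
  obtain ⟨hx, hP1, hP2, hP3⟩ := basic_bounds r ρ hr hr2 hρ hρ1 w hw
  obtain ⟨h1, h2⟩ := QQ_sq r ρ hr hr2 hρ hρ1 w hw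
  have hPpos : 0 < PP w := by linarith
  have h3 : QQ r ρ w ^ 2 - ρ ^ 2 = (1 - ρ ^ 2) * (PP w - 1 + r ^ 2) / PP w := by
    rw [h2]; field_simp; ring
  have h4 : |QQ r ρ w ^ 2 - ρ ^ 2| ≤ 16 * r := by
    rw [h3, abs_div, abs_mul, abs_of_pos hPpos, div_le_iff₀ hPpos]
    have a1 : |1 - ρ ^ 2| ≤ 1 := by rw [abs_le]; constructor <;> nlinarith
    have a2 : |PP w - 1 + r ^ 2| ≤ 4 * r := by
      rw [abs_le] at hP3 ⊢; constructor <;> nlinarith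
    calc |1 - ρ ^ 2| * |PP w - 1 + r ^ 2| ≤ 1 * (4 * r) := by gcongr
      _ = 16 * r * (1 / 4) := by ring
      _ ≤ 16 * r * PP w := by gcongr
  have h5 : |QQ r ρ w - ρ| ^ 2 ≤ |QQ r ρ w ^ 2 - ρ ^ 2| := by
    have : QQ r ρ w ^ 2 - ρ ^ 2 = (QQ r ρ w - ρ) * (QQ r ρ w + ρ) := by ring
    rw [this, abs_mul, pow_two]
    have hq := QQ_nonneg r ρ w
    apply mul_le_mul_of_nonneg_left _ (abs_nonneg _)
    rw [abs_le, abs_of_nonneg (by linarith : 0 ≤ QQ r ρ w + ρ)]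
    constructor <;> linarith
  linarith

theorem Psi_bound (κ r ρ : ℝ) (hκ0 : 0 ≤ κ) (hκ1 : κ ≤ 1) (hr : 0 < r) (hr2 : r ≤ 1 / 2)
    (hρ : 0 < ρ) (hρ1 : ρ ≤ 1) (w : ℂ) (hw : w.re ^ 2 + w.im ^ 2 ≤ r ^ 2 * ρ ^ 2) :
    |Psi κ r ρ w| ≤ 33 * r ^ 2 * ρ * QQ r ρ w := by
  obtain ⟨hx, hP1, hP2, hP3⟩ := basic_bounds r ρ hr hr2 hρ hρ1 w hw
  obtain ⟨h1, h2⟩ := QQ_sq r ρ hr hr2 hρ hρ1 w hw
  have hPpos : 0 < PP w := by linarith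
  have hq := QQ_nonneg r ρ w
  set q := QQ r ρ w with hqdef
  set x := w.re with hxdef
  set y := w.im with hydef
  set P := PP w with hPdef
  have hx' := abs_le.1 hx
  have hrρ : r * ρ ≤ r := mul_le_of_le_one_right hr.le hρ1
  have hr22 : r ^ 2 ≤ 1 / 4 := by
    have h := pow_le_pow_left₀ hr.le hr2 2
    norm_num at h
    linarith
  -- d
  have hd0 : 0 ≤ ρ ^ 2 - x ^ 2 / r ^ 2 := by
    rw [sub_nonneg, div_le_iff₀ (by positivity)]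
    linarith [sq_nonneg y]
  obtain ⟨d, hd, hd2⟩ : ∃ d : ℝ, 0 ≤ d ∧ d ^ 2 = ρ ^ 2 - x ^ 2 / r ^ 2 :=
    ⟨_, Real.sqrt_nonneg _, Real.sq_sqrt hd0⟩
  have hdρ : d ≤ ρ := by
    have : 0 ≤ x ^ 2 / r ^ 2 := by positivity
    exact (pow_le_pow_iff_left₀ hd hρ.le two_ne_zero).1 (by linarith)
  have hx2 : x ^ 2 = r ^ 2 * (ρ ^ 2 - d ^ 2) := by
    rw [hd2]; field_simp; ring
  have hy2 : y ^ 2 ≤ r ^ 2 * d ^ 2 := by linarith
  rw [← hd2] at h1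
  have hdq : d ≤ 2 * q := by
    have h4 : 3 / 4 ≤ 1 - r ^ 2 := by linarith
    have h5 : 3 / 4 * d ^ 2 ≤ (1 - r ^ 2) * d ^ 2 := mul_le_mul_of_nonneg_right h4 (sq_nonneg d)
    have h6 : q ^ 2 * P ≤ q ^ 2 * (9 / 4) := mul_le_mul_of_nonneg_left hP2 (sq_nonneg q)
    have h7 : d ^ 2 ≤ (2 * q) ^ 2 := by linarith [sq_nonneg q]
    exact (pow_le_pow_iff_left₀ hd (by positivity) two_ne_zero).1 h7
  -- s
  obtain ⟨s, hs0, hs2, hsdef⟩ : ∃ s : ℝ, 0 ≤ s ∧ s ^ 2 = 1 - r ^ 2 ∧ s = √(1 - r ^ 2) :=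
    ⟨_, Real.sqrt_nonneg _, Real.sq_sqrt (by linarith), rfl⟩
  have hs1 : s ≤ 1 := (pow_le_pow_iff_left₀ hs0 zero_le_one two_ne_zero).1
    (by rw [one_pow]; linarith [sq_nonneg r])
  have hs3 : 1 - s ≤ r ^ 2 := by
    have : s ^ 2 ≤ s := by rw [pow_two]; exact mul_le_of_le_one_left hs0 hs1
    linarith
  have hD : DD r ρ w = (1 - s) * (ρ ^ 2 - (x ^ 2 + y ^ 2) / r ^ 2) := by
    unfold DD; rw [← hsdef]
  have hD0 : 0 ≤ ρ ^ 2 - (x ^ 2 + y ^ 2) / r ^ 2 := by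
    rw [sub_nonneg, div_le_iff₀ (by positivity)]
    linarith
  have hD1 : ρ ^ 2 - (x ^ 2 + y ^ 2) / r ^ 2 ≤ d ^ 2 := by
    rw [hd2]
    have : x ^ 2 / r ^ 2 ≤ (x ^ 2 + y ^ 2) / r ^ 2 := by
      gcongr; linarith [sq_nonneg y]
    linarith
  have hD2 : 0 ≤ DD r ρ w := by rw [hD]; exact mul_nonneg (by linarith) hD0
  have hD3 : DD r ρ w ≤ r ^ 2 * d ^ 2 := by
    rw [hD]; exact mul_le_mul hs3 hD1 hD0 (by positivity)
  -- psi0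
  have hA0 : 0 ≤ (2 * y ^ 2 + DD r ρ w * (1 + x)) / P := by
    apply div_nonneg _ hPpos.le
    have : 0 ≤ 1 + x := by linarith [hx'.1]
    positivity
  have hA1 : (2 * y ^ 2 + DD r ρ w * (1 + x)) / P ≤ 32 * r ^ 2 * ρ * q := by
    rw [div_le_iff₀ hPpos]
    have e1 : DD r ρ w * (1 + x) ≤ r ^ 2 * d ^ 2 * 2 := by
      apply mul_le_mul hD3 (by linarith [hx'.2]) (by linarith [hx'.1]) (by positivity)
    have e2 : d ^ 2 ≤ ρ * (2 * q) := by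
      rw [pow_two]; exact mul_le_mul hdρ hdq hd hρ.le
    have e3 : r ^ 2 * d ^ 2 ≤ r ^ 2 * (ρ * (2 * q)) := by gcongr
    have e4 : 32 * r ^ 2 * ρ * q * (1 / 4) ≤ 32 * r ^ 2 * ρ * q * P := by gcongr
    linarith
  -- psi1
  have hB : |(ρ ^ 2 * (1 + x) + x + (x ^ 2 + y ^ 2)) / P| ≤ ρ * q := by
    have e0 : q ^ 2 * P = P - (1 - ρ ^ 2) * (1 - r ^ 2) := by
      rw [h2]; field_simp
    have hPe : P = (1 + x) ^ 2 + y ^ 2 := rfl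
    -- (Re a)^2 ≤ |a|^2
    have e1 : (ρ ^ 2 * (1 + x) + x + (x ^ 2 + y ^ 2)) ^ 2 ≤ ((ρ ^ 2 + x) ^ 2 + y ^ 2) * P := by
      rw [hPe]
      linarith [sq_nonneg (y * (1 - ρ ^ 2))]
    have e2 : (ρ ^ 2 + x) ^ 2 + y ^ 2 ≤ ρ ^ 2 * (q ^ 2 * P) := by
      rw [e0, hPe]
      have : 0 ≤ (1 - ρ ^ 2) * (ρ ^ 2 * r ^ 2 - (x ^ 2 + y ^ 2)) := by
        apply mul_nonneg
        · linarith [pow_le_one₀ (n := 2) hρ.le hρ1]
        · linarith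
      linarith
    have e3 : (ρ ^ 2 * (1 + x) + x + (x ^ 2 + y ^ 2)) ^ 2 ≤ (ρ * q * P) ^ 2 := by
      calc _ ≤ ((ρ ^ 2 + x) ^ 2 + y ^ 2) * P := e1
        _ ≤ (ρ ^ 2 * (q ^ 2 * P)) * P := by gcongr
        _ = _ := by ring
    have e4 : |ρ ^ 2 * (1 + x) + x + (x ^ 2 + y ^ 2)| ≤ ρ * q * P :=
      abs_le_of_sq_le_sq e3 (by positivity)
    rw [abs_div, abs_of_pos hPpos, div_le_iff₀ hPpos]
    exact e4
  have hsplit : Psi κ r ρ w = -((2 * y ^ 2 + DD r ρ w * (1 + x)) / P)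
      + κ * r ^ 2 * ((ρ ^ 2 * (1 + x) + x + (x ^ 2 + y ^ 2)) / P) := by
    unfold Psi Num
    ring
  rw [hsplit]
  calc _ ≤ |-((2 * y ^ 2 + DD r ρ w * (1 + x)) / P)|
      + |κ * r ^ 2 * ((ρ ^ 2 * (1 + x) + x + (x ^ 2 + y ^ 2)) / P)| := abs_add_le _ _
    _ ≤ 32 * r ^ 2 * ρ * q + 1 * r ^ 2 * (ρ * q) := by
      rw [abs_neg, abs_of_nonneg hA0, abs_mul, abs_of_nonneg (by positivity : 0 ≤ κ * r ^ 2)]
      gcongr
    _ = _ := by ring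


section


variable {E : Type} [NormedAddCommGroup E] [InnerProductSpace ℂ E]
    [FiniteDimensional ℂ E] [MeasurableSpace E] [BorelSpace E]

/-- unit vectors are conjugate under linear isometries -/
theorem exists_iso {e v : E} (he : ‖e‖ = 1) (hv : ‖v‖ = 1) : ∃ L : E ≃ₗᵢ[ℂ] E, L e = v := by
  let L0 : (ℂ ∙ e) →ₗᵢ[ℂ] E := (LinearIsometry.toSpanSingleton ℂ E hv).comp
    (LinearIsometryEquiv.toSpanUnitSingleton e he).symm.toLinearIsometry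
  have hL0 : L0 ⟨e, Submodule.mem_span_singleton_self e⟩ = v := by
    have : (LinearIsometryEquiv.toSpanUnitSingleton (𝕜 := ℂ) e he).symm
        ⟨e, Submodule.mem_span_singleton_self e⟩ = 1 := by
      rw [LinearIsometryEquiv.symm_apply_eq]
      apply Subtype.ext
      simp
    show LinearIsometry.toSpanSingleton ℂ E hv ((LinearIsometryEquiv.toSpanUnitSingleton e he).symm
        ⟨e, Submodule.mem_span_singleton_self e⟩) = v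
    rw [this]
    simp
  let L1 : E →ₗᵢ[ℂ] E := L0.extend
  refine ⟨L1.toLinearIsometryEquiv rfl, ?_⟩
  have h1 : L1 ((⟨e, Submodule.mem_span_singleton_self e⟩ : (ℂ ∙ e) ) : E) = L0 ⟨e, Submodule.mem_span_singleton_self e⟩ :=
    LinearIsometry.extend_apply L0 _
  rw [hL0] at h1
  exact h1

/-- the vectors fixed by the stabiliser of `z` are multiples of `z`. -/
theorem fixed_span {z V : E} (h : ∀ L : E ≃ₗᵢ[ℂ] E, L z = z → L V = V) :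
    ∃ c : ℂ, V = c • z := by
  have h1 := h (Submodule.reflection (ℂ ∙ z))
    (Submodule.reflection_mem_subspace_eq_self (Submodule.mem_span_singleton_self z))
  rw [Submodule.reflection_eq_self_iff] at h1
  obtain ⟨c, hc⟩ := Submodule.mem_span_singleton.1 h1
  exact ⟨c, hc.symm⟩

theorem fixed_zero {V : E} (h : ∀ L : E ≃ₗᵢ[ℂ] E, L 0 = 0 → L V = V) : V = 0 := by
  have h1 := h (LinearIsometryEquiv.neg ℂ) (by simp)
  have h2 : -V = V := h1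
  have h3 : (2 : ℂ) • V = 0 := by
    rw [two_smul]; nth_rewrite 1 [← h2]; simp
  simpa using h3

/-- radial structure of equivariant fields -/
theorem radial (F : E → E) (hequi : ∀ (L : E ≃ₗᵢ[ℂ] E) (z : E), ‖z‖ ≤ 1 → F (L z) = L (F z))
    {e : E} (he : ‖e‖ = 1) (p : E) (hp : ‖p‖ ≤ 1) :
    F p = (⟪e, F ((‖p‖ : ℂ) • e)⟫_ℂ / (‖p‖ : ℂ)) • p := by
  by_cases hp0 : p = 0
  · subst hp0
    rw [smul_zero]
    exact fixed_zero fun L _ => by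
      have := hequi L 0 (by simp)
      rw [map_zero] at this
      exact this.symm
  have hn : ‖p‖ ≠ 0 := norm_ne_zero_iff.2 hp0
  have hnC : (‖p‖ : ℂ) ≠ 0 := by exact_mod_cast hn
  obtain ⟨L, hL⟩ := exists_iso (e := e) (v := (‖p‖ : ℂ)⁻¹ • p) he (by
    rw [norm_smul, norm_inv, Complex.norm_real, norm_norm, inv_mul_cancel₀ hn])
  have hLp : L ((‖p‖ : ℂ) • e) = p := by
    rw [map_smul, hL, smul_smul, mul_inv_cancel₀ hnC, one_smul]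
  have hpe : ‖(‖p‖ : ℂ) • e‖ ≤ 1 := by
    rw [norm_smul, he, mul_one, Complex.norm_real, norm_norm]; exact hp
  obtain ⟨c, hc⟩ := fixed_span (z := (‖p‖ : ℂ) • e) (V := F ((‖p‖ : ℂ) • e)) fun L hL => by
    rw [← hequi L _ hpe, hL]
  have h1 : F p = c • p := by
    conv_lhs => rw [← hLp]
    rw [hequi L _ hpe, hc, map_smul, hLp]
  have hee : ⟪e, e⟫_ℂ = 1 := by rw [inner_self_cast, he]; norm_num
  have h2 : ⟪e, F ((‖p‖ : ℂ) • e)⟫_ℂ = c * (‖p‖ : ℂ) := by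
    rw [hc, inner_smul_right, inner_smul_right, hee, mul_one]
  rw [h1, h2, mul_div_cancel_right₀ _ hnC]

/-- transfer of `hconj` to all measurable functions -/
theorem conj_map {σ : Measure E} (hp : IsProbabilityMeasure σ) (z : E)
    (hconj : ∀ (φ : ℂ → ℂ), Continuous φ →
      ∫ ζ, φ (⟪z, ζ⟫_ℂ) ∂σ = ∫ ζ, φ (conj ⟪z, ζ⟫_ℂ) ∂σ) :
    σ.map (fun ζ => ⟪z, ζ⟫_ℂ) = σ.map (fun ζ => conj ⟪z, ζ⟫_ℂ) := by
  have hu : Continuous (fun ζ : E => ⟪z, ζ⟫_ℂ) := (innerSL ℂ z).continuous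
  have hu2 : Continuous (fun ζ : E => conj ⟪z, ζ⟫_ℂ) := Complex.continuous_conj.comp hu
  have : IsProbabilityMeasure (σ.map (fun ζ => ⟪z, ζ⟫_ℂ)) :=
    Measure.isProbabilityMeasure_map hu.measurable.aemeasurable
  have : IsProbabilityMeasure (σ.map (fun ζ => conj ⟪z, ζ⟫_ℂ)) :=
    Measure.isProbabilityMeasure_map hu2.measurable.aemeasurable
  apply ext_of_forall_integral_eq_of_IsFiniteMeasure
  intro f
  rw [integral_map hu.measurable.aemeasurable f.continuous.measurable.aestronglyMeasurable,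
    integral_map hu2.measurable.aemeasurable f.continuous.measurable.aestronglyMeasurable]
  have h := hconj (fun w => ((f w : ℝ) : ℂ)) (Complex.continuous_ofReal.comp f.continuous)
  rw [integral_complex_ofReal, integral_complex_ofReal] at h
  exact_mod_cast h


end

section


theorem measurable_PP : Measurable PP := by
  unfold PP
  exact ((measurable_const.add Complex.measurable_re).pow_const 2).add (Complex.measurable_im.pow_const 2)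

theorem measurable_QQ (r ρ : ℝ) : Measurable (QQ r ρ) := by
  unfold QQ
  exact (measurable_const.sub (measurable_const.div measurable_PP)).sqrt

theorem measurable_DD (r ρ : ℝ) : Measurable (DD r ρ) := by
  unfold DD
  have h1 := Complex.measurable_re
  have h2 := Complex.measurable_im
  fun_prop

theorem measurable_Psi (κ r ρ : ℝ) : Measurable (Psi κ r ρ) := by
  unfold Psi Num
  have h1 := Complex.measurable_re
  have h2 := Complex.measurable_im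
  have h3 := measurable_PP
  have h4 := measurable_DD r ρ
  fun_prop

theorem measurable_HH (κ r ρ : ℝ) : Measurable (HH κ r ρ) := by
  unfold HH
  have h3 := Complex.continuous_conj.measurable
  have h4 : Measurable (fun w => ((ρ ^ 2 - DD r ρ w : ℝ) : ℂ)) :=
    Complex.measurable_ofReal.comp (measurable_const.sub (measurable_DD r ρ))
  fun_prop

theorem integral_Psi {E : Type} [NormedAddCommGroup E] [InnerProductSpace ℂ E]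
    [FiniteDimensional ℂ E] [MeasurableSpace E] [BorelSpace E]
    (σ : Measure E) (hσ : IsSph σ) (n : ℝ) (hn : 1 ≤ n) (z : E)
    (hmean : ∫ ζ, ⟪z, ζ⟫_ℂ ∂σ = 0)
    (hsq : ∫ ζ, ⟪z, ζ⟫_ℂ ^ 2 ∂σ = 0)
    (hnormsq : n * ∫ ζ, ‖⟪z, ζ⟫_ℂ‖ ^ 2 ∂σ = ‖z‖ ^ 2)
    (r : ℝ) (hr : 0 < r) (hr2 : r ≤ 1 / 2) (hρ : 0 < ‖z‖) (hρ1 : ‖z‖ ≤ 1)
    (κ : ℝ) (hκ : κ = (n + 1) / (2 * n)) :
    |∫ ζ, Psi κ r ‖z‖ ((r : ℂ) * ⟪z, ζ⟫_ℂ) ∂σ| ≤ 101 * r ^ 3 * ‖z‖ := by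
  have := hσ.prob
  have hκ0 : 0 ≤ κ := by rw [hκ]; positivity
  have hκ1 : κ ≤ 1 := by rw [hκ, div_le_one (by positivity)]; linarith
  obtain ⟨ρ, hρdef⟩ : ∃ ρ, ρ = ‖z‖ := ⟨_, rfl⟩
  rw [← hρdef] at hnormsq hρ hρ1 ⊢
  have hu : Continuous (fun ζ : E => ⟪z, ζ⟫_ℂ) := (innerSL ℂ z).continuous
  have hbd : ∀ᵐ ζ ∂σ, ‖⟪z, ζ⟫_ℂ‖ ≤ ρ := by
    filter_upwards [hσ.supp] with ζ hζ
    calc _ ≤ ‖z‖ * ‖ζ‖ := norm_inner_le_norm _ _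
      _ = ρ := by rw [hζ, mul_one, ← hρdef]
  have hXm : Measurable (fun ζ : E => (⟪z, ζ⟫_ℂ).re) := Complex.measurable_re.comp hu.measurable
  have hYm : Measurable (fun ζ : E => (⟪z, ζ⟫_ℂ).im) := Complex.measurable_im.comp hu.measurable
  have hbd2 : ∀ᵐ ζ ∂σ, (⟪z, ζ⟫_ℂ).re ^ 2 + (⟪z, ζ⟫_ℂ).im ^ 2 ≤ ρ ^ 2 := by
    filter_upwards [hbd] with ζ hζ
    have : ‖⟪z, ζ⟫_ℂ‖ ^ 2 = (⟪z, ζ⟫_ℂ).re ^ 2 + (⟪z, ζ⟫_ℂ).im ^ 2 := by
      rw [Complex.sq_norm, Complex.normSq_apply]; ring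
    rw [← this]
    have := norm_nonneg (⟪z, ζ⟫_ℂ)
    gcongr
  -- integrability
  have iu : Integrable (fun ζ : E => ⟪z, ζ⟫_ℂ) σ :=
    Integrable.of_bound hu.measurable.aestronglyMeasurable ρ hbd
  have iu2 : Integrable (fun ζ : E => ⟪z, ζ⟫_ℂ ^ 2) σ := by
    refine Integrable.of_bound (hu.pow 2).measurable.aestronglyMeasurable (ρ ^ 2) ?_
    filter_upwards [hbd] with ζ hζ
    rw [norm_pow]; gcongr
  have iX : Integrable (fun ζ : E => (⟪z, ζ⟫_ℂ).re) σ := iu.re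
  have iS : Integrable (fun ζ : E => (⟪z, ζ⟫_ℂ).re ^ 2 + (⟪z, ζ⟫_ℂ).im ^ 2) σ := by
    refine Integrable.of_bound ((hXm.pow_const 2).add (hYm.pow_const 2)).aestronglyMeasurable (ρ ^ 2) ?_
    filter_upwards [hbd2] with ζ hζ
    rw [Real.norm_eq_abs, abs_of_nonneg (by positivity)]; exact hζ
  have iT : Integrable (fun ζ : E => (⟪z, ζ⟫_ℂ).re ^ 2 - (⟪z, ζ⟫_ℂ).im ^ 2) σ := by
    refine Integrable.of_bound ((hXm.pow_const 2).sub (hYm.pow_const 2)).aestronglyMeasurable (ρ ^ 2) ?_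
    filter_upwards [hbd2] with ζ hζ
    rw [Real.norm_eq_abs, abs_le]
    constructor <;> linarith [sq_nonneg (⟪z, ζ⟫_ℂ).re, sq_nonneg (⟪z, ζ⟫_ℂ).im]
  -- values
  have vX : ∫ ζ, (⟪z, ζ⟫_ℂ).re ∂σ = 0 := by
    have := Complex.reCLM.integral_comp_comm iu
    rw [hmean] at this
    simpa using this
  have vT : ∫ ζ, ((⟪z, ζ⟫_ℂ).re ^ 2 - (⟪z, ζ⟫_ℂ).im ^ 2) ∂σ = 0 := by
    have := Complex.reCLM.integral_comp_comm iu2
    rw [hsq] at this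
    simp only [Complex.reCLM_apply, Complex.zero_re] at this
    rw [← this]
    apply integral_congr_ae
    filter_upwards with ζ
    rw [pow_two (⟪z, ζ⟫_ℂ), Complex.mul_re]; ring
  have vS : ∫ ζ, ((⟪z, ζ⟫_ℂ).re ^ 2 + (⟪z, ζ⟫_ℂ).im ^ 2) ∂σ = ρ ^ 2 / n := by
    have : ∫ ζ, ((⟪z, ζ⟫_ℂ).re ^ 2 + (⟪z, ζ⟫_ℂ).im ^ 2) ∂σ = ∫ ζ, ‖⟪z, ζ⟫_ℂ‖ ^ 2 ∂σ := by
      apply integral_congr_ae
      filter_upwards with ζ
      rw [Complex.sq_norm, Complex.normSq_apply]; ring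
    rw [this, ← hnormsq]
    field_simp
  -- s
  have hr22 : r ^ 2 ≤ 1 / 4 := by
    have h := pow_le_pow_left₀ hr.le hr2 2
    norm_num at h
    linarith
  obtain ⟨s, hs0, hs2, hsdef⟩ : ∃ s : ℝ, 0 ≤ s ∧ s ^ 2 = 1 - r ^ 2 ∧ s = √(1 - r ^ 2) :=
    ⟨_, Real.sqrt_nonneg _, Real.sq_sqrt (by linarith), rfl⟩
  have hs1 : s ≤ 1 := (pow_le_pow_iff_left₀ hs0 zero_le_one two_ne_zero).1
    (by rw [one_pow]; linarith [sq_nonneg r])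
  have hs3 : 1 - s ≤ r ^ 2 := by
    have : s ^ 2 ≤ s := by rw [pow_two]; exact mul_le_of_le_one_left hs0 hs1
    linarith
  set N1 : E → ℝ := fun ζ => (κ * r ^ 2 * ρ ^ 2 - (1 - s) * ρ ^ 2)
    + ((⟪z, ζ⟫_ℂ).re ^ 2 + (⟪z, ζ⟫_ℂ).im ^ 2) * (-r ^ 2 + (1 - s) + κ * r ^ 4)
    + ((⟪z, ζ⟫_ℂ).re ^ 2 - (⟪z, ζ⟫_ℂ).im ^ 2) * r ^ 2
    + (⟪z, ζ⟫_ℂ).re * (κ * r ^ 3 * (ρ ^ 2 + 1)) with hN1
  have i1 : Integrable (fun ζ : E => (κ * r ^ 2 * ρ ^ 2 - (1 - s) * ρ ^ 2)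
      + ((⟪z, ζ⟫_ℂ).re ^ 2 + (⟪z, ζ⟫_ℂ).im ^ 2) * (-r ^ 2 + (1 - s) + κ * r ^ 4)) σ :=
    (integrable_const _).add (iS.mul_const _)
  have i2 : Integrable (fun ζ : E => (κ * r ^ 2 * ρ ^ 2 - (1 - s) * ρ ^ 2)
      + ((⟪z, ζ⟫_ℂ).re ^ 2 + (⟪z, ζ⟫_ℂ).im ^ 2) * (-r ^ 2 + (1 - s) + κ * r ^ 4)
      + ((⟪z, ζ⟫_ℂ).re ^ 2 - (⟪z, ζ⟫_ℂ).im ^ 2) * r ^ 2) σ := i1.add (iT.mul_const _)
  have iN1 : Integrable N1 σ := i2.add (iX.mul_const _)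
  have vN1 : ∫ ζ, N1 ζ ∂σ = (κ * r ^ 2 * ρ ^ 2 - (1 - s) * ρ ^ 2)
      + (ρ ^ 2 / n) * (-r ^ 2 + (1 - s) + κ * r ^ 4) := by
    have h1 := integral_add i2 (iX.mul_const (κ * r ^ 3 * (ρ ^ 2 + 1)))
    have h2 := integral_add i1 (iT.mul_const (r ^ 2))
    have h3 := integral_add (μ := σ) (integrable_const (κ * r ^ 2 * ρ ^ 2 - (1 - s) * ρ ^ 2))
      (iS.mul_const (-r ^ 2 + (1 - s) + κ * r ^ 4))
    rw [integral_const, integral_mul_const, vS] at h3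
    rw [h3, integral_mul_const, vT] at h2
    rw [h2, integral_mul_const, vX] at h1
    rw [hN1]
    refine h1.trans ?_
    simp
  have bN1 : |∫ ζ, N1 ζ ∂σ| ≤ r ^ 3 * ρ := by
    rw [vN1]
    obtain ⟨δ, hδ⟩ : ∃ δ, δ = (1 - s) - r ^ 2 / 2 := ⟨_, rfl⟩
    have hδ0 : 0 ≤ δ := by
      have : (1 - s) ^ 2 ≥ 0 := sq_nonneg _
      rw [hδ]; linarith
    have hδ1 : δ ≤ r ^ 4 / 2 := by
      have e1 : δ = (1 - s) ^ 2 / 2 := by rw [hδ]; linarith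
      rw [e1]
      have : (1 - s) ^ 2 ≤ (r ^ 2) ^ 2 := by
        apply pow_le_pow_left₀ (by linarith) hs3
      linarith
    have e2 : (κ * r ^ 2 * ρ ^ 2 - (1 - s) * ρ ^ 2)
      + (ρ ^ 2 / n) * (-r ^ 2 + (1 - s) + κ * r ^ 4)
        = -(δ * ρ ^ 2 * (1 - 1 / n)) + κ * r ^ 4 * ρ ^ 2 / n := by
      have : 1 - s = δ + r ^ 2 / 2 := by rw [hδ]; ring
      rw [this, hκ]
      field_simp
      ring
    rw [e2]
    have hn1 : 0 ≤ 1 - 1 / n := by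
      rw [sub_nonneg, div_le_one (by linarith)]; exact hn
    have hn2 : 1 - 1 / n ≤ 1 := by
      have : 0 ≤ 1 / n := by positivity
      linarith
    have a1 : 0 ≤ δ * ρ ^ 2 * (1 - 1 / n) := by positivity
    have a2 : δ * ρ ^ 2 * (1 - 1 / n) ≤ r ^ 4 / 2 * ρ ^ 2 * 1 := by gcongr
    have a3 : 0 ≤ κ * r ^ 4 * ρ ^ 2 / n := by positivity
    have a4 : κ * r ^ 4 * ρ ^ 2 / n ≤ 1 * r ^ 4 * ρ ^ 2 / 1 := by gcongr
    have a5 : r ^ 4 * ρ ^ 2 ≤ r ^ 3 * ρ / 2 := by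
      have b1 : r ^ 4 ≤ r ^ 3 / 2 := by
        have : r ^ 4 = r ^ 3 * r := by ring
        rw [this]
        have h3 : 0 < r ^ 3 := by positivity
        calc r ^ 3 * r ≤ r ^ 3 * (1 / 2) := mul_le_mul_of_nonneg_left hr2 h3.le
          _ = r ^ 3 / 2 := by ring
      have b2 : ρ ^ 2 ≤ ρ := by rw [pow_two]; exact mul_le_of_le_one_left hρ.le hρ1
      calc r ^ 4 * ρ ^ 2 ≤ (r ^ 3 / 2) * ρ := by gcongr
        _ = _ := by ring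
    rw [abs_le]
    constructor <;> linarith
  -- difference
  have hPsim : Measurable (fun ζ : E => Psi κ r ρ ((r : ℂ) * ⟪z, ζ⟫_ℂ)) :=
    (measurable_Psi κ r ρ).comp (hu.measurable.const_mul _)
  have hwb : ∀ᵐ ζ ∂σ, ((r : ℂ) * ⟪z, ζ⟫_ℂ).re ^ 2 + ((r : ℂ) * ⟪z, ζ⟫_ℂ).im ^ 2 ≤ r ^ 2 * ρ ^ 2 := by
    filter_upwards [hbd2] with ζ hζ
    rw [Complex.re_ofReal_mul, Complex.im_ofReal_mul]
    have h5 := mul_le_mul_of_nonneg_left hζ (sq_nonneg r)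
    linarith
  have iPsi : Integrable (fun ζ : E => Psi κ r ρ ((r : ℂ) * ⟪z, ζ⟫_ℂ)) σ := by
    refine Integrable.of_bound hPsim.aestronglyMeasurable (33 * r ^ 2 * ρ * 1) ?_
    filter_upwards [hwb] with ζ hζ
    rw [Real.norm_eq_abs]
    refine (Psi_bound κ r ρ hκ0 hκ1 hr hr2 hρ hρ1 _ hζ).trans ?_
    have := QQ_le_one r ρ hr hr2 hρ hρ1 _ hζ
    gcongr
  have hdiff : |∫ ζ, (Psi κ r ρ ((r : ℂ) * ⟪z, ζ⟫_ℂ) - N1 ζ) ∂σ| ≤ 100 * r ^ 3 * ρ := by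
    have key : ∀ᵐ ζ ∂σ, ‖Psi κ r ρ ((r : ℂ) * ⟪z, ζ⟫_ℂ) - N1 ζ‖ ≤ 100 * r ^ 3 * ρ := by
      filter_upwards [hwb, hbd2] with ζ hζ hζ2
      obtain ⟨hx, hP1, hP2, hP3⟩ := basic_bounds r ρ hr hr2 hρ hρ1 _ hζ
      have hPb := Psi_bound κ r ρ hκ0 hκ1 hr hr2 hρ hρ1 _ hζ
      have hQ := QQ_le_one r ρ hr hr2 hρ hρ1 _ hζ
      have hQ0 := QQ_nonneg r ρ ((r : ℂ) * ⟪z, ζ⟫_ℂ)
      have hPpos : PP ((r : ℂ) * ⟪z, ζ⟫_ℂ) ≠ 0 := by linarith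
      have e1 : Psi κ r ρ ((r : ℂ) * ⟪z, ζ⟫_ℂ) - N1 ζ
          = Psi κ r ρ ((r : ℂ) * ⟪z, ζ⟫_ℂ) * (1 - PP ((r : ℂ) * ⟪z, ζ⟫_ℂ))
            - (1 - s) * (ρ ^ 2 - ((⟪z, ζ⟫_ℂ).re ^ 2 + (⟪z, ζ⟫_ℂ).im ^ 2)) * ((r : ℂ) * ⟪z, ζ⟫_ℂ).re := by
        have e2 : Psi κ r ρ ((r : ℂ) * ⟪z, ζ⟫_ℂ) * PP ((r : ℂ) * ⟪z, ζ⟫_ℂ)
            = Num κ r ρ ((r : ℂ) * ⟪z, ζ⟫_ℂ) := by
          unfold Psi; field_simp
        have e3 : Num κ r ρ ((r : ℂ) * ⟪z, ζ⟫_ℂ) = N1 ζ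
            - (1 - s) * (ρ ^ 2 - ((⟪z, ζ⟫_ℂ).re ^ 2 + (⟪z, ζ⟫_ℂ).im ^ 2)) * ((r : ℂ) * ⟪z, ζ⟫_ℂ).re := by
          unfold Num DD
          rw [hN1, ← hsdef]
          simp only [Complex.re_ofReal_mul, Complex.im_ofReal_mul]
          field_simp
          ring
        linear_combination e2 + e3
      rw [e1, Real.norm_eq_abs]
      have b1 : |Psi κ r ρ ((r : ℂ) * ⟪z, ζ⟫_ℂ) * (1 - PP ((r : ℂ) * ⟪z, ζ⟫_ℂ))| ≤ (33 * r ^ 2 * ρ * 1) * (3 * r) := by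
        rw [abs_mul]
        apply mul_le_mul _ hP3 (abs_nonneg _) (by positivity)
        refine hPb.trans ?_
        gcongr
      have b2 : |(1 - s) * (ρ ^ 2 - ((⟪z, ζ⟫_ℂ).re ^ 2 + (⟪z, ζ⟫_ℂ).im ^ 2)) * ((r : ℂ) * ⟪z, ζ⟫_ℂ).re|
          ≤ r ^ 2 * 1 * (r * ρ) := by
        rw [abs_mul, abs_mul]
        have c1 : |1 - s| ≤ r ^ 2 := by rw [abs_le]; constructor <;> linarith
        have c2 : |ρ ^ 2 - ((⟪z, ζ⟫_ℂ).re ^ 2 + (⟪z, ζ⟫_ℂ).im ^ 2)| ≤ 1 := by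
          have hρ2 : ρ ^ 2 ≤ 1 := pow_le_one₀ hρ.le hρ1
          rw [abs_le]
          constructor <;> linarith [sq_nonneg (⟪z, ζ⟫_ℂ).re, sq_nonneg (⟪z, ζ⟫_ℂ).im, hρ2,
            sq_nonneg ρ]
        gcongr
      calc _ ≤ _ := abs_sub _ _
        _ ≤ (33 * r ^ 2 * ρ * 1) * (3 * r) + r ^ 2 * 1 * (r * ρ) := add_le_add b1 b2
        _ = _ := by ring
    have := norm_integral_le_of_norm_le_const key
    simpa using this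
  have hfin : ∫ ζ, Psi κ r ρ ((r : ℂ) * ⟪z, ζ⟫_ℂ) ∂σ
      = (∫ ζ, (Psi κ r ρ ((r : ℂ) * ⟪z, ζ⟫_ℂ) - N1 ζ) ∂σ) + ∫ ζ, N1 ζ ∂σ := by
    rw [integral_sub iPsi iN1]; ring
  rw [hfin]
  calc _ ≤ _ := abs_add_le _ _
    _ ≤ 100 * r ^ 3 * ρ + r ^ 3 * ρ := add_le_add hdiff bN1
    _ = _ := by ring


end

section


variable {E : Type} [NormedAddCommGroup E] [InnerProductSpace ℂ E]
    [FiniteDimensional ℂ E] [MeasurableSpace E] [BorelSpace E]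

theorem L_int {σ : Measure E} (hσ : IsSph σ) (L : E ≃ₗᵢ[ℂ] E) (G : E → E)
    (h : ∀ᵐ ζ ∂σ, L (G ζ) = G (L ζ)) : L (∫ ζ, G ζ ∂σ) = ∫ ζ, G ζ ∂σ := by
  calc L (∫ ζ, G ζ ∂σ) = ∫ ζ, L (G ζ) ∂σ :=
        (L.toContinuousLinearEquiv.integral_comp_comm G).symm
    _ = ∫ ζ, G (L ζ) ∂σ := integral_congr_ae h
    _ = ∫ ζ, G ζ ∂(σ.map L) := by
      exact ((L.toHomeomorph.measurableEmbedding).integral_map (μ := σ) G).symm
    _ = ∫ ζ, G ζ ∂σ := by rw [hσ.inv L]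

theorem norm_real_smul {r : ℝ} (hr : 0 < r) {ζ : E} (hζ : ‖ζ‖ = 1) : ‖(r : ℂ) • ζ‖ = r := by
  rw [norm_smul, hζ, mul_one, Complex.norm_real, Real.norm_eq_abs, abs_of_pos hr]

theorem measurable_sq' : Measurable (sq : E → ℝ) := continuous_sq.measurable

theorem measurable_mob_left (r : ℝ) (z : E) : Measurable (fun ζ : E => mob ((r : ℂ) • ζ) z) := by
  unfold mob
  have h1 : Measurable (fun ζ : E => ⟪(r : ℂ) • ζ, z⟫_ℂ) :=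
    ((continuous_const.smul continuous_id).inner continuous_const).measurable
  have h2 : Measurable (fun ζ : E => (sq ((r : ℂ) • ζ) : ℂ)) :=
    Complex.measurable_ofReal.comp (measurable_sq'.comp (continuous_const.smul continuous_id).measurable)
  have h3 : Measurable (fun ζ : E => (r : ℂ) • ζ) := (continuous_const.smul continuous_id).measurable
  exact ((measurable_const.add h1).inv).smul ((h3.add (h2.smul measurable_const)).add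
    ((h1.div (measurable_const.add h2)).smul h3))

theorem measurable_mob_right (r : ℝ) (z : E) : Measurable (fun ζ : E => mob z ((r : ℂ) • ζ)) := by
  unfold mob
  have h1 : Measurable (fun ζ : E => ⟪z, (r : ℂ) • ζ⟫_ℂ) :=
    (continuous_const.inner (continuous_const.smul continuous_id)).measurable
  have h3 : Measurable (fun ζ : E => (r : ℂ) • ζ) := (continuous_const.smul continuous_id).measurable
  exact ((measurable_const.add h1).inv).smul ((measurable_const.add (h3.const_smul _)).add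
    ((h1.div measurable_const).smul measurable_const))

/-- norm of the Mobius image -/
theorem norm_mob_eq {r : ℝ} (hr : 0 < r) (hr1 : r < 1) {z ζ : E} (hz : ‖z‖ ≤ 1) (hζ : ‖ζ‖ = 1) :
    ‖mob z ((r : ℂ) • ζ)‖ = QQ r ‖z‖ ((r : ℂ) * ⟪z, ζ⟫_ℂ) ∧
    ‖mob ((r : ℂ) • ζ) z‖ = QQ r ‖z‖ ((r : ℂ) * ⟪z, ζ⟫_ℂ) := by
  have hn := norm_real_smul (E := E) hr hζ
  have h1 : 1 + ⟪z, (r : ℂ) • ζ⟫_ℂ ≠ 0 := one_add_inner_ne' hz (by rw [hn]; exact hr1)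
  have h2 := norm_mob_sq' hz h1
  have h3 : ⟪z, (r : ℂ) • ζ⟫_ℂ = (r : ℂ) * ⟪z, ζ⟫_ℂ := inner_smul_right _ _ _
  have h4 : ‖mob z ((r : ℂ) • ζ)‖ = QQ r ‖z‖ ((r : ℂ) * ⟪z, ζ⟫_ℂ) := by
    rw [hn, h3, ← PP_norm] at h2
    unfold QQ
    rw [← h2]
    rw [sub_sub_cancel, Real.sqrt_sq (norm_nonneg _)]
  refine ⟨h4, ?_⟩
  rw [norm_mob_symm (by rw [hn]; exact hr1.le) hz, h4]

theorem inner_mob_right {r : ℝ} {z ζ : E} (hz : ‖z‖ ≤ 1) :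
    ⟪z, mob z ((r : ℂ) • ζ)⟫_ℂ
      = (((‖z‖ ^ 2 : ℝ) : ℂ) + (r : ℂ) * ⟪z, ζ⟫_ℂ) / (1 + (r : ℂ) * ⟪z, ζ⟫_ℂ) := by
  rw [inner_mob hz, inner_smul_right, div_eq_mul_inv]
  ring

theorem inner_mob_left {r : ℝ} (hr : 0 < r) (hr1 : r < 1) {z ζ : E} (hζ : ‖ζ‖ = 1) :
    ⟪z, mob ((r : ℂ) • ζ) z⟫_ℂ
      = ((r : ℂ) * ⟪z, ζ⟫_ℂ + ((‖z‖ ^ 2 - DD r ‖z‖ ((r : ℂ) * ⟪z, ζ⟫_ℂ) : ℝ) : ℂ)) /
        (1 + conj ((r : ℂ) * ⟪z, ζ⟫_ℂ)) := by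
  have hn := norm_real_smul (E := E) hr hζ
  have hs : sq ((r : ℂ) • ζ) = √(1 - r ^ 2) := by unfold sq; rw [hn]
  have h1 : ⟪z, (r : ℂ) • ζ⟫_ℂ = (r : ℂ) * ⟪z, ζ⟫_ℂ := inner_smul_right _ _ _
  have h2 : ⟪(r : ℂ) • ζ, z⟫_ℂ = conj ((r : ℂ) * ⟪z, ζ⟫_ℂ) := by
    rw [← h1, inner_conj_symm]
  unfold mob
  simp only [inner_smul_right, inner_add_right]
  rw [h2, inner_self_cast, hs]
  obtain ⟨s, hs0, hs2, hsdef⟩ : ∃ s : ℝ, 0 ≤ s ∧ s ^ 2 = 1 - r ^ 2 ∧ s = √(1 - r ^ 2) :=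
    ⟨_, Real.sqrt_nonneg _, Real.sq_sqrt (by nlinarith), rfl⟩
  have hD : ((‖z‖ ^ 2 - DD r ‖z‖ ((r : ℂ) * ⟪z, ζ⟫_ℂ) : ℝ) : ℂ)
      = (s : ℂ) * ((‖z‖ ^ 2 : ℝ) : ℂ) + conj ((r : ℂ) * ⟪z, ζ⟫_ℂ) / (1 + (s : ℂ)) * ((r : ℂ) * ⟪z, ζ⟫_ℂ) := by
    generalize (r : ℂ) * ⟪z, ζ⟫_ℂ = w
    have e1 : conj w / (1 + (s : ℂ)) * w = (((w.re ^ 2 + w.im ^ 2) / (1 + s) : ℝ) : ℂ) := by
      have : conj w * w = ((w.re ^ 2 + w.im ^ 2 : ℝ) : ℂ) := by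
        apply Complex.ext
        · rw [Complex.ofReal_re]; simp; ring
        · rw [Complex.ofReal_im]; simp; ring
      rw [Complex.ofReal_div, ← this]
      push_cast; ring
    rw [e1, ← Complex.ofReal_mul, ← Complex.ofReal_add]
    congr 1
    unfold DD
    rw [← hsdef]
    have h1s : (1 + s) ≠ 0 := by positivity
    have hr2 : r ^ 2 = (1 - s) * (1 + s) := by nlinarith
    have h1s' : (1 - s) ≠ 0 := by
      intro h; rw [h] at hr2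
      have : 0 < r ^ 2 := by positivity
      rw [hr2] at this; simp at this
    rw [hr2]
    field_simp
    ring
  rw [hD, ← hsdef, div_eq_mul_inv]
  ring


end

-- ===================== TARGET =====================

/-- TARGET.  For a unitarily equivariant continuous vector field `F` on the closed ball, left
averages and spherical means agree up to the factor `1 - κ r²`, `κ = (n+1)/(2n)`, with a uniform
error `o(r²)`. -/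

theorem type_vector {E : Type} [NormedAddCommGroup E] [InnerProductSpace ℂ E]
    [FiniteDimensional ℂ E] [MeasurableSpace E] [BorelSpace E] [Nontrivial E]
    (σ : Measure E) (hσ : IsSph σ)
    (hmean : ∀ a : E, ∫ ζ, ⟪a, ζ⟫_ℂ ∂σ = 0)
    (hsq : ∀ a : E, ∫ ζ, ⟪a, ζ⟫_ℂ ^ 2 ∂σ = 0)
    (hnormsq : ∀ a : E, (Module.finrank ℂ E : ℝ) * ∫ ζ, ‖⟪a, ζ⟫_ℂ‖ ^ 2 ∂σ = ‖a‖ ^ 2)
    (hconj : ∀ (a : E) (φ : ℂ → ℂ), Continuous φ →
      ∫ ζ, φ (⟪a, ζ⟫_ℂ) ∂σ = ∫ ζ, φ (conj ⟪a, ζ⟫_ℂ) ∂σ)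
    (F : E → E) (hF : Continuous F)
    (hequi : ∀ (L : E ≃ₗᵢ[ℂ] E) (z : E), ‖z‖ ≤ 1 → F (L z) = L (F z))
    (ε : ℝ) (hε : 0 < ε) :
    ∃ r₁ : ℝ, 0 < r₁ ∧ r₁ < 1 ∧ ∀ r : ℝ, 0 < r → r < r₁ → ∀ z : E, ‖z‖ ≤ 1 →
      ‖(∫ ζ, F (mob ((r:ℂ) • ζ) z) ∂σ)
        - (((1 - ((Module.finrank ℂ E : ℝ) + 1) / (2 * (Module.finrank ℂ E : ℝ)) * r ^ 2 : ℝ)) : ℂ) •
          (∫ ζ, F (mob z ((r:ℂ) • ζ)) ∂σ)‖ ≤ ε * r ^ 2 := by
  have hprob := hσ.prob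
  obtain ⟨n, hndef⟩ : ∃ n : ℝ, n = (Module.finrank ℂ E : ℝ) := ⟨_, rfl⟩
  rw [← hndef] at hnormsq ⊢
  have hn : 1 ≤ n := by
    rw [hndef]
    have : 0 < Module.finrank ℂ E := Module.finrank_pos
    exact_mod_cast this
  obtain ⟨κ, hκ⟩ : ∃ κ : ℝ, κ = (n + 1) / (2 * n) := ⟨_, rfl⟩
  rw [← hκ]
  have hκ0 : 0 ≤ κ := by rw [hκ]; positivity
  have hκ1 : κ ≤ 1 := by rw [hκ, div_le_one (by positivity)]; linarith
  -- a unit vector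
  obtain ⟨e, he⟩ : ∃ e : E, ‖e‖ = 1 := by
    obtain ⟨v, hv⟩ := exists_ne (0 : E)
    have hvn : ‖v‖ ≠ 0 := norm_ne_zero_iff.2 hv
    exact ⟨(‖v‖ : ℂ)⁻¹ • v, by
      rw [norm_smul, norm_inv, Complex.norm_real, norm_norm, inv_mul_cancel₀ hvn]⟩
  set b : ℝ → ℂ := fun t => ⟪e, F ((t : ℂ) • e)⟫_ℂ with hb
  have hbc : Continuous b := by
    have : Continuous (fun t : ℝ => F ((t : ℂ) • e)) :=
      hF.comp (Complex.continuous_ofReal.smul continuous_const)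
    exact continuous_const.inner this
  -- bound for F
  obtain ⟨M, hM0, hM⟩ : ∃ M : ℝ, 0 ≤ M ∧ ∀ p : E, ‖p‖ ≤ 1 → ‖F p‖ ≤ M := by
    have : ProperSpace E := FiniteDimensional.proper ℂ E
    obtain ⟨C, hC⟩ := (isCompact_closedBall (0 : E) 1).exists_bound_of_continuousOn hF.continuousOn
    have h0 := hC 0 (by simp)
    exact ⟨C, (norm_nonneg _).trans h0, fun p hp => hC p (by simpa using hp)⟩
  have hbM : ∀ t : ℝ, 0 ≤ t → t ≤ 1 → ‖b t‖ ≤ M := by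
    intro t ht0 ht1
    have h1 : ‖(t : ℂ) • e‖ ≤ 1 := by
      rw [norm_smul, he, mul_one, Complex.norm_real, Real.norm_eq_abs, abs_of_nonneg ht0]; exact ht1
    calc ‖b t‖ ≤ ‖e‖ * ‖F ((t : ℂ) • e)‖ := norm_inner_le_norm _ _
      _ ≤ 1 * M := by rw [he]; have := hM _ h1; linarith
      _ = M := one_mul _
  have hb0 : b 0 = 0 := by
    have h0 : F 0 = 0 := fixed_zero fun L _ => by
      have := hequi L 0 (by simp)
      rw [map_zero] at this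
      exact this.symm
    simp [hb, h0]
  -- delta
  obtain ⟨δ, hδ0, hδ1, hδ⟩ : ∃ δ : ℝ, 0 < δ ∧ δ ≤ 1 ∧ ∀ t : ℝ, 0 ≤ t → t ≤ δ → ‖b t‖ ≤ ε / 99 := by
    have hc := Metric.continuous_iff.1 hbc 0 (ε / 99) (by positivity)
    obtain ⟨δ, hδ, h⟩ := hc
    refine ⟨min (δ / 2) 1, by positivity, min_le_right _ _, fun t ht0 ht => ?_⟩
    have h1 := h t (by
      rw [Real.dist_eq, sub_zero, abs_of_nonneg ht0]
      have := min_le_left (δ / 2) 1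
      linarith)
    rw [hb0, dist_zero_right] at h1
    exact h1.le
  set h : ℝ → ℂ := fun t => b t / ((max t δ : ℝ) : ℂ) with hh
  have hmaxpos : ∀ t : ℝ, 0 < max t δ := fun t => lt_max_of_lt_right hδ0
  have hhc : Continuous h := by
    apply hbc.div
    · exact Complex.continuous_ofReal.comp (continuous_id.max continuous_const)
    · intro t
      have := (hmaxpos t).ne'
      exact_mod_cast this
  have hhM : ∀ t : ℝ, 0 ≤ t → t ≤ 1 → ‖h t‖ ≤ M / δ := by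
    intro t h0 h1
    rw [hh]
    simp only
    rw [norm_div, Complex.norm_real, Real.norm_eq_abs, abs_of_pos (hmaxpos t)]
    exact div_le_div₀ hM0 (hbM t h0 h1) hδ0 (le_max_right _ _)
  obtain ⟨η, hη0, hη⟩ : ∃ η : ℝ, 0 < η ∧ ∀ s ∈ Icc (0:ℝ) 1, ∀ t ∈ Icc (0:ℝ) 1, |s - t| < η →
      ‖h s - h t‖ ≤ ε / 99 := by
    have huc := isCompact_Icc.uniformContinuousOn_of_continuous (s := Icc (0:ℝ) 1) hhc.continuousOn
    rw [Metric.uniformContinuousOn_iff] at huc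
    obtain ⟨η, h1, h2⟩ := huc (ε / 99) (by positivity)
    refine ⟨η, h1, fun s hs t ht hst => ?_⟩
    have := h2 s hs t ht (by rwa [Real.dist_eq])
    rw [dist_eq_norm] at this
    exact this.le
  -- r₁
  obtain ⟨r₁, hr1pos, hr1half, hr1η, hr1M⟩ : ∃ r₁ : ℝ, 0 < r₁ ∧ r₁ ≤ 1 / 2 ∧ 16 * r₁ < η ^ 2 ∧
      M / δ * 101 * r₁ ≤ ε / 3 := by
    have hK : 0 ≤ M / δ * 101 := by positivity
    refine ⟨min (1 / 2) (min (η ^ 2 / 32) (ε / 3 / (M / δ * 101 + 1))), ?_, min_le_left _ _, ?_, ?_⟩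
    · positivity
    · have h1 := (min_le_right (1/2:ℝ) (min (η ^ 2 / 32) (ε / 3 / (M / δ * 101 + 1)))).trans
        (min_le_left _ _)
      have : 0 < η ^ 2 := by positivity
      linarith
    · have h1 := (min_le_right (1/2:ℝ) (min (η ^ 2 / 32) (ε / 3 / (M / δ * 101 + 1)))).trans
        (min_le_right _ _)
      calc M / δ * 101 * _ ≤ M / δ * 101 * (ε / 3 / (M / δ * 101 + 1)) := by gcongr
        _ ≤ (M / δ * 101 + 1) * (ε / 3 / (M / δ * 101 + 1)) := by gcongr; linarith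
        _ = ε / 3 := by field_simp
  refine ⟨r₁, hr1pos, by linarith, fun r hr hrr z hz => ?_⟩
  have hr2 : r ≤ 1 / 2 := by linarith
  have hr1 : r < 1 := by linarith
  set D : E := (∫ ζ, F (mob ((r:ℂ) • ζ) z) ∂σ)
        - (((1 - κ * r ^ 2 : ℝ)) : ℂ) • (∫ ζ, F (mob z ((r:ℂ) • ζ)) ∂σ) with hD
  -- invariance of D
  have hfix : ∀ L : E ≃ₗᵢ[ℂ] E, L z = z → L D = D := by
    intro L hL
    rw [hD, map_sub, map_smul]
    congr 1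
    · apply L_int hσ L
      filter_upwards [hσ.supp] with ζ hζ
      have hn' := norm_real_smul (E := E) hr hζ
      rw [← hequi L _ (norm_mob_le (by rw [hn']; exact hr1.le) hz), ← mob_iso, hL, map_smul]
    · congr 1
      apply L_int hσ L
      filter_upwards [hσ.supp] with ζ hζ
      have hn' := norm_real_smul (E := E) hr hζ
      rw [← hequi L _ (norm_mob_le hz (by rw [hn']; exact hr1.le)), ← mob_iso, hL, map_smul]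
  by_cases hz0 : z = 0
  · have : D = 0 := fixed_zero fun L _ => hfix L (by rw [hz0, map_zero])
    rw [this, norm_zero]; positivity
  have hρ : 0 < ‖z‖ := norm_pos_iff.2 hz0
  obtain ⟨c, hc⟩ := fixed_span hfix
  -- it is enough to bound the inner product
  have hinner : ‖z‖ * ‖D‖ = ‖⟪z, D⟫_ℂ‖ := by
    rw [hc, inner_smul_right, norm_mul, norm_smul, inner_self_cast, Complex.norm_real, Real.norm_eq_abs,
      abs_of_nonneg (by positivity)]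
    ring
  -- integrability
  have hm1 : Measurable (fun ζ : E => F (mob ((r : ℂ) • ζ) z)) := hF.measurable.comp (measurable_mob_left r z)
  have hm2 : Measurable (fun ζ : E => F (mob z ((r : ℂ) • ζ))) := hF.measurable.comp (measurable_mob_right r z)
  have hi1 : Integrable (fun ζ : E => F (mob ((r : ℂ) • ζ) z)) σ := by
    refine Integrable.of_bound hm1.aestronglyMeasurable M ?_
    filter_upwards [hσ.supp] with ζ hζ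
    exact hM _ (norm_mob_le (by rw [norm_real_smul hr hζ]; exact hr1.le) hz)
  have hi2 : Integrable (fun ζ : E => F (mob z ((r : ℂ) • ζ))) σ := by
    refine Integrable.of_bound hm2.aestronglyMeasurable M ?_
    filter_upwards [hσ.supp] with ζ hζ
    exact hM _ (norm_mob_le hz (by rw [norm_real_smul hr hζ]; exact hr1.le))
  set Φ : ℂ → ℂ := fun u => b (QQ r ‖z‖ ((r : ℂ) * u)) / ((QQ r ‖z‖ ((r : ℂ) * u) : ℝ) : ℂ)
    * HH κ r ‖z‖ ((r : ℂ) * u) with hΦ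
  have hu : Continuous (fun ζ : E => ⟪z, ζ⟫_ℂ) := (innerSL ℂ z).continuous
  have hmulr : Measurable (fun u : ℂ => (r : ℂ) * u) := measurable_const_mul _
  have hGm : Measurable (fun u : ℂ => b (QQ r ‖z‖ ((r : ℂ) * u)) / ((QQ r ‖z‖ ((r : ℂ) * u) : ℝ) : ℂ)) :=
    (hbc.measurable.comp ((measurable_QQ r ‖z‖).comp hmulr)).div
      (Complex.measurable_ofReal.comp ((measurable_QQ r ‖z‖).comp hmulr))
  have hΦm : Measurable Φ := hGm.mul ((measurable_HH κ r ‖z‖).comp hmulr)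
  -- pointwise formula
  have hpt : ∀ᵐ ζ ∂σ, ⟪z, F (mob ((r : ℂ) • ζ) z)⟫_ℂ
      - (((1 - κ * r ^ 2 : ℝ)) : ℂ) * ⟪z, F (mob z ((r : ℂ) • ζ))⟫_ℂ = Φ (⟪z, ζ⟫_ℂ) := by
    filter_upwards [hσ.supp] with ζ hζ
    obtain ⟨n1, n2⟩ := norm_mob_eq hr hr1 hz hζ
    have hl1 : ‖mob ((r : ℂ) • ζ) z‖ ≤ 1 := norm_mob_le (by rw [norm_real_smul hr hζ]; exact hr1.le) hz
    have hl2 : ‖mob z ((r : ℂ) • ζ)‖ ≤ 1 := norm_mob_le hz (by rw [norm_real_smul hr hζ]; exact hr1.le)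
    rw [radial F hequi he _ hl1, radial F hequi he _ hl2, n1, n2, inner_smul_right, inner_smul_right,
      inner_mob_right hz, inner_mob_left hr hr1 hζ]
    rw [hΦ]
    simp only [hb, HH]
    ring
  have hΦi : Integrable (fun ζ : E => Φ (⟪z, ζ⟫_ℂ)) σ := by
    have h1 : Integrable (fun ζ : E => ⟪z, F (mob ((r : ℂ) • ζ) z)⟫_ℂ
      - (((1 - κ * r ^ 2 : ℝ)) : ℂ) * ⟪z, F (mob z ((r : ℂ) • ζ))⟫_ℂ) σ :=
      ((innerSL ℂ z).integrable_comp hi1).sub (((innerSL ℂ z).integrable_comp hi2).const_mul _)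
    exact h1.congr hpt
  have hmap := conj_map hprob z (hconj z)
  have hu2 : Continuous (fun ζ : E => conj ⟪z, ζ⟫_ℂ) := Complex.continuous_conj.comp hu
  have hΦi2 : Integrable (fun ζ : E => Φ (conj ⟪z, ζ⟫_ℂ)) σ := by
    have h1 := (integrable_map_measure (g := Φ) hΦm.aestronglyMeasurable hu.measurable.aemeasurable).2 hΦi
    rw [hmap] at h1
    exact (integrable_map_measure (g := Φ) hΦm.aestronglyMeasurable hu2.measurable.aemeasurable).1 h1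
  have hΦeq : ∫ ζ, Φ (⟪z, ζ⟫_ℂ) ∂σ = ∫ ζ, Φ (conj ⟪z, ζ⟫_ℂ) ∂σ := by
    rw [← integral_map hu.measurable.aemeasurable hΦm.aestronglyMeasurable, hmap,
      integral_map hu2.measurable.aemeasurable hΦm.aestronglyMeasurable]
  have hDΦ : ⟪z, D⟫_ℂ = ∫ ζ, Φ (⟪z, ζ⟫_ℂ) ∂σ := by
    have j1 : Integrable (fun ζ : E => ⟪z, F (mob ((r : ℂ) • ζ) z)⟫_ℂ) σ :=
      (innerSL ℂ z).integrable_comp hi1
    have j2 : Integrable (fun ζ : E => ⟪z, F (mob z ((r : ℂ) • ζ))⟫_ℂ) σ :=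
      (innerSL ℂ z).integrable_comp hi2
    rw [← integral_congr_ae hpt, integral_sub j1 (j2.const_mul _), integral_const_mul]
    have e1 := (innerSL ℂ z).integral_comp_comm hi1
    have e2 := (innerSL ℂ z).integral_comp_comm hi2
    simp only [innerSL_apply_apply] at e1 e2
    rw [e1, e2, hD, inner_sub_right, inner_smul_right]
  -- bounds on w
  have hwb : ∀ᵐ ζ ∂σ, ((r : ℂ) * ⟪z, ζ⟫_ℂ).re ^ 2 + ((r : ℂ) * ⟪z, ζ⟫_ℂ).im ^ 2 ≤ r ^ 2 * ‖z‖ ^ 2 := by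
    filter_upwards [hσ.supp] with ζ hζ
    have h1 : ‖(r : ℂ) * ⟪z, ζ⟫_ℂ‖ ≤ r * ‖z‖ := by
      rw [norm_mul, Complex.norm_real, Real.norm_eq_abs, abs_of_pos hr]
      gcongr
      calc _ ≤ ‖z‖ * ‖ζ‖ := norm_inner_le_norm _ _
        _ = ‖z‖ := by rw [hζ, mul_one]
    have h2 : ‖(r : ℂ) * ⟪z, ζ⟫_ℂ‖ ^ 2 = ((r : ℂ) * ⟪z, ζ⟫_ℂ).re ^ 2 + ((r : ℂ) * ⟪z, ζ⟫_ℂ).im ^ 2 := by
      rw [Complex.sq_norm, Complex.normSq_apply]; ring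
    rw [← h2, ← mul_pow]
    have := norm_nonneg ((r : ℂ) * ⟪z, ζ⟫_ℂ)
    gcongr
  -- symmetrised
  have hsym : ∀ᵐ ζ ∂σ, Φ (⟪z, ζ⟫_ℂ) + Φ (conj ⟪z, ζ⟫_ℂ) = 2 * (
      b (QQ r ‖z‖ ((r : ℂ) * ⟪z, ζ⟫_ℂ)) / ((QQ r ‖z‖ ((r : ℂ) * ⟪z, ζ⟫_ℂ) : ℝ) : ℂ)
        * ((Psi κ r ‖z‖ ((r : ℂ) * ⟪z, ζ⟫_ℂ) : ℝ) : ℂ)) := by
    filter_upwards [hwb] with ζ hζ
    have hne : 1 + (r : ℂ) * ⟪z, ζ⟫_ℂ ≠ 0 := by
      obtain ⟨_, hP1, _, _⟩ := basic_bounds r ‖z‖ hr hr2 hρ hz _ hζ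
      intro h0
      rw [PP_norm, h0] at hP1
      norm_num at hP1
    have hcj : (r : ℂ) * conj (⟪z, ζ⟫_ℂ) = conj ((r : ℂ) * ⟪z, ζ⟫_ℂ) := by
      rw [map_mul, Complex.conj_ofReal]
    have hHs := HH_sym κ r ‖z‖ _ hne
    rw [hΦ]
    simp only
    rw [hcj, QQ_conj]
    rw [← mul_add, hHs]
    ring
  have hDΨ : ⟪z, D⟫_ℂ = ∫ ζ, 
      b (QQ r ‖z‖ ((r : ℂ) * ⟪z, ζ⟫_ℂ)) / ((QQ r ‖z‖ ((r : ℂ) * ⟪z, ζ⟫_ℂ) : ℝ) : ℂ)
        * ((Psi κ r ‖z‖ ((r : ℂ) * ⟪z, ζ⟫_ℂ) : ℝ) : ℂ) ∂σ := by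
    have h1 := integral_add hΦi hΦi2
    rw [integral_congr_ae hsym, integral_const_mul, ← hΦeq, ← hDΦ] at h1
    have h2 : (2 : ℂ) ≠ 0 := two_ne_zero
    apply mul_left_cancel₀ h2
    rw [h1]; ring
  -- final estimate
  have hPsiInt := integral_Psi σ hσ n hn z (hmean z) (hsq z) (hnormsq z) r hr hr2 hρ hz κ hκ
  have hPsim : Measurable (fun ζ : E => ((Psi κ r ‖z‖ ((r : ℂ) * ⟪z, ζ⟫_ℂ) : ℝ) : ℂ)) :=
    Complex.measurable_ofReal.comp ((measurable_Psi κ r ‖z‖).comp (hmulr.comp hu.measurable))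
  have hPsii : Integrable (fun ζ : E => ((Psi κ r ‖z‖ ((r : ℂ) * ⟪z, ζ⟫_ℂ) : ℝ) : ℂ)) σ := by
    refine Integrable.of_bound hPsim.aestronglyMeasurable (33 * r ^ 2 * ‖z‖ * 1) ?_
    filter_upwards [hwb] with ζ hζ
    rw [Complex.norm_real, Real.norm_eq_abs]
    refine (Psi_bound κ r ‖z‖ hκ0 hκ1 hr hr2 hρ hz _ hζ).trans ?_
    have := QQ_le_one r ‖z‖ hr hr2 hρ hz _ hζ
    gcongr
  have hGm' : Measurable (fun ζ : E => b (QQ r ‖z‖ ((r : ℂ) * ⟪z, ζ⟫_ℂ)) / ((QQ r ‖z‖ ((r : ℂ) * ⟪z, ζ⟫_ℂ) : ℝ) : ℂ)) :=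
    hGm.comp hu.measurable
  have hkey : ∀ᵐ ζ ∂σ, ‖(b (QQ r ‖z‖ ((r : ℂ) * ⟪z, ζ⟫_ℂ)) / ((QQ r ‖z‖ ((r : ℂ) * ⟪z, ζ⟫_ℂ) : ℝ) : ℂ) - h ‖z‖)
        * ((Psi κ r ‖z‖ ((r : ℂ) * ⟪z, ζ⟫_ℂ) : ℝ) : ℂ)‖ ≤ 2 * ε / 3 * (r ^ 2 * ‖z‖) := by
    filter_upwards [hwb] with ζ hζ
    have hPb := Psi_bound κ r ‖z‖ hκ0 hκ1 hr hr2 hρ hz _ hζ
    have hQ1 := QQ_le_one r ‖z‖ hr hr2 hρ hz _ hζ
    have hQ0 := QQ_nonneg r ‖z‖ ((r : ℂ) * ⟪z, ζ⟫_ℂ)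
    have hQn := QQ_near r ‖z‖ hr hr2 hρ hz _ hζ
    generalize QQ r ‖z‖ ((r : ℂ) * ⟪z, ζ⟫_ℂ) = q at *
    generalize Psi κ r ‖z‖ ((r : ℂ) * ⟪z, ζ⟫_ℂ) = ψ at *
    have hqη : |q - ‖z‖| < η := by
      have : |q - ‖z‖| ^ 2 < η ^ 2 := by linarith
      exact lt_of_pow_lt_pow_left₀ 2 hη0.le this
    have h1 : ‖h q - h ‖z‖‖ ≤ ε / 99 := hη q ⟨hQ0, hQ1⟩ ‖z‖ ⟨hρ.le, hz⟩ hqη
    have h2 : ‖(b q / (q : ℂ) - h q) * (ψ : ℂ)‖ ≤ ε / 3 * (r ^ 2 * ‖z‖) := by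
      rcases eq_or_lt_of_le hQ0 with hq | hq
      · rw [← hq] at hPb
        rw [mul_zero] at hPb
        have : ψ = 0 := abs_nonpos_iff.1 hPb
        rw [this]; simp; positivity
      by_cases hqδ : δ ≤ q
      · have : h q = b q / (q : ℂ) := by
          rw [hh]; simp only; rw [max_eq_left hqδ]
        rw [this]; simp; positivity
      · push Not at hqδ
        have hqC : (q : ℂ) ≠ 0 := by exact_mod_cast hq.ne'
        have hδC : (δ : ℂ) ≠ 0 := by exact_mod_cast hδ0.ne'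
        have e1 : h q = b q / (δ : ℂ) := by
          rw [hh]; simp only; rw [max_eq_right hqδ.le]
        have e2 : b q / (q : ℂ) - h q = b q * (((1 - q / δ : ℝ)) : ℂ) / (q : ℂ) := by
          rw [e1]; push_cast; field_simp
        rw [e2, norm_mul, norm_div, norm_mul, Complex.norm_real, Complex.norm_real, Complex.norm_real,
          Real.norm_eq_abs, Real.norm_eq_abs, Real.norm_eq_abs, abs_of_pos hq]
        have e3 : |1 - q / δ| ≤ 1 := by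
          have : q / δ ≤ 1 := (div_le_one hδ0).2 hqδ.le
          have : 0 ≤ q / δ := by positivity
          rw [abs_le]; constructor <;> linarith
        have e4 := hδ q hq.le hqδ.le
        calc ‖b q‖ * |1 - q / δ| / q * |ψ| ≤ (ε / 99) * 1 / q * (33 * r ^ 2 * ‖z‖ * q) := by gcongr
          _ = ε / 3 * (r ^ 2 * ‖z‖) := by field_simp; ring
    have h3 : ‖(h q - h ‖z‖) * (ψ : ℂ)‖ ≤ ε / 3 * (r ^ 2 * ‖z‖) := by
      rw [norm_mul, Complex.norm_real, Real.norm_eq_abs]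
      calc ‖h q - h ‖z‖‖ * |ψ| ≤ (ε / 99) * (33 * r ^ 2 * ‖z‖ * 1) := by
            apply mul_le_mul h1 _ (abs_nonneg _) (by positivity)
            refine hPb.trans ?_
            gcongr
        _ = ε / 3 * (r ^ 2 * ‖z‖) := by ring
    calc _ = ‖(b q / (q : ℂ) - h q) * (ψ : ℂ) + (h q - h ‖z‖) * (ψ : ℂ)‖ := by congr 1; ring
      _ ≤ _ := norm_add_le _ _
      _ ≤ ε / 3 * (r ^ 2 * ‖z‖) + ε / 3 * (r ^ 2 * ‖z‖) := add_le_add h2 h3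
      _ = _ := by ring
  have hki : Integrable (fun ζ : E => (b (QQ r ‖z‖ ((r : ℂ) * ⟪z, ζ⟫_ℂ)) / ((QQ r ‖z‖ ((r : ℂ) * ⟪z, ζ⟫_ℂ) : ℝ) : ℂ) - h ‖z‖)
        * ((Psi κ r ‖z‖ ((r : ℂ) * ⟪z, ζ⟫_ℂ) : ℝ) : ℂ)) σ :=
    Integrable.of_bound ((hGm'.sub measurable_const).mul hPsim).aestronglyMeasurable _ hkey
  have hsplit : ⟪z, D⟫_ℂ = (∫ ζ, (b (QQ r ‖z‖ ((r : ℂ) * ⟪z, ζ⟫_ℂ)) / ((QQ r ‖z‖ ((r : ℂ) * ⟪z, ζ⟫_ℂ) : ℝ) : ℂ) - h ‖z‖)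
        * ((Psi κ r ‖z‖ ((r : ℂ) * ⟪z, ζ⟫_ℂ) : ℝ) : ℂ) ∂σ)
        + h ‖z‖ * ∫ ζ, ((Psi κ r ‖z‖ ((r : ℂ) * ⟪z, ζ⟫_ℂ) : ℝ) : ℂ) ∂σ := by
    rw [hDΨ, ← integral_const_mul, ← integral_add hki (hPsii.const_mul _)]
    apply integral_congr_ae
    filter_upwards with ζ
    ring
  have hfin : ‖⟪z, D⟫_ℂ‖ ≤ ε * r ^ 2 * ‖z‖ := by
    rw [hsplit]
    have k1 := norm_integral_le_of_norm_le_const hkey
    rw [probReal_univ, mul_one] at k1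
    have k2 : ‖∫ ζ, ((Psi κ r ‖z‖ ((r : ℂ) * ⟪z, ζ⟫_ℂ) : ℝ) : ℂ) ∂σ‖ ≤ 101 * r ^ 3 * ‖z‖ := by
      rw [integral_complex_ofReal, Complex.norm_real, Real.norm_eq_abs]
      exact hPsiInt
    have k3 := hhM ‖z‖ hρ.le hz
    calc _ ≤ _ := norm_add_le _ _
      _ ≤ 2 * ε / 3 * (r ^ 2 * ‖z‖) + (M / δ) * (101 * r ^ 3 * ‖z‖) := by
        apply add_le_add k1
        rw [norm_mul]
        exact mul_le_mul k3 k2 (norm_nonneg _) (by positivity)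
      _ = 2 * ε / 3 * (r ^ 2 * ‖z‖) + (M / δ * 101 * r) * (r ^ 2 * ‖z‖) := by ring
      _ ≤ 2 * ε / 3 * (r ^ 2 * ‖z‖) + (ε / 3) * (r ^ 2 * ‖z‖) := by
        have : M / δ * 101 * r ≤ ε / 3 := by
          refine le_trans ?_ hr1M
          gcongr
        gcongr
      _ = _ := by ring
  rw [← hinner] at hfin
  have : ‖z‖ * ‖D‖ ≤ ‖z‖ * (ε * r ^ 2) := by linarith
  exact le_of_mul_le_mul_left this hρ


end Pool.Agent.Helper287.MB.J8
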