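import Pool.Agent.Helper287.MB.Api0
import Pool.Agent.Helper287.MB.Peak
import Pool.Agent.Helper287.MB.Div
import Pool.Agent.Helper287.MB.Tele
import Pool.Agent.Helper287.MB.Flow
import Pool.Agent.Helper287.MB.TypeV
import Pool.Agent.Helper287.MB.TypeM
import Pool.Agent.Helper287.MB.Barrier
set_option autoImplicit false
open MeasureTheory Metric Set
open scoped InnerProductSpace ComplexConjugate
namespace Pool.Agent.Helper287.MB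

alias divergence := J4.divergence
alias peak_const := J6.peak_const
alias peak_const_pos := J6.peak_const_pos
alias peak_approx := J6.peak_approx
alias telescoping := J10.telescoping

theorem type_vector {E : Type} [NormedAddCommGroup E] [InnerProductSpace ℂ E]
    [FiniteDimensional ℂ E] [MeasurableSpace E] [BorelSpace E] [Nontrivial E]
    (σ : Measure E) (hσ : IsSph σ)
    (F : E → E) (hF : Continuous F)
    (hequi : ∀ (L : E ≃ₗᵢ[ℂ] E) (z : E), ‖z‖ ≤ 1 → F (L z) = L (F z))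
    (ε : ℝ) (hε : 0 < ε) :
    ∃ r₁ : ℝ, 0 < r₁ ∧ r₁ < 1 ∧ ∀ r : ℝ, 0 < r → r < r₁ → ∀ z : E, ‖z‖ ≤ 1 →
      ‖(∫ ζ, F (mob ((r:ℂ) • ζ) z) ∂σ)
        - (((1 - ((Module.finrank ℂ E : ℝ) + 1) / (2 * (Module.finrank ℂ E : ℝ)) * r ^ 2 : ℝ)) : ℂ) •
          (∫ ζ, F (mob z ((r:ℂ) • ζ)) ∂σ)‖ ≤ ε * r ^ 2 :=
  J8.type_vector σ hσ (sph_mean σ hσ) (sph_sq σ hσ) (sph_normsq σ hσ)
    (fun a φ hφ => sph_conj σ hσ a φ hφ) F hF hequi ε hε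

theorem type_matrix {E : Type} [NormedAddCommGroup E] [InnerProductSpace ℂ E]
    [FiniteDimensional ℂ E] [MeasurableSpace E] [BorelSpace E]
    (hdim : 2 ≤ Module.finrank ℂ E)
    (σ : Measure E) (hσ : IsSph σ)
    (F : E → (E →L[ℂ] E)) (hF : Continuous F)
    (hequi : ∀ (L : E ≃ₗᵢ[ℂ] E) (z x : E), ‖z‖ ≤ 1 → F (L z) (L x) = L (F z x))
    (htr : ∀ z : E, ‖z‖ ≤ 1 → LinearMap.trace ℂ E (F z : E →ₗ[ℂ] E) = 0)
    (ε : ℝ) (hε : 0 < ε) :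
    ∃ r₁ : ℝ, 0 < r₁ ∧ r₁ < 1 ∧ ∀ r : ℝ, 0 < r → r < r₁ → ∀ z : E, ‖z‖ ≤ 1 →
      ‖(∫ ζ, F (mob ((r:ℂ) • ζ) z) ∂σ)
        - (((1 - r ^ 2 : ℝ)) : ℂ) • (∫ ζ, F (mob z ((r:ℂ) • ζ)) ∂σ)‖ ≤ ε * r ^ 2 :=
  J9.type_matrix hdim σ hσ (sph_mean σ hσ) (sph_sq σ hσ) (sph_normsq σ hσ) F hF hequi htr ε hε

theorem barrier {E : Type} [NormedAddCommGroup E] [InnerProductSpace ℂ E]
    [FiniteDimensional ℂ E] [MeasurableSpace E] [BorelSpace E] [Nontrivial E]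
    (σ : Measure E) (hσ : IsSph σ) :
    ∃ r₀ : ℝ, 0 < r₀ ∧ r₀ < 1 ∧ ∀ r : ℝ, 0 < r → r < r₀ → ∀ z : E, ‖z‖ ≤ 1 →
      ∫ ζ, sq (mob z ((r:ℂ) • ζ)) ∂σ ≤ (1 - r ^ 2 / 8) * sq z :=
  J16.barrier σ hσ (sph_mean σ hσ) (sph_sq σ hσ) (sph_normsq σ hσ)

end Pool.Agent.Helper287.MB
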