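import Pool.Agent.Helper287.MB.Api1
set_option autoImplicit false
open MeasureTheory Metric Set Filter Topology
open scoped InnerProductSpace ComplexConjugate

namespace Pool.Agent.Helper287.MB.D


section D

theorem exists_simple {K : Type} [MetricSpace K] [CompactSpace K] [Nonempty K] [MeasurableSpace K]
    [BorelSpace K] {δ : ℝ} (hδ : 0 < δ) : ∃ s : SimpleFunc K K, ∀ k, dist (s k) k < δ := by
  let e : ℕ → K := TopologicalSpace.denseSeq K
  obtain ⟨N, hN⟩ := isCompact_univ.elim_directed_cover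
    (fun N : ℕ => ⋃ i ∈ {i : ℕ | i ≤ N}, ball (e i) δ)
    (fun N => isOpen_biUnion fun i _ => isOpen_ball) (fun k _ => by
      obtain ⟨i, hi⟩ := (TopologicalSpace.denseRange_denseSeq K).exists_dist_lt k hδ
      refine mem_iUnion.2 ⟨i, mem_iUnion₂.2 ⟨i, le_refl i, ?_⟩⟩
      exact hi)
    (directed_of_isDirected_le fun N N' h => by
      refine iUnion₂_subset fun i hi => ?_
      exact subset_iUnion₂_of_subset i (le_trans hi h) (subset_refl _))
  refine ⟨SimpleFunc.nearestPt e N, fun k => ?_⟩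
  obtain ⟨i, hi, hk⟩ := mem_iUnion₂.1 (hN (mem_univ k))
  have h1 := SimpleFunc.edist_nearestPt_le e k (show i ≤ N from hi)
  rw [edist_dist, edist_dist, ENNReal.ofReal_le_ofReal_iff dist_nonneg] at h1
  refine lt_of_le_of_lt h1 ?_
  rw [dist_comm]
  exact hk

theorem inv_sum {E : Type} [NormedAddCommGroup E] [InnerProductSpace ℂ E] {Y : (E → ℂ) → Prop}
    (hY : Inv Y) {K : Type} (Φ : K → E → ℂ) (hY' : ∀ k, Y (Φ k)) (c : K → ℂ) (t : Finset K) :
    Y (fun z => ∑ a ∈ t, c a * Φ a z) := by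
  classical
  induction t using Finset.induction with
  | empty => simpa using hY.zero
  | insert a t ha ih =>
    refine hY.congr _ _ (hY.add _ _ (hY.smul (c a) _ (hY' a)) ih) fun z _ => ?_
    rw [Finset.sum_insert ha]

/-- TARGET 1: averages over a compact probability space of members of `Y` are in `Y`. -/
theorem inv_average {E : Type} [NormedAddCommGroup E] [InnerProductSpace ℂ E]
    [FiniteDimensional ℂ E] {Y : (E → ℂ) → Prop} (hY : Inv Y)
    {K : Type} [MetricSpace K] [CompactSpace K] [MeasurableSpace K] [BorelSpace K]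
    (μ : Measure K) [IsFiniteMeasure μ] (Φ : K → E → ℂ)
    (hΦ : ContinuousOn (fun p : K × E => Φ p.1 p.2) (univ ×ˢ closedBall 0 1))
    (hY' : ∀ k, Y (Φ k)) : Y (fun z => ∫ k, Φ k z ∂μ) := by
  classical
  have : ProperSpace E := FiniteDimensional.proper ℂ E
  rcases isEmpty_or_nonempty K with hK | hK
  · refine hY.congr _ _ hY.zero fun z _ => ?_
    show ∫ k, Φ k z ∂μ = 0
    rw [Measure.eq_zero_of_isEmpty μ, integral_zero_measure]
  have hcomp : IsCompact ((univ : Set K) ×ˢ closedBall (0 : E) 1) :=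
    isCompact_univ.prod (isCompact_closedBall 0 1)
  have huc := hcomp.uniformContinuousOn_of_continuous hΦ
  rw [Metric.uniformContinuousOn_iff] at huc
  refine hY.lim _ fun ε hε => ?_
  set m := μ.real univ with hm
  have hm0 : 0 ≤ m := measureReal_nonneg
  obtain ⟨δ, hδ, hδ'⟩ := huc (ε / (m + 1)) (by positivity)
  obtain ⟨s, hs⟩ := exists_simple (K := K) hδ
  refine ⟨_, inv_sum hY Φ hY' (fun a => ((μ.real (s ⁻¹' {a}) : ℝ) : ℂ)) s.range, fun z hz => ?_⟩
  have hcont : Continuous (fun k => Φ k z) := by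
    have h1 : ContinuousOn (fun k : K => Φ k z) univ := by
      refine hΦ.comp (f := fun k : K => (k, z)) (by fun_prop) ?_
      intro k _
      exact ⟨mem_univ _, by simpa using hz⟩
    exact continuousOn_univ.1 h1
  have hint : Integrable (fun k => Φ k z) μ :=
    hcont.integrable_of_hasCompactSupport (HasCompactSupport.of_compactSpace _)
  have hsum : ∀ k, Φ (s k) z = ∑ a ∈ s.range, (s ⁻¹' {a}).indicator (fun _ => Φ a z) k := by
    intro k
    rw [Finset.sum_eq_single (s k)]
    · rw [indicator_of_mem (by simp)]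
    · intro a _ ha
      rw [indicator_of_notMem]
      intro h
      exact ha (by simpa using h.symm)
    · intro h
      exact absurd (SimpleFunc.mem_range_self s k) h
  have hind : ∀ a ∈ s.range, Integrable ((s ⁻¹' {a}).indicator (fun _ => Φ a z)) μ := fun a _ =>
    (integrable_const _).indicator (s.measurableSet_fiber a)
  have hints : Integrable (fun k => Φ (s k) z) μ := by
    have : (fun k => Φ (s k) z) =
        fun k => ∑ a ∈ s.range, (s ⁻¹' {a}).indicator (fun _ => Φ a z) k := funext hsum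
    rw [this]
    exact integrable_finsetSum _ hind
  have heq : ∑ a ∈ s.range, ((μ.real (s ⁻¹' {a}) : ℝ) : ℂ) * Φ a z = ∫ k, Φ (s k) z ∂μ := by
    simp_rw [hsum]
    rw [integral_finsetSum _ hind]
    refine Finset.sum_congr rfl fun a _ => ?_
    rw [integral_indicator_const _ (s.measurableSet_fiber a), Complex.real_smul]
  rw [heq, ← integral_sub hints hint]
  have hb : ∀ᵐ k ∂μ, ‖Φ (s k) z - Φ k z‖ ≤ ε / (m + 1) := by
    refine Eventually.of_forall fun k => ?_
    rw [← dist_eq_norm]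
    refine (hδ' (s k, z) ⟨mem_univ _, by simpa using hz⟩ (k, z) ⟨mem_univ _, by simpa using hz⟩ ?_).le
    rw [Prod.dist_eq]
    simpa [hδ] using hs k
  refine (norm_integral_le_of_norm_le_const hb).trans ?_
  rw [← hm, div_mul_eq_mul_div, div_le_iff₀ (by positivity)]
  nlinarith

/-- TARGET 2: the same for the measure `σ` on `E` carried by the unit sphere. -/
theorem inv_average_sph {E : Type} [NormedAddCommGroup E] [InnerProductSpace ℂ E]
    [FiniteDimensional ℂ E] [MeasurableSpace E] [BorelSpace E]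
    {Y : (E → ℂ) → Prop} (hY : Inv Y) (σ : Measure E) (hσ : IsSph σ) (Φ : E → E → ℂ)
    (hΦ : ContinuousOn (fun p : E × E => Φ p.1 p.2) (sphere 0 1 ×ˢ closedBall 0 1))
    (hY' : ∀ ζ, ‖ζ‖ = 1 → Y (Φ ζ)) : Y (fun z => ∫ ζ, Φ ζ z ∂σ) := by
  have : ProperSpace E := FiniteDimensional.proper ℂ E
  have := hσ.prob
  have : CompactSpace (sphere (0 : E) 1) := isCompact_iff_compactSpace.1 (isCompact_sphere 0 1)
  have h1 := inv_average hY (K := sphere (0 : E) 1) (σ.comap Subtype.val)
    (fun k z => Φ (k : E) z) (by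
      refine hΦ.comp (f := fun p : sphere (0 : E) 1 × E => ((p.1 : E), p.2)) (by fun_prop) ?_
      rintro ⟨k, z⟩ ⟨-, hz⟩
      exact ⟨k.2, hz⟩) (fun k => hY' k (by simpa using k.2))
  refine hY.congr _ _ h1 fun z _ => ?_
  rw [integral_subtype_comap isClosed_sphere.measurableSet (fun ζ => Φ ζ z),
    Measure.restrict_eq_self_of_ae_mem]
  filter_upwards [hσ.supp] with ζ hζ
  simpa using hζ

/-- TARGET 3: left averages preserve `Y`. -/
theorem SS_mem {E : Type} [NormedAddCommGroup E] [InnerProductSpace ℂ E]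
    [FiniteDimensional ℂ E] [MeasurableSpace E] [BorelSpace E]
    {Y : (E → ℂ) → Prop} (hY : Inv Y) (σ : Measure E) (hσ : IsSph σ) (f : E → ℂ) (hf : Y f)
    {r : ℝ} (hr0 : 0 ≤ r) (hr1 : r < 1) : Y (SS σ r f) := by
  have hnorm : ∀ ζ : E, ‖ζ‖ = 1 → ‖(r : ℂ) • ζ‖ = r := by
    intro ζ hζ
    rw [norm_smul, hζ, mul_one, Complex.norm_real, Real.norm_of_nonneg hr0]
  refine inv_average_sph hY σ hσ (fun ζ z => f (mob ((r : ℂ) • ζ) z)) ?_ ?_
  · refine (hY.cont f hf).comp (f := fun p : E × E => mob ((r : ℂ) • p.1) p.2) ?_ ?_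
    · refine continuousOn_mob.comp (f := fun p : E × E => ((r : ℂ) • p.1, p.2)) (by fun_prop) ?_
      rintro ⟨ζ, z⟩ ⟨h1, h2⟩
      have h3 : ‖ζ‖ = 1 := by simpa using h1
      have h4 : ‖z‖ ≤ 1 := by simpa using h2
      exact one_add_inner_ne (by rw [hnorm ζ h3]; exact hr1) h4
    · rintro ⟨ζ, z⟩ ⟨h1, h2⟩
      have h3 : ‖ζ‖ = 1 := by simpa using h1
      have h4 : ‖z‖ ≤ 1 := by simpa using h2
      have := norm_mob_le (η := (r : ℂ) • ζ) (by rw [hnorm ζ h3]; exact hr1.le) h4
      simpa using this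
  · intro ζ hζ
    exact hY.mobI f _ hf (by rw [hnorm ζ hζ]; exact hr1)
end D

end Pool.Agent.Helper287.MB.D

namespace Pool.Agent.Helper287.MB
alias inv_average := D.inv_average
alias inv_average_sph := D.inv_average_sph
alias SS_mem := D.SS_mem
end Pool.Agent.Helper287.MB
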