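import Pool.Agent.Helper287.MB.Mob
set_option autoImplicit false
open MeasureTheory Metric Set
open scoped InnerProductSpace ComplexConjugate
namespace Pool.Agent.Helper287.MB

/-- `σ` is a unitarily invariant probability measure on the unit sphere of `E`. -/
structure IsSph {E : Type} [NormedAddCommGroup E] [InnerProductSpace ℂ E] [MeasurableSpace E]
    (σ : Measure E) : Prop where
  prob : IsProbabilityMeasure σ
  inv : ∀ L : E ≃ₗᵢ[ℂ] E, σ.map L = σ
  supp : ∀ᵐ ζ ∂σ, ‖ζ‖ = 1

/-- A class of functions on the closed unit ball (functions on `E` considered only on the closed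
unit ball): a uniformly closed linear space of continuous functions, invariant under all Möbius maps
and all linear isometries. -/
structure Inv {E : Type} [NormedAddCommGroup E] [InnerProductSpace ℂ E] (Y : (E → ℂ) → Prop) :
    Prop where
  cont : ∀ f, Y f → ContinuousOn f (closedBall 0 1)
  congr : ∀ f g, Y f → (∀ z, ‖z‖ ≤ 1 → g z = f z) → Y g
  zero : Y (fun _ => 0)
  add : ∀ f g, Y f → Y g → Y (fun z => f z + g z)
  smul : ∀ (c : ℂ) f, Y f → Y (fun z => c * f z)
  lim : ∀ g : E → ℂ, (∀ ε > (0:ℝ), ∃ f, Y f ∧ ∀ z, ‖z‖ ≤ 1 → ‖f z - g z‖ ≤ ε) → Y g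
  mobI : ∀ f η, Y f → ‖η‖ < 1 → Y (fun z => f (mob η z))
  isoI : ∀ f (L : E ≃ₗᵢ[ℂ] E), Y f → Y (fun z => f (L z))

/-- spherical mean (right average) -/
noncomputable def TT {E F : Type} [NormedAddCommGroup E] [InnerProductSpace ℂ E] [MeasurableSpace E]
    [NormedAddCommGroup F] [NormedSpace ℝ F]
    (σ : Measure E) (r : ℝ) (f : E → F) (z : E) : F := ∫ ζ, f (mob z ((r:ℂ) • ζ)) ∂σ

/-- left average -/
noncomputable def SS {E F : Type} [NormedAddCommGroup E] [InnerProductSpace ℂ E] [MeasurableSpace E]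
    [NormedAddCommGroup F] [NormedSpace ℝ F]
    (σ : Measure E) (r : ℝ) (f : E → F) (z : E) : F := ∫ ζ, f (mob ((r:ℂ) • ζ) z) ∂σ

/-- Poisson extension of the boundary values of `f` -/
noncomputable def HH {E : Type} [NormedAddCommGroup E] [InnerProductSpace ℂ E] [MeasurableSpace E]
    (σ : Measure E) (f : E → ℂ) (z : E) : ℂ := ∫ ζ, f (mob z ζ) ∂σ

end Pool.Agent.Helper287.MB
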