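import Pool.Agent.Helper287.MB.Base
set_option autoImplicit false
open Metric Set
open scoped InnerProductSpace
namespace Pool.Agent.Helper287.MB.J1

/-- H. Cartan / Schwarz: an automorphism of the unit ball of a finite dimensional complex Hilbert
space fixing `0` is (the restriction of) a linear isometry. -/
theorem cartan {E : Type} [NormedAddCommGroup E] [InnerProductSpace ℂ E] [FiniteDimensional ℂ E]
    (g h : E → E) (hg : DifferentiableOn ℂ g (ball 0 1)) (hh : DifferentiableOn ℂ h (ball 0 1))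
    (mg : MapsTo g (ball 0 1) (ball 0 1)) (mh : MapsTo h (ball 0 1) (ball 0 1))
    (gh : ∀ z ∈ ball (0:E) 1, g (h z) = z) (hg' : ∀ z ∈ ball (0:E) 1, h (g z) = z)
    (g0 : g 0 = 0) :
    ∃ L : E ≃ₗᵢ[ℂ] E, ∀ z ∈ ball (0:E) 1, g z = L z := by
  letI : NormedSpace ℝ E := NormedSpace.restrictScalars ℝ ℂ E
  letI : InnerProductSpace ℝ E := InnerProductSpace.rclikeToReal ℂ E
  have h0m : (0:E) ∈ ball (0:E) 1 := by simp
  have h0 : h 0 = 0 := by
    have := hg' 0 h0m
    rwa [g0] at this
  have hle : ∀ z ∈ ball (0:E) 1, ‖g z‖ ≤ ‖z‖ := fun z hz =>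
    Complex.norm_le_norm_of_mapsTo_ball hg (mg.mono_right ball_subset_closedBall) g0
      (by simpa using hz)
  have hle' : ∀ z ∈ ball (0:E) 1, ‖h z‖ ≤ ‖z‖ := fun z hz =>
    Complex.norm_le_norm_of_mapsTo_ball hh (mh.mono_right ball_subset_closedBall) h0
      (by simpa using hz)
  have hnorm : ∀ z ∈ ball (0:E) 1, ‖g z‖ = ‖z‖ := by
    intro z hz
    apply le_antisymm (hle z hz)
    have := hle' (g z) (mg hz)
    rwa [hg' z hz] at this
  have hgd : DifferentiableAt ℂ g 0 := hg.differentiableAt (ball_mem_nhds _ one_pos)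
  set A : E →L[ℂ] E := fderiv ℂ g 0 with hA
  have hlin1 : ∀ v : E, ‖v‖ = 1 → ∀ l ∈ ball (0:ℂ) 1, g (l • v) = l • A v := by
    intro v hv
    set f : ℂ → E := fun l => g (l • v) with hf
    have hmaps0 : MapsTo (fun l : ℂ => l • v) (ball 0 1) (ball 0 1) := by
      intro l hl
      simp only [mem_ball, dist_zero_right, norm_smul, hv, mul_one] at hl ⊢
      exact hl
    have hfd : DifferentiableOn ℂ f (ball 0 1) := by
      apply hg.comp _ hmaps0
      exact (differentiable_id.smul_const v).differentiableOn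
    have hf0 : f 0 = 0 := by simp [hf, g0]
    have hfm : MapsTo f (ball 0 1) (closedBall (f 0) 1) := by
      rw [hf0]
      intro l hl
      exact ball_subset_closedBall (mg (hmaps0 hl))
    have hhalf : ((1/2 : ℂ)) ∈ ball (0:ℂ) 1 := by
      simp only [mem_ball, dist_zero_right]
      norm_num
    have heq : ‖dslope f 0 (1/2 : ℂ)‖ = (1:ℝ) / 1 := by
      rw [dslope_of_ne _ (by norm_num), slope_def_module, norm_smul, hf0, sub_zero, sub_zero]
      have : ‖f (1/2)‖ = 1/2 := by
        simp only [hf]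
        rw [hnorm _ (hmaps0 hhalf), norm_smul, hv]
        norm_num
      rw [this]
      norm_num
    have key := Complex.affine_of_mapsTo_ball_of_norm_dslope_eq_div hfd hfm hhalf heq
    set C := dslope f 0 (1/2 : ℂ) with hC
    have key' : ∀ l ∈ ball (0:ℂ) 1, f l = l • C := by
      intro l hl
      have := key hl
      simpa [hf0] using this
    have hderiv1 : HasDerivAt f C 0 := by
      have h1 : HasDerivAt (fun l : ℂ => l • C) ((1:ℂ) • C) 0 := (hasDerivAt_id (0:ℂ)).smul_const C
      rw [one_smul] at h1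
      apply h1.congr_of_eventuallyEq
      filter_upwards [ball_mem_nhds (0:ℂ) one_pos] with l hl
      exact key' l hl
    have hderiv2 : HasDerivAt f (A v) 0 := by
      have h1 : HasDerivAt (fun l : ℂ => l • v) ((1:ℂ) • v) 0 := (hasDerivAt_id (0:ℂ)).smul_const v
      rw [one_smul] at h1
      have h2 : HasFDerivAt g A ((fun l : ℂ => l • v) 0) := by
        simp only [zero_smul]
        exact hgd.hasFDerivAt
      exact h2.comp_hasDerivAt (0:ℂ) h1
    have hCA : C = A v := hderiv1.unique hderiv2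
    intro l hl
    have := key' l hl
    rw [hCA] at this
    exact this
  have hlin : ∀ z ∈ ball (0:E) 1, g z = A z := by
    intro z hz
    by_cases hz0 : z = 0
    · rw [hz0, g0, map_zero]
    · have hzn : ‖z‖ ≠ 0 := norm_ne_zero_iff.mpr hz0
      have hzn' : ((‖z‖ : ℝ) : ℂ) ≠ 0 := by exact_mod_cast hzn
      set v : E := ((‖z‖ : ℝ) : ℂ)⁻¹ • z with hv
      have hv1 : ‖v‖ = 1 := by
        rw [hv, norm_smul, norm_inv, Complex.norm_real, norm_norm, inv_mul_cancel₀ hzn]
      have hzv : ((‖z‖ : ℝ) : ℂ) • v = z := by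
        rw [hv, smul_smul, mul_inv_cancel₀ hzn', one_smul]
      have hmem : ((‖z‖ : ℝ) : ℂ) ∈ ball (0:ℂ) 1 := by
        simpa using hz
      have := hlin1 v hv1 _ hmem
      rw [hzv] at this
      rw [this, ← map_smul, hzv]
  have hAiso : ∀ z : E, ‖A z‖ = ‖z‖ := by
    intro z
    by_cases hz0 : z = 0
    · rw [hz0, map_zero]
    · have hzn : ‖z‖ ≠ 0 := norm_ne_zero_iff.mpr hz0
      have hzpos : 0 < ‖z‖ := norm_pos_iff.mpr hz0
      set c : ℂ := ((2 * ‖z‖ : ℝ) : ℂ)⁻¹ with hc
      have hcn : ‖c‖ = (2 * ‖z‖)⁻¹ := by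
        rw [hc, norm_inv, Complex.norm_real, Real.norm_of_nonneg (by positivity)]
      have hmem : c • z ∈ ball (0:E) 1 := by
        simp only [mem_ball, dist_zero_right, norm_smul, hcn]
        rw [mul_inv, mul_assoc, inv_mul_cancel₀ hzn]
        norm_num
      have h1 := hnorm _ hmem
      rw [hlin _ hmem, map_smul, norm_smul, norm_smul] at h1
      have hcne : ‖c‖ ≠ 0 := by rw [hcn]; positivity
      exact mul_left_cancel₀ hcne h1
  let Li : E →ₗᵢ[ℂ] E := ⟨A.toLinearMap, hAiso⟩
  refine ⟨Li.toLinearIsometryEquiv rfl, fun z hz => ?_⟩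
  rw [hlin z hz]
  rfl

end Pool.Agent.Helper287.MB.J1
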