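import Pool.Agent.Helper287.MB.Equi
set_option autoImplicit false
open MeasureTheory Metric Set Filter Topology
open scoped InnerProductSpace ComplexConjugate

namespace Pool.Agent.Helper287.MB.EE


section EE
variable {E : Type} [NormedAddCommGroup E] [InnerProductSpace ℂ E] [FiniteDimensional ℂ E]
  [MeasurableSpace E] [BorelSpace E]

/-- TARGET: iterates of the spherical mean converge to the Poisson extension, uniformly in `r`. -/
theorem iter_conv (σ : Measure E) (hσ : IsSph σ) [Nontrivial E] (r₀ : ℝ) (hr₀ : 0 < r₀)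
    (hr₁ : r₀ < 1)
    (hbar : ∀ r : ℝ, 0 < r → r < r₀ → ∀ z : E, ‖z‖ ≤ 1 →
      ∫ ζ, sq (mob z ((r:ℂ) • ζ)) ∂σ ≤ (1 - r ^ 2 / 8) * sq z)
    (f : E → ℂ) (hf : ContinuousOn f (closedBall 0 1)) (ε : ℝ) (hε : 0 < ε) :
    ∃ C : ℝ, ∀ r : ℝ, 0 < r → r < r₀ → ∀ m : ℕ, ∀ z : E, ‖z‖ ≤ 1 →
      ‖((TT σ r)^[m]) f z - HH σ f z‖ ≤ ε + C * (1 - r ^ 2 / 8) ^ m := by
  haveI := hσ.prob
  haveI : ProperSpace E := FiniteDimensional.proper_rclike ℂ E
  have hHc : ContinuousOn (HH σ f) (closedBall 0 1) := HH_cont σ hσ f hf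
  set d : E → ℂ := fun z => f z - HH σ f z with hd
  have hdc : ContinuousOn d (closedBall 0 1) := hf.sub hHc
  have hd1 : ∀ z : E, ‖z‖ = 1 → d z = 0 := by
    intro z hz
    simp only [hd]
    rw [HH_bdry σ hσ f hz, sub_self]
  -- Claim 1
  obtain ⟨C, hC0, hC⟩ : ∃ C : ℝ, 0 ≤ C ∧ ∀ z : E, ‖z‖ ≤ 1 → ‖d z‖ ≤ ε + C * sq z := by
    set K : Set E := closedBall 0 1 ∩ {z | ε ≤ ‖d z‖} with hK
    have hKcl : IsClosed K := by
      have h := hdc.norm.preimage_isClosed_of_isClosed isClosed_closedBall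
        (isClosed_Ici (a := ε))
      exact h
    have hKc : IsCompact K := (isCompact_closedBall (0:E) 1).of_isClosed_subset hKcl
      inter_subset_left
    rcases K.eq_empty_or_nonempty with he | hne
    · refine ⟨0, le_rfl, fun z hz => ?_⟩
      by_contra hc
      push Not at hc
      have : z ∈ K := ⟨by simpa using hz, by
        show ε ≤ ‖d z‖
        linarith [sq_nonneg' z]⟩
      rw [he] at this
      exact this
    · obtain ⟨z0, hz0, hmin⟩ := hKc.exists_isMinOn hne (continuous_sq (E := E)).continuousOn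
      have hz0b : ‖z0‖ ≤ 1 := by simpa using hz0.1
      have hz0' : ‖z0‖ < 1 := by
        rcases lt_or_eq_of_le hz0b with h | h
        · exact h
        · exfalso
          have h1 : ε ≤ ‖d z0‖ := hz0.2
          rw [hd1 z0 h, norm_zero] at h1
          linarith
      have hδ := sq_pos hz0'
      obtain ⟨M, hM0, hM⟩ := ball_bdd d hdc
      refine ⟨M / sq z0, by positivity, fun z hz => ?_⟩
      by_cases hc : ‖d z‖ < ε
      · have := sq_nonneg' z
        have h2 : 0 ≤ M / sq z0 * sq z := by positivity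
        linarith
      · push Not at hc
        have h1 : sq z0 ≤ sq z := hmin ⟨by simpa using hz, hc⟩
        have h2 : M ≤ M / sq z0 * sq z := by
          calc M = M / sq z0 * sq z0 := by field_simp
            _ ≤ M / sq z0 * sq z := by gcongr
        linarith [hM z hz]
  refine ⟨C, fun r hr0 hr1 m z hz => ?_⟩
  have hr1' : r < 1 := hr1.trans hr₁
  have hρ0 : 0 ≤ 1 - r ^ 2 / 8 := by nlinarith
  have hcF : ∀ (g : E → ℂ), ContinuousOn g (closedBall 0 1) →
      ∀ m : ℕ, ContinuousOn (((TT σ r)^[m]) g) (closedBall 0 1) := by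
    intro g hg m
    induction m with
    | zero => exact hg
    | succ m ih =>
      rw [Function.iterate_succ_apply']
      exact TT_cont σ hσ _ ih hr0.le hr1'
  have hcl2 : ∀ m : ℕ, ∀ z : E, ‖z‖ ≤ 1 →
      ((TT σ r)^[m]) f z - HH σ f z = ((TT σ r)^[m]) d z := by
    intro m
    induction m with
    | zero => intro z _; rfl
    | succ m ih =>
      intro z hz
      rw [Function.iterate_succ_apply', Function.iterate_succ_apply']
      rw [← TT_HH σ hσ f hf hr0.le hr1' hz]
      have h1 := TT_congr σ hσ (fun w => ((TT σ r)^[m]) f w - HH σ f w) (((TT σ r)^[m]) d)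
        ih hr0.le hr1' hz
      rw [← h1]
      unfold TT
      rw [integral_sub]
      · exact TT_integrable σ hσ _ (hcF f hf m) hr0.le hr1' hz
      · exact TT_integrable σ hσ _ hHc hr0.le hr1' hz
  have hcl3 : ∀ m : ℕ, ∀ z : E, ‖z‖ ≤ 1 →
      ‖((TT σ r)^[m]) d z‖ ≤ ε + C * (1 - r ^ 2 / 8) ^ m * sq z := by
    intro m
    induction m with
    | zero => intro z hz; simpa using hC z hz
    | succ m ih =>
      intro z hz
      rw [Function.iterate_succ_apply']
      have hint1 := TT_integrable σ hσ _ (hcF d hdc m) hr0.le hr1' hz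
      have hint2 := TT_integrable σ hσ (sq : E → ℝ) continuous_sq.continuousOn hr0.le hr1' hz
      have hsupp := hσ.supp
      calc ‖TT σ r (((TT σ r)^[m]) d) z‖
          ≤ ∫ ζ, ‖((TT σ r)^[m]) d (mob z ((r:ℂ) • ζ))‖ ∂σ := norm_integral_le_integral_norm _
        _ ≤ ∫ ζ, (ε + C * (1 - r ^ 2 / 8) ^ m * sq (mob z ((r:ℂ) • ζ))) ∂σ := by
            apply integral_mono_ae hint1.norm ((integrable_const _).add (hint2.const_mul _))
            filter_upwards [hsupp] with ζ hζ
            apply ih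
            apply norm_mob_le hz
            rw [norm_smul, hζ, Complex.norm_real, Real.norm_of_nonneg hr0.le]
            linarith
        _ = ε + C * (1 - r ^ 2 / 8) ^ m * ∫ ζ, sq (mob z ((r:ℂ) • ζ)) ∂σ := by
            rw [integral_add (integrable_const _) (hint2.const_mul _), integral_const_mul]
            simp
        _ ≤ ε + C * (1 - r ^ 2 / 8) ^ m * ((1 - r ^ 2 / 8) * sq z) := by
            have h1 := hbar r hr0 hr1 z hz
            have h2 : 0 ≤ C * (1 - r ^ 2 / 8) ^ m := by positivity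
            have h3 := mul_le_mul_of_nonneg_left h1 h2
            linarith
        _ = ε + C * (1 - r ^ 2 / 8) ^ (m + 1) * sq z := by ring
  rw [hcl2 m z hz]
  refine (hcl3 m z hz).trans ?_
  have h2 : 0 ≤ C * (1 - r ^ 2 / 8) ^ m := by positivity
  have h3 := mul_le_mul_of_nonneg_left (sq_le_one z) h2
  linarith
end EE

end Pool.Agent.Helper287.MB.EE

namespace Pool.Agent.Helper287.MB
alias iter_conv := EE.iter_conv
end Pool.Agent.Helper287.MB
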