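import Pool.Agent.Helper287.MB.Transfer
set_option autoImplicit false
open MeasureTheory Metric Set Filter Topology
open scoped InnerProductSpace ComplexConjugate
namespace Pool.Agent.Helper287.MB

variable {E : Type} [NormedAddCommGroup E] [InnerProductSpace ℂ E] [FiniteDimensional ℂ E]
  [MeasurableSpace E] [BorelSpace E]

section tr
variable (n : ℕ) (c : E ≃L[ℂ] (Fin n → ℂ)) (hc : ∀ z : E, ∑ i, ‖c z i‖ ^ 2 = ‖z‖ ^ 2)

include hc in
theorem split_aux (σ : Measure E) (hσ : IsSph σ)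
    (Y : Submodule ℂ C({z : Fin n → ℂ // ∑ i, ‖z i‖ ^ 2 ≤ 1}, ℂ))
    (P : C({z : Fin n → ℂ // ∑ i, ‖z i‖ ^ 2 ≤ 1}, ℂ) → Prop) (hP : ∀ h, P h → h ∈ Y)
    (hex : ∀ f ∈ Y, ∀ h : C({z : Fin n → ℂ // ∑ i, ‖z i‖ ^ 2 ≤ 1}, ℂ),
      (∀ x, h x = HH σ (up n c f) (c.symm x.1)) → P h) :
    (∀ h : C({z : Fin n → ℂ // ∑ i, ‖z i‖ ^ 2 ≤ 1}, ℂ), P h → h ∈ Y) ∧
    ∀ f ∈ Y, ∃ g h : C({z : Fin n → ℂ // ∑ i, ‖z i‖ ^ 2 ≤ 1}, ℂ),
      g ∈ Y ∧
      (∀ x : {z : Fin n → ℂ // ∑ i, ‖z i‖ ^ 2 ≤ 1}, ∑ i, ‖x.1 i‖ ^ 2 = 1 → g x = 0) ∧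
      P h ∧ f = g + h := by
  refine ⟨hP, ?_⟩
  intro f hf
  obtain ⟨h, hh⟩ := exists_down n c hc (HH σ (up n c f)) (HH_cont σ hσ _ (up_cont n c hc f))
  have hPh := hex f hf h hh
  refine ⟨f - h, h, Y.sub_mem hf (hP h hPh), ?_, hPh, by simp⟩
  intro x hx
  have h1 : ‖c.symm x.1‖ = 1 := (eq_one_iff n c hc x.1).1 hx
  rw [ContinuousMap.sub_apply, hh x, HH_bdry σ hσ _ h1, up_symm n c hc, sub_self]

include hc in
theorem dcomp_up (u : E → ℂ) (hu : DifferentiableOn ℂ u (ball 0 1)) :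
    DifferentiableOn ℂ (fun x => u (c.symm x)) {z : Fin n → ℂ | ∑ i, ‖z i‖ ^ 2 < 1} := by
  apply hu.comp c.symm.differentiable.differentiableOn
  intro x hx
  simpa using (lt_one_iff' n c hc x).1 hx

include hc in
theorem dcomp_down (F : (Fin n → ℂ) → ℂ)
    (hF : DifferentiableOn ℂ F {z : Fin n → ℂ | ∑ i, ‖z i‖ ^ 2 < 1}) :
    DifferentiableOn ℂ (fun z => F (c z)) (ball 0 1) := by
  apply hF.comp c.differentiable.differentiableOn
  intro x hx
  exact (lt_one_iff'' n c hc x).2 (by simpa using hx)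

include hc in
theorem up_lt (h : C({z : Fin n → ℂ // ∑ i, ‖z i‖ ^ 2 ≤ 1}, ℂ)) (F : (Fin n → ℂ) → ℂ)
    (hF : ∀ x : {z : Fin n → ℂ // ∑ i, ‖z i‖ ^ 2 ≤ 1}, ∑ i, ‖x.1 i‖ ^ 2 < 1 → h x = F x.1)
    (z : E) (hz : ‖z‖ < 1) : up n c h z = F (c z) := by
  have h1 : ∑ i, ‖c z i‖ ^ 2 < 1 := (lt_one_iff'' n c hc z).2 hz
  have h2 := up_symm n c hc h ⟨c z, h1.le⟩
  rw [c.symm_apply_apply] at h2
  rw [h2]
  exact hF ⟨c z, h1.le⟩ h1

include hc in
theorem ball_pre (r : ℝ) (hr : 0 < r) :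
    c.symm ⁻¹' (ball (0:E) r) = {z : Fin n → ℂ | ∑ i, ‖z i‖ ^ 2 < r ^ 2} := by
  ext x
  simp only [mem_preimage, mem_ball, dist_zero_right, mem_setOf_eq]
  rw [nsq n c hc]
  constructor
  · intro h; nlinarith [norm_nonneg (c.symm x)]
  · intro h; nlinarith [norm_nonneg (c.symm x)]

theorem final_aux [Nontrivial E] (hc : ∀ z : E, ∑ i, ‖c z i‖ ^ 2 = ‖z‖ ^ 2)
    (Y : Submodule ℂ C({z : Fin n → ℂ // ∑ i, ‖z i‖ ^ 2 ≤ 1}, ℂ))
    (hY : IsClosed (Y : Set C({z : Fin n → ℂ // ∑ i, ‖z i‖ ^ 2 ≤ 1}, ℂ)))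
    (hinv : InvHyp n Y) :
  ∃ P : C({z : Fin n → ℂ // ∑ i, ‖z i‖ ^ 2 ≤ 1}, ℂ) → Prop,
    (P = (fun h : C({z : Fin n → ℂ // ∑ i, ‖z i‖ ^ 2 ≤ 1}, ℂ) => h = 0) ∨
     P = (fun h : C({z : Fin n → ℂ // ∑ i, ‖z i‖ ^ 2 ≤ 1}, ℂ) =>
            ∃ c : ℂ, ∀ x : {z : Fin n → ℂ // ∑ i, ‖z i‖ ^ 2 ≤ 1}, h x = c) ∨
     P = (fun h : C({z : Fin n → ℂ // ∑ i, ‖z i‖ ^ 2 ≤ 1}, ℂ) =>
            ∃ F : (Fin n → ℂ) → ℂ,
              DifferentiableOn ℂ F {z : Fin n → ℂ | ∑ i, ‖z i‖ ^ 2 < 1} ∧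
              ∀ x : {z : Fin n → ℂ // ∑ i, ‖z i‖ ^ 2 ≤ 1},
                ∑ i, ‖x.1 i‖ ^ 2 < 1 → h x = F x.1) ∨
     P = (fun h : C({z : Fin n → ℂ // ∑ i, ‖z i‖ ^ 2 ≤ 1}, ℂ) =>
            ∃ F : (Fin n → ℂ) → ℂ,
              DifferentiableOn ℂ F {z : Fin n → ℂ | ∑ i, ‖z i‖ ^ 2 < 1} ∧
              ∀ x : {z : Fin n → ℂ // ∑ i, ‖z i‖ ^ 2 ≤ 1},
                ∑ i, ‖x.1 i‖ ^ 2 < 1 → h x = starRingEnd ℂ (F x.1)) ∨
     P = (fun h : C({z : Fin n → ℂ // ∑ i, ‖z i‖ ^ 2 ≤ 1}, ℂ) =>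
            ∃ F G : (Fin n → ℂ) → ℂ,
              DifferentiableOn ℂ F {z : Fin n → ℂ | ∑ i, ‖z i‖ ^ 2 < 1} ∧
              DifferentiableOn ℂ G {z : Fin n → ℂ | ∑ i, ‖z i‖ ^ 2 < 1} ∧
              ∀ x : {z : Fin n → ℂ // ∑ i, ‖z i‖ ^ 2 ≤ 1},
                ∑ i, ‖x.1 i‖ ^ 2 < 1 → h x = F x.1 + starRingEnd ℂ (G x.1)) ∨
     P = (fun h : C({z : Fin n → ℂ // ∑ i, ‖z i‖ ^ 2 ≤ 1}, ℂ) =>
            ∀ F : (Fin n → ℂ) → ℂ,
              (∀ x : {z : Fin n → ℂ // ∑ i, ‖z i‖ ^ 2 ≤ 1}, F x.1 = h x) →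
              ∀ ψ : (Fin n → ℂ) → (Fin n → ℂ),
                DifferentiableOn ℂ ψ {z : Fin n → ℂ | ∑ i, ‖z i‖ ^ 2 < 1} →
                (∀ z : Fin n → ℂ, ∑ i, ‖z i‖ ^ 2 < 1 → ∑ i, ‖ψ z i‖ ^ 2 < 1) →
                (∃ χ : (Fin n → ℂ) → (Fin n → ℂ),
                    DifferentiableOn ℂ χ {z : Fin n → ℂ | ∑ i, ‖z i‖ ^ 2 < 1} ∧
                    ∀ z : Fin n → ℂ, ∑ i, ‖z i‖ ^ 2 < 1 →
                      ∑ i, ‖χ z i‖ ^ 2 < 1 ∧ ψ (χ z) = z ∧ χ (ψ z) = z) →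
                ∀ r : ℝ, 0 < r → r < 1 →
                  ∫ z in {z : Fin n → ℂ | ∑ i, ‖z i‖ ^ 2 < r ^ 2}, F (ψ z) =
                    (volume {z : Fin n → ℂ | ∑ i, ‖z i‖ ^ 2 < r ^ 2}).toReal • F (ψ 0))) ∧
    (∀ h : C({z : Fin n → ℂ // ∑ i, ‖z i‖ ^ 2 ≤ 1}, ℂ), P h → h ∈ Y) ∧
    ∀ f ∈ Y, ∃ g h : C({z : Fin n → ℂ // ∑ i, ‖z i‖ ^ 2 ≤ 1}, ℂ),
      g ∈ Y ∧
      (∀ x : {z : Fin n → ℂ // ∑ i, ‖z i‖ ^ 2 ≤ 1}, ∑ i, ‖x.1 i‖ ^ 2 = 1 → g x = 0) ∧
      P h ∧ f = g + h := by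
  obtain ⟨σ, hσ⟩ := sph_exists E
  obtain ⟨D⟩ := exists_haarData E
  have hI := cls_inv n c hc Y hY hinv
  rcases main_inv σ hσ hI with h1 | ⟨h2, h2'⟩ | ⟨h3, h3'⟩ | ⟨h4, h4'⟩ | ⟨h5, h5'⟩ | h6
  · -- zero
    refine ⟨_, Or.inl rfl, split_aux n c hc σ hσ Y _ ?_ ?_⟩
    · rintro h rfl; exact Y.zero_mem
    · intro f hf h hh
      ext x
      rw [hh x, h1 _ ((cls_up n c hc Y f).2 hf) _ ((le_one_iff n c hc x.1).1 x.2)]
      rfl
  · refine ⟨_, Or.inr (Or.inl rfl), split_aux n c hc σ hσ Y _ ?_ ?_⟩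
    · rintro h ⟨a, ha⟩
      rw [← cls_up n c hc Y h]
      refine hI.congr _ _ (hI.smul a _ h2) ?_
      intro z hz
      have hz' : ∑ i, ‖c z i‖ ^ 2 ≤ 1 := (le_one_iff'' n c hc z).2 hz
      unfold up
      rw [dif_pos hz', ha, mul_one]
    · intro f hf h hh
      obtain ⟨a, ha⟩ := h2' _ ((cls_up n c hc Y f).2 hf)
      refine ⟨a, fun x => ?_⟩
      rw [hh x, ha _ ((le_one_iff n c hc x.1).1 x.2)]
  · refine ⟨_, Or.inr (Or.inr (Or.inl rfl)), split_aux n c hc σ hσ Y _ ?_ ?_⟩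
    · rintro h ⟨F, hF, hFh⟩
      rw [← cls_up n c hc Y h]
      apply h3 _ (up_cont n c hc h)
      refine (dcomp_down n c hc F hF).congr ?_
      intro z hz
      exact up_lt n c hc h F hFh z (by simpa using hz)
    · intro f hf h hh
      refine ⟨fun x => HH σ (up n c f) (c.symm x),
        dcomp_up n c hc _ (h3' _ ((cls_up n c hc Y f).2 hf)), ?_⟩
      intro x _
      exact hh x
  · refine ⟨_, Or.inr (Or.inr (Or.inr (Or.inl rfl))), split_aux n c hc σ hσ Y _ ?_ ?_⟩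
    · rintro h ⟨F, hF, hFh⟩
      rw [← cls_up n c hc Y h]
      have e1 := h4 (fun z => conj (up n c h z))
        (Complex.continuous_conj.comp_continuousOn (up_cont n c hc h)) ?_
      · refine hI.congr _ _ e1 ?_
        intro z _
        simp
      · refine (dcomp_down n c hc F hF).congr ?_
        intro z hz
        rw [up_lt n c hc h (fun x => starRingEnd ℂ (F x)) hFh z (by simpa using hz)]
        simp
    · intro f hf h hh
      refine ⟨fun x => conj (HH σ (up n c f) (c.symm x)),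
        dcomp_up n c hc _ (h4' _ ((cls_up n c hc Y f).2 hf)), ?_⟩
      intro x _
      rw [hh x]
      simp
  · refine ⟨_, Or.inr (Or.inr (Or.inr (Or.inr (Or.inl rfl)))), split_aux n c hc σ hσ Y _ ?_ ?_⟩
    · rintro h ⟨F, G, hF, hG, hFh⟩
      rw [← cls_up n c hc Y h]
      refine h5 (up n c h) (fun z => F (c z)) (fun z => G (c z)) (up_cont n c hc h)
        (dcomp_down n c hc F hF) (dcomp_down n c hc G hG) ?_
      intro z hz
      exact up_lt n c hc h (fun x => F x + starRingEnd ℂ (G x)) hFh z hz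
    · intro f hf h hh
      obtain ⟨F, G, hF, hG, hFG⟩ := h5' _ ((cls_up n c hc Y f).2 hf)
      refine ⟨fun x => F (c.symm x), fun x => G (c.symm x), dcomp_up n c hc _ hF,
        dcomp_up n c hc _ hG, ?_⟩
      intro x hx
      rw [hh x, hFG _ ((lt_one_iff' n c hc x.1).1 hx)]
  · refine ⟨_, Or.inr (Or.inr (Or.inr (Or.inr (Or.inr rfl)))), split_aux n c hc σ hσ Y _ ?_ ?_⟩
    · intro h hP
      rw [← cls_up n c hc Y h]
      haveI : (Measure.map c.symm (volume : Measure (Fin n → ℂ))).IsAddHaarMeasure :=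
        ContinuousLinearEquiv.isAddHaarMeasure_map c.symm volume
      have hme : MeasurableEmbedding (c.symm : (Fin n → ℂ) → E) :=
        c.symm.toHomeomorph.measurableEmbedding
      have key := mean_HH D σ hσ (Measure.map c.symm (volume : Measure (Fin n → ℂ))) (up n c h)
        (up_cont n c hc h) ?_
      · exact hI.congr _ _ (h6 _ (up_cont n c hc h)) (fun z hz => (key z hz).symm)
      · intro a ha r hr0 hr1
        have ha' : ‖-a‖ < 1 := by rwa [norm_neg]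
        have dm : ∀ a : E, ‖a‖ < 1 → DifferentiableOn ℂ (fun x => c (mob a (c.symm x)))
            {z : Fin n → ℂ | ∑ i, ‖z i‖ ^ 2 < 1} := by
          intro a ha
          apply c.differentiable.comp_differentiableOn
          apply (differentiableOn_mob a).comp c.symm.differentiable.differentiableOn
          intro x hx
          exact one_add_inner_ne ha ((lt_one_iff' n c hc x).1 hx).le
        have := hP (fun x => up n c h (c.symm x)) (fun x => up_symm n c hc h x)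
          (fun x => c (mob a (c.symm x))) (dm a ha)
          (fun z hz => (lt_one_iff'' n c hc _).2 (norm_mob_lt ha ((lt_one_iff' n c hc z).1 hz)))
          ⟨fun x => c (mob (-a) (c.symm x)), dm (-a) ha', fun z hz =>
            ⟨(lt_one_iff'' n c hc _).2 (norm_mob_lt ha' ((lt_one_iff' n c hc z).1 hz)), by
              simp only [c.symm_apply_apply]
              rw [mob_mob_neg ha ((lt_one_iff' n c hc z).1 hz).le, c.apply_symm_apply], by
              simp only [c.symm_apply_apply]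
              rw [mob_neg_mob ha ((lt_one_iff' n c hc z).1 hz).le, c.apply_symm_apply]⟩⟩
          r hr0 hr1
        simp only [c.symm_apply_apply, map_zero, mob_zero_right] at this
        rw [hme.setIntegral_map, hme.map_apply, ball_pre n c hc r hr0, this, Complex.real_smul]
    · intro f hf h hh F hFh ψ hψ mψ hχ r hr0 hr1
      obtain ⟨χ, hχ1, hχ2⟩ := hχ
      haveI : (Measure.map c.symm (volume : Measure (Fin n → ℂ))).IsAddHaarMeasure :=
        ContinuousLinearEquiv.isAddHaarMeasure_map c.symm volume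
      have hme : MeasurableEmbedding (c.symm : (Fin n → ℂ) → E) :=
        c.symm.toHomeomorph.measurableEmbedding
      have dd : ∀ u : (Fin n → ℂ) → (Fin n → ℂ),
          DifferentiableOn ℂ u {z : Fin n → ℂ | ∑ i, ‖z i‖ ^ 2 < 1} →
          DifferentiableOn ℂ (fun z => c.symm (u (c z))) (ball 0 1) := by
        intro u hu
        apply c.symm.differentiable.comp_differentiableOn
        apply hu.comp c.differentiable.differentiableOn
        intro x hx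
        exact (lt_one_iff'' n c hc x).2 (by simpa using hx)
      obtain ⟨L, hL⟩ := aut_form (fun z => c.symm (ψ (c z))) (fun z => c.symm (χ (c z)))
        (dd ψ hψ) (dd χ hχ1)
        (fun z hz => (lt_one_iff' n c hc _).1 (mψ _ ((lt_one_iff'' n c hc z).2 hz)))
        (fun z hz => (lt_one_iff' n c hc _).1 (hχ2 _ ((lt_one_iff'' n c hc z).2 hz)).1)
        (fun z hz => by
          simp only [c.apply_symm_apply]
          rw [(hχ2 _ ((lt_one_iff'' n c hc z).2 hz)).2.1, c.symm_apply_apply])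
        (fun z hz => by
          simp only [c.apply_symm_apply]
          rw [(hχ2 _ ((lt_one_iff'' n c hc z).2 hz)).2.2, c.symm_apply_apply])
      set a : E := c.symm (ψ (c 0)) with ha
      have h00 : ∑ i, ‖(0 : Fin n → ℂ) i‖ ^ 2 < 1 := by simp
      have ha1 : ‖a‖ < 1 := by
        rw [ha, map_zero]
        exact (lt_one_iff' n c hc _).1 (mψ 0 h00)
      have hFv : ∀ z : Fin n → ℂ, ∑ i, ‖z i‖ ^ 2 < 1 →
          F (ψ z) = HH σ (up n c f) (mob a (L (c.symm z))) := by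
        intro z hz
        have e1 := mψ z hz
        have e2 := hL (c.symm z) ((lt_one_iff' n c hc z).1 hz)
        simp only [c.apply_symm_apply] at e2
        have e3 := hFh ⟨ψ z, e1.le⟩
        simp only at e3
        rw [e3, hh]
        simp only
        rw [e2]
      have e4 := HH_mean D σ hσ (Measure.map c.symm (volume : Measure (Fin n → ℂ))) (up n c f)
        (up_cont n c hc f) a ha1 L r hr0 hr1
      rw [hme.setIntegral_map, hme.map_apply, ball_pre n c hc r hr0] at e4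
      have hms : MeasurableSet {z : Fin n → ℂ | ∑ i, ‖z i‖ ^ 2 < r ^ 2} := by
        rw [← ball_pre n c hc r hr0]
        exact hme.measurable measurableSet_ball
      have e5 : ∫ z in {z : Fin n → ℂ | ∑ i, ‖z i‖ ^ 2 < r ^ 2}, F (ψ z)
          = ∫ z in {z : Fin n → ℂ | ∑ i, ‖z i‖ ^ 2 < r ^ 2},
            HH σ (up n c f) (mob a (L (c.symm z))) := by
        apply setIntegral_congr_fun hms
        intro z hz
        apply hFv
        have : ∑ i, ‖z i‖ ^ 2 < r ^ 2 := hz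
        nlinarith
      rw [e5, e4, hFv 0 h00, Complex.real_smul]
      simp
end tr
end Pool.Agent.Helper287.MB
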