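import Pool.Agent.Helper287.MB.TeleInv
set_option autoImplicit false
open MeasureTheory Metric Set Filter Topology
open scoped InnerProductSpace ComplexConjugate

namespace Pool.Agent.Helper287.MB.G12


section G
variable {E : Type} [NormedAddCommGroup E] [InnerProductSpace ℂ E] [FiniteDimensional ℂ E]
  [MeasurableSpace E] [BorelSpace E] [Nontrivial E]

/-- isometries act transitively on spheres -/
theorem iso_trans' (z w : E) (h : ‖z‖ = ‖w‖) : ∃ L : E ≃ₗᵢ[ℂ] E, L z = w := by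
  by_cases hz : z = 0
  · subst hz
    refine ⟨LinearIsometryEquiv.refl ℂ E, ?_⟩
    rw [norm_zero] at h
    rw [map_zero]; exact (norm_eq_zero.1 h.symm).symm
  · have hz0 : ‖z‖ ≠ 0 := norm_ne_zero_iff.2 hz
    have hw0 : ‖w‖ ≠ 0 := by rw [← h]; exact hz0
    obtain ⟨L, hL⟩ := iso_trans (((‖z‖ : ℂ))⁻¹ • z) (((‖w‖ : ℂ))⁻¹ • w)
      (by rw [norm_smul, norm_inv, Complex.norm_real, norm_norm, inv_mul_cancel₀ hz0])
      (by rw [norm_smul, norm_inv, Complex.norm_real, norm_norm, inv_mul_cancel₀ hw0])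
    refine ⟨L, ?_⟩
    rw [map_smul, h] at hL
    have hc : ((‖w‖ : ℂ))⁻¹ ≠ 0 := inv_ne_zero (by exact_mod_cast hw0)
    exact smul_right_injective E hc hL

theorem sph_congr {F : Type} [NormedAddCommGroup F] [NormedSpace ℝ F] (σ : Measure E)
    (hσ : IsSph σ) (f g : E → F) (h : ∀ z, ‖z‖ = 1 → f z = g z) : ∫ ζ, f ζ ∂σ = ∫ ζ, g ζ ∂σ := by
  refine integral_congr_ae ?_
  filter_upwards [hσ.supp] with ζ hζ using h ζ hζ

theorem law_integral (D : HaarData E) (σ : Measure E) (hσ : IsSph σ) (f : E → ℂ)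
    (hf : Continuous f) {e : E} (he : ‖e‖ = 1) :
    ∫ k, f (D.act k e) ∂D.μ = ∫ ζ, f ζ ∂σ := by
  rw [← D.law σ hσ e he]
  have hc : Continuous (fun k => D.act k e) :=
    D.cont.comp (continuous_id.prodMk continuous_const)
  rw [integral_map hc.measurable.aemeasurable]
  exact hf.aestronglyMeasurable

/-- TARGET 1 (radial type). -/
theorem type_zero_mem (D : HaarData E) (σ : Measure E) (hσ : IsSph σ)
    {Y : (E → ℂ) → Prop} (hY : Inv Y) (f : E → ℂ) (hf : Y f) (h0 : ∫ ζ, f ζ ∂σ ≠ 0) :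
    Y (fun _ => 1) := by
  obtain ⟨f1, hf1c, hf1⟩ := exists_ext f (hY.cont f hf)
  have hYf1 : Y f1 := hY.congr f f1 hf hf1
  set f0 : E → ℂ := fun z => ∫ k, f1 (D.act k z) ∂D.μ with hf0
  have hYf0 : Y f0 := inv_average hY D.μ (fun k z => f1 (D.act k z))
    ((hf1c.comp D.cont).continuousOn) (fun k => hY.isoI f1 (D.act k) hYf1)
  -- invariance
  have hinv : ∀ (L : E ≃ₗᵢ[ℂ] E) (z : E), f0 (L z) = f0 z := by
    intro L z
    have e1 : f0 (L z) = ∫ k, f1 ((D.act k).symm (L z)) ∂D.μ :=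
      (D.symm ℂ (fun M => f1 (M (L z)))).symm
    have e2 : ∫ k, f1 ((D.act k).symm (L z)) ∂D.μ = ∫ k, f1 ((D.act k).symm z) ∂D.μ := by
      have := D.left ℂ (fun M => f1 (M.symm z)) L.symm
      rw [← this]
      rfl
    have e3 : ∫ k, f1 ((D.act k).symm z) ∂D.μ = f0 z := D.symm ℂ (fun M => f1 (M z))
    rw [e1, e2, e3]
  have hrad : ∀ z w : E, ‖z‖ = ‖w‖ → f0 z = f0 w := by
    intro z w h
    obtain ⟨L, hL⟩ := iso_trans' z w h
    rw [← hL, hinv]
  haveI := hσ.prob
  have hHH : Y (HH σ f0) := by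
    refine tele_inv σ hσ hY f0 hYf0 0 le_rfl ?_
    intro ε hε
    refine ⟨1, one_pos, fun r hr _ hr1 z hz => ?_⟩
    have : SS σ r f0 z = TT σ r f0 z := by
      unfold SS TT
      refine sph_congr σ hσ _ _ fun ζ hζ => hrad _ _ ?_
      refine norm_mob_symm ?_ hz
      rw [norm_smul, Complex.norm_real, hζ, mul_one, Real.norm_eq_abs, abs_of_pos hr]
      exact hr1.le
    rw [this]
    have e : TT σ r f0 z - (((1 - 0 * r ^ 2 : ℝ)) : ℂ) * TT σ r f0 z = 0 := by
      push_cast; ring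
    rw [e, norm_zero]; positivity
  set c := ∫ ζ, f ζ ∂σ with hc
  have hsph : ∀ ζ, ‖ζ‖ = 1 → f0 ζ = c := by
    intro ζ hζ
    rw [hf0]
    simp only
    rw [law_integral D σ hσ f1 hf1c hζ]
    exact sph_congr σ hσ _ _ fun z hz => hf1 z hz.le
  have hconst : Y (fun _ => c) := by
    refine hY.congr _ _ hHH fun z hz => ?_
    rw [HH_congr σ hσ f0 (fun _ => c) hsph hz]
    unfold HH
    simp
  refine hY.congr _ _ (hY.smul c⁻¹ _ hconst) fun z _ => ?_
  rw [inv_mul_cancel₀ h0]

/-- the Poisson extension of a linear functional -/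
theorem HH_inner (σ : Measure E) (hσ : IsSph σ) (b : E) {z : E} (hz : ‖z‖ ≤ 1) :
    HH σ (fun w => ⟪b, w⟫_ℂ) z = ⟪b, z⟫_ℂ := by
  rcases hz.lt_or_eq with h | h
  · unfold HH
    have h1 : ContinuousOn (fun w => ⟪b, mob z w⟫_ℂ) (closedBall 0 1) := by
      refine ContinuousOn.inner (𝕜 := ℂ) continuousOn_const ?_
      refine (continuousOn_mob (E := E)).comp (f := fun w => (z, w))
        (continuous_const.prodMk continuous_id).continuousOn ?_
      intro w hw
      exact one_add_inner_ne h (by simpa using hw)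
    have h2 : DifferentiableOn ℂ (fun w => ⟪b, mob z w⟫_ℂ) (ball 0 1) := by
      have h3 : DifferentiableOn ℂ (mob z) (ball 0 1) :=
        (differentiableOn_mob z).mono fun w hw =>
          one_add_inner_ne h (by have : ‖w‖ < 1 := by simpa using hw
                                 exact this.le)
      exact (innerSL ℂ b).differentiable.comp_differentiableOn h3
    have := mean_holo σ hσ (fun w => ⟪b, mob z w⟫_ℂ) h1 h2
    rw [this, mob_zero_right]
  · exact HH_bdry σ hσ _ h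

/-- TARGET 2 (vector type). -/
theorem type_vector_mem (D : HaarData E) (σ : Measure E) (hσ : IsSph σ)
    {Y : (E → ℂ) → Prop} (hY : Inv Y) (f : E → ℂ) (hf : Y f) (a : E)
    (h0 : ∫ ζ, f ζ * ⟪ζ, a⟫_ℂ ∂σ ≠ 0) (b : E) :
    Y (fun z => ⟪b, z⟫_ℂ) := by
  obtain ⟨f1, hf1c, hf1⟩ := exists_ext f (hY.cont f hf)
  have hYf1 : Y f1 := hY.congr f f1 hf hf1
  set F : E → E := fun z => ∫ k, f1 ((D.act k).symm z) • D.act k a ∂D.μ with hF
  have hact : Continuous (fun k => D.act k a) :=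
    D.cont.comp (continuous_id.prodMk continuous_const)
  have hjoint : Continuous (fun p : E × D.K => f1 ((D.act p.2).symm p.1) • D.act p.2 a) := by
    have h1 : Continuous (fun p : E × D.K => (D.act p.2).symm p.1) :=
      D.cont_symm.comp (continuous_snd.prodMk continuous_fst)
    exact (hf1c.comp h1).smul (hact.comp continuous_snd)
  have hFc : Continuous F := by
    have := continuous_parametric_integral_of_continuous (μ := D.μ)
      (f := fun z k => f1 ((D.act k).symm z) • D.act k a) hjoint isCompact_univ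
    simpa only [Measure.restrict_univ] using this
  have hint : ∀ z, Integrable (fun k => f1 ((D.act k).symm z) • D.act k a) D.μ := by
    intro z
    have hc : Continuous (fun k => f1 ((D.act k).symm z) • D.act k a) :=
      hjoint.comp (continuous_const.prodMk continuous_id)
    exact hc.integrable_of_hasCompactSupport (HasCompactSupport.of_compactSpace _)
  have hequi : ∀ (L : E ≃ₗᵢ[ℂ] E) (z : E), F (L z) = L (F z) := by
    intro L z
    have := D.left E (fun M => f1 (M.symm (L z)) • M a) L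
    have e1 : F (L z) = ∫ k, f1 (((D.act k).trans L).symm (L z)) • ((D.act k).trans L) a ∂D.μ :=
      this.symm
    rw [e1]
    have e2 : ∀ k, f1 (((D.act k).trans L).symm (L z)) • ((D.act k).trans L) a =
        (L.toLinearIsometry.toContinuousLinearMap : E →L[ℂ] E)
          (f1 ((D.act k).symm z) • D.act k a) := by
      intro k
      have e3 : ((D.act k).trans L).symm (L z) = (D.act k).symm z := by
        show (D.act k).symm (L.symm (L z)) = _
        rw [L.symm_apply_apply]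
      rw [e3]
      show f1 ((D.act k).symm z) • L (D.act k a) = L (f1 ((D.act k).symm z) • D.act k a)
      rw [map_smul]
    simp_rw [e2]
    rw [ContinuousLinearMap.integral_comp_comm _ (hint z)]
    rfl
  set fb : E → ℂ := fun z => ⟪b, F z⟫_ℂ with hfb
  have hinner : ∀ z, ∀ x : E, ⟪x, F z⟫_ℂ =
      ∫ k, ⟪x, D.act k a⟫_ℂ * f1 ((D.act k).symm z) ∂D.μ := by
    intro z x
    have := ContinuousLinearMap.integral_comp_comm (innerSL ℂ x) (hint z)
    have e : ⟪x, F z⟫_ℂ = (innerSL ℂ x) (F z) := rfl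
    rw [e, hF]
    simp only
    rw [← this]
    refine integral_congr_ae (Eventually.of_forall fun k => ?_)
    simp only [innerSL_apply_apply, inner_smul_right]
    ring
  have hYfb : Y fb := by
    have h1 := inv_average hY D.μ (fun k z => ⟪b, D.act k a⟫_ℂ * f1 ((D.act k).symm z)) (by
      refine Continuous.continuousOn ?_
      exact (continuous_const.inner (hact.comp continuous_fst)).mul (hf1c.comp D.cont_symm))
      (fun k => hY.smul _ _ (hY.isoI f1 (D.act k).symm hYf1))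
    refine hY.congr _ _ h1 fun z _ => ?_
    exact hinner z b
  haveI := hσ.prob
  have hFcon : ContinuousOn F (closedBall 0 1) := hFc.continuousOn
  have hHH : Y (HH σ fb) := by
    refine tele_inv σ hσ hY fb hYfb
      (((Module.finrank ℂ E : ℝ) + 1) / (2 * (Module.finrank ℂ E : ℝ))) (by positivity) ?_
    intro ε hε
    obtain ⟨r₁, hr0, hr1, H⟩ := type_vector σ hσ F hFc (fun L z _ => hequi L z)
      (ε / (‖b‖ + 1)) (by positivity)
    refine ⟨r₁, hr0, fun r hr hrr hr1' z hz => ?_⟩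
    have hSS : SS σ r fb z = ⟪b, ∫ ζ, F (mob ((r:ℂ) • ζ) z) ∂σ⟫_ℂ := by
      have := ContinuousLinearMap.integral_comp_comm (innerSL ℂ b)
        (SS_integrable σ hσ F hFcon hr.le hr1' hz)
      exact this
    have hTT : TT σ r fb z = ⟪b, ∫ ζ, F (mob z ((r:ℂ) • ζ)) ∂σ⟫_ℂ := by
      have := ContinuousLinearMap.integral_comp_comm (innerSL ℂ b)
        (TT_integrable σ hσ F hFcon hr.le hr1' hz)
      exact this
    rw [hSS, hTT, ← inner_smul_right, ← inner_sub_right]
    have hH := H r hr hrr z hz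
    calc ‖⟪b, _⟫_ℂ‖ ≤ ‖b‖ * ‖_‖ := norm_inner_le_norm _ _
      _ ≤ ‖b‖ * (ε / (‖b‖ + 1) * r ^ 2) := by gcongr
      _ ≤ ε * r ^ 2 := by
        have h1 : ‖b‖ * (ε / (‖b‖ + 1)) ≤ ε := by
          rw [mul_div_assoc', div_le_iff₀ (by positivity)]
          nlinarith [norm_nonneg b]
        calc ‖b‖ * (ε / (‖b‖ + 1) * r ^ 2) = ‖b‖ * (ε / (‖b‖ + 1)) * r ^ 2 := by ring
          _ ≤ ε * r ^ 2 := by gcongr
  set c := ∫ ζ, f ζ * ⟪ζ, a⟫_ℂ ∂σ with hc
  have hFsph : ∀ ζ : E, ‖ζ‖ = 1 → F ζ = c • ζ := by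
    intro ζ hζ
    -- reflection fixing `ζ`
    have h1 : (Submodule.reflection (ℂ ∙ ζ)) ζ = ζ :=
      Submodule.reflection_mem_subspace_eq_self (Submodule.mem_span_singleton_self ζ)
    have h2 := hequi (Submodule.reflection (ℂ ∙ ζ)) ζ
    rw [h1, Submodule.reflection_singleton_apply, hζ] at h2
    have h3 : F ζ = ⟪ζ, F ζ⟫_ℂ • ζ := by
      have h4 : (2 : ℂ) • F ζ = (2 : ℂ) • (⟪ζ, F ζ⟫_ℂ • ζ) := by
        have h5 : F ζ + F ζ = (2 : ℂ) • (⟪ζ, F ζ⟫_ℂ • ζ) := by
          nth_rewrite 1 [h2]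
          rw [two_smul, two_smul]
          simp
        rw [two_smul]; exact h5
      exact smul_right_injective E (two_ne_zero) h4
    have h6 : ⟪ζ, F ζ⟫_ℂ = c := by
      rw [hinner]
      have e1 : ∀ k, ⟪ζ, D.act k a⟫_ℂ = ⟪(D.act k).symm ζ, a⟫_ℂ := by
        intro k
        rw [← (D.act k).inner_map_map ((D.act k).symm ζ) a, (D.act k).apply_symm_apply]
      simp_rw [e1]
      have e2 := D.symm ℂ (fun M => ⟪M ζ, a⟫_ℂ * f1 (M ζ))
      rw [e2, law_integral D σ hσ (fun ξ => ⟪ξ, a⟫_ℂ * f1 ξ)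
        ((continuous_id.inner continuous_const).mul hf1c) hζ]
      refine sph_congr σ hσ _ _ fun ξ hξ => ?_
      rw [hf1 ξ hξ.le]; ring
    rw [h6] at h3; exact h3
  have hfin : Y (fun z => c * ⟪b, z⟫_ℂ) := by
    refine hY.congr _ _ hHH fun z hz => ?_
    rw [HH_congr σ hσ fb (fun w => c * ⟪b, w⟫_ℂ) (fun ζ hζ => by
      rw [hfb]; simp only; rw [hFsph ζ hζ, inner_smul_right]) hz]
    have e : HH σ (fun w => c * ⟪b, w⟫_ℂ) z = c * HH σ (fun w => ⟪b, w⟫_ℂ) z := by
      unfold HH; rw [integral_const_mul]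
    rw [e, HH_inner σ hσ b hz]
  refine hY.congr _ _ (hY.smul c⁻¹ _ hfin) fun z _ => ?_
  rw [← mul_assoc, inv_mul_cancel₀ h0, one_mul]

end G

end Pool.Agent.Helper287.MB.G12

namespace Pool.Agent.Helper287.MB
alias type_zero_mem := G12.type_zero_mem
alias type_vector_mem := G12.type_vector_mem
end Pool.Agent.Helper287.MB
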