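import Pool.Agent.Helper287.MB.TeleInv
set_option autoImplicit false
open MeasureTheory Metric Set Filter Topology
open scoped InnerProductSpace ComplexConjugate

namespace Pool.Agent.Helper287.MB.G3


section G
variable {E : Type} [NormedAddCommGroup E] [InnerProductSpace ℂ E] [FiniteDimensional ℂ E]
  [MeasurableSpace E] [BorelSpace E] [Nontrivial E]

omit [MeasurableSpace E] [BorelSpace E] [Nontrivial E] in
theorem stab_scalar (ζ : E) (hζ : ‖ζ‖ = 1) (T : E →L[ℂ] E)
    (hT : ∀ L : E ≃ₗᵢ[ℂ] E, L ζ = ζ → ∀ x, T (L x) = L (T x))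
    (htr : LinearMap.trace ℂ E (T : E →ₗ[ℂ] E) = 0) :
    ∃ c : ℂ, ∀ x, T x = c • (((Module.finrank ℂ E : ℂ) * ⟪ζ, x⟫_ℂ) • ζ - x) := by
  have hζ0 : ζ ≠ 0 := by
    intro h; rw [h, norm_zero] at hζ; exact zero_ne_one hζ
  -- eigenvector `ζ`
  obtain ⟨μ, hμ⟩ : ∃ μ : ℂ, T ζ = μ • ζ := by
    have hmem : ζ ∈ (ℂ ∙ ζ) := Submodule.mem_span_singleton_self ζ
    have h1 : (ℂ ∙ ζ).reflection ζ = ζ := Submodule.reflection_mem_subspace_eq_self hmem
    have h2 := hT _ h1 ζ
    rw [h1] at h2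
    have h3 : T ζ ∈ (ℂ ∙ ζ) := (Submodule.reflection_eq_self_iff _).1 h2.symm
    obtain ⟨μ, hμ⟩ := Submodule.mem_span_singleton.1 h3
    exact ⟨μ, hμ.symm⟩
  have hperp : ∀ u : E, ⟪u, ζ⟫_ℂ = 0 → ∃ c : ℂ, T u = c • u := by
    intro u hu
    have hmem : ζ ∈ (ℂ ∙ u)ᗮ := Submodule.mem_orthogonal_singleton_iff_inner_right.2 hu
    have h1 : (ℂ ∙ u)ᗮ.reflection ζ = ζ := Submodule.reflection_mem_subspace_eq_self hmem
    have h2 := hT _ h1 u
    have h3 : (ℂ ∙ u)ᗮ.reflection u = -u :=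
      Submodule.reflection_mem_subspace_orthogonal_precomplement_eq_neg
        (Submodule.mem_span_singleton_self u)
    rw [h3, map_neg, Submodule.reflection_orthogonal_apply, neg_inj] at h2
    have h4 : T u ∈ (ℂ ∙ u) := (Submodule.reflection_eq_self_iff _).1 h2.symm
    obtain ⟨c, hc⟩ := Submodule.mem_span_singleton.1 h4
    exact ⟨c, hc.symm⟩
  obtain ⟨l, hl⟩ : ∃ l : ℂ, ∀ y : E, ⟪y, ζ⟫_ℂ = 0 → T y = l • y := by
    by_cases hex : ∃ u : E, u ≠ 0 ∧ ⟪u, ζ⟫_ℂ = 0
    · obtain ⟨u, hu0, hu⟩ := hex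
      obtain ⟨l, hl⟩ := hperp u hu
      refine ⟨l, fun y hy => ?_⟩
      by_cases hyu : y ∈ (ℂ ∙ u)
      · obtain ⟨a, ha⟩ := Submodule.mem_span_singleton.1 hyu
        rw [← ha, map_smul, hl, smul_comm]
      · obtain ⟨ly, hly⟩ := hperp y hy
        obtain ⟨ls, hls⟩ := hperp (u + y) (by rw [inner_add_left, hu, hy, add_zero])
        rw [map_add, hl, hly, smul_add] at hls
        have h1 : (ly - ls) • y = (ls - l) • u := by
          rw [sub_smul, sub_smul]
          have : l • u + ly • y - (ls • y + l • u) = ls • u + ls • y - (ls • y + l • u) := by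
            rw [hls]
          have e1 : l • u + ly • y - (ls • y + l • u) = ly • y - ls • y := by abel
          have e2 : ls • u + ls • y - (ls • y + l • u) = ls • u - l • u := by abel
          rw [e1, e2] at this
          exact this
        have h2 : ly = ls := by
          by_contra hne
          have h3 : ly - ls ≠ 0 := sub_ne_zero.2 hne
          apply hyu
          rw [Submodule.mem_span_singleton]
          refine ⟨(ly - ls)⁻¹ * (ls - l), ?_⟩
          rw [mul_smul, ← h1, smul_smul, inv_mul_cancel₀ h3, one_smul]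
        have h3 : ls = l := by
          rw [h2, sub_self, zero_smul] at h1
          rcases smul_eq_zero.1 h1.symm with h | h
          · exact sub_eq_zero.1 h
          · exact absurd h hu0
        rw [hly, h2, h3]
    · push Not at hex
      refine ⟨0, fun y hy => ?_⟩
      have : y = 0 := by
        by_contra h
        exact hex y h hy
      rw [this, map_zero, smul_zero]
  have hζζ : ⟪ζ, ζ⟫_ℂ = 1 := by
    rw [inner_self_eq_norm_sq_to_K, hζ]; norm_num
  have hform : ∀ x, T x = (μ - l) • (⟪ζ, x⟫_ℂ • ζ) + l • x := by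
    intro x
    have h1 : ⟪x - ⟪ζ, x⟫_ℂ • ζ, ζ⟫_ℂ = 0 := by
      rw [inner_sub_left, inner_smul_left, hζζ, mul_one, inner_conj_symm, sub_self]
    have h2 := hl _ h1
    rw [map_sub, map_smul, hμ, sub_eq_iff_eq_add] at h2
    rw [h2, smul_sub, sub_smul]
    rw [smul_comm ⟪ζ, x⟫_ℂ μ]
    abel
  have htr2 : (μ - l) + l * (Module.finrank ℂ E : ℂ) = 0 := by
    have h1 : (T : E →ₗ[ℂ] E) = (μ - l) • ((innerₛₗ ℂ ζ).smulRight ζ) + l • LinearMap.id := by
      ext x
      simp only [ContinuousLinearMap.coe_coe, LinearMap.add_apply, LinearMap.smul_apply,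
        LinearMap.smulRight_apply, innerₛₗ_apply_apply, LinearMap.id_coe, id_eq]
      exact hform x
    rw [h1, map_add, map_smul, map_smul, LinearMap.trace_smulRight, LinearMap.trace_id,
      innerₛₗ_apply_apply, hζζ] at htr
    simpa using htr
  refine ⟨-l, fun x => ?_⟩
  rw [hform x]
  have : μ - l = -(l * (Module.finrank ℂ E : ℂ)) := by linear_combination htr2
  rw [this, smul_sub, smul_smul, smul_smul, neg_smul l x]
  rw [sub_neg_eq_add]
  congr 2
  ring


/-- `B v x = n⟪v,x⟫v - x` -/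
noncomputable def BB (v : E) : E →L[ℂ] E :=
  (Module.finrank ℂ E : ℂ) • (innerSL ℂ v).smulRight v - ContinuousLinearMap.id ℂ E

omit [MeasurableSpace E] [BorelSpace E] [Nontrivial E] [FiniteDimensional ℂ E] in
theorem BB_apply (v x : E) :
    BB v x = ((Module.finrank ℂ E : ℂ) * ⟪v, x⟫_ℂ) • v - x := by
  unfold BB
  rw [sub_apply, smul_apply,
    ContinuousLinearMap.smulRight_apply, innerSL_apply_apply, smul_smul,
    ContinuousLinearMap.id_apply]

omit [MeasurableSpace E] [BorelSpace E] [Nontrivial E] [FiniteDimensional ℂ E] in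
theorem BB_cont : Continuous (BB : E → (E →L[ℂ] E)) := by
  have h1 : Continuous fun v : E => (ContinuousLinearMap.smulRightL ℂ E E) (innerSL ℂ v) :=
    (ContinuousLinearMap.smulRightL ℂ E E).continuous.comp (innerSL ℂ).continuous
  have h2 : Continuous fun v : E => ((innerSL ℂ v).smulRight v : E →L[ℂ] E) :=
    h1.clm_apply continuous_id
  exact (h2.const_smul (Module.finrank ℂ E : ℂ)).sub continuous_const

omit [MeasurableSpace E] [BorelSpace E] [Nontrivial E] in
theorem BB_trace (v : E) (hv : ‖v‖ = 1) :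
    LinearMap.trace ℂ E (BB v : E →ₗ[ℂ] E) = 0 := by
  have h1 : (BB v : E →ₗ[ℂ] E) = (Module.finrank ℂ E : ℂ) • ((innerₛₗ ℂ v).smulRight v) -
      LinearMap.id := by
    ext x
    simp only [ContinuousLinearMap.coe_coe, LinearMap.sub_apply, LinearMap.smul_apply,
      LinearMap.smulRight_apply, innerₛₗ_apply_apply, LinearMap.id_coe, id_eq, BB_apply, smul_smul]
  have hvv : ⟪v, v⟫_ℂ = 1 := by
    rw [inner_self_eq_norm_sq_to_K, hv]; norm_num
  rw [h1, map_sub, map_smul, LinearMap.trace_smulRight, LinearMap.trace_id, innerₛₗ_apply_apply, hvv]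
  simp

omit [MeasurableSpace E] [BorelSpace E] [Nontrivial E] [FiniteDimensional ℂ E] in
theorem BB_iso (L : E ≃ₗᵢ[ℂ] E) (v x : E) : BB (L v) (L x) = L (BB v x) := by
  rw [BB_apply, BB_apply, map_sub, map_smul, LinearIsometryEquiv.inner_map_map]

/-- the matrix valued function -/
noncomputable def FM (D : HaarData E) (f1 : E → ℂ) (e z : E) : E →L[ℂ] E :=
  ∫ k, f1 ((D.act k).symm z) • BB (D.act k e) ∂D.μ

omit [BorelSpace E] [Nontrivial E] [FiniteDimensional ℂ E] in
theorem FM_int (D : HaarData E) (f1 : E → ℂ) (hf1 : Continuous f1) (e z : E) :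
    Integrable (fun k => f1 ((D.act k).symm z) • BB (D.act k e)) D.μ := by
  have h1 : Continuous fun k => (D.act k).symm z :=
    D.cont_symm.comp (continuous_id.prodMk continuous_const)
  have h2 : Continuous fun k => D.act k e :=
    D.cont.comp (continuous_id.prodMk continuous_const)
  have h3 : Continuous fun k => f1 ((D.act k).symm z) • BB (D.act k e) :=
    (hf1.comp h1).smul (BB_cont.comp h2)
  exact h3.integrable_of_hasCompactSupport (HasCompactSupport.of_compactSpace _)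

omit [BorelSpace E] [Nontrivial E] [FiniteDimensional ℂ E] in
theorem FM_apply (D : HaarData E) (f1 : E → ℂ) (hf1 : Continuous f1) (e z x : E) :
    FM D f1 e z x = ∫ k, f1 ((D.act k).symm z) • BB (D.act k e) x ∂D.μ := by
  unfold FM
  rw [ContinuousLinearMap.integral_apply (FM_int D f1 hf1 e z)]
  rfl

omit [BorelSpace E] [Nontrivial E] in
theorem FM_equi (D : HaarData E) (f1 : E → ℂ) (hf1 : Continuous f1) (e : E)
    (L : E ≃ₗᵢ[ℂ] E) (z x : E) : FM D f1 e (L z) (L x) = L (FM D f1 e z x) := by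
  rw [FM_apply D f1 hf1, FM_apply D f1 hf1]
  have h1 := D.left E (fun U => f1 (U.symm (L z)) • BB (U e) (L x)) L
  rw [← h1]
  have h2 : ∀ k, f1 (((D.act k).trans L).symm (L z)) • BB (((D.act k).trans L) e) (L x) =
      L (f1 ((D.act k).symm z) • BB (D.act k e) x) := by
    intro k
    rw [LinearIsometryEquiv.symm_trans, LinearIsometryEquiv.trans_apply,
      LinearIsometryEquiv.symm_apply_apply, LinearIsometryEquiv.trans_apply, BB_iso, map_smul]
  simp only [h2]
  have h3 : Integrable (fun k => f1 ((D.act k).symm z) • BB (D.act k e) x) D.μ :=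
    (FM_int D f1 hf1 e z).apply_continuousLinearMap x
  have h4 := ContinuousLinearMap.integral_comp_comm
    ((L : E ≃L[ℂ] E) : E →L[ℂ] E) h3
  exact h4

omit [BorelSpace E] [Nontrivial E] in
theorem FM_trace (D : HaarData E) (f1 : E → ℂ) (hf1 : Continuous f1) (e : E) (he : ‖e‖ = 1)
    (z : E) : LinearMap.trace ℂ E (FM D f1 e z : E →ₗ[ℂ] E) = 0 := by
  let τ : (E →L[ℂ] E) →L[ℂ] ℂ :=
    LinearMap.toContinuousLinearMap (LinearMap.trace ℂ E ∘ₗ ContinuousLinearMap.coeLM ℂ)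
  have hτ : ∀ M : E →L[ℂ] E, τ M = LinearMap.trace ℂ E (M : E →ₗ[ℂ] E) := fun M => rfl
  rw [← hτ]
  unfold FM
  rw [← ContinuousLinearMap.integral_comp_comm τ (FM_int D f1 hf1 e z)]
  have h1 : ∀ k, τ (f1 ((D.act k).symm z) • BB (D.act k e)) = 0 := by
    intro k
    rw [map_smul, hτ, BB_trace _ (by rw [LinearIsometryEquiv.norm_map, he]), smul_zero]
  simp only [h1, integral_zero]

omit [BorelSpace E] [Nontrivial E] in
theorem FM_cont (D : HaarData E) (f1 : E → ℂ) (hf1 : Continuous f1) (e : E) :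
    Continuous (FM D f1 e) := by
  have : ProperSpace E := FiniteDimensional.proper ℂ E
  have h1 : Continuous fun p : E × D.K => f1 ((D.act p.2).symm p.1) • BB (D.act p.2 e) := by
    have h2 : Continuous fun p : E × D.K => (D.act p.2).symm p.1 :=
      D.cont_symm.comp (continuous_snd.prodMk continuous_fst)
    have h3 : Continuous fun p : E × D.K => D.act p.2 e :=
      D.cont.comp (continuous_snd.prodMk continuous_const)
    exact (hf1.comp h2).smul (BB_cont.comp h3)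
  have h4 := continuous_parametric_integral_of_continuous (μ := D.μ)
    (f := fun (z : E) (k : D.K) => f1 ((D.act k).symm z) • BB (D.act k e)) h1 isCompact_univ
  simp only [Measure.restrict_univ] at h4
  exact h4

/-- TARGET 3 (traceless matrix type). -/
theorem type_matrix_mem (D : HaarData E) (σ : Measure E) (hσ : IsSph σ)
    {Y : (E → ℂ) → Prop} (hY : Inv Y) (f : E → ℂ) (hf : Y f) (e : E) (he : ‖e‖ = 1)
    (h0 : ∫ ζ, f ζ * (((Module.finrank ℂ E : ℝ) * ‖⟪e, ζ⟫_ℂ‖ ^ 2 - 1 : ℝ) : ℂ) ∂σ ≠ 0)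
    (e' : E) (he' : ‖e'‖ = 1) :
    Y (HH σ (fun z => (((Module.finrank ℂ E : ℝ) * ‖⟪e', z⟫_ℂ‖ ^ 2 - 1 : ℝ) : ℂ))) := by
  have hn1 : 0 < Module.finrank ℂ E := Module.finrank_pos
  -- dimension at least two
  have hdim : 2 ≤ Module.finrank ℂ E := by
    by_contra hlt
    have h1 : Module.finrank ℂ E = 1 := by omega
    apply h0
    have he0 : e ≠ 0 := by
      intro h; rw [h, norm_zero] at he; exact zero_ne_one he
    have h2 := (finrank_eq_one_iff_of_nonzero' e he0).1 h1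
    rw [← integral_zero E ℂ (μ := σ)]
    apply integral_congr_ae
    filter_upwards [hσ.supp] with ζ hζ
    obtain ⟨c, hc⟩ := h2 ζ
    have hcn : ‖c‖ = 1 := by
      rw [← hc, norm_smul, he, mul_one] at hζ
      exact hζ
    have h3 : ‖⟪e, ζ⟫_ℂ‖ = 1 := by
      rw [← hc, inner_smul_right, inner_self_eq_norm_sq_to_K, he]
      simp [hcn]
    rw [h3, h1]
    simp
  -- continuous extension
  obtain ⟨f1, hf1, hff⟩ := exists_ext f (hY.cont f hf)
  have hYf1 : Y f1 := hY.congr f f1 hf hff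
  set F : E → (E →L[ℂ] E) := FM D f1 e with hF
  have hFc : Continuous F := FM_cont D f1 hf1 e
  set g : E → ℂ := fun z => ⟪e', F z e'⟫_ℂ with hg
  let ℓ : (E →L[ℂ] E) →L[ℂ] ℂ := (innerSL ℂ e').comp (ContinuousLinearMap.apply ℂ E e')
  have hℓ : ∀ M : E →L[ℂ] E, ℓ M = ⟪e', M e'⟫_ℂ := fun M => rfl
  -- membership
  have hgY : Y g := by
    have hcB : Continuous fun k => ℓ (BB (D.act k e)) :=
      ℓ.continuous.comp (BB_cont.comp (D.cont.comp (continuous_id.prodMk continuous_const)))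
    have h1 : g = fun z => ∫ k, ℓ (BB (D.act k e)) * f1 ((D.act k).symm z) ∂D.μ := by
      funext z
      rw [hg]
      simp only
      rw [← hℓ, hF]
      unfold FM
      rw [← ContinuousLinearMap.integral_comp_comm ℓ (FM_int D f1 hf1 e z)]
      apply integral_congr_ae
      filter_upwards with k
      rw [map_smul, smul_eq_mul, mul_comm]
    rw [h1]
    apply inv_average hY D.μ (fun k z => ℓ (BB (D.act k e)) * f1 ((D.act k).symm z))
    · apply Continuous.continuousOn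
      exact (hcB.comp continuous_fst).mul (hf1.comp D.cont_symm)
    · intro k
      exact hY.smul _ _ (hY.isoI f1 (D.act k).symm hYf1)
  -- the averages
  have hclose : ∀ ε > (0:ℝ), ∃ r₁ > (0:ℝ), ∀ r : ℝ, 0 < r → r < r₁ → r < 1 → ∀ z : E, ‖z‖ ≤ 1 →
      ‖SS σ r g z - (((1 - (1:ℝ) * r ^ 2 : ℝ)) : ℂ) * TT σ r g z‖ ≤ ε * r ^ 2 := by
    intro ε hε
    obtain ⟨r₁, hr₁, hr₁1, hmain⟩ := type_matrix hdim σ hσ F hFc
      (fun L z x _ => FM_equi D f1 hf1 e L z x) (fun z _ => FM_trace D f1 hf1 e he z) ε hε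
    refine ⟨r₁, hr₁, fun r hr0 hr1 hr2 z hz => ?_⟩
    have h1 := hmain r hr0 hr1 z hz
    have hS : SS σ r g z = ℓ (∫ ζ, F (mob ((r:ℂ) • ζ) z) ∂σ) := by
      rw [← ContinuousLinearMap.integral_comp_comm ℓ
        (SS_integrable σ hσ F hFc.continuousOn hr0.le hr2 hz)]
      rfl
    have hT : TT σ r g z = ℓ (∫ ζ, F (mob z ((r:ℂ) • ζ)) ∂σ) := by
      rw [← ContinuousLinearMap.integral_comp_comm ℓ
        (TT_integrable σ hσ F hFc.continuousOn hr0.le hr2 hz)]
      rfl
    rw [hS, hT, one_mul, ← smul_eq_mul, ← map_smul, ← map_sub, hℓ]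
    calc _ ≤ ‖e'‖ * ‖((∫ ζ, F (mob ((r:ℂ) • ζ) z) ∂σ)
        - (((1 - r ^ 2 : ℝ)) : ℂ) • (∫ ζ, F (mob z ((r:ℂ) • ζ)) ∂σ)) e'‖ := norm_inner_le_norm _ _
      _ ≤ ‖e'‖ * (‖((∫ ζ, F (mob ((r:ℂ) • ζ) z) ∂σ)
        - (((1 - r ^ 2 : ℝ)) : ℂ) • (∫ ζ, F (mob z ((r:ℂ) • ζ)) ∂σ))‖ * ‖e'‖) := by
          gcongr
          exact ContinuousLinearMap.le_opNorm _ _
      _ = _ := by rw [he', one_mul, mul_one]
      _ ≤ _ := h1
  have hHg : Y (HH σ g) := tele_inv σ hσ hY g hgY 1 zero_le_one hclose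
  -- the boundary values
  set I0 : ℂ := ∫ ζ, f ζ * (((Module.finrank ℂ E : ℝ) * ‖⟪e, ζ⟫_ℂ‖ ^ 2 - 1 : ℝ) : ℂ) ∂σ with hI0
  have hn : (Module.finrank ℂ E : ℂ) - 1 ≠ 0 := by
    intro h
    have h2 : (Module.finrank ℂ E : ℂ) = ((1 : ℕ) : ℂ) := by
      push_cast
      linear_combination h
    have h3 : Module.finrank ℂ E = 1 := by exact_mod_cast h2
    omega
  have hns : ∀ v x : E, ⟪v, x⟫_ℂ * ⟪x, v⟫_ℂ = ((‖⟪v, x⟫_ℂ‖ ^ 2 : ℝ) : ℂ) := by
    intro v x
    rw [← inner_conj_symm x v, Complex.mul_conj, Complex.normSq_eq_norm_sq]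
  have hval : ∀ ζ : E, ‖ζ‖ = 1 → g ζ = (I0 / ((Module.finrank ℂ E : ℂ) - 1)) *
      (((Module.finrank ℂ E : ℝ) * ‖⟪e', ζ⟫_ℂ‖ ^ 2 - 1 : ℝ) : ℂ) := by
    intro ζ hζ
    obtain ⟨c, hc⟩ := stab_scalar ζ hζ (F ζ)
      (fun L hL x => by
        have := FM_equi D f1 hf1 e L ζ x
        rw [hL] at this
        exact this) (FM_trace D f1 hf1 e he ζ)
    -- the value at `ζ`
    have hself : ∀ v : E, ‖v‖ = 1 → ⟪v, v⟫_ℂ = 1 := by
      intro v hv
      rw [inner_self_eq_norm_sq_to_K, hv]; norm_num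
    have hμ1 : ⟪ζ, F ζ ζ⟫_ℂ = c * ((Module.finrank ℂ E : ℂ) - 1) := by
      rw [hc, inner_smul_right, inner_sub_right, inner_smul_right, hself ζ hζ]
      ring
    have hμ2 : ⟪ζ, F ζ ζ⟫_ℂ = I0 := by
      let ℓ2 : (E →L[ℂ] E) →L[ℂ] ℂ := (innerSL ℂ ζ).comp (ContinuousLinearMap.apply ℂ E ζ)
      have hℓ2 : ∀ M : E →L[ℂ] E, ℓ2 M = ⟪ζ, M ζ⟫_ℂ := fun M => rfl
      rw [← hℓ2, hF]
      unfold FM
      rw [← ContinuousLinearMap.integral_comp_comm ℓ2 (FM_int D f1 hf1 e ζ)]
      set h : E → ℂ := fun ξ => f1 ξ * (((Module.finrank ℂ E : ℝ) * ‖⟪e, ξ⟫_ℂ‖ ^ 2 - 1 : ℝ) : ℂ)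
        with hh
      have hhc : Continuous h := by
        rw [hh]
        apply hf1.mul
        apply Complex.continuous_ofReal.comp
        fun_prop
      have e1 : ∀ k, ℓ2 (f1 ((D.act k).symm ζ) • BB (D.act k e)) = h ((D.act k).symm ζ) := by
        intro k
        have h1 : ⟪D.act k e, ζ⟫_ℂ = ⟪e, (D.act k).symm ζ⟫_ℂ := by
          conv_lhs => rw [← (D.act k).apply_symm_apply ζ]
          rw [LinearIsometryEquiv.inner_map_map]
        rw [map_smul, hℓ2, BB_apply, inner_sub_right, inner_smul_right, hself ζ hζ, hh, smul_eq_mul]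
        simp only
        rw [mul_assoc, hns, h1]
        push_cast
        ring
      simp only [e1]
      have e2 := D.symm ℂ (fun U => h (U ζ))
      rw [e2]
      have hmeas : AEMeasurable (fun k => D.act k ζ) D.μ :=
        (D.cont.comp (continuous_id.prodMk continuous_const)).measurable.aemeasurable
      have e3 : ∫ k, h (D.act k ζ) ∂D.μ = ∫ ξ, h ξ ∂σ := by
        rw [← D.law σ hσ ζ hζ, integral_map hmeas hhc.aestronglyMeasurable]
      rw [e3, hI0]
      apply integral_congr_ae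
      filter_upwards [hσ.supp] with ξ hξ
      rw [hh]
      simp only
      rw [hff ξ hξ.le]
    have hcv : c = I0 / ((Module.finrank ℂ E : ℂ) - 1) := by
      rw [eq_div_iff hn, ← hμ1, hμ2]
    rw [← hcv]
    rw [hg]
    simp only
    rw [hc, inner_smul_right, inner_sub_right, inner_smul_right, hself e' he', mul_assoc,
      mul_comm ⟪ζ, e'⟫_ℂ, hns]
    push_cast
    ring
  set C : ℂ := I0 / ((Module.finrank ℂ E : ℂ) - 1) with hC
  have hC0 : C ≠ 0 := div_ne_zero h0 hn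
  have hfin : ∀ z : E, ‖z‖ ≤ 1 →
      HH σ (fun z => (((Module.finrank ℂ E : ℝ) * ‖⟪e', z⟫_ℂ‖ ^ 2 - 1 : ℝ) : ℂ)) z =
        C⁻¹ * HH σ g z := by
    intro z hz
    rw [HH_congr σ hσ g (fun z => C * (((Module.finrank ℂ E : ℝ) * ‖⟪e', z⟫_ℂ‖ ^ 2 - 1 : ℝ) : ℂ))
      hval hz]
    unfold HH
    rw [integral_const_mul, ← mul_assoc, inv_mul_cancel₀ hC0, one_mul]
  exact hY.congr _ _ (hY.smul C⁻¹ _ hHg) hfin
end G

end Pool.Agent.Helper287.MB.G3

namespace Pool.Agent.Helper287.MB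
alias type_matrix_mem := G3.type_matrix_mem
end Pool.Agent.Helper287.MB
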