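import Pool.Agent.Helper287.MB.Ann
set_option autoImplicit false
open MeasureTheory Metric Set Filter Topology
open scoped InnerProductSpace ComplexConjugate

namespace Pool.Agent.Helper287.MB.KK


section KK

lemma KK_gen {M : Type*} [AddCommGroup M] [Module ℂ M] (n : ℕ) (hn : 0 < n) (X : ℕ → ℕ → M)
    (A B : M →ₗ[ℂ] M)
    (hBX : ∀ a b : ℕ, B (X a b) = ((n:ℂ) + (a:ℂ)) • X (a + 1) b - (b:ℂ) • X a (b - 1))
    (hAX : ∀ a b : ℕ, A (X a b) = ((n:ℂ) + (b:ℂ)) • X a (b + 1) - (a:ℂ) • X (a - 1) b)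
    (V : Submodule ℂ M) (hA : ∀ w ∈ V, A w ∈ V) (hB : ∀ w ∈ V, B w ∈ V)
    (h11 : (n:ℂ) • X 1 1 - X 0 0 ∈ V) :
    ∀ m k, ∃ c : ℂ, X (k + m) m - c • X k 0 ∈ V := by
  have hn0 : (n : ℂ) ≠ 0 := by exact_mod_cast hn.ne'
  have hP1 : ∀ k, ∃ c : ℂ, X (k + 1) 1 - c • X k 0 ∈ V := by
    intro k
    induction k with
    | zero =>
      refine ⟨(n:ℂ)⁻¹, ?_⟩
      have h1 := V.smul_mem ((n:ℂ)⁻¹) h11
      have h2 : ((n:ℂ)⁻¹) • ((n:ℂ) • X 1 1 - X 0 0) = X (0 + 1) 1 - (n:ℂ)⁻¹ • X 0 0 := by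
        rw [smul_sub, smul_smul, inv_mul_cancel₀ hn0, one_smul, zero_add]
      rw [h2] at h1
      exact h1
    | succ k ih =>
      obtain ⟨c, hc⟩ := ih
      have h1 := hB _ hc
      rw [map_sub, map_smul, hBX, hBX] at h1
      have hne : ((n:ℂ) + ((k + 1 : ℕ) : ℂ)) ≠ 0 := by
        have : ((n + (k + 1) : ℕ) : ℂ) ≠ 0 := by
          exact_mod_cast (by omega : n + (k + 1) ≠ 0)
        simpa using this
      refine ⟨((n:ℂ) + ((k + 1 : ℕ) : ℂ))⁻¹ * (1 + c * ((n:ℂ) + (k:ℂ))), ?_⟩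
      have h2 := V.smul_mem (((n:ℂ) + ((k + 1 : ℕ) : ℂ))⁻¹) h1
      convert h2 using 1
      simp only [Nat.cast_one, one_smul, Nat.cast_zero, zero_smul, sub_zero, Nat.sub_self]
      rw [smul_sub, smul_sub, smul_smul, inv_mul_cancel₀ hne, one_smul]
      module
  intro m
  induction m with
  | zero =>
    intro k
    exact ⟨1, by simp⟩
  | succ m ih =>
    intro k
    rcases Nat.eq_zero_or_pos m with hm | hm
    · subst hm
      exact hP1 k
    · obtain ⟨c, hc⟩ := ih (k + 1)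
      obtain ⟨c', hc'⟩ := ih k
      obtain ⟨c'', hc''⟩ := hP1 k
      have h1 := hA _ hc
      rw [map_sub, map_smul, hAX, hAX] at h1
      have hne : ((n:ℂ) + (m : ℂ)) ≠ 0 := by
        have : ((n + m : ℕ) : ℂ) ≠ 0 := by
          exact_mod_cast (by omega : n + m ≠ 0)
        simpa using this
      have e1 : k + 1 + m - 1 = k + m := by omega
      have e2 : k + 1 - 1 = k := by omega
      rw [e1, e2] at h1
      have h2 := V.add_mem (V.add_mem h1 (V.smul_mem (((k + 1 + m : ℕ) : ℂ)) hc'))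
        (V.smul_mem (c * (n:ℂ)) hc'')
      have h3 := V.smul_mem (((n:ℂ) + (m : ℂ))⁻¹) h2
      refine ⟨((n:ℂ) + (m : ℂ))⁻¹ * (((k + 1 + m : ℕ) : ℂ) * c' + c * (n:ℂ) * c''
        - c * ((k + 1 : ℕ) : ℂ)), ?_⟩
      convert h3 using 1
      have e3 : k + (m + 1) = k + 1 + m := by omega
      rw [e3]
      simp only [zero_add, Nat.cast_zero, add_zero]
      match_scalars <;> field_simp <;> ring

lemma KK_B (n : ℕ) (a b : ℕ) : opB n (Finsupp.single (a, b) (1:ℂ)) =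
    ((n:ℂ) + (a:ℂ)) • Finsupp.single (a + 1, b) (1:ℂ) - (b:ℂ) • Finsupp.single (a, b - 1) (1:ℂ) := by
  unfold opB
  rw [Finsupp.linearCombination_single, one_smul]

lemma KK_A (n : ℕ) (a b : ℕ) : opA n (Finsupp.single (a, b) (1:ℂ)) =
    ((n:ℂ) + (b:ℂ)) • Finsupp.single (a, b + 1) (1:ℂ) - (a:ℂ) • Finsupp.single (a - 1, b) (1:ℂ) := by
  unfold opA
  rw [Finsupp.linearCombination_single, one_smul]

lemma KK_s (p : ℕ × ℕ) (c : ℂ) : (Finsupp.single p c : (ℕ × ℕ) →₀ ℂ) = c • Finsupp.single p (1:ℂ) := by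
  rw [Finsupp.smul_single, smul_eq_mul, mul_one]

/-- TARGET 1 -/
theorem zonal_alg (n : ℕ) (hn : 0 < n) (V : Submodule ℂ ((ℕ × ℕ) →₀ ℂ))
    (hA : ∀ w ∈ V, opA n w ∈ V) (hB : ∀ w ∈ V, opB n w ∈ V)
    (h11 : Finsupp.single (1, 1) (n:ℂ) - Finsupp.single (0, 0) (1:ℂ) ∈ V) :
    ∃ c d : ℕ → ℕ → ℂ,
      (∀ k m, Finsupp.single (k + m, m) (1:ℂ) - Finsupp.single (k, 0) (c k m) ∈ V) ∧
      (∀ k m, Finsupp.single (m, k + m) (1:ℂ) - Finsupp.single (0, k) (d k m) ∈ V) := by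
  rw [KK_s (1, 1)] at h11
  have h1 := KK_gen n hn (fun a b => (Finsupp.single (a, b) (1:ℂ) : (ℕ × ℕ) →₀ ℂ)) (opA n) (opB n)
    (fun a b => KK_B n a b) (fun a b => KK_A n a b) V hA hB h11
  have h2 := KK_gen n hn (fun a b => (Finsupp.single (b, a) (1:ℂ) : (ℕ × ℕ) →₀ ℂ)) (opB n) (opA n)
    (fun a b => KK_A n b a) (fun a b => KK_B n b a) V hB hA h11
  choose c hc using h1
  choose d hd using h2
  refine ⟨fun k m => c m k, fun k m => d m k, ?_, ?_⟩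
  · intro k m
    rw [KK_s (k, 0)]
    exact hc m k
  · intro k m
    rw [KK_s (0, k)]
    exact hd m k

/-- TARGET 2 -/
theorem zonal_x (n : ℕ) (hn : 0 < n) (V : Submodule ℂ ((ℕ × ℕ) →₀ ℂ))
    (hA : ∀ w ∈ V, opA n w ∈ V) (hB : ∀ w ∈ V, opB n w ∈ V)
    (h10 : Finsupp.single (1, 0) (1:ℂ) ∈ V) :
    (Finsupp.single (1, 1) (n:ℂ) - Finsupp.single (0, 0) (1:ℂ) ∈ V) ∧
    ∀ k, Finsupp.single (k + 1, 0) (1:ℂ) ∈ V := by
  constructor
  · have h1 := hA _ h10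
    rw [KK_A] at h1
    rw [KK_s (1, 1)]
    simpa using h1
  · intro k
    induction k with
    | zero => exact h10
    | succ k ih =>
      have h1 := hB _ ih
      rw [KK_B] at h1
      have hne : ((n:ℂ) + ((k + 1 : ℕ) : ℂ)) ≠ 0 := by
        have : ((n + (k + 1) : ℕ) : ℂ) ≠ 0 := by
          exact_mod_cast (by omega : n + (k + 1) ≠ 0)
        simpa using this
      have h2 := V.smul_mem (((n:ℂ) + ((k + 1 : ℕ) : ℂ))⁻¹) h1
      rw [Nat.cast_zero, zero_smul, sub_zero, smul_smul, inv_mul_cancel₀ hne, one_smul] at h2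
      exact h2

/-- TARGET 3 -/
theorem zonal_y (n : ℕ) (hn : 0 < n) (V : Submodule ℂ ((ℕ × ℕ) →₀ ℂ))
    (hA : ∀ w ∈ V, opA n w ∈ V) (hB : ∀ w ∈ V, opB n w ∈ V)
    (h01 : Finsupp.single (0, 1) (1:ℂ) ∈ V) :
    (Finsupp.single (1, 1) (n:ℂ) - Finsupp.single (0, 0) (1:ℂ) ∈ V) ∧
    ∀ k, Finsupp.single (0, k + 1) (1:ℂ) ∈ V := by
  constructor
  · have h1 := hB _ h01
    rw [KK_B] at h1
    rw [KK_s (1, 1)]
    simpa using h1
  · intro k
    induction k with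
    | zero => exact h01
    | succ k ih =>
      have h1 := hA _ ih
      rw [KK_A] at h1
      have hne : ((n:ℂ) + ((k + 1 : ℕ) : ℂ)) ≠ 0 := by
        have : ((n + (k + 1) : ℕ) : ℂ) ≠ 0 := by
          exact_mod_cast (by omega : n + (k + 1) ≠ 0)
        simpa using this
      have h2 := V.smul_mem (((n:ℂ) + ((k + 1 : ℕ) : ℂ))⁻¹) h1
      rw [Nat.cast_zero, zero_smul, sub_zero, smul_smul, inv_mul_cancel₀ hne, one_smul] at h2
      exact h2
end KK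

end Pool.Agent.Helper287.MB.KK

namespace Pool.Agent.Helper287.MB
alias zonal_alg := KK.zonal_alg
alias zonal_x := KK.zonal_x
alias zonal_y := KK.zonal_y
end Pool.Agent.Helper287.MB
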