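import Pool.Agent.Helper287.MB.AnnOps
import Pool.Agent.Helper287.MB.Zonal
set_option autoImplicit false
open MeasureTheory Metric Set Filter Topology
open scoped InnerProductSpace ComplexConjugate

namespace Pool.Agent.Helper287.MB.LL


section LL
variable {E : Type} [NormedAddCommGroup E] [InnerProductSpace ℂ E] [FiniteDimensional ℂ E]
  [MeasurableSpace E] [BorelSpace E] [Nontrivial E]

omit [FiniteDimensional ℂ E] [BorelSpace E] [Nontrivial E] [MeasurableSpace E]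
  [NormedAddCommGroup E] [InnerProductSpace ℂ E] in
theorem ev_single (p : ℕ × ℕ) (c x : ℂ) :
    ev (Finsupp.single p c) x = c * (x ^ p.1 * (conj x) ^ p.2) := by
  rw [ev, Finsupp.sum_single_index]
  rw [zero_mul]

theorem ev_sub (w w' : (ℕ × ℕ) →₀ ℂ) (x : ℂ) : ev (w - w') x = ev w x - ev w' x := by
  rw [ev, ev, ev, Finsupp.sum_sub_index]
  intro a b c
  ring

theorem ev_11 (n : ℕ) (x : ℂ) :
    conj (ev (Finsupp.single (1, 1) (n:ℂ) - Finsupp.single (0, 0) (1:ℂ)) x)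
      = (((n : ℝ) * ‖x‖ ^ 2 - 1 : ℝ) : ℂ) := by
  rw [ev_sub, ev_single, ev_single]
  simp only [pow_one, pow_zero, mul_one, map_sub, map_mul, map_natCast, map_one,
    Complex.conj_conj]
  have h : conj x * x = ((‖x‖ ^ 2 : ℝ) : ℂ) := by
    rw [mul_comm, Complex.mul_conj, Complex.normSq_eq_norm_sq]
  rw [h]
  push_cast
  ring

omit [FiniteDimensional ℂ E] [BorelSpace E] [Nontrivial E] in
theorem ann_11_iff (σ : Measure E) (Y : (E → ℂ) → Prop) :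
    Ann σ Y (Finsupp.single (1, 1) ((Module.finrank ℂ E : ℕ) : ℂ) - Finsupp.single (0, 0) (1:ℂ)) ↔
    ∀ f, Y f → ∀ e : E, ‖e‖ = 1 →
      ∫ ζ, f ζ * (((Module.finrank ℂ E : ℝ) * ‖⟪e, ζ⟫_ℂ‖ ^ 2 - 1 : ℝ) : ℂ) ∂σ = 0 := by
  unfold Ann
  simp only [ev_11]

theorem V_stable (σ : Measure E) (hσ : IsSph σ) {Y : (E → ℂ) → Prop} (hY : Inv Y) :
    ∃ V : Submodule ℂ ((ℕ × ℕ) →₀ ℂ), (∀ w, w ∈ V ↔ Ann σ Y w) ∧
      (∀ w ∈ V, opA (Module.finrank ℂ E) w ∈ V) ∧ (∀ w ∈ V, opB (Module.finrank ℂ E) w ∈ V) := by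
  obtain ⟨V, hV⟩ := ann_sub σ hσ hY
  refine ⟨V, hV, fun w hw => ?_, fun w hw => ?_⟩
  · exact (hV _).2 (ann_op σ hσ hY w ((hV w).1 hw)).1
  · exact (hV _).2 (ann_op σ hσ hY w ((hV w).1 hw)).2

/-- the moments used -/
noncomputable def mA (σ : Measure E) (f : E → ℂ) (k : ℕ) (z : E) : ℂ := ∫ ζ, f ζ * ⟪ζ, z⟫_ℂ ^ k ∂σ
noncomputable def mB (σ : Measure E) (f : E → ℂ) (k : ℕ) (z : E) : ℂ := ∫ ζ, f ζ * ⟪z, ζ⟫_ℂ ^ k ∂σ

/-- representable functions on the sphere -/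
def Rp (σ : Measure E) (f : E → ℂ) (g : E → ℂ) : Prop :=
  ∃ α β : ℕ →₀ ℂ, β 0 = 0 ∧ ∀ z : E, ‖z‖ = 1 →
    g z = (α.sum fun k c => c * mA σ f k z) + (β.sum fun k c => c * mB σ f k z)

omit [FiniteDimensional ℂ E] [BorelSpace E] [Nontrivial E] in
theorem Rp.congr {σ : Measure E} {f g g' : E → ℂ} (h : Rp σ f g)
    (hg : ∀ z : E, ‖z‖ = 1 → g' z = g z) : Rp σ f g' := by
  obtain ⟨α, β, h0, h1⟩ := h
  exact ⟨α, β, h0, fun z hz => by rw [hg z hz, h1 z hz]⟩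

omit [FiniteDimensional ℂ E] [BorelSpace E] [Nontrivial E] in
theorem Rp.add {σ : Measure E} {f g g' : E → ℂ} (h : Rp σ f g) (h' : Rp σ f g') :
    Rp σ f (fun z => g z + g' z) := by
  obtain ⟨α, β, h0, h1⟩ := h
  obtain ⟨α', β', h0', h1'⟩ := h'
  refine ⟨α + α', β + β', by rw [Finsupp.add_apply, h0, h0', add_zero], fun z hz => ?_⟩
  show g z + g' z = _
  rw [h1 z hz, h1' z hz, Finsupp.sum_add_index', Finsupp.sum_add_index']
  · ring
  · intro a; ring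
  · intro a b c; ring
  · intro a; ring
  · intro a b c; ring

omit [FiniteDimensional ℂ E] [BorelSpace E] [Nontrivial E] in
theorem Rp.smul {σ : Measure E} {f g : E → ℂ} (c : ℂ) (h : Rp σ f g) :
    Rp σ f (fun z => c * g z) := by
  obtain ⟨α, β, h0, h1⟩ := h
  refine ⟨c • α, c • β, by rw [Finsupp.smul_apply, h0, smul_zero], fun z hz => ?_⟩
  show c * g z = _
  rw [h1 z hz, Finsupp.sum_smul_index', Finsupp.sum_smul_index', mul_add, Finsupp.mul_sum,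
    Finsupp.mul_sum]
  · congr 1
    · exact Finsupp.sum_congr fun k _ => by rw [smul_eq_mul]; ring
    · exact Finsupp.sum_congr fun k _ => by rw [smul_eq_mul]; ring
  · intro a; ring
  · intro a; ring

omit [FiniteDimensional ℂ E] [BorelSpace E] [Nontrivial E] in
theorem Rp.zero (σ : Measure E) (f : E → ℂ) : Rp σ f (fun _ => 0) :=
  ⟨0, 0, rfl, fun z _ => by simp⟩

omit [FiniteDimensional ℂ E] [BorelSpace E] [Nontrivial E] in
theorem Rp.sum {ι : Type} {σ : Measure E} {f : E → ℂ} (s : Finset ι) (g : ι → E → ℂ)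
    (h : ∀ i ∈ s, Rp σ f (g i)) : Rp σ f (fun z => ∑ i ∈ s, g i z) := by
  classical
  induction s using Finset.induction_on with
  | empty => simpa using Rp.zero σ f
  | insert a s ha ih =>
    have h1 := (h a (Finset.mem_insert_self _ _)).add
      (ih fun i hi => h i (Finset.mem_insert_of_mem hi))
    refine h1.congr fun z _ => ?_
    rw [Finset.sum_insert ha]

omit [FiniteDimensional ℂ E] [BorelSpace E] [Nontrivial E] in
theorem Rp.A (σ : Measure E) (f : E → ℂ) (k : ℕ) : Rp σ f (mA σ f k) := by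
  refine ⟨Finsupp.single k 1, 0, rfl, fun z _ => ?_⟩
  rw [Finsupp.sum_single_index (by ring), Finsupp.sum_zero_index]
  ring

omit [FiniteDimensional ℂ E] [BorelSpace E] [Nontrivial E] in
theorem Rp.B (σ : Measure E) (f : E → ℂ) (k : ℕ) (hk : k ≠ 0) : Rp σ f (mB σ f k) := by
  refine ⟨0, Finsupp.single k 1, Finsupp.single_eq_of_ne (by omega), fun z _ => ?_⟩
  rw [Finsupp.sum_single_index (by ring), Finsupp.sum_zero_index]
  ring

omit [FiniteDimensional ℂ E] [BorelSpace E] [Nontrivial E] in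
theorem Rp.range {σ : Measure E} {f g : E → ℂ} (h : Rp σ f g) :
    ∃ (N : ℕ) (α β : ℕ → ℂ), β 0 = 0 ∧ ∀ z : E, ‖z‖ = 1 →
      g z = (∑ a ∈ Finset.range N, α a * mA σ f a z)
        + (∑ a ∈ Finset.range N, β a * mB σ f a z) := by
  obtain ⟨α, β, h0, h1⟩ := h
  refine ⟨(α.support ∪ β.support).sup id + 1, α, β, h0, fun z hz => ?_⟩
  rw [h1 z hz]
  congr 1
  · apply Finsupp.sum_of_support_subset
    · intro k hk
      rw [Finset.mem_range, Nat.lt_succ_iff]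
      exact Finset.le_sup (f := id) (Finset.mem_union_left _ hk)
    · intro k _; ring
  · apply Finsupp.sum_of_support_subset
    · intro k hk
      rw [Finset.mem_range, Nat.lt_succ_iff]
      exact Finset.le_sup (f := id) (Finset.mem_union_right _ hk)
    · intro k _; ring

omit [Nontrivial E] in
theorem int_mom (σ : Measure E) (hσ : IsSph σ) {Y : (E → ℂ) → Prop} (hY : Inv Y) (f : E → ℂ)
    (hf : Y f) (z : E) (a b : ℕ) :
    Integrable (fun ζ => f ζ * (⟪z, ζ⟫_ℂ ^ a * (conj ⟪z, ζ⟫_ℂ) ^ b)) σ := by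
  have h := HH_integrable σ hσ (fun ζ => f ζ * (⟪z, ζ⟫_ℂ ^ a * (conj ⟪z, ζ⟫_ℂ) ^ b))
    ((hY.cont f hf).mul (Continuous.continuousOn (by fun_prop))) (z := 0) (by simp)
  simpa using h

/-- from an annihilator difference to an identity of moments -/
theorem ann_diff (σ : Measure E) (hσ : IsSph σ) {Y : (E → ℂ) → Prop} (hY : Inv Y) (f : E → ℂ)
    (hf : Y f) (z : E) (hz : ‖z‖ = 1) (a b a' b' : ℕ) (c : ℂ)
    (h : Ann σ Y (Finsupp.single (a, b) (1:ℂ) - Finsupp.single (a', b') c)) :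
    ∫ ζ, f ζ * (⟪z, ζ⟫_ℂ ^ b * (conj ⟪z, ζ⟫_ℂ) ^ a) ∂σ
      = conj c * ∫ ζ, f ζ * (⟪z, ζ⟫_ℂ ^ b' * (conj ⟪z, ζ⟫_ℂ) ^ a') ∂σ := by
  have h1 := h f hf z hz
  have h2 : (fun ζ => f ζ * conj (ev (Finsupp.single (a, b) (1:ℂ) - Finsupp.single (a', b') c)
      ⟪z, ζ⟫_ℂ)) = fun ζ => f ζ * (⟪z, ζ⟫_ℂ ^ b * (conj ⟪z, ζ⟫_ℂ) ^ a)
        - conj c * (f ζ * (⟪z, ζ⟫_ℂ ^ b' * (conj ⟪z, ζ⟫_ℂ) ^ a')) := by
    funext ζ
    rw [ev_sub, ev_single, ev_single]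
    simp only [map_sub, map_mul, map_pow, Complex.conj_conj, map_one]
    ring
  rw [h2, integral_sub (int_mom σ hσ hY f hf z b a)
    ((int_mom σ hσ hY f hf z b' a').const_mul _), integral_const_mul] at h1
  exact sub_eq_zero.1 h1

/-- TARGET 1: if all `(1,1)`-moments vanish, every `f ∈ Y` is, on the sphere, a uniform limit of
zonal combinations of pluriharmonic type. -/
theorem kernel_pluri (σ : Measure E) (hσ : IsSph σ) {Y : (E → ℂ) → Prop} (hY : Inv Y)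
    (h11 : ∀ f, Y f → ∀ e : E, ‖e‖ = 1 →
      ∫ ζ, f ζ * (((Module.finrank ℂ E : ℝ) * ‖⟪e, ζ⟫_ℂ‖ ^ 2 - 1 : ℝ) : ℂ) ∂σ = 0)
    (f : E → ℂ) (hf : Y f) (ε : ℝ) (hε : 0 < ε) :
    ∃ (N : ℕ) (α β : ℕ → ℂ), β 0 = 0 ∧ ∀ z : E, ‖z‖ = 1 →
      ‖(∑ a ∈ Finset.range N, α a * ∫ ζ, f ζ * ⟪ζ, z⟫_ℂ ^ a ∂σ)
        + (∑ a ∈ Finset.range N, β a * ∫ ζ, f ζ * ⟪z, ζ⟫_ℂ ^ a ∂σ) - f z‖ ≤ ε := by
  obtain ⟨V, hV, hA, hB⟩ := V_stable σ hσ hY
  have hn : 0 < Module.finrank ℂ E := Module.finrank_pos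
  obtain ⟨c, d, hc, hd⟩ := zonal_alg (Module.finrank ℂ E) hn V hA hB
    ((hV _).2 ((ann_11_iff σ Y).2 h11))
  obtain ⟨J, hJ⟩ := peak_approx σ hσ f ((hY.cont f hf).mono sphere_subset_closedBall) ε hε
  obtain ⟨e₀, he₀⟩ : ∃ e : E, ‖e‖ = 1 := by
    obtain ⟨x, hx⟩ := exists_ne (0 : E)
    refine ⟨((‖x‖⁻¹ : ℝ) : ℂ) • x, ?_⟩
    rw [norm_smul, Complex.norm_real, norm_inv, norm_norm, inv_mul_cancel₀ (norm_ne_zero_iff.2 hx)]
  set Nj : ℂ := ((∫ ζ, ‖1 + ⟪e₀, ζ⟫_ℂ‖ ^ (2 * J) ∂σ : ℝ) : ℂ) with hNj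
  have hmono : ∀ a b : ℕ, Rp σ f (fun z => ∫ ζ, f ζ * (⟪z, ζ⟫_ℂ ^ a * (conj ⟪z, ζ⟫_ℂ) ^ b) ∂σ) := by
    intro a b
    rcases le_or_gt a b with hab | hab
    · obtain ⟨k, rfl⟩ : ∃ k, b = k + a := ⟨b - a, by omega⟩
      refine ((Rp.A σ f k).smul (conj (c k a))).congr fun z hz => ?_
      rw [ann_diff σ hσ hY f hf z hz (k + a) a k 0 (c k a) ((hV _).1 (hc k a)), mA]
      congr 1
      apply integral_congr_ae
      filter_upwards with ζ
      rw [pow_zero, one_mul, inner_conj_symm]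
    · obtain ⟨k, rfl⟩ : ∃ k, a = k + b := ⟨a - b, by omega⟩
      refine ((Rp.B σ f k (by omega)).smul (conj (d k b))).congr fun z hz => ?_
      rw [ann_diff σ hσ hY f hf z hz b (k + b) 0 k (d k b) ((hV _).1 (hd k b)), mB]
      congr 1
      apply integral_congr_ae
      filter_upwards with ζ
      rw [pow_zero, mul_one]
  have hker : Rp σ f (fun z => Nj⁻¹ *
      ∫ ζ, f ζ * ((‖1 + ⟪z, ζ⟫_ℂ‖ ^ (2 * J) : ℝ) : ℂ) ∂σ) := by
    apply Rp.smul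
    have h1 := Rp.sum (σ := σ) (f := f) (Finset.range (J + 1) ×ˢ Finset.range (J + 1))
      (fun ab z => ((J.choose ab.1 : ℂ) * (J.choose ab.2 : ℂ)) *
        ∫ ζ, f ζ * (⟪z, ζ⟫_ℂ ^ ab.1 * (conj ⟪z, ζ⟫_ℂ) ^ ab.2) ∂σ)
      (fun ab _ => (hmono ab.1 ab.2).smul _)
    refine h1.congr fun z _ => ?_
    have h2 : ∀ ζ, f ζ * ((‖1 + ⟪z, ζ⟫_ℂ‖ ^ (2 * J) : ℝ) : ℂ)
        = ∑ ab ∈ Finset.range (J + 1) ×ˢ Finset.range (J + 1),
          ((J.choose ab.1 : ℂ) * (J.choose ab.2 : ℂ)) *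
            (f ζ * (⟪z, ζ⟫_ℂ ^ ab.1 * (conj ⟪z, ζ⟫_ℂ) ^ ab.2)) := by
      intro ζ
      have h3 : ((‖1 + ⟪z, ζ⟫_ℂ‖ ^ (2 * J) : ℝ) : ℂ)
          = (⟪z, ζ⟫_ℂ + 1) ^ J * (conj ⟪z, ζ⟫_ℂ + 1) ^ J := by
        rw [← mul_pow, pow_mul, ← Complex.normSq_eq_norm_sq]
        push_cast
        rw [Complex.normSq_eq_conj_mul_self]
        simp only [map_add, map_one]
        congr 1
        ring
      rw [h3, add_pow, add_pow, Finset.sum_mul_sum, Finset.mul_sum, Finset.sum_product]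
      refine Finset.sum_congr rfl fun a _ => ?_
      rw [Finset.mul_sum]
      refine Finset.sum_congr rfl fun b _ => ?_
      simp only [one_pow, mul_one]
      ring
    simp only [h2]
    rw [integral_finset_sum]
    · refine Finset.sum_congr rfl fun ab _ => ?_
      rw [integral_const_mul]
    · intro ab _
      exact (int_mom σ hσ hY f hf z ab.1 ab.2).const_mul _
  obtain ⟨N, α, β, hβ, hg⟩ := hker.range
  refine ⟨N, α, β, hβ, fun z hz => ?_⟩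
  have h1 := hJ J le_rfl z hz
  rw [peak_const σ hσ J z e₀ hz he₀, ← hNj] at h1
  have h2 := hg z hz
  simp only [mA, mB] at h2
  rw [← h2]
  exact h1

/-- TARGET 3: vanishing antiholomorphic first moments imply vanishing `(1,1)` moments -/
theorem h11_of_h01 (σ : Measure E) (hσ : IsSph σ) {Y : (E → ℂ) → Prop} (hY : Inv Y)
    (h01 : ∀ f, Y f → ∀ a : E, ∫ ζ, f ζ * ⟪a, ζ⟫_ℂ ∂σ = 0) (f : E → ℂ) (hf : Y f) (e : E)
    (he : ‖e‖ = 1) :
    ∫ ζ, f ζ * (((Module.finrank ℂ E : ℝ) * ‖⟪e, ζ⟫_ℂ‖ ^ 2 - 1 : ℝ) : ℂ) ∂σ = 0 := by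
  obtain ⟨V, hV, hA, hB⟩ := V_stable σ hσ hY
  have hn : 0 < Module.finrank ℂ E := Module.finrank_pos
  have h1 : Ann σ Y (Finsupp.single (0, 1) (1:ℂ)) := by
    intro f hf e _
    rw [← h01 f hf e]
    apply integral_congr_ae
    filter_upwards with ζ
    rw [ev_single]
    simp
  exact (ann_11_iff σ Y).1 ((hV _).1 (zonal_y _ hn V hA hB ((hV _).2 h1)).1) f hf e he

/-- TARGET 2: if all antiholomorphic first moments vanish, only holomorphic terms are needed. -/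
theorem kernel_holo (σ : Measure E) (hσ : IsSph σ) {Y : (E → ℂ) → Prop} (hY : Inv Y)
    (h01 : ∀ f, Y f → ∀ a : E, ∫ ζ, f ζ * ⟪a, ζ⟫_ℂ ∂σ = 0)
    (f : E → ℂ) (hf : Y f) (ε : ℝ) (hε : 0 < ε) :
    ∃ (N : ℕ) (α : ℕ → ℂ), ∀ z : E, ‖z‖ = 1 →
      ‖(∑ a ∈ Finset.range N, α a * ∫ ζ, f ζ * ⟪ζ, z⟫_ℂ ^ a ∂σ) - f z‖ ≤ ε := by
  obtain ⟨V, hV, hA, hB⟩ := V_stable σ hσ hY
  have hn : 0 < Module.finrank ℂ E := Module.finrank_pos
  have h1 : Ann σ Y (Finsupp.single (0, 1) (1:ℂ)) := by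
    intro f hf e _
    rw [← h01 f hf e]
    apply integral_congr_ae
    filter_upwards with ζ
    rw [ev_single]
    simp
  have h2 := (zonal_y _ hn V hA hB ((hV _).2 h1)).2
  obtain ⟨N, α, β, hβ, hN⟩ := kernel_pluri σ hσ hY (h11_of_h01 σ hσ hY h01) f hf ε hε
  refine ⟨N, α, fun z hz => ?_⟩
  have h3 := hN z hz
  have h4 : ∑ a ∈ Finset.range N, β a * ∫ ζ, f ζ * ⟪z, ζ⟫_ℂ ^ a ∂σ = 0 := by
    apply Finset.sum_eq_zero
    intro a _
    rcases Nat.eq_zero_or_pos a with rfl | ha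
    · rw [hβ, zero_mul]
    · obtain ⟨k, rfl⟩ : ∃ k, a = k + 1 := ⟨a - 1, by omega⟩
      have h5 := (hV _).1 (h2 k) f hf z hz
      have h6 : ∫ ζ, f ζ * ⟪z, ζ⟫_ℂ ^ (k + 1) ∂σ = 0 := by
        rw [← h5]
        apply integral_congr_ae
        filter_upwards with ζ
        rw [ev_single]
        simp
      rw [h6, mul_zero]
  rw [h4, add_zero] at h3
  exact h3

/-- TARGET 4: vanishing holomorphic first moments imply vanishing `(1,1)` moments -/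
theorem h11_of_h10 (σ : Measure E) (hσ : IsSph σ) {Y : (E → ℂ) → Prop} (hY : Inv Y)
    (h10 : ∀ f, Y f → ∀ a : E, ∫ ζ, f ζ * ⟪ζ, a⟫_ℂ ∂σ = 0) (f : E → ℂ) (hf : Y f) (e : E)
    (he : ‖e‖ = 1) :
    ∫ ζ, f ζ * (((Module.finrank ℂ E : ℝ) * ‖⟪e, ζ⟫_ℂ‖ ^ 2 - 1 : ℝ) : ℂ) ∂σ = 0 := by
  obtain ⟨V, hV, hA, hB⟩ := V_stable σ hσ hY
  have hn : 0 < Module.finrank ℂ E := Module.finrank_pos
  have h1 : Ann σ Y (Finsupp.single (1, 0) (1:ℂ)) := by
    intro f hf e _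
    rw [← h10 f hf e]
    apply integral_congr_ae
    filter_upwards with ζ
    rw [ev_single]
    simp
  exact (ann_11_iff σ Y).1 ((hV _).1 (zonal_x _ hn V hA hB ((hV _).2 h1)).1) f hf e he
end LL

end Pool.Agent.Helper287.MB.LL

namespace Pool.Agent.Helper287.MB
alias kernel_pluri := LL.kernel_pluri
alias kernel_holo := LL.kernel_holo
alias h11_of_h01 := LL.h11_of_h01
alias h11_of_h10 := LL.h11_of_h10
end Pool.Agent.Helper287.MB
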