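import Pool.Agent.Helper287.MB.Equi
import Pool.Agent.Helper287.MB.HaarData
set_option autoImplicit false
open MeasureTheory Metric Set Filter Topology
open scoped InnerProductSpace ComplexConjugate

namespace Pool.Agent.Helper287.MB.PP


section PP
variable {E : Type} [NormedAddCommGroup E] [InnerProductSpace ℂ E] [FiniteDimensional ℂ E]
  [MeasurableSpace E] [BorelSpace E]

/-- TARGET 1: Lebesgue measure is invariant under linear isometries -/
theorem haar_iso (lam : Measure E) [lam.IsAddHaarMeasure] (L : E ≃ₗᵢ[ℂ] E) :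
    lam.map L = lam := by
  have : FiniteDimensional ℝ E := FiniteDimensional.complexToReal E
  let f : E →ₗ[ℝ] E := (L.toLinearEquiv.toLinearMap).restrictScalars ℝ
  have hfL : (f : E → E) = L := rfl
  have hinj : Function.Injective f := by rw [hfL]; exact L.injective
  have hdet : LinearMap.det f ≠ 0 := by
    have hb : IsUnit f := by
      rw [LinearMap.isUnit_iff_ker_eq_bot]
      exact LinearMap.ker_eq_bot.mpr hinj
    exact (LinearMap.isUnit_det f hb).ne_zero
  have h1 := Measure.map_linearMap_addHaar_eq_smul_addHaar lam hdet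
  rw [hfL] at h1
  have h2 : lam.map L (ball 0 1) = lam (ball 0 1) := by
    rw [Measure.map_apply L.continuous.measurable measurableSet_ball]
    congr 1
    ext z
    simp
  rw [h1] at h2 ⊢
  rw [Measure.smul_apply, smul_eq_mul] at h2
  have h3 : lam (ball (0:E) 1) ≠ 0 := (measure_ball_pos lam 0 one_pos).ne'
  have h4 : lam (ball (0:E) 1) ≠ ⊤ := measure_ball_lt_top.ne
  have h5 : ENNReal.ofReal |(LinearMap.det f)⁻¹| = 1 := by
    rw [← ENNReal.mul_left_inj h3 h4, h2, one_mul]
  rw [h5, one_smul]

/-- TARGET 2 -/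
theorem ball_mean [Nontrivial E] (D : HaarData E) (σ : Measure E) (hσ : IsSph σ)
    (lam : Measure E) [lam.IsAddHaarMeasure] (u : E → ℂ) (hu : ContinuousOn u (closedBall 0 1))
    (c : ℂ) (hc : ∀ s : ℝ, 0 ≤ s → s < 1 → ∫ ζ, u ((s:ℂ) • ζ) ∂σ = c) (r : ℝ) (hr0 : 0 < r)
    (hr1 : r < 1) :
    ∫ z in ball (0:E) r, u z ∂lam = ((lam (ball 0 r)).toReal : ℂ) * c := by
  have : FiniteDimensional ℝ E := FiniteDimensional.complexToReal E
  have : ProperSpace E := FiniteDimensional.proper ℝ E
  obtain ⟨g, hg, hgu⟩ := exists_ext u hu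
  obtain ⟨C, hC0, hC⟩ := ball_bdd u hu
  have hsub : ∀ z ∈ ball (0:E) r, ‖z‖ ≤ 1 := by
    intro z hz
    rw [mem_ball_zero_iff] at hz
    linarith
  have e0 : ∫ z in ball (0:E) r, u z ∂lam = ∫ z in ball (0:E) r, g z ∂lam :=
    setIntegral_congr_fun measurableSet_ball (fun z hz => (hgu z (hsub z hz)).symm)
  have e1 : ∀ k : D.K, ∫ z in ball (0:E) r, g (D.act k z) ∂lam = ∫ z in ball (0:E) r, g z ∂lam := by
    intro k
    have hmp : MeasurePreserving (D.act k) lam lam :=
      ⟨(D.act k).continuous.measurable, haar_iso lam (D.act k)⟩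
    have hpre : (D.act k) ⁻¹' (ball (0:E) r) = ball 0 r := by ext z; simp
    have hemb : MeasurableEmbedding (D.act k) := (D.act k).toHomeomorph.measurableEmbedding
    have := hmp.setIntegral_preimage_emb hemb g (ball 0 r)
    rw [hpre] at this
    exact this
  have e2 : ∫ z in ball (0:E) r, g z ∂lam =
      ∫ k, ∫ z in ball (0:E) r, g (D.act k z) ∂lam ∂D.μ := by
    simp only [e1]
    simp
  have : IsFiniteMeasure (lam.restrict (ball (0:E) r)) :=
    ⟨by rw [Measure.restrict_apply_univ]; exact measure_ball_lt_top⟩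
  have hint : Integrable (Function.uncurry fun (k : D.K) (z : E) => g (D.act k z))
      (D.μ.prod (lam.restrict (ball (0:E) r))) := by
    refine Integrable.mono' (integrable_const C) ?_ ?_
    · exact (hg.comp D.cont).aestronglyMeasurable
    · have : ∀ᵐ p ∂(D.μ.prod (lam.restrict (ball (0:E) r))), p.2 ∈ ball (0:E) r := by
        refine Measure.ae_prod_mem_iff_ae_ae_mem ?_ |>.mpr ?_
        · exact measurableSet_ball.preimage measurable_snd
        · refine Filter.Eventually.of_forall fun k => ?_
          exact ae_restrict_mem measurableSet_ball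
      filter_upwards [this] with p hp
      have h1 : ‖D.act p.1 p.2‖ ≤ 1 := by
        rw [LinearIsometryEquiv.norm_map]; exact hsub _ hp
      simp only [Function.uncurry]
      rw [hgu _ h1]
      exact hC _ h1
  rw [e0, e2, integral_integral_swap hint]
  have e3 : ∀ z ∈ ball (0:E) r, ∫ k, g (D.act k z) ∂D.μ = c := by
    intro z hz
    by_cases hz0 : z = 0
    · have h0 : ∀ k : D.K, g (D.act k z) = u 0 := by
        intro k
        rw [hz0, LinearIsometryEquiv.map_zero]
        exact hgu 0 (by simp)
      have h1 := hc 0 le_rfl one_pos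
      have := hσ.prob
      simp only [Complex.ofReal_zero, zero_smul, integral_const, probReal_univ, one_smul] at h1
      simp only [h0, integral_const, probReal_univ, one_smul]
      exact h1
    · have hzn : 0 < ‖z‖ := norm_pos_iff.mpr hz0
      have hz1 : ‖z‖ < 1 := by rw [mem_ball_zero_iff] at hz; linarith
      have he : ‖(((‖z‖⁻¹ : ℝ) : ℂ) • z)‖ = 1 := by
        rw [norm_smul, Complex.norm_real, norm_inv, norm_norm, inv_mul_cancel₀ hzn.ne']
      have hze : z = ((‖z‖ : ℝ) : ℂ) • (((‖z‖⁻¹ : ℝ) : ℂ) • z) := by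
        rw [smul_smul, ← Complex.ofReal_mul, mul_inv_cancel₀ hzn.ne', Complex.ofReal_one, one_smul]
      have hlaw := D.law σ hσ _ he
      have h1 := hc ‖z‖ hzn.le hz1
      rw [← h1, ← hlaw, integral_map]
      · refine integral_congr_ae (Filter.Eventually.of_forall fun k => ?_)
        simp only
        conv_lhs => rw [hze]
        rw [map_smul]
        rw [hgu]
        rw [norm_smul, LinearIsometryEquiv.norm_map, he, Complex.norm_real, norm_norm]
        linarith
      · refine Continuous.aemeasurable ?_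
        exact D.cont.comp (continuous_id.prodMk continuous_const)
      · rw [hlaw]
        have hcont : Continuous fun ζ : E => g (((‖z‖ : ℝ) : ℂ) • ζ) := by fun_prop
        refine hcont.aestronglyMeasurable.congr ?_
        filter_upwards [hσ.supp] with ζ hζ
        rw [hgu]
        rw [norm_smul, hζ, Complex.norm_real, norm_norm]
        linarith
  rw [setIntegral_congr_fun measurableSet_ball e3, setIntegral_const]
  rw [Complex.real_smul]
  rfl

theorem job_mob_cont {a : E} (ha : ‖a‖ < 1) : ContinuousOn (mob a) (closedBall (0:E) 1) := by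
  have h1 : ContinuousOn (fun z : E => (fun p : E × E => mob p.1 p.2) (a, z)) (closedBall 0 1) := by
    refine continuousOn_mob.comp (continuous_const.prodMk continuous_id).continuousOn ?_
    intro z hz
    rw [mem_closedBall_zero_iff] at hz
    exact one_add_inner_ne ha hz
  exact h1

theorem job_mob_comp {a : E} (ha : ‖a‖ < 1) (L : E ≃ₗᵢ[ℂ] E) {f : E → ℂ}
    (hf : ContinuousOn f (closedBall 0 1)) :
    ContinuousOn (fun w => f (mob a (L w))) (closedBall 0 1) := by
  have hL : MapsTo L (closedBall (0:E) 1) (closedBall 0 1) := by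
    intro z hz
    simpa using hz
  have hM : MapsTo (mob a) (closedBall (0:E) 1) (closedBall 0 1) := by
    intro z hz
    rw [mem_closedBall_zero_iff] at hz ⊢
    exact norm_mob_le ha.le hz
  exact hf.comp ((job_mob_cont ha).comp L.continuous.continuousOn hL) (hM.comp hL)

/-- TARGET 3 -/
theorem HH_mean [Nontrivial E] (D : HaarData E) (σ : Measure E) (hσ : IsSph σ)
    (lam : Measure E) [lam.IsAddHaarMeasure] (f : E → ℂ) (hf : ContinuousOn f (closedBall 0 1))
    (a : E) (ha : ‖a‖ < 1) (L : E ≃ₗᵢ[ℂ] E) (r : ℝ) (hr0 : 0 < r) (hr1 : r < 1) :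
    ∫ z in ball (0:E) r, HH σ f (mob a (L z)) ∂lam
      = ((lam (ball 0 r)).toReal : ℂ) * HH σ f a := by
  have hg := job_mob_comp ha L hf
  have hgHH : ∀ z : E, ‖z‖ ≤ 1 → HH σ (fun w => f (mob a (L w))) z = HH σ f (mob a (L z)) := by
    intro z hz
    rw [HH_iso σ hσ (fun w => f (mob a w)) L z]
    exact HH_mob σ hσ f ha (by rwa [LinearIsometryEquiv.norm_map])
  have hcontHH := HH_cont σ hσ _ hg
  refine ball_mean D σ hσ lam (fun z => HH σ f (mob a (L z))) ?_ _ ?_ r hr0 hr1
  · refine hcontHH.congr ?_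
    intro z hz
    rw [mem_closedBall_zero_iff] at hz
    exact (hgHH z hz).symm
  · intro s hs0 hs1
    have h1 := TT_HH σ hσ (fun w => f (mob a (L w))) hg hs0 hs1 (z := 0) (by simp)
    rw [hgHH 0 (by simp), map_zero, mob_zero_right] at h1
    rw [← h1]
    unfold TT
    refine integral_congr_ae ?_
    filter_upwards [hσ.supp] with ζ hζ
    rw [mob_zero_left, hgHH]
    rw [norm_smul, hζ, Complex.norm_real, Real.norm_of_nonneg hs0]
    linarith

/-- TARGET 4 (maximum principle) -/
theorem mean_HH [Nontrivial E] (D : HaarData E) (σ : Measure E) (hσ : IsSph σ)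
    (lam : Measure E) [lam.IsAddHaarMeasure] (h : E → ℂ) (hh : ContinuousOn h (closedBall 0 1))
    (hm : ∀ a : E, ‖a‖ < 1 → ∀ r : ℝ, 0 < r → r < 1 →
      ∫ z in ball (0:E) r, h (mob a z) ∂lam = ((lam (ball 0 r)).toReal : ℂ) * h a) :
    ∀ z, ‖z‖ ≤ 1 → HH σ h z = h z := by
  have : FiniteDimensional ℝ E := FiniteDimensional.complexToReal E
  have : ProperSpace E := FiniteDimensional.proper ℝ E
  by_contra hcon
  push Not at hcon
  obtain ⟨z0, hz0, hne⟩ := hcon
  have hdc : ContinuousOn (fun z => h z - HH σ h z) (closedBall (0:E) 1) :=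
    hh.sub (HH_cont σ hσ h hh)
  obtain ⟨a, haB, hamax⟩ := (isCompact_closedBall (0:E) 1).exists_isMaxOn
    ⟨0, by simp⟩ hdc.norm
  have hM : 0 < ‖h a - HH σ h a‖ := by
    have h1 : ‖h z0 - HH σ h z0‖ ≤ ‖h a - HH σ h a‖ := hamax (by simpa using hz0)
    have h2 : 0 < ‖h z0 - HH σ h z0‖ := norm_pos_iff.mpr (sub_ne_zero.mpr (Ne.symm hne))
    linarith
  rw [mem_closedBall_zero_iff] at haB
  have ha : ‖a‖ < 1 := by
    rcases haB.lt_or_eq with h1 | h1
    · exact h1
    · rw [HH_bdry σ hσ h h1, sub_self, norm_zero] at hM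
      exact absurd hM (lt_irrefl _)
  have hrefl := LinearIsometryEquiv.refl ℂ E
  have hcomp : ContinuousOn (fun w => h (mob a w) - HH σ h (mob a w)) (closedBall (0:E) 1) :=
    job_mob_comp ha (LinearIsometryEquiv.refl ℂ E) hdc
  have hcomp1 : ContinuousOn (fun w => h (mob a w)) (closedBall (0:E) 1) :=
    job_mob_comp ha (LinearIsometryEquiv.refl ℂ E) hh
  have hcomp2 : ContinuousOn (fun w => HH σ h (mob a w)) (closedBall (0:E) 1) :=
    job_mob_comp ha (LinearIsometryEquiv.refl ℂ E) (HH_cont σ hσ h hh)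
  have hball : ∀ r : ℝ, 0 < r → r < 1 → EqOn (fun w => ‖h (mob a w) - HH σ h (mob a w)‖)
      (fun _ => ‖h a - HH σ h a‖) (ball (0:E) r) := by
    intro r hr0 hr1
    have hsub : ball (0:E) r ⊆ closedBall 0 1 :=
      (ball_subset_ball hr1.le).trans ball_subset_closedBall
    have i1 : IntegrableOn (fun w => h (mob a w)) (ball (0:E) r) lam :=
      (hcomp1.integrableOn_compact (isCompact_closedBall 0 1)).mono_set hsub
    have i2 : IntegrableOn (fun w => HH σ h (mob a w)) (ball (0:E) r) lam :=
      (hcomp2.integrableOn_compact (isCompact_closedBall 0 1)).mono_set hsub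
    have i3 : IntegrableOn (fun w => ‖h (mob a w) - HH σ h (mob a w)‖) (ball (0:E) r) lam :=
      (hcomp.norm.integrableOn_compact (isCompact_closedBall 0 1)).mono_set hsub
    have hI : ∫ w in ball (0:E) r, (h (mob a w) - HH σ h (mob a w)) ∂lam =
        ((lam (ball 0 r)).toReal : ℂ) * (h a - HH σ h a) := by
      rw [integral_sub i1 i2, hm a ha r hr0 hr1]
      have := HH_mean D σ hσ lam h hh a ha (LinearIsometryEquiv.refl ℂ E) r hr0 hr1
      simp only [LinearIsometryEquiv.coe_refl, id_eq] at this
      rw [this]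
      ring
    have hI2 : (lam (ball (0:E) r)).toReal * ‖h a - HH σ h a‖ ≤
        ∫ w in ball (0:E) r, ‖h (mob a w) - HH σ h (mob a w)‖ ∂lam := by
      have := norm_integral_le_integral_norm (μ := lam.restrict (ball (0:E) r))
        (fun w => h (mob a w) - HH σ h (mob a w))
      rw [hI, norm_mul, Complex.norm_real, Real.norm_of_nonneg ENNReal.toReal_nonneg] at this
      exact this
    have hle : ∀ w ∈ ball (0:E) r, ‖h (mob a w) - HH σ h (mob a w)‖ ≤ ‖h a - HH σ h a‖ := by
      intro w hw
      have hw1 := hsub hw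
      rw [mem_closedBall_zero_iff] at hw1
      exact hamax (by simpa using norm_mob_le ha.le hw1)
    have iC : IntegrableOn (fun _ : E => ‖h a - HH σ h a‖) (ball (0:E) r) lam :=
      integrableOn_const (by exact measure_ball_lt_top.ne)
    have hzero : ∫ w in ball (0:E) r,
        (‖h a - HH σ h a‖ - ‖h (mob a w) - HH σ h (mob a w)‖) ∂lam = 0 := by
      apply le_antisymm
      · rw [integral_sub iC i3, setIntegral_const, smul_eq_mul]
        have : lam.real (ball (0:E) r) = (lam (ball (0:E) r)).toReal := rfl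
        rw [this]
        linarith
      · refine setIntegral_nonneg measurableSet_ball fun w hw => ?_
        linarith [hle w hw]
    have hae := (setIntegral_eq_zero_iff_of_nonneg_ae (by
      refine (ae_restrict_iff' measurableSet_ball).mpr (Filter.Eventually.of_forall fun w hw => ?_)
      change (0:ℝ) ≤ ‖h a - HH σ h a‖ - ‖h (mob a w) - HH σ h (mob a w)‖
      linarith [hle w hw]) (iC.sub i3)).mp hzero
    have heq := Measure.eqOn_open_of_ae_eq hae isOpen_ball
      (continuousOn_const.sub (hcomp.norm.mono hsub)) continuousOn_const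
    intro w hw
    have := heq hw
    change ‖h a - HH σ h a‖ - ‖h (mob a w) - HH σ h (mob a w)‖ = 0 at this
    change ‖h (mob a w) - HH σ h (mob a w)‖ = ‖h a - HH σ h a‖
    linarith
  have hball1 : EqOn (fun w => ‖h (mob a w) - HH σ h (mob a w)‖)
      (fun _ => ‖h a - HH σ h a‖) (ball (0:E) 1) := by
    intro w hw
    rw [mem_ball_zero_iff] at hw
    have := hball ((1 + ‖w‖) / 2) (by positivity) (by linarith)
    exact this (by rw [mem_ball_zero_iff]; linarith)
  have hcl := hball1.of_subset_closure hcomp.norm continuousOn_const ball_subset_closedBall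
    (by rw [closure_ball (0:E) one_ne_zero])
  obtain ⟨e, he⟩ := (NormedSpace.sphere_nonempty (E := E) (x := 0) (r := 1)).mpr zero_le_one
  rw [mem_sphere_zero_iff_norm] at he
  have h1 := hcl (show e ∈ closedBall (0:E) 1 by rw [mem_closedBall_zero_iff]; exact he.le)
  simp only at h1
  rw [HH_bdry σ hσ h (norm_mob_one ha he), sub_self, norm_zero] at h1
  rw [← h1] at hM
  exact lt_irrefl _ hM
end PP

end Pool.Agent.Helper287.MB.PP

namespace Pool.Agent.Helper287.MB
alias haar_iso := PP.haar_iso
alias ball_mean := PP.ball_mean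
alias HH_mean := PP.HH_mean
alias mean_HH := PP.mean_HH
end Pool.Agent.Helper287.MB
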