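import Pool.Agent.Helper287.MB.Equi
set_option autoImplicit false
open MeasureTheory Metric Set Filter Topology
open scoped InnerProductSpace ComplexConjugate

namespace Pool.Agent.Helper287.MB.MM


section MM
variable {E : Type} [NormedAddCommGroup E] [InnerProductSpace ℂ E] [FiniteDimensional ℂ E]

theorem mob_cont_aux (η : E) (hη : ‖η‖ < 1) : ContinuousOn (mob η) (closedBall (0 : E) 1) :=
  (differentiableOn_mob η).continuousOn.mono (fun z hz => one_add_inner_ne hη (by simpa using hz))

theorem comp_mob_cont {f : E → ℂ} (hf : ContinuousOn f (closedBall 0 1)) (η : E) (hη : ‖η‖ < 1) :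
    ContinuousOn (fun z => f (mob η z)) (closedBall 0 1) :=
  hf.comp (mob_cont_aux η hη) (fun z hz => by
    have := norm_mob_le hη.le (show ‖z‖ ≤ 1 by simpa using hz)
    simpa using this)

theorem comp_mob_diff {f : E → ℂ} (hf : DifferentiableOn ℂ f (ball 0 1)) (η : E) (hη : ‖η‖ < 1) :
    DifferentiableOn ℂ (fun z => f (mob η z)) (ball 0 1) := by
  refine hf.comp ((differentiableOn_mob η).mono (fun z hz => ?_)) (fun z hz => ?_)
  · exact one_add_inner_ne hη (by have : ‖z‖ < 1 := by simpa using hz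
                                  exact this.le)
  · have := norm_mob_lt hη (show ‖z‖ < 1 by simpa using hz)
    simpa using this

theorem comp_iso_cont {f : E → ℂ} (hf : ContinuousOn f (closedBall 0 1)) (L : E ≃ₗᵢ[ℂ] E) :
    ContinuousOn (fun z => f (L z)) (closedBall 0 1) :=
  hf.comp L.continuous.continuousOn (fun z hz => by simpa using hz)

theorem comp_iso_diff {f : E → ℂ} (hf : DifferentiableOn ℂ f (ball 0 1)) (L : E ≃ₗᵢ[ℂ] E) :
    DifferentiableOn ℂ (fun z => f (L z)) (ball 0 1) :=
  hf.comp (L.toContinuousLinearEquiv.differentiable.differentiableOn) (fun z hz => by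
    have : ‖L z‖ < 1 := by rw [L.norm_map]; simpa using hz
    simpa using this)

theorem cont_lim {g : E → ℂ} (h : ∀ ε > (0:ℝ), ∃ f : E → ℂ, ContinuousOn f (closedBall 0 1) ∧
    ∀ z, ‖z‖ ≤ 1 → ‖f z - g z‖ ≤ ε) : ContinuousOn g (closedBall 0 1) := by
  refine continuousOn_of_uniform_approx_of_continuousOn ?_
  intro u hu
  obtain ⟨ε, hε, hεu⟩ := Metric.mem_uniformity_dist.1 hu
  obtain ⟨f, hf, hfg⟩ := h (ε / 2) (by positivity)
  refine ⟨f, hf, fun y hy => hεu ?_⟩
  rw [dist_comm, dist_eq_norm]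
  have := hfg y (by simpa using hy)
  linarith

theorem inv_conj {Y : (E → ℂ) → Prop} (hY : Inv Y) : Inv (fun f => Y (fun z => conj (f z))) where
  cont f hf := by
    have h := Complex.continuous_conj.comp_continuousOn (hY.cont _ hf)
    simpa [Function.comp_def] using h
  congr f g hf h := hY.congr _ _ hf (fun z hz => by rw [h z hz])
  zero := by simpa using hY.zero
  add f g hf hg := by
    have := hY.add _ _ hf hg
    simpa using this
  smul c f hf := by
    have := hY.smul (conj c) _ hf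
    simpa using this
  lim g h := by
    refine hY.lim _ (fun ε hε => ?_)
    obtain ⟨f, hf, hfg⟩ := h ε hε
    refine ⟨_, hf, fun z hz => ?_⟩
    rw [← map_sub, RCLike.norm_conj]
    exact hfg z hz
  mobI f η hf hη := hY.mobI _ η hf hη
  isoI f L hf := hY.isoI _ L hf

theorem inv_holo : Inv (fun f : E → ℂ =>
    ContinuousOn f (closedBall 0 1) ∧ DifferentiableOn ℂ f (ball 0 1)) where
  cont f hf := hf.1
  congr f g hf h := ⟨hf.1.congr (fun z hz => h z (by simpa using hz)),
    hf.2.congr (fun z hz => h z (by have : ‖z‖ < 1 := by simpa using hz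
                                    exact this.le))⟩
  zero := ⟨continuousOn_const, differentiableOn_const _⟩
  add f g hf hg := ⟨hf.1.add hg.1, hf.2.add hg.2⟩
  smul c f hf := ⟨continuousOn_const.mul hf.1, hf.2.const_mul c⟩
  lim g h := by
    refine ⟨cont_lim (fun ε hε => ?_), ?_⟩
    · obtain ⟨f, hf, hfg⟩ := h ε hε
      exact ⟨f, hf.1, hfg⟩
    · choose u hu using fun j : ℕ => h (1 / ((j : ℝ) + 1)) (by positivity)
      refine weierstrass_ball u g (fun j => (hu j).1.2) ?_
      intro ρ hρ ε hε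
      obtain ⟨J, hJ⟩ := exists_nat_one_div_lt hε
      refine ⟨J, fun j hj z hz => ?_⟩
      refine ((hu j).2 z (hz.trans hρ.le)).trans ?_
      refine le_trans ?_ hJ.le
      have : (J : ℝ) ≤ j := by exact_mod_cast hj
      exact one_div_le_one_div_of_le (by positivity) (by linarith)
  mobI f η hf hη := ⟨comp_mob_cont hf.1 η hη, comp_mob_diff hf.2 η hη⟩
  isoI f L hf := ⟨comp_iso_cont hf.1 L, comp_iso_diff hf.2 L⟩

/-- `H` fixes functions holomorphic in the ball and continuous on the closed ball -/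
theorem HH_holo [MeasurableSpace E] [BorelSpace E] (σ : Measure E) (hσ : IsSph σ) (g : E → ℂ)
    (hg : ContinuousOn g (closedBall 0 1)) (hd : DifferentiableOn ℂ g (ball 0 1)) {z : E}
    (hz : ‖z‖ ≤ 1) : HH σ g z = g z := by
  rcases hz.eq_or_lt with h | h
  · exact HH_bdry σ hσ g h
  · have := mean_holo σ hσ (fun w => g (mob z w)) (comp_mob_cont hg z h) (comp_mob_diff hd z h)
    simp only [mob_zero_right] at this
    exact this

theorem HH_conj [MeasurableSpace E] [BorelSpace E] (σ : Measure E) (f : E → ℂ) (z : E) :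
    HH σ (fun w => conj (f w)) z = conj (HH σ f z) := by
  unfold HH
  exact integral_conj

theorem HH_add [MeasurableSpace E] [BorelSpace E] (σ : Measure E) (hσ : IsSph σ) (f g : E → ℂ)
    (hf : ContinuousOn f (closedBall 0 1)) (hg : ContinuousOn g (closedBall 0 1)) {z : E}
    (hz : ‖z‖ ≤ 1) : HH σ (fun w => f w + g w) z = HH σ f z + HH σ g z :=
  integral_add (HH_integrable σ hσ f hf hz) (HH_integrable σ hσ g hg hz)

theorem HH_sub [MeasurableSpace E] [BorelSpace E] (σ : Measure E) (hσ : IsSph σ) (f g : E → ℂ)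
    (hf : ContinuousOn f (closedBall 0 1)) (hg : ContinuousOn g (closedBall 0 1)) {z : E}
    (hz : ‖z‖ ≤ 1) : HH σ (fun w => f w - g w) z = HH σ f z - HH σ g z :=
  integral_sub (HH_integrable σ hσ f hf hz) (HH_integrable σ hσ g hg hz)

theorem HH_smul [MeasurableSpace E] [BorelSpace E] (σ : Measure E) (c : ℂ) (f : E → ℂ) (z : E) :
    HH σ (fun w => c * f w) z = c * HH σ f z := by
  unfold HH
  exact integral_const_mul c _

/-- the functions whose Poisson extension lies in `Y` -/
theorem inv_X [MeasurableSpace E] [BorelSpace E] (σ : Measure E) (hσ : IsSph σ)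
    {Y : (E → ℂ) → Prop} (hY : Inv Y) :
    Inv (fun f : E → ℂ => ContinuousOn f (closedBall 0 1) ∧ Y (HH σ f)) where
  cont f hf := hf.1
  congr f g hf h := ⟨hf.1.congr (fun z hz => h z (by simpa using hz)),
    hY.congr _ _ hf.2 (fun z hz => HH_congr σ hσ g f (fun w hw => h w hw.le) hz)⟩
  zero := ⟨continuousOn_const, hY.congr _ _ hY.zero (fun z hz => by simp [HH])⟩
  add f g hf hg := ⟨hf.1.add hg.1, hY.congr _ _ (hY.add _ _ hf.2 hg.2)
    (fun z hz => HH_add σ hσ f g hf.1 hg.1 hz)⟩
  smul c f hf := ⟨continuousOn_const.mul hf.1, hY.congr _ _ (hY.smul c _ hf.2)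
    (fun z hz => HH_smul σ c f z)⟩
  lim g h := by
    have hg : ContinuousOn g (closedBall 0 1) := cont_lim (fun ε hε => by
      obtain ⟨f, hf, hfg⟩ := h ε hε
      exact ⟨f, hf.1, hfg⟩)
    refine ⟨hg, hY.lim _ (fun ε hε => ?_)⟩
    obtain ⟨f, hf, hfg⟩ := h ε hε
    refine ⟨_, hf.2, fun z hz => ?_⟩
    rw [← HH_sub σ hσ f g hf.1 hg hz]
    exact HH_le σ hσ _ ε (fun w hw => hfg w hw.le) hz
  mobI f η hf hη := ⟨comp_mob_cont hf.1 η hη, hY.congr _ _ (hY.mobI _ η hf.2 hη)
    (fun z hz => HH_mob σ hσ f hη hz)⟩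
  isoI f L hf := ⟨comp_iso_cont hf.1 L, hY.congr _ _ (hY.isoI _ L hf.2)
    (fun z _ => HH_iso σ hσ f L z)⟩
end MM

end Pool.Agent.Helper287.MB.MM

namespace Pool.Agent.Helper287.MB
alias inv_conj := MM.inv_conj
alias inv_holo := MM.inv_holo
alias HH_holo := MM.HH_holo
alias HH_conj := MM.HH_conj
alias HH_add := MM.HH_add
alias HH_sub := MM.HH_sub
alias HH_smul := MM.HH_smul
alias inv_X := MM.inv_X
end Pool.Agent.Helper287.MB
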