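import Pool.Agent.Helper287.MB.MM
import Pool.Agent.Helper287.MB.Avg
set_option autoImplicit false
open MeasureTheory Metric Set Filter Topology
open scoped InnerProductSpace ComplexConjugate

namespace Pool.Agent.Helper287.MB.N4


section N4
variable {E : Type} [NormedAddCommGroup E] [InnerProductSpace ℂ E] [FiniteDimensional ℂ E]

/-- first-order expansion with uniform quadratic error on the closed unit disc -/
def App (A : ℝ → ℂ → ℂ) (A0 A1 : ℂ → ℂ) : Prop :=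
  ∃ K : ℝ, 0 ≤ K ∧ ∀ t : ℝ, 0 < t → t ≤ 1 / 2 → ∀ x : ℂ, ‖x‖ ≤ 1 →
    ‖A0 x‖ ≤ K ∧ ‖A1 x‖ ≤ K ∧ ‖A t x - A0 x - t * A1 x‖ ≤ K * t ^ 2

theorem App.mul {A B : ℝ → ℂ → ℂ} {A0 A1 B0 B1 : ℂ → ℂ} (hA : App A A0 A1) (hB : App B B0 B1) :
    App (fun t x => A t x * B t x) (fun x => A0 x * B0 x)
      (fun x => A0 x * B1 x + A1 x * B0 x) := by
  obtain ⟨K, hK, hA⟩ := hA
  obtain ⟨L, hL, hB⟩ := hB
  refine ⟨6 * (K * L), by positivity, ?_⟩
  intro t ht ht2 x hx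
  obtain ⟨a0, a1, a2⟩ := hA t ht ht2 x hx
  obtain ⟨b0, b1, b2⟩ := hB t ht ht2 x hx
  have hKL : 0 ≤ K * L := by positivity
  refine ⟨?_, ?_, ?_⟩
  · rw [norm_mul]
    have := mul_le_mul a0 b0 (norm_nonneg _) hK
    linarith
  · refine le_trans (norm_add_le _ _) ?_
    rw [norm_mul, norm_mul]
    have h1 := mul_le_mul a0 b1 (norm_nonneg _) hK
    have h2 := mul_le_mul a1 b0 (norm_nonneg _) hK
    linarith
  · have hid : A t x * B t x - A0 x * B0 x - t * (A0 x * B1 x + A1 x * B0 x) =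
        (A t x - A0 x - t * A1 x) * B t x + (A0 x + t * A1 x) * (B t x - B0 x - t * B1 x)
          + t ^ 2 * (A1 x * B1 x) := by ring
    rw [hid]
    have hnt : ‖(t : ℂ)‖ = t := by rw [Complex.norm_real, Real.norm_of_nonneg ht.le]
    have hBt : ‖B t x‖ ≤ 3 * L := by
      have : B t x = (B t x - B0 x - t * B1 x) + (B0 x + t * B1 x) := by ring
      rw [this]
      refine le_trans (norm_add_le _ _) ?_
      have h1 : ‖B0 x + t * B1 x‖ ≤ L + t * L := by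
        refine le_trans (norm_add_le _ _) ?_
        rw [norm_mul, hnt]
        have := mul_le_mul_of_nonneg_left b1 ht.le
        linarith
      have h2 : L * t ^ 2 ≤ L * 1 := mul_le_mul_of_nonneg_left (by nlinarith) hL
      have h3 : t * L ≤ 1 * L := mul_le_mul_of_nonneg_right (by linarith) hL
      linarith
    have hAt : ‖A0 x + t * A1 x‖ ≤ 2 * K := by
      refine le_trans (norm_add_le _ _) ?_
      rw [norm_mul, hnt]
      have := mul_le_mul_of_nonneg_left a1 ht.le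
      nlinarith
    refine le_trans (norm_add_le _ _) ?_
    refine le_trans (add_le_add_left (norm_add_le _ _) _) ?_
    rw [norm_mul, norm_mul, norm_mul, norm_mul, norm_pow, hnt]
    have h1 := mul_le_mul a2 hBt (norm_nonneg _) (by positivity)
    have h2 := mul_le_mul hAt b2 (norm_nonneg _) (by positivity)
    have h3 := mul_le_mul a1 b1 (norm_nonneg _) hK
    have h4 := mul_le_mul_of_nonneg_left h3 (sq_nonneg t)
    nlinarith

theorem App.one : App (fun _ _ => 1) (fun _ => 1) (fun _ => 0) :=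
  ⟨1, by norm_num, fun t ht ht2 x hx => ⟨by simp, by simp, by simp; positivity⟩⟩

theorem App.pow {A : ℝ → ℂ → ℂ} {A0 A1 : ℂ → ℂ} (hA : App A A0 A1) (n : ℕ) :
    App (fun t x => A t x ^ n) (fun x => A0 x ^ n) (fun x => n * A0 x ^ (n - 1) * A1 x) := by
  induction n with
  | zero => simpa using App.one
  | succ n ih =>
    have h := ih.mul hA
    have e1 : (fun (t : ℝ) x => A t x ^ (n + 1)) = (fun t x => A t x ^ n * A t x) := by
      funext t x; rw [pow_succ]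
    have e2 : (fun x => A0 x ^ (n + 1)) = (fun x => A0 x ^ n * A0 x) := by
      funext x; rw [pow_succ]
    have e3 : (fun x => ((n + 1 : ℕ) : ℂ) * A0 x ^ (n + 1 - 1) * A1 x) =
        (fun x => A0 x ^ n * A1 x + n * A0 x ^ (n - 1) * A1 x * A0 x) := by
      funext x
      rcases n with _ | n
      · simp
      · simp only [Nat.add_sub_cancel]
        push_cast
        ring
    rw [e1, e2, e3]
    exact h

theorem App.conj {A : ℝ → ℂ → ℂ} {A0 A1 : ℂ → ℂ} (hA : App A A0 A1) :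
    App (fun t x => conj (A t x)) (fun x => conj (A0 x)) (fun x => conj (A1 x)) := by
  obtain ⟨K, hK, hA⟩ := hA
  refine ⟨K, hK, ?_⟩
  intro t ht ht2 x hx
  obtain ⟨a0, a1, a2⟩ := hA t ht ht2 x hx
  refine ⟨by rwa [RCLike.norm_conj], by rwa [RCLike.norm_conj], ?_⟩
  have : conj (A t x) - conj (A0 x) - t * conj (A1 x) = conj (A t x - A0 x - t * A1 x) := by
    simp [map_sub, map_mul, Complex.conj_ofReal]
  rw [this, RCLike.norm_conj]
  exact a2

theorem App.base (ω : ℂ) (hω : ‖ω‖ = 1) :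
    App (fun t x => (1 + conj ((t : ℂ) * ω) * x)⁻¹ * ((t : ℂ) * ω + x)) (fun x => x)
      (fun x => ω - conj ω * x ^ 2) := by
  refine ⟨4, by norm_num, ?_⟩
  intro t ht ht2 x hx
  have hnt : ‖(t : ℂ)‖ = t := by rw [Complex.norm_real, Real.norm_of_nonneg ht.le]
  have hx2 : ‖x‖ ^ 2 ≤ 1 := pow_le_one₀ (norm_nonneg _) hx
  have hA1 : ‖ω - conj ω * x ^ 2‖ ≤ 2 := by
    refine le_trans (norm_sub_le _ _) ?_
    rw [norm_mul, RCLike.norm_conj, norm_pow, hω]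
    linarith
  refine ⟨by linarith, by linarith, ?_⟩
  have hcx : ‖conj ((t : ℂ) * ω) * x‖ ≤ t := by
    rw [norm_mul, RCLike.norm_conj, norm_mul, hnt, hω, mul_one]
    have := mul_le_mul_of_nonneg_left hx ht.le
    linarith
  have hden : 1 / 2 ≤ ‖1 + conj ((t : ℂ) * ω) * x‖ := by
    have h1 : ‖(1 : ℂ)‖ - ‖-(conj ((t : ℂ) * ω) * x)‖ ≤ ‖(1 : ℂ) - -(conj ((t : ℂ) * ω) * x)‖ :=
      norm_sub_norm_le _ _
    rw [norm_neg, norm_one, sub_neg_eq_add] at h1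
    linarith
  have hne : 1 + conj ((t : ℂ) * ω) * x ≠ 0 := by
    intro h
    rw [h, norm_zero] at hden
    linarith
  have hcc : conj ((t : ℂ) * ω) = t * conj ω := by
    rw [map_mul, Complex.conj_ofReal]
  have hid : (1 + conj ((t : ℂ) * ω) * x)⁻¹ * ((t : ℂ) * ω + x) - x - t * (ω - conj ω * x ^ 2) =
      (1 + conj ((t : ℂ) * ω) * x)⁻¹ * (-(t * (ω - conj ω * x ^ 2)) * (conj ((t : ℂ) * ω) * x)) := by
    field_simp
    rw [hcc]
    ring
  rw [hid, norm_mul, norm_inv, norm_mul, norm_neg, norm_mul, hnt]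
  have h1 : ‖1 + conj ((t : ℂ) * ω) * x‖⁻¹ ≤ 2 := by
    rw [inv_le_comm₀ (by linarith) (by norm_num)]
    linarith
  have h2 : t * ‖ω - conj ω * x ^ 2‖ * ‖conj ((t : ℂ) * ω) * x‖ ≤ t * 2 * t := by
    apply mul_le_mul _ hcx (norm_nonneg _) (by positivity)
    exact mul_le_mul_of_nonneg_left hA1 ht.le
  have h3 := mul_le_mul h1 h2 (by positivity) (by norm_num)
  nlinarith

theorem App.mem {Y : (E → ℂ) → Prop} (hY : Inv Y) {e : E} (he : ‖e‖ = 1)
    {A : ℝ → ℂ → ℂ} {A0 A1 : ℂ → ℂ} (h : App A A0 A1)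
    (hA : ∀ t : ℝ, 0 < t → t ≤ 1 / 2 → Y (fun z => A t ⟪e, z⟫_ℂ))
    (hA0 : Y (fun z => A0 ⟪e, z⟫_ℂ)) : Y (fun z => A1 ⟪e, z⟫_ℂ) := by
  obtain ⟨K, hK, h⟩ := h
  apply hY.lim
  intro ε hε
  obtain ⟨t, ht, ht2, htε⟩ : ∃ t : ℝ, 0 < t ∧ t ≤ 1 / 2 ∧ K * t ≤ ε := by
    refine ⟨min (1 / 2) (ε / (K + 1)), lt_min (by norm_num) (by positivity), min_le_left _ _, ?_⟩
    have h1 : min (1 / 2) (ε / (K + 1)) ≤ ε / (K + 1) := min_le_right _ _
    have h2 := mul_le_mul_of_nonneg_left h1 hK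
    refine le_trans h2 ?_
    rw [mul_div_assoc', div_le_iff₀ (by positivity)]
    nlinarith
  have htc : (t : ℂ) ≠ 0 := by exact_mod_cast ht.ne'
  refine ⟨fun z => (t : ℂ)⁻¹ * (A t ⟪e, z⟫_ℂ + (-1) * A0 ⟪e, z⟫_ℂ),
    hY.smul _ _ (hY.add _ _ (hA t ht ht2) (hY.smul _ _ hA0)), ?_⟩
  intro z hz
  have hx : ‖⟪e, z⟫_ℂ‖ ≤ 1 := by
    have := norm_inner_le_norm (𝕜 := ℂ) e z
    rw [he, one_mul] at this
    linarith
  obtain ⟨-, -, a2⟩ := h t ht ht2 _ hx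
  have hid : (t : ℂ)⁻¹ * (A t ⟪e, z⟫_ℂ + (-1) * A0 ⟪e, z⟫_ℂ) - A1 ⟪e, z⟫_ℂ =
      (t : ℂ)⁻¹ * (A t ⟪e, z⟫_ℂ - A0 ⟪e, z⟫_ℂ - t * A1 ⟪e, z⟫_ℂ) := by
    field_simp
    ring
  rw [hid, norm_mul, norm_inv, Complex.norm_real, Real.norm_of_nonneg ht.le]
  rw [inv_mul_le_iff₀ ht]
  nlinarith

theorem inner_mob_c {e : E} (he : ‖e‖ = 1) (c : ℂ) (hc0 : c ≠ 0) (hc : ‖c‖ < 1) (z : E) :
    ⟪e, mob (c • e) z⟫_ℂ = (1 + conj c * ⟪e, z⟫_ℂ)⁻¹ * (c + ⟪e, z⟫_ℂ) := by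
  have h1 : ‖c • e‖ ≤ 1 := by rw [norm_smul, he, mul_one]; exact hc.le
  have h2 := inner_mob (z := z) h1
  rw [inner_smul_left, inner_smul_left, norm_smul, he, mul_one] at h2
  have h3 : ((‖c‖ ^ 2 : ℝ) : ℂ) = conj c * c := by
    rw [mul_comm, Complex.mul_conj, Complex.normSq_eq_norm_sq]
  rw [h3] at h2
  have hc0' : conj c ≠ 0 := by
    rw [Ne, map_eq_zero]; exact hc0
  apply mul_left_cancel₀ hc0'
  rw [h2]
  ring

theorem zonal_step {Y : (E → ℂ) → Prop} (hY : Inv Y) {e : E} (he : ‖e‖ = 1) (a b : ℕ)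
    (hab : Y (fun z => ⟪e, z⟫_ℂ ^ a * conj ⟪e, z⟫_ℂ ^ b)) (ω : ℂ) (hω : ‖ω‖ = 1) :
    Y (fun z => ⟪e, z⟫_ℂ ^ a * (b * conj ⟪e, z⟫_ℂ ^ (b - 1) * conj (ω - conj ω * ⟪e, z⟫_ℂ ^ 2)) +
      a * ⟪e, z⟫_ℂ ^ (a - 1) * (ω - conj ω * ⟪e, z⟫_ℂ ^ 2) * conj ⟪e, z⟫_ℂ ^ b) := by
  have hb := App.base ω hω
  have h := (hb.pow a).mul (hb.conj.pow b)
  refine App.mem hY he h ?_ hab
  intro t ht ht2
  have hc0 : (t : ℂ) * ω ≠ 0 := by
    apply mul_ne_zero
    · exact_mod_cast ht.ne'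
    · intro h0
      rw [h0, norm_zero] at hω
      norm_num at hω
  have hnt : ‖(t : ℂ)‖ = t := by rw [Complex.norm_real, Real.norm_of_nonneg ht.le]
  have hc1 : ‖(t : ℂ) * ω‖ < 1 := by
    rw [norm_mul, hnt, hω, mul_one]; linarith
  have hm := hY.mobI _ (((t : ℂ) * ω) • e) hab (by rw [norm_smul, he, mul_one]; exact hc1)
  refine hY.congr _ _ hm ?_
  intro z hz
  rw [inner_mob_c he _ hc0 hc1 z]

theorem zonal_E {Y : (E → ℂ) → Prop} (hY : Inv Y) {e : E} (he : ‖e‖ = 1) (a b : ℕ)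
    (hab : Y (fun z => ⟪e, z⟫_ℂ ^ a * conj ⟪e, z⟫_ℂ ^ b)) :
    Y (fun z => a * ⟪e, z⟫_ℂ ^ (a - 1) * conj ⟪e, z⟫_ℂ ^ b -
        b * ⟪e, z⟫_ℂ ^ a * (conj ⟪e, z⟫_ℂ ^ (b - 1) * conj ⟪e, z⟫_ℂ ^ 2)) ∧
    Y (fun z => b * ⟪e, z⟫_ℂ ^ a * conj ⟪e, z⟫_ℂ ^ (b - 1) -
        a * (⟪e, z⟫_ℂ ^ (a - 1) * ⟪e, z⟫_ℂ ^ 2) * conj ⟪e, z⟫_ℂ ^ b) := by
  have h1 := zonal_step hY he a b hab 1 (by simp)
  have h2 := zonal_step hY he a b hab Complex.I (by simp)
  constructor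
  · refine hY.congr _ _ (hY.add _ _ (hY.smul (1 / 2) _ h1) (hY.smul (-Complex.I / 2) _ h2)) ?_
    intro z _
    simp only [map_sub, map_mul, map_one, Complex.conj_I, map_pow, Complex.conj_conj, map_neg]
    ring_nf
    simp only [Complex.I_sq]
    ring
  · refine hY.congr _ _ (hY.add _ _ (hY.smul (1 / 2) _ h1) (hY.smul (Complex.I / 2) _ h2)) ?_
    intro z _
    simp only [map_sub, map_mul, map_one, Complex.conj_I, map_pow, Complex.conj_conj, map_neg]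
    ring_nf
    simp only [Complex.I_sq]
    ring

/-- TARGET 1: all zonal monomials -/
theorem zonal_all {Y : (E → ℂ) → Prop} (hY : Inv Y) (h1 : Y (fun _ => 1))
    (hlin : ∀ b : E, Y (fun z => ⟪b, z⟫_ℂ)) (hlin' : ∀ b : E, Y (fun z => conj ⟪b, z⟫_ℂ))
    (h11 : ∀ e : E, ‖e‖ = 1 → Y (fun z => ⟪e, z⟫_ℂ * conj ⟪e, z⟫_ℂ)) (e : E) (he : ‖e‖ = 1)
    (a b : ℕ) : Y (fun z => ⟪e, z⟫_ℂ ^ a * conj ⟪e, z⟫_ℂ ^ b) := by
  have hA : ∀ a : ℕ, Y (fun z => ⟪e, z⟫_ℂ ^ (a + 1) * conj ⟪e, z⟫_ℂ ^ 0) := by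
    intro a
    induction a with
    | zero => simpa using hlin e
    | succ a ih =>
      have h := (zonal_E hY he (a + 1) 0 ih).2
      have hne : ((a : ℂ) + 1) ≠ 0 := by exact_mod_cast Nat.succ_ne_zero a
      refine hY.congr _ _ (hY.smul (-((a : ℂ) + 1)⁻¹) _ h) ?_
      intro z _
      simp only [Nat.add_sub_cancel]
      push_cast
      field_simp
      ring
  have hB : ∀ b : ℕ, Y (fun z => ⟪e, z⟫_ℂ ^ 0 * conj ⟪e, z⟫_ℂ ^ (b + 1)) := by
    intro b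
    induction b with
    | zero => simpa using hlin' e
    | succ b ih =>
      have h := (zonal_E hY he 0 (b + 1) ih).1
      have hne : ((b : ℂ) + 1) ≠ 0 := by exact_mod_cast Nat.succ_ne_zero b
      refine hY.congr _ _ (hY.smul (-((b : ℂ) + 1)⁻¹) _ h) ?_
      intro z _
      simp only [Nat.add_sub_cancel]
      push_cast
      field_simp
      ring
  have h00 : Y (fun z => ⟪e, z⟫_ℂ ^ 0 * conj ⟪e, z⟫_ℂ ^ 0) := by simpa using h1
  have h1b : ∀ b : ℕ, Y (fun z => ⟪e, z⟫_ℂ ^ 1 * conj ⟪e, z⟫_ℂ ^ b) := by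
    intro b
    rcases b with _ | b
    · exact hA 0
    · induction b with
      | zero => simpa using h11 e he
      | succ b ih =>
        have h := (zonal_E hY he 1 (b + 1) ih).1
        have hne : ((b : ℂ) + 1) ≠ 0 := by exact_mod_cast Nat.succ_ne_zero b
        refine hY.congr _ _ (hY.smul (-((b : ℂ) + 1)⁻¹) _
          (hY.add _ _ h (hY.smul (-1) _ (hB b)))) ?_
        intro z _
        simp only [Nat.add_sub_cancel]
        push_cast
        field_simp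
        ring
  have hall : ∀ a b : ℕ, Y (fun z => ⟪e, z⟫_ℂ ^ (a + 1) * conj ⟪e, z⟫_ℂ ^ b) := by
    intro a
    induction a with
    | zero => exact h1b
    | succ a ih =>
      intro b
      have h := (zonal_E hY he (a + 1) b (ih b)).2
      have hne : ((a : ℂ) + 1) ≠ 0 := by exact_mod_cast Nat.succ_ne_zero a
      refine hY.congr _ _ (hY.smul (-((a : ℂ) + 1)⁻¹) _
          (hY.add _ _ h (hY.smul (-(b : ℂ)) _ (ih (b - 1))))) ?_
      intro z _
      simp only [Nat.add_sub_cancel]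
      push_cast
      field_simp
      ring
  rcases a with _ | a
  · rcases b with _ | b
    · exact h00
    · exact hB b
  · exact hall a b

theorem zonal_poly {Y : (E → ℂ) → Prop} (hY : Inv Y) (e : E)
    (h : ∀ a b : ℕ, Y (fun z => ⟪e, z⟫_ℂ ^ a * conj ⟪e, z⟫_ℂ ^ b)) (j k : ℕ) :
    ∀ a b : ℕ, Y (fun z => ⟪e, z⟫_ℂ ^ a * conj ⟪e, z⟫_ℂ ^ b * (1 + ⟪e, z⟫_ℂ) ^ j *
      (1 + conj ⟪e, z⟫_ℂ) ^ k) := by
  induction j with
  | zero =>
    induction k with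
    | zero => simpa using h
    | succ k ih =>
      intro a b
      refine hY.congr _ _ (hY.add _ _ (ih a b) (ih a (b + 1))) ?_
      intro z _
      ring
  | succ j ih =>
    intro a b
    refine hY.congr _ _ (hY.add _ _ (ih a b) (ih (a + 1) b)) ?_
    intro z _
    ring

theorem kernel_eq (z ζ : E) (j : ℕ) :
    ((‖1 + ⟪z, ζ⟫_ℂ‖ ^ (2 * j) : ℝ) : ℂ) =
      (1 + ⟪ζ, z⟫_ℂ) ^ j * (1 + conj ⟪ζ, z⟫_ℂ) ^ j := by
  have h1 : ‖1 + ⟪z, ζ⟫_ℂ‖ = ‖1 + ⟪ζ, z⟫_ℂ‖ := by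
    have : 1 + ⟪z, ζ⟫_ℂ = conj (1 + ⟪ζ, z⟫_ℂ) := by
      rw [map_add, map_one, inner_conj_symm]
    rw [this, RCLike.norm_conj]
  rw [h1, pow_mul]
  push_cast
  rw [← mul_pow]
  congr 1
  have h2 : (1 + conj ⟪ζ, z⟫_ℂ) = conj (1 + ⟪ζ, z⟫_ℂ) := by
    rw [map_add, map_one]
  rw [h2, Complex.mul_conj, Complex.normSq_eq_norm_sq]
  push_cast
  rfl

variable [MeasurableSpace E] [BorelSpace E] [Nontrivial E]

/-- TARGET 2: then `Y` contains all continuous functions, if it contains those vanishing on the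
sphere. -/
theorem all_mem (σ : Measure E) (hσ : IsSph σ) {Y : (E → ℂ) → Prop} (hY : Inv Y)
    (h1 : Y (fun _ => 1))
    (hlin : ∀ b : E, Y (fun z => ⟪b, z⟫_ℂ)) (hlin' : ∀ b : E, Y (fun z => conj ⟪b, z⟫_ℂ))
    (h11 : ∀ e : E, ‖e‖ = 1 → Y (fun z => ⟪e, z⟫_ℂ * conj ⟪e, z⟫_ℂ))
    (h0 : ∀ f : E → ℂ, ContinuousOn f (closedBall 0 1) → (∀ z, ‖z‖ = 1 → f z = 0) → Y f)
    (f : E → ℂ) (hf : ContinuousOn f (closedBall 0 1)) : Y f := by
  apply hY.lim
  intro ε hε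
  have hfs : ContinuousOn f (sphere 0 1) := hf.mono sphere_subset_closedBall
  obtain ⟨j, hj⟩ := peak_approx σ hσ f hfs ε hε
  have hj := hj j le_rfl
  obtain ⟨e₀, he₀⟩ : ∃ e : E, ‖e‖ = 1 := by
    obtain ⟨v, hv⟩ := exists_ne (0 : E)
    exact ⟨((‖v‖ : ℂ)⁻¹) • v, by
      rw [norm_smul, norm_inv, Complex.norm_real, norm_norm, inv_mul_cancel₀ (norm_ne_zero_iff.mpr hv)]⟩
  set N : ℝ := ∫ ζ, ‖1 + ⟪e₀, ζ⟫_ℂ‖ ^ (2 * j) ∂σ with hN
  set g : E → ℂ := fun z => (N : ℂ)⁻¹ * (∫ ζ, f ζ * ((‖1 + ⟪z, ζ⟫_ℂ‖ ^ (2 * j) : ℝ) : ℂ) ∂σ) with hg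
  have hYg : Y g := by
    apply hY.smul
    apply inv_average_sph hY σ hσ
    · apply ContinuousOn.mul
      · exact hfs.comp continuousOn_fst (fun p hp => hp.1)
      · apply Continuous.continuousOn
        apply Complex.continuous_ofReal.comp
        apply Continuous.pow
        apply Continuous.norm
        apply Continuous.add continuous_const
        exact Continuous.inner continuous_snd continuous_fst
    · intro ζ hζ
      apply hY.smul (f ζ)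
      have h2 := zonal_poly hY ζ (zonal_all hY h1 hlin hlin' h11 ζ hζ) j j 0 0
      refine hY.congr _ _ h2 ?_
      intro z _
      rw [kernel_eq]
      ring
  have hgf : ∀ z : E, ‖z‖ = 1 → ‖f z - g z‖ ≤ ε := by
    intro z hz
    have h2 := hj z hz
    rw [peak_const σ hσ j z e₀ hz he₀] at h2
    rw [norm_sub_rev]
    exact h2
  -- truncation
  set T : ℂ → ℂ := fun w => ((max 1 (‖w‖ / ε))⁻¹ : ℝ) • w with hT
  have hTc : Continuous T := by
    have hc : Continuous (fun w : ℂ => ((max 1 (‖w‖ / ε))⁻¹ : ℝ)) := by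
      apply Continuous.inv₀
      · exact continuous_const.max (continuous_norm.div_const _)
      · intro w
        have : (1 : ℝ) ≤ max 1 (‖w‖ / ε) := le_max_left _ _
        linarith
    exact hc.smul continuous_id
  have hTle : ∀ w, ‖T w‖ ≤ ε := by
    intro w
    have h1 : (0 : ℝ) < max 1 (‖w‖ / ε) := lt_of_lt_of_le one_pos (le_max_left _ _)
    rw [hT]
    simp only
    rw [norm_smul, norm_inv, Real.norm_of_nonneg h1.le, inv_mul_le_iff₀ h1]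
    have h2 : ‖w‖ / ε ≤ max 1 (‖w‖ / ε) := le_max_right _ _
    rwa [div_le_iff₀ hε] at h2
  have hTeq : ∀ w, ‖w‖ ≤ ε → T w = w := by
    intro w hw
    have h1 : max 1 (‖w‖ / ε) = 1 := max_eq_left (by rw [div_le_one hε]; exact hw)
    rw [hT]
    simp only
    rw [h1, inv_one, one_smul]
  have hgc : ContinuousOn g (closedBall 0 1) := hY.cont _ hYg
  have hd1 : Y (fun z => (f z - g z) - T (f z - g z)) := by
    apply h0
    · exact (hf.sub hgc).sub (hTc.comp_continuousOn (hf.sub hgc))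
    · intro z hz
      rw [hTeq _ (hgf z hz), sub_self]
  refine ⟨fun z => g z + ((f z - g z) - T (f z - g z)), hY.add _ _ hYg hd1, ?_⟩
  intro z _
  have h2 : g z + ((f z - g z) - T (f z - g z)) - f z = - T (f z - g z) := by ring
  simp only
  rw [h2, norm_neg]
  exact hTle _
end N4

end Pool.Agent.Helper287.MB.N4

namespace Pool.Agent.Helper287.MB
alias zonal_all := N4.zonal_all
alias all_mem := N4.all_mem
end Pool.Agent.Helper287.MB
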