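import Pool.Agent.Helper287.MB.Kern
import Pool.Agent.Helper287.MB.MM
import Pool.Agent.Helper287.MB.Avg
set_option autoImplicit false
open MeasureTheory Metric Set Filter Topology
open scoped InnerProductSpace ComplexConjugate

namespace Pool.Agent.Helper287.MB.NN



theorem j2254_inv_lin {E : Type} [NormedAddCommGroup E] [InnerProductSpace ℂ E] {e : E}
    (he : ‖e‖ = 1) {c : ℂ} (hc : ‖c‖ < 1) (hc0 : c ≠ 0) (z : E) :
    ⟪e, mob (c • e) z⟫_ℂ = (1 + conj c * ⟪e, z⟫_ℂ)⁻¹ * (c + ⟪e, z⟫_ℂ) := by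
  have h1 : ‖c • e‖ ≤ 1 := by rw [norm_smul, he, mul_one]; exact hc.le
  have h := inner_mob (z := z) h1
  rw [inner_smul_left, inner_smul_left, norm_smul, he, mul_one] at h
  have hcc : conj c ≠ 0 := (map_ne_zero _).2 hc0
  apply mul_left_cancel₀ hcc
  rw [h]
  have : ((‖c‖ ^ 2 : ℝ) : ℂ) = conj c * c := by
    rw [← Complex.normSq_eq_norm_sq, Complex.normSq_eq_conj_mul_self]
  rw [this]; ring

theorem j2254_form {E : Type} [NormedAddCommGroup E] [InnerProductSpace ℂ E] {e : E}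
    (he : ‖e‖ = 1) {u : ℂ} (hu : ‖u‖ = 1) (z : E) :
    ⟪e, mob (((1 / 2 : ℂ) * u) • e) z⟫_ℂ =
      u * ((u + (1 / 2) * ⟪e, z⟫_ℂ)⁻¹ * ((1 / 2) * u + ⟪e, z⟫_ℂ)) := by
  have hu0 : u ≠ 0 := by rintro rfl; simp at hu
  have hn : ‖(1 / 2 : ℂ) * u‖ < 1 := by rw [norm_mul, hu]; norm_num
  rw [j2254_inv_lin he hn (mul_ne_zero (by norm_num) hu0)]
  have hcu : conj u = u⁻¹ := by
    rw [Complex.inv_def, Complex.normSq_eq_norm_sq, hu]; simp
  have h1 : (1 + conj ((1 / 2 : ℂ) * u) * ⟪e, z⟫_ℂ) = u⁻¹ * (u + (1 / 2) * ⟪e, z⟫_ℂ) := by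
    rw [map_mul, hcu]
    have : conj (1 / 2 : ℂ) = 1 / 2 := by
      rw [map_div₀, map_one, map_ofNat]
    rw [this, mul_add, inv_mul_cancel₀ hu0]
    ring
  rw [h1, mul_inv, inv_inv]
  ring

theorem j2254_avg {E : Type} [NormedAddCommGroup E] [InnerProductSpace ℂ E]
    [FiniteDimensional ℂ E] {Y : (E → ℂ) → Prop} (hY : Inv Y) {e : E} (he : ‖e‖ = 1)
    (hlin : Y (fun z => ⟪e, z⟫_ℂ)) (h : ℂ → ℂ) (hh : ContinuousOn h (sphere 0 1)) :
    Y (fun z => ∮ u in C(0, 1), h u *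
      ((u + (1 / 2) * ⟪e, z⟫_ℂ)⁻¹ * ((1 / 2) * u + ⟪e, z⟫_ℂ))) := by
  have hu : ∀ θ : ℝ, ‖circleMap 0 1 θ‖ = 1 := by intro θ; simp
  have hus : ∀ θ : ℝ, circleMap 0 1 θ ∈ sphere (0 : ℂ) 1 := by
    intro θ; rw [mem_sphere_zero_iff_norm]; exact hu θ
  have hY1 : ∀ θ : ℝ, Y (fun z => (Complex.I * h (circleMap 0 1 θ)) *
      ⟪e, mob (((1 / 2 : ℂ) * circleMap 0 1 θ) • e) z⟫_ℂ) := by
    intro θ
    apply hY.smul
    apply hY.mobI _ _ hlin
    rw [norm_smul, he, norm_mul, hu]; norm_num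
  have hfin : IsFiniteMeasure (Measure.comap (Subtype.val : Icc (0 : ℝ) (2 * Real.pi) → ℝ)
      volume) := by
    refine ⟨?_⟩
    rw [Measure.comap_apply _ Subtype.val_injective
      (fun s hs => (MeasurableEmbedding.subtype_coe measurableSet_Icc).measurableSet_image.2 hs)
      _ MeasurableSet.univ, Set.image_univ, Subtype.range_coe]
    rw [Real.volume_Icc]
    exact ENNReal.ofReal_lt_top
  have key := inv_average hY (K := Icc (0 : ℝ) (2 * Real.pi))
    (Measure.comap (Subtype.val : Icc (0 : ℝ) (2 * Real.pi) → ℝ) volume)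
    (fun θ z => (Complex.I * h (circleMap 0 1 (θ : ℝ))) *
      ⟪e, mob (((1 / 2 : ℂ) * circleMap 0 1 (θ : ℝ)) • e) z⟫_ℂ) ?_ (fun θ => hY1 θ)
  · refine hY.congr _ _ key ?_
    intro z hz
    rw [circleIntegral_def_Icc, ← integral_subtype_comap measurableSet_Icc]
    apply integral_congr_ae
    refine Eventually.of_forall (fun θ => ?_)
    simp only []
    rw [j2254_form he (hu θ), deriv_circleMap, smul_eq_mul]
    ring
  · have hform : ∀ p ∈ (univ ×ˢ closedBall (0 : E) 1 : Set (Icc (0 : ℝ) (2 * Real.pi) × E)),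
        (Complex.I * h (circleMap 0 1 (p.1 : ℝ))) *
        ⟪e, mob (((1 / 2 : ℂ) * circleMap 0 1 (p.1 : ℝ)) • e) p.2⟫_ℂ =
        (Complex.I * h (circleMap 0 1 (p.1 : ℝ))) * (circleMap 0 1 (p.1 : ℝ) *
          ((circleMap 0 1 (p.1 : ℝ) + (1 / 2) * ⟪e, p.2⟫_ℂ)⁻¹ *
            ((1 / 2) * circleMap 0 1 (p.1 : ℝ) + ⟪e, p.2⟫_ℂ))) := by
      intro p _
      rw [j2254_form he (hu p.1)]
    refine ContinuousOn.congr ?_ hform
    have c1 : Continuous (fun p : Icc (0 : ℝ) (2 * Real.pi) × E => circleMap 0 1 (p.1 : ℝ)) :=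
      (continuous_circleMap 0 1).comp (continuous_subtype_val.comp continuous_fst)
    have c2 : Continuous (fun p : Icc (0 : ℝ) (2 * Real.pi) × E => ⟪e, p.2⟫_ℂ) :=
      continuous_const.inner continuous_snd
    have c3 : ContinuousOn (fun p : Icc (0 : ℝ) (2 * Real.pi) × E => h (circleMap 0 1 (p.1 : ℝ)))
        (univ ×ˢ closedBall (0 : E) 1) :=
      hh.comp c1.continuousOn (fun p _ => hus p.1)
    refine (continuousOn_const.mul c3).mul (c1.continuousOn.mul (ContinuousOn.mul ?_ ?_))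
    · apply ContinuousOn.inv₀ (c1.add (continuous_const.mul c2)).continuousOn
      intro p hp hcon
      have hp2 : ‖p.2‖ ≤ 1 := by
        have := hp.2
        rwa [mem_closedBall_zero_iff] at this
      have h3 : ‖⟪e, p.2⟫_ℂ‖ ≤ 1 := by
        refine (norm_inner_le_norm e p.2).trans ?_
        rw [he, one_mul]; exact hp2
      have h4 : circleMap 0 1 (p.1 : ℝ) = -((1 / 2) * ⟪e, p.2⟫_ℂ) := eq_neg_of_add_eq_zero_left hcon
      have h5 := hu p.1
      rw [h4, norm_neg, norm_mul] at h5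
      norm_num at h5
      linarith
    · exact ((continuous_const.mul c1).add c2).continuousOn

theorem j2254_pow {E : Type} [NormedAddCommGroup E] [InnerProductSpace ℂ E]
    [FiniteDimensional ℂ E] {Y : (E → ℂ) → Prop} (hY : Inv Y) {e : E} (he : ‖e‖ = 1)
    (hlin : Y (fun z => ⟪e, z⟫_ℂ)) : Y (fun _ => 1) ∧ ∀ m : ℕ, Y (fun z => ⟪e, z⟫_ℂ ^ (m + 1)) := by
  have hball : ∀ z : E, ‖z‖ ≤ 1 → -((1 / 2) * ⟪e, z⟫_ℂ) ∈ ball (0 : ℂ) 1 := by
    intro z hz
    rw [mem_ball_zero_iff, norm_neg, norm_mul]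
    have h3 : ‖⟪e, z⟫_ℂ‖ ≤ 1 := by
      refine (norm_inner_le_norm e z).trans ?_
      rw [he, one_mul]; exact hz
    norm_num
    linarith
  have hpi : (2 * Real.pi * Complex.I : ℂ) ≠ 0 := Complex.two_pi_I_ne_zero
  constructor
  · have h1 := j2254_avg hY he hlin (fun u => u⁻¹) (by
      apply ContinuousOn.inv₀ continuousOn_id
      intro x hx
      rw [mem_sphere_zero_iff_norm] at hx
      rintro rfl
      simp at hx)
    have h2 := hY.smul (Real.pi * Complex.I : ℂ)⁻¹ _ h1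
    refine hY.congr _ _ h2 ?_
    intro z hz
    have hb := hball z hz
    obtain ⟨a, ha⟩ : ∃ a : ℂ, a = (1 / 2) * ⟪e, z⟫_ℂ := ⟨_, rfl⟩
    have hx : ⟪e, z⟫_ℂ = 2 * a := by rw [ha]; ring
    rw [← ha] at hb
    have hna : ∀ u ∈ sphere (0 : ℂ) 1, u - -a ≠ 0 := by
      intro u hu hcon
      rw [mem_sphere_zero_iff_norm] at hu
      rw [mem_ball_zero_iff] at hb
      rw [sub_eq_zero.1 hcon] at hu
      linarith
    have hn0 : ∀ u ∈ sphere (0 : ℂ) 1, u - 0 ≠ 0 := by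
      intro u hu hcon
      rw [mem_sphere_zero_iff_norm] at hu
      rw [sub_eq_zero.1 hcon] at hu
      simp at hu
    have e1 : (∮ u in C(0, 1), u⁻¹ * ((u + (1 / 2) * ⟪e, z⟫_ℂ)⁻¹ * ((1 / 2) * u + ⟪e, z⟫_ℂ))) =
        ∮ u in C(0, 1), ((1 / 2) * (u - -a)⁻¹ + 2 * ((u - 0)⁻¹ - (u - -a)⁻¹)) := by
      apply circleIntegral.integral_congr zero_le_one
      intro u hu
      have h3 := hna u hu
      have h4 := hn0 u hu
      rw [sub_zero] at h4
      rw [sub_neg_eq_add] at h3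
      simp only []
      rw [← ha, hx, sub_zero, sub_neg_eq_add]
      field_simp
      ring
    have i1 : CircleIntegrable (fun u : ℂ => (u - -a)⁻¹) 0 1 :=
      ContinuousOn.circleIntegrable zero_le_one
        ((continuousOn_id.sub continuousOn_const).inv₀ hna)
    have i2 : CircleIntegrable (fun u : ℂ => (u - 0)⁻¹) 0 1 :=
      ContinuousOn.circleIntegrable zero_le_one
        ((continuousOn_id.sub continuousOn_const).inv₀ hn0)
    have e2 : (∮ u in C(0, 1), ((1 / 2) * (u - -a)⁻¹ + 2 * ((u - 0)⁻¹ - (u - -a)⁻¹))) =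
        Real.pi * Complex.I := by
      have c1 : ContinuousOn (fun u : ℂ => (u - -a)⁻¹) (sphere 0 1) :=
        (continuousOn_id.sub continuousOn_const).inv₀ hna
      have c2 : ContinuousOn (fun u : ℂ => (u - 0)⁻¹) (sphere 0 1) :=
        (continuousOn_id.sub continuousOn_const).inv₀ hn0
      have i3 : CircleIntegrable (fun u : ℂ => (1 / 2) * (u - -a)⁻¹) 0 1 :=
        ContinuousOn.circleIntegrable zero_le_one (continuousOn_const.mul c1)
      have i4 : CircleIntegrable (fun u : ℂ => 2 * ((u - 0)⁻¹ - (u - -a)⁻¹)) 0 1 :=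
        ContinuousOn.circleIntegrable zero_le_one (continuousOn_const.mul (c2.sub c1))
      rw [circleIntegral.integral_add i3 i4]
      rw [circleIntegral.integral_const_mul, circleIntegral.integral_const_mul,
        circleIntegral.integral_sub i2 i1, circleIntegral.integral_sub_inv_of_mem_ball hb,
        circleIntegral.integral_sub_inv_of_mem_ball (mem_ball_self one_pos)]
      ring
    rw [e1, e2, inv_mul_cancel₀]
    intro hcon
    apply hpi
    rw [mul_assoc, hcon, mul_zero]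
  · intro m
    have h1 := j2254_avg hY he hlin (fun u => u ^ m) (continuousOn_id.pow m)
    have h2 := hY.smul ((2 * Real.pi * Complex.I : ℂ) * ((-(1 / 2)) ^ m * (3 / 4)))⁻¹ _ h1
    refine hY.congr _ _ h2 ?_
    intro z hz
    have hb := hball z hz
    have e1 : (∮ u in C(0, 1), u ^ m * ((u + (1 / 2) * ⟪e, z⟫_ℂ)⁻¹ * ((1 / 2) * u + ⟪e, z⟫_ℂ))) =
        ∮ u in C(0, 1), (u - -((1 / 2) * ⟪e, z⟫_ℂ))⁻¹ • (u ^ m * ((1 / 2) * u + ⟪e, z⟫_ℂ)) := by
      apply circleIntegral.integral_congr zero_le_one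
      intro u hu
      simp only [smul_eq_mul]
      rw [sub_neg_eq_add]
      ring
    have hd : DiffContOnCl ℂ (fun u : ℂ => u ^ m * ((1 / 2) * u + ⟪e, z⟫_ℂ)) (ball 0 1) := by
      apply Differentiable.diffContOnCl
      fun_prop
    rw [e1, hd.circleIntegral_sub_inv_smul hb, smul_eq_mul]
    have h34 : (2 * Real.pi * Complex.I : ℂ) * ((-(1 / 2)) ^ m * (3 / 4)) ≠ 0 := by
      apply mul_ne_zero hpi
      apply mul_ne_zero
      · apply pow_ne_zero; norm_num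
      · norm_num
    rw [eq_inv_mul_iff_mul_eq₀ h34]
    rw [show -((1 / 2 : ℂ) * ⟪e, z⟫_ℂ) = (-(1 / 2)) * ⟪e, z⟫_ℂ by ring, mul_pow]
    ring

section NN
variable {E : Type} [NormedAddCommGroup E] [InnerProductSpace ℂ E] [FiniteDimensional ℂ E]

/-- TARGET 1: powers of linear functionals -/
theorem lin_pow [Nontrivial E] {Y : (E → ℂ) → Prop} (hY : Inv Y)
    (hlin : ∀ b : E, Y (fun z => ⟪b, z⟫_ℂ)) :
    Y (fun _ => 1) ∧ ∀ (b : E) (m : ℕ), Y (fun z => ⟪b, z⟫_ℂ ^ m) := by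
  obtain ⟨e, he⟩ : ∃ e : E, ‖e‖ = 1 := by
    obtain ⟨x, hx⟩ := exists_ne (0 : E)
    refine ⟨((‖x‖ : ℂ)⁻¹) • x, ?_⟩
    rw [norm_smul, norm_inv, Complex.norm_real, norm_norm, inv_mul_cancel₀ (norm_ne_zero_iff.2 hx)]
  have h1 := (j2254_pow hY he (hlin e)).1
  refine ⟨h1, ?_⟩
  intro b m
  rcases m with _ | m
  · simpa using h1
  · by_cases hb : b = 0
    · subst hb
      simpa using hY.zero
    · have hbn : ‖b‖ ≠ 0 := norm_ne_zero_iff.2 hb
      have hbc : (‖b‖ : ℂ) ≠ 0 := by exact_mod_cast hbn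
      have he' : ‖((‖b‖ : ℂ)⁻¹) • b‖ = 1 := by
        rw [norm_smul, norm_inv, Complex.norm_real, norm_norm, inv_mul_cancel₀ hbn]
      have h2 := (j2254_pow hY he' (hlin _)).2 m
      have h3 := hY.smul ((‖b‖ : ℂ) ^ (m + 1)) _ h2
      refine hY.congr _ _ h3 ?_
      intro z _
      rw [inner_smul_left, map_inv₀, Complex.conj_ofReal, mul_pow, ← mul_assoc, ← mul_pow,
        mul_inv_cancel₀ hbc, one_pow, one_mul]

variable [MeasurableSpace E] [BorelSpace E] [Nontrivial E]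

theorem j2254_term (σ : Measure E) (hσ : IsSph σ) {Z : (E → ℂ) → Prop} (hZ : Inv Z)
    (hpow : ∀ (b : E) (m : ℕ), Z (fun z => ⟪b, z⟫_ℂ ^ m)) (f : E → ℂ)
    (hf : ContinuousOn f (closedBall 0 1)) (m : ℕ) :
    Z (fun z => ∫ ζ, f ζ * ⟪ζ, z⟫_ℂ ^ m ∂σ) := by
  apply inv_average_sph hZ σ hσ (fun ζ z => f ζ * ⟪ζ, z⟫_ℂ ^ m)
  · apply ContinuousOn.mul
    · apply hf.comp continuousOn_fst
      intro p hp
      rw [mem_closedBall_zero_iff]
      have := hp.1
      rw [mem_sphere_zero_iff_norm] at this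
      exact this.le
    · exact ((continuous_fst.inner continuous_snd).pow m).continuousOn
  · intro ζ _
    exact hZ.smul _ _ (hpow ζ m)

theorem j2254_sum (σ : Measure E) (hσ : IsSph σ) {Z : (E → ℂ) → Prop} (hZ : Inv Z)
    (hpow : ∀ (b : E) (m : ℕ), Z (fun z => ⟪b, z⟫_ℂ ^ m)) (f : E → ℂ)
    (hf : ContinuousOn f (closedBall 0 1)) (N : ℕ) (α : ℕ → ℂ) :
    Z (fun z => ∑ a ∈ Finset.range N, α a * ∫ ζ, f ζ * ⟪ζ, z⟫_ℂ ^ a ∂σ) := by
  induction N with
  | zero => simpa using hZ.zero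
  | succ N ih =>
    have h1 := hZ.add _ _ ih (hZ.smul (α N) _ (j2254_term σ hσ hZ hpow f hf N))
    refine hZ.congr _ _ h1 ?_
    intro z _
    rw [Finset.sum_range_succ]

theorem j2254_holoPow : ∀ (b : E) (m : ℕ), (fun f : E → ℂ =>
    ContinuousOn f (closedBall 0 1) ∧ DifferentiableOn ℂ f (ball 0 1)) (fun z => ⟪b, z⟫_ℂ ^ m) := by
  intro b m
  constructor
  · exact ((continuous_const.inner continuous_id).pow m).continuousOn
  · have : Differentiable ℂ (fun z : E => ⟪b, z⟫_ℂ) := (innerSL ℂ b).differentiable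
    exact (this.pow m).differentiableOn

/-- TARGET 2: the ball algebra is contained in `Y` -/
theorem holo_mem (σ : Measure E) (hσ : IsSph σ) {Y : (E → ℂ) → Prop} (hY : Inv Y)
    (hlin : ∀ b : E, Y (fun z => ⟪b, z⟫_ℂ)) (g : E → ℂ)
    (hg : ContinuousOn g (closedBall 0 1)) (hd : DifferentiableOn ℂ g (ball 0 1)) : Y g := by
  have hA := inv_holo (E := E)
  have h01 : ∀ f, (fun f : E → ℂ =>
      ContinuousOn f (closedBall 0 1) ∧ DifferentiableOn ℂ f (ball 0 1)) f →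
      ∀ a : E, ∫ ζ, f ζ * ⟪a, ζ⟫_ℂ ∂σ = 0 := by
    intro f hf a
    have hdi : Differentiable ℂ (fun z : E => ⟪a, z⟫_ℂ) := (innerSL ℂ a).differentiable
    rw [mean_holo σ hσ (fun ζ => f ζ * ⟪a, ζ⟫_ℂ) (hf.1.mul hdi.continuous.continuousOn)
      (hf.2.mul hdi.differentiableOn)]
    simp
  apply hY.lim
  intro ε hε
  obtain ⟨N, α, hN⟩ := kernel_holo σ hσ hA h01 g ⟨hg, hd⟩ ε hε
  refine ⟨_, j2254_sum σ hσ hY (lin_pow hY hlin).2 g hg N α, ?_⟩
  have hPA := j2254_sum σ hσ hA j2254_holoPow g hg N α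
  intro z hz
  have h1 := HH_holo σ hσ (fun z => (∑ a ∈ Finset.range N, α a * ∫ ζ, g ζ * ⟪ζ, z⟫_ℂ ^ a ∂σ) - g z)
    (hPA.1.sub hg) (hPA.2.sub hd) hz
  have h2 := HH_le σ hσ (fun z => (∑ a ∈ Finset.range N, α a * ∫ ζ, g ζ * ⟪ζ, z⟫_ℂ ^ a ∂σ) - g z)
    ε hN hz
  rw [h1] at h2
  exact h2

/-- TARGET 3: holomorphy of the Poisson extensions when antiholomorphic first moments vanish -/
theorem holo_limit (σ : Measure E) (hσ : IsSph σ) {Y : (E → ℂ) → Prop} (hY : Inv Y)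
    (h01 : ∀ f, Y f → ∀ a : E, ∫ ζ, f ζ * ⟪a, ζ⟫_ℂ ∂σ = 0) (f : E → ℂ) (hf : Y f) :
    DifferentiableOn ℂ (HH σ f) (ball 0 1) := by
  have hA := inv_holo (E := E)
  have hfc := hY.cont f hf
  have hk : ∀ j : ℕ, ∃ P : E → ℂ, ContinuousOn P (closedBall 0 1) ∧
      DifferentiableOn ℂ P (ball 0 1) ∧ ∀ z : E, ‖z‖ ≤ 1 → ‖P z - HH σ f z‖ ≤ 1 / ((j : ℝ) + 1) := by
    intro j
    obtain ⟨N, α, hN⟩ := kernel_holo σ hσ hY h01 f hf (1 / ((j : ℝ) + 1)) (by positivity)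
    have hPA := j2254_sum σ hσ hA j2254_holoPow f hfc N α
    refine ⟨_, hPA.1, hPA.2, ?_⟩
    intro z hz
    have h1 := HH_holo σ hσ _ hPA.1 hPA.2 hz
    rw [← h1, ← HH_sub σ hσ _ _ hPA.1 hfc hz]
    exact HH_le σ hσ _ _ hN hz
  choose P hP1 hP2 hP3 using hk
  apply weierstrass_ball P (HH σ f) hP2
  intro ρ hρ ε hε
  obtain ⟨J, hJ⟩ := exists_nat_one_div_lt hε
  refine ⟨J, ?_⟩
  intro j hj z hz
  refine (hP3 j z (by linarith)).trans ?_
  refine le_trans ?_ hJ.le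
  apply one_div_le_one_div_of_le (by positivity)
  have : (J : ℝ) ≤ j := by exact_mod_cast hj
  linarith

/-- TARGET 4: continuous pluriharmonic functions are in `Y` -/
theorem pluri_mem (σ : Measure E) (hσ : IsSph σ) {Y : (E → ℂ) → Prop} (hY : Inv Y)
    (hlin : ∀ b : E, Y (fun z => ⟪b, z⟫_ℂ)) (hlin' : ∀ b : E, Y (fun z => conj ⟪b, z⟫_ℂ))
    (h F G : E → ℂ) (hh : ContinuousOn h (closedBall 0 1)) (hF : DifferentiableOn ℂ F (ball 0 1))
    (hG : DifferentiableOn ℂ G (ball 0 1)) (e : ∀ z, ‖z‖ < 1 → h z = F z + conj (G z)) : Y h := by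
  have hr : ∀ r : ℝ, 0 < r → r < 1 → Y (fun z => h ((r : ℂ) • z)) := by
    intro r hr0 hr1
    have hmaps : MapsTo (fun z : E => (r : ℂ) • z) (closedBall 0 1) (ball 0 1) := by
      intro z hz
      rw [mem_closedBall_zero_iff] at hz
      rw [mem_ball_zero_iff, norm_smul, Complex.norm_real, Real.norm_eq_abs, abs_of_pos hr0]
      nlinarith [norm_nonneg z]
    have hmd : Differentiable ℂ (fun z : E => (r : ℂ) • z) := differentiable_id.const_smul _
    have hall : ∀ Q : E → ℂ, DifferentiableOn ℂ Q (ball 0 1) →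
        ContinuousOn (fun z : E => Q ((r : ℂ) • z)) (closedBall 0 1) ∧
        DifferentiableOn ℂ (fun z : E => Q ((r : ℂ) • z)) (ball 0 1) := by
      intro Q hQ
      refine ⟨hQ.continuousOn.comp hmd.continuous.continuousOn hmaps, ?_⟩
      exact hQ.comp hmd.differentiableOn (fun z hz => hmaps (ball_subset_closedBall hz))
    have h1 := holo_mem σ hσ hY hlin _ (hall F hF).1 (hall F hF).2
    have h2 := holo_mem σ hσ (inv_conj hY) hlin' _ (hall G hG).1 (hall G hG).2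
    refine hY.congr _ _ (hY.add _ _ h1 h2) ?_
    intro z hz
    apply e
    have := hmaps (mem_closedBall_zero_iff.2 hz)
    rwa [mem_ball_zero_iff] at this
  apply hY.lim
  intro ε hε
  have hprop : ProperSpace E := FiniteDimensional.proper ℂ E
  have huc : UniformContinuousOn h (closedBall 0 1) :=
    (isCompact_closedBall (0 : E) 1).uniformContinuousOn_of_continuous hh
  rw [Metric.uniformContinuousOn_iff] at huc
  obtain ⟨δ, hδ, hδ2⟩ := huc ε hε
  obtain ⟨r, hr0, hr1, hrδ⟩ : ∃ r : ℝ, 0 < r ∧ r < 1 ∧ 1 - r < δ := by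
    refine ⟨1 - min (δ / 2) (1 / 2), ?_, ?_, ?_⟩
    · have := min_le_right (δ / 2) (1 / 2 : ℝ); linarith
    · have : 0 < min (δ / 2) (1 / 2 : ℝ) := lt_min (by linarith) (by norm_num)
      linarith
    · have := min_le_left (δ / 2) (1 / 2 : ℝ); linarith
  refine ⟨_, hr r hr0 hr1, ?_⟩
  intro z hz
  have hz1 : (r : ℂ) • z ∈ closedBall (0 : E) 1 := by
    rw [mem_closedBall_zero_iff, norm_smul, Complex.norm_real, Real.norm_eq_abs, abs_of_pos hr0]
    nlinarith [norm_nonneg z]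
  have hd : dist ((r : ℂ) • z) z < δ := by
    rw [dist_eq_norm]
    have : (r : ℂ) • z - z = ((r - 1 : ℝ) : ℂ) • z := by
      push_cast
      rw [sub_smul, one_smul]
    rw [this, norm_smul, Complex.norm_real, Real.norm_eq_abs, abs_of_neg (by linarith)]
    nlinarith [norm_nonneg z]
  have := hδ2 _ hz1 z (mem_closedBall_zero_iff.2 hz) hd
  rw [dist_eq_norm] at this
  exact this.le
end NN

end Pool.Agent.Helper287.MB.NN

namespace Pool.Agent.Helper287.MB
alias lin_pow := NN.lin_pow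
alias holo_mem := NN.holo_mem
alias holo_limit := NN.holo_limit
alias pluri_mem := NN.pluri_mem
end Pool.Agent.Helper287.MB
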