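import Pool.Agent.Helper287.MB.Pluri
import Pool.Agent.Helper287.MB.Leb
import Pool.Agent.Helper287.MB.G12
import Pool.Agent.Helper287.MB.G3
import Pool.Agent.Helper287.MB.NN
import Pool.Agent.Helper287.MB.N4
set_option autoImplicit false
open MeasureTheory Metric Set Filter Topology
open scoped InnerProductSpace ComplexConjugate
namespace Pool.Agent.Helper287.MB

variable {E : Type} [NormedAddCommGroup E] [InnerProductSpace ℂ E] [FiniteDimensional ℂ E]
  [MeasurableSpace E] [BorelSpace E] [Nontrivial E]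

theorem main_inv (σ : Measure E) (hσ : IsSph σ) {Y : (E → ℂ) → Prop} (hY : Inv Y) :
    (∀ f, Y f → ∀ z, ‖z‖ ≤ 1 → HH σ f z = 0) ∨
    (Y (fun _ => 1) ∧ ∀ f, Y f → ∃ c : ℂ, ∀ z, ‖z‖ ≤ 1 → HH σ f z = c) ∨
    ((∀ g : E → ℂ, ContinuousOn g (closedBall 0 1) → DifferentiableOn ℂ g (ball 0 1) → Y g) ∧
      ∀ f, Y f → DifferentiableOn ℂ (HH σ f) (ball 0 1)) ∨
    ((∀ g : E → ℂ, ContinuousOn g (closedBall 0 1) → DifferentiableOn ℂ g (ball 0 1) →
        Y (fun z => conj (g z))) ∧
      ∀ f, Y f → DifferentiableOn ℂ (fun z => conj (HH σ f z)) (ball 0 1)) ∨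
    ((∀ h F G : E → ℂ, ContinuousOn h (closedBall 0 1) → DifferentiableOn ℂ F (ball 0 1) →
        DifferentiableOn ℂ G (ball 0 1) → (∀ z, ‖z‖ < 1 → h z = F z + conj (G z)) → Y h) ∧
      ∀ f, Y f → ∃ F G : E → ℂ, DifferentiableOn ℂ F (ball 0 1) ∧ DifferentiableOn ℂ G (ball 0 1) ∧
        ∀ z, ‖z‖ < 1 → HH σ f z = F z + conj (G z)) ∨
    (∀ f : E → ℂ, ContinuousOn f (closedBall 0 1) → Y (HH σ f)) := by
  obtain ⟨D⟩ := exists_haarData E
  have hYc := inv_conj hY
  by_cases h1 : Y (fun _ => 1)
  · right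
    -- first moments
    have key10 : (¬ ∀ b : E, Y (fun z => ⟪b, z⟫_ℂ)) →
        ∀ f, Y f → ∀ a : E, ∫ ζ, f ζ * ⟪ζ, a⟫_ℂ ∂σ = 0 := by
      intro hn f hf a
      by_contra h0
      exact hn (fun b => type_vector_mem D σ hσ hY f hf a h0 b)
    have key01 : (¬ ∀ b : E, Y (fun z => conj ⟪b, z⟫_ℂ)) →
        ∀ f, Y f → ∀ a : E, ∫ ζ, f ζ * ⟪a, ζ⟫_ℂ ∂σ = 0 := by
      intro hn f hf a
      by_contra h0
      apply hn
      intro b
      have hf' : Y (fun z => conj (conj (f z))) := by
        simpa using hf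
      refine type_vector_mem D σ hσ hYc (fun z => conj (f z)) hf' a ?_ b
      intro h2
      apply h0
      have h3 : conj (∫ ζ, conj (f ζ) * ⟪ζ, a⟫_ℂ ∂σ) = ∫ ζ, f ζ * ⟪a, ζ⟫_ℂ ∂σ := by
        rw [← integral_conj]
        congr 1
        ext ζ
        simp
      rw [← h3, h2, map_zero]
    by_cases hl : ∀ b : E, Y (fun z => ⟪b, z⟫_ℂ)
    · by_cases hl' : ∀ b : E, Y (fun z => conj ⟪b, z⟫_ℂ)
      · by_cases h11 : ∀ f, Y f → ∀ e : E, ‖e‖ = 1 →
          ∫ ζ, f ζ * (((Module.finrank ℂ E : ℝ) * ‖⟪e, ζ⟫_ℂ‖ ^ 2 - 1 : ℝ) : ℂ) ∂σ = 0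
        · -- pluriharmonic
          right; right; right; left
          exact ⟨fun h F G hh hF hG e => pluri_mem σ hσ hY hl hl' h F G hh hF hG e,
            fun f hf => pluri_limit σ hσ hY h11 f hf⟩
        · right; right; right; right
          push Not at h11
          obtain ⟨f, hf, e, he, h0⟩ := h11
          have hX := inv_X σ hσ hY
          have hn : (Module.finrank ℂ E : ℂ) ≠ 0 := by
            exact_mod_cast (Module.finrank_pos (R := ℂ) (M := E)).ne'
          have c1 : ContinuousOn (fun _ : E => (1:ℂ)) (closedBall 0 1) := continuousOn_const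
          have X1 : ContinuousOn (fun _ : E => (1:ℂ)) (closedBall 0 1) ∧ Y (HH σ (fun _ => 1)) := by
            refine ⟨c1, hY.congr _ _ h1 ?_⟩
            intro z hz
            exact HH_holo σ hσ (fun _ => 1) c1 (differentiableOn_const _) hz
          have cl : ∀ b : E, ContinuousOn (fun z => ⟪b, z⟫_ℂ) (closedBall 0 1) := fun b =>
            (continuous_const.inner continuous_id).continuousOn
          have dl : ∀ b : E, DifferentiableOn ℂ (fun z => ⟪b, z⟫_ℂ) (ball 0 1) := fun b =>
            ((innerSL ℂ b).differentiable).differentiableOn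
          have Xl : ∀ b : E, ContinuousOn (fun z => ⟪b, z⟫_ℂ) (closedBall 0 1) ∧
              Y (HH σ (fun z => ⟪b, z⟫_ℂ)) := by
            intro b
            refine ⟨cl b, hY.congr _ _ (hl b) ?_⟩
            intro z hz
            exact HH_holo σ hσ _ (cl b) (dl b) hz
          have Xl' : ∀ b : E, ContinuousOn (fun z => conj ⟪b, z⟫_ℂ) (closedBall 0 1) ∧
              Y (HH σ (fun z => conj ⟪b, z⟫_ℂ)) := by
            intro b
            refine ⟨Complex.continuous_conj.comp_continuousOn (cl b), hY.congr _ _ (hl' b) ?_⟩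
            intro z hz
            rw [HH_conj, HH_holo σ hσ _ (cl b) (dl b) hz]
          have X11 : ∀ e : E, ‖e‖ = 1 →
              ContinuousOn (fun z => ⟪e, z⟫_ℂ * conj ⟪e, z⟫_ℂ) (closedBall 0 1) ∧
              Y (HH σ (fun z => ⟪e, z⟫_ℂ * conj ⟪e, z⟫_ℂ)) := by
            intro e' he'
            have m1 := type_matrix_mem D σ hσ hY f hf e he h0 e' he'
            have m2 : ContinuousOn (fun z : E =>
                (((Module.finrank ℂ E : ℝ) * ‖⟪e', z⟫_ℂ‖ ^ 2 - 1 : ℝ) : ℂ)) (closedBall 0 1) := by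
              apply Continuous.continuousOn
              apply Complex.continuous_ofReal.comp
              have : Continuous (fun z : E => ⟪e', z⟫_ℂ) := continuous_const.inner continuous_id
              fun_prop
            have m3 := hX.smul ((Module.finrank ℂ E : ℂ)⁻¹) _ (hX.add _ _ ⟨m2, m1⟩ X1)
            refine hX.congr _ _ m3 ?_
            intro z hz
            have : ⟪e', z⟫_ℂ * conj ⟪e', z⟫_ℂ = ((‖⟪e', z⟫_ℂ‖ ^ 2 : ℝ) : ℂ) := by
              rw [Complex.mul_conj, Complex.normSq_eq_norm_sq]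
            rw [this]
            push_cast
            field_simp
            ring
          have X0 : ∀ f : E → ℂ, ContinuousOn f (closedBall 0 1) → (∀ z, ‖z‖ = 1 → f z = 0) →
              ContinuousOn f (closedBall 0 1) ∧ Y (HH σ f) := by
            intro f hf hf0
            refine ⟨hf, hY.congr _ _ hY.zero ?_⟩
            intro z hz
            rw [HH_congr σ hσ f (fun _ => 0) hf0 hz]
            simp [HH]
          intro g hg
          exact (all_mem σ hσ hX X1 Xl Xl' X11 X0 g hg).2
      · -- holomorphic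
        right; left
        exact ⟨fun g hg hd => holo_mem σ hσ hY hl g hg hd,
          fun f hf => holo_limit σ hσ hY (key01 hl') f hf⟩
    · by_cases hl' : ∀ b : E, Y (fun z => conj ⟪b, z⟫_ℂ)
      · right; right; left
        have k10 := key10 hl
        refine ⟨fun g hg hd => holo_mem σ hσ hYc hl' g hg hd, ?_⟩
        intro f hf
        have hf' : Y (fun z => conj (conj (f z))) := by simpa using hf
        have h01' : ∀ f : E → ℂ, Y (fun z => conj (f z)) → ∀ a : E, ∫ ζ, f ζ * ⟪a, ζ⟫_ℂ ∂σ = 0 := by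
          intro f hf a
          have h2 := k10 _ hf a
          have h3 : conj (∫ ζ, conj (f ζ) * ⟪ζ, a⟫_ℂ ∂σ) = ∫ ζ, f ζ * ⟪a, ζ⟫_ℂ ∂σ := by
            rw [← integral_conj]
            congr 1
            ext ζ
            simp
          rw [← h3, h2, map_zero]
        have := holo_limit σ hσ hYc h01' (fun z => conj (f z)) hf'
        refine this.congr ?_
        intro z _
        rw [HH_conj]
      · left
        refine ⟨h1, ?_⟩
        intro f hf
        exact ⟨∫ ζ, f ζ ∂σ, fun z hz =>
          const_of_moments σ hσ hY (key10 hl) (key01 hl') f hf z hz⟩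
  · left
    intro f hf
    have h0 : ∀ g, Y g → ∫ ζ, g ζ ∂σ = 0 := by
      intro g hg
      by_contra h2
      exact h1 (type_zero_mem D σ hσ hY g hg h2)
    have hb : EqOn (HH σ f) (fun _ => 0) (ball 0 1) := by
      intro z hz
      have hz' : ‖z‖ < 1 := by simpa using hz
      have e1 := HH_mob σ hσ f (η := z) (z := 0) hz' (by simp)
      rw [mob_zero_right] at e1
      rw [← e1, HH_zero_eq]
      exact h0 _ (hY.mobI f z hf hz')
    have hcl := hb.of_subset_closure (HH_cont σ hσ f (hY.cont f hf)) continuousOn_const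
      ball_subset_closedBall (by rw [closure_ball (0:E) one_ne_zero])
    intro z hz
    exact hcl (by simpa using hz)

end Pool.Agent.Helper287.MB
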