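import Mathlib
set_option autoImplicit false
set_option linter.unusedSectionVars false
open Metric Set
open scoped InnerProductSpace ComplexConjugate

namespace Pool.Agent.Helper287.MB

variable {E : Type} [NormedAddCommGroup E] [InnerProductSpace ℂ E]

/-- `√(1 - ‖η‖²)` -/
noncomputable def sq (η : E) : ℝ := √(1 - ‖η‖ ^ 2)

/-- the Möbius transformation (automorphism of the unit ball) taking `0` to `η`. -/
noncomputable def mob (η z : E) : E :=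
  (1 + ⟪η, z⟫_ℂ)⁻¹ • (η + (sq η : ℂ) • z + (⟪η, z⟫_ℂ / (1 + (sq η : ℂ))) • η)

theorem sq_nonneg' (η : E) : 0 ≤ sq η := Real.sqrt_nonneg _

theorem sq_sq {η : E} (h : ‖η‖ ≤ 1) : sq η ^ 2 = 1 - ‖η‖ ^ 2 := by
  unfold sq
  rw [Real.sq_sqrt]
  nlinarith [norm_nonneg η]

theorem sq_pos {η : E} (h : ‖η‖ < 1) : 0 < sq η := by
  unfold sq
  apply Real.sqrt_pos.2
  nlinarith [norm_nonneg η]

theorem one_add_sq_pos (η : E) : 0 < 1 + sq η := by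
  have := sq_nonneg' η
  linarith

theorem one_add_sq_ne (η : E) : (1 + (sq η : ℂ)) ≠ 0 := by
  have h := one_add_sq_pos η
  intro h'
  have : ((1 + sq η : ℝ) : ℂ) = 0 := by push_cast; exact h'
  rw [Complex.ofReal_eq_zero] at this
  linarith

theorem sq_neg (η : E) : sq (-η) = sq η := by
  unfold sq; rw [norm_neg]

theorem sq_le_one (η : E) : sq η ≤ 1 := by
  unfold sq
  apply Real.sqrt_le_one.2
  nlinarith [_root_.sq_nonneg ‖η‖]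

theorem sq_of_norm_one {η : E} (h : ‖η‖ = 1) : sq η = 0 := by
  unfold sq; rw [h]; norm_num

theorem inner_self_cast (η : E) : ⟪η, η⟫_ℂ = ((‖η‖ ^ 2 : ℝ) : ℂ) := by
  rw [inner_self_eq_norm_sq_to_K]; norm_num

theorem sq_sq_C {η : E} (h : ‖η‖ ≤ 1) : ((‖η‖ ^ 2 : ℝ) : ℂ) = 1 - (sq η : ℂ) ^ 2 := by
  have := sq_sq h
  have h2 : ‖η‖ ^ 2 = 1 - sq η ^ 2 := by linarith
  rw [h2]; push_cast; ring

theorem norm_inner_lt {η z : E} (h : ‖η‖ < 1) (hz : ‖z‖ ≤ 1) : ‖⟪η, z⟫_ℂ‖ < 1 := by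
  calc ‖⟪η, z⟫_ℂ‖ ≤ ‖η‖ * ‖z‖ := norm_inner_le_norm _ _
    _ ≤ ‖η‖ * 1 := by gcongr
    _ < 1 := by linarith

theorem norm_inner_lt' {η z : E} (h : ‖η‖ ≤ 1) (hz : ‖z‖ < 1) : ‖⟪η, z⟫_ℂ‖ < 1 := by
  calc ‖⟪η, z⟫_ℂ‖ ≤ ‖η‖ * ‖z‖ := norm_inner_le_norm _ _
    _ ≤ 1 * ‖z‖ := by gcongr
    _ < 1 := by linarith

theorem one_add_ne_of_norm_lt {a : ℂ} (h : ‖a‖ < 1) : 1 + a ≠ 0 := by
  intro h'
  have : a = -1 := by linear_combination h'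
  rw [this] at h
  norm_num at h

theorem one_add_inner_ne {η z : E} (h : ‖η‖ < 1) (hz : ‖z‖ ≤ 1) : 1 + ⟪η, z⟫_ℂ ≠ 0 :=
  one_add_ne_of_norm_lt (norm_inner_lt h hz)

theorem one_add_inner_ne' {η z : E} (h : ‖η‖ ≤ 1) (hz : ‖z‖ < 1) : 1 + ⟪η, z⟫_ℂ ≠ 0 :=
  one_add_ne_of_norm_lt (norm_inner_lt' h hz)

@[simp] theorem mob_zero_left (z : E) : mob 0 z = z := by
  simp [mob, sq]

@[simp] theorem mob_zero_right (η : E) : mob η 0 = η := by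
  simp [mob]

/-- numerator identity -/
theorem mob_num (η z : E) (h : ‖η‖ ≤ 1) :
    ‖η + (sq η : ℂ) • z + (⟪η, z⟫_ℂ / (1 + (sq η : ℂ))) • η‖ ^ 2
      = ‖1 + ⟪η, z⟫_ℂ‖ ^ 2 - sq η ^ 2 * (1 - ‖z‖ ^ 2) := by
  set a := ⟪η, z⟫_ℂ with ha
  set s := sq η with hs
  have hs0 : 0 < 1 + s := one_add_sq_pos η
  have hsC : (1 + (s:ℂ)) ≠ 0 := one_add_sq_ne η
  have he : ‖η‖ ^ 2 = 1 - s ^ 2 := by have := sq_sq h; linarith
  have e1 : η + (s : ℂ) • z + (a / (1 + (s : ℂ))) • η = (1 + a / (1 + (s:ℂ))) • η + (s : ℂ) • z := by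
    module
  rw [e1, norm_add_sq (𝕜 := ℂ), norm_smul, norm_smul, mul_pow, mul_pow, he, inner_smul_left,
    inner_smul_right, ← ha]
  have n1 : ‖(1 + a / (1 + (s:ℂ)))‖ ^ 2 = ((1 + s + a.re) ^ 2 + a.im ^ 2) / (1 + s) ^ 2 := by
    have : (1 + a / (1 + (s:ℂ))) = (((1 + s + a.re : ℝ) : ℂ) + (a.im : ℂ) * Complex.I) / ((1 + s : ℝ) : ℂ) := by
      push_cast
      field_simp
      apply Complex.ext <;> simp
    rw [this, norm_div, div_pow, Complex.sq_norm, Complex.normSq_add_mul_I, Complex.norm_real,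
      Real.norm_eq_abs, sq_abs]
  have n2 : ‖(s:ℂ)‖ ^ 2 = s ^ 2 := by
    rw [Complex.norm_real, Real.norm_eq_abs, sq_abs]
  have n3 : ‖1 + a‖ ^ 2 = (1 + a.re) ^ 2 + a.im ^ 2 := by
    rw [Complex.sq_norm, Complex.normSq_apply]
    simp; ring
  have n4 : RCLike.re ((starRingEnd ℂ) (1 + a / (1 + (s:ℂ))) * ((s:ℂ) * a))
      = s * ((1 + s + a.re) * a.re + a.im ^ 2) / (1 + s) := by
    have : (1 + a / (1 + (s:ℂ))) = (((1 + s + a.re : ℝ) : ℂ) + (a.im : ℂ) * Complex.I) / ((1 + s : ℝ) : ℂ) := by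
      push_cast
      field_simp
      apply Complex.ext <;> simp
    rw [this, map_div₀, Complex.conj_ofReal, div_mul_eq_mul_div]
    have e5 : ∀ w : ℂ, RCLike.re (w / ((1 + s : ℝ) : ℂ)) = w.re / (1 + s) := by
      intro w
      change (w / ((1 + s : ℝ) : ℂ)).re = _
      rw [Complex.div_ofReal_re]
    rw [e5]
    congr 1
    simp
    ring
  rw [n1, n2, n3, n4]
  field_simp
  ring

theorem norm_mob_sq {η z : E} (h : ‖η‖ ≤ 1) (h1 : 1 + ⟪η, z⟫_ℂ ≠ 0) :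
    1 - ‖mob η z‖ ^ 2 = sq η ^ 2 * (1 - ‖z‖ ^ 2) / ‖1 + ⟪η, z⟫_ℂ‖ ^ 2 := by
  have hne : ‖1 + ⟪η, z⟫_ℂ‖ ≠ 0 := norm_ne_zero_iff.2 h1
  unfold mob
  rw [norm_smul, mul_pow, mob_num η z h, norm_inv]
  field_simp
  ring

theorem norm_mob_sq' {η z : E} (h : ‖η‖ ≤ 1) (h1 : 1 + ⟪η, z⟫_ℂ ≠ 0) :
    1 - ‖mob η z‖ ^ 2 = (1 - ‖η‖ ^ 2) * (1 - ‖z‖ ^ 2) / ‖1 + ⟪η, z⟫_ℂ‖ ^ 2 := by
  rw [norm_mob_sq h h1, sq_sq h]

theorem norm_mob_symm {η z : E} (h : ‖η‖ ≤ 1) (hz : ‖z‖ ≤ 1) : ‖mob η z‖ = ‖mob z η‖ := by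
  have hsym : ⟪z, η⟫_ℂ = conj ⟪η, z⟫_ℂ := (inner_conj_symm z η).symm
  by_cases h1 : 1 + ⟪η, z⟫_ℂ = 0
  · have h2 : 1 + ⟪z, η⟫_ℂ = 0 := by
      rw [hsym]
      have := congrArg conj h1
      simpa using this
    unfold mob
    rw [h1, h2]
    simp
  · have h2 : 1 + ⟪z, η⟫_ℂ ≠ 0 := by
      rw [hsym]
      intro h3
      apply h1
      have := congrArg conj h3
      simpa using this
    have e1 := norm_mob_sq' h h1
    have e2 := norm_mob_sq' hz h2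
    have e3 : ‖1 + ⟪z, η⟫_ℂ‖ = ‖1 + ⟪η, z⟫_ℂ‖ := by
      rw [hsym]
      have : (1 : ℂ) + conj ⟪η, z⟫_ℂ = conj (1 + ⟪η, z⟫_ℂ) := by simp
      rw [this, RCLike.norm_conj]
    rw [e3] at e2
    have e4 : ‖mob η z‖ ^ 2 = ‖mob z η‖ ^ 2 := by
      have : (1 - ‖η‖ ^ 2) * (1 - ‖z‖ ^ 2) = (1 - ‖z‖ ^ 2) * (1 - ‖η‖ ^ 2) := by ring
      rw [this] at e1
      linarith
    exact (pow_left_inj₀ (norm_nonneg _) (norm_nonneg _) two_ne_zero).1 e4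

theorem norm_mob_lt {η z : E} (h : ‖η‖ < 1) (hz : ‖z‖ < 1) : ‖mob η z‖ < 1 := by
  have h1 := one_add_inner_ne h hz.le
  have e1 := norm_mob_sq' h.le h1
  have hp : 0 < ‖1 + ⟪η, z⟫_ℂ‖ := norm_pos_iff.2 h1
  have : 0 < (1 - ‖η‖ ^ 2) * (1 - ‖z‖ ^ 2) / ‖1 + ⟪η, z⟫_ℂ‖ ^ 2 := by
    have a1 : 0 < 1 - ‖η‖ ^ 2 := by nlinarith [norm_nonneg η]
    have a2 : 0 < 1 - ‖z‖ ^ 2 := by nlinarith [norm_nonneg z]
    positivity
  nlinarith [norm_nonneg (mob η z)]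

theorem norm_mob_le {η z : E} (h : ‖η‖ ≤ 1) (hz : ‖z‖ ≤ 1) : ‖mob η z‖ ≤ 1 := by
  by_cases h1 : 1 + ⟪η, z⟫_ℂ = 0
  · unfold mob; rw [h1]; simp
  have e1 := norm_mob_sq' h h1
  have : 0 ≤ (1 - ‖η‖ ^ 2) * (1 - ‖z‖ ^ 2) / ‖1 + ⟪η, z⟫_ℂ‖ ^ 2 := by
    have a1 : 0 ≤ 1 - ‖η‖ ^ 2 := by nlinarith [norm_nonneg η]
    have a2 : 0 ≤ 1 - ‖z‖ ^ 2 := by nlinarith [norm_nonneg z]
    positivity
  nlinarith [norm_nonneg (mob η z)]

theorem norm_mob_one {η z : E} (h : ‖η‖ < 1) (hz : ‖z‖ = 1) : ‖mob η z‖ = 1 := by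
  have h1 := one_add_inner_ne h hz.le
  have e1 := norm_mob_sq' h.le h1
  rw [hz] at e1
  have : ‖mob η z‖ ^ 2 = 1 := by
    have : (1 - ‖η‖ ^ 2) * (1 - 1 ^ 2) / ‖1 + ⟪η, z⟫_ℂ‖ ^ 2 = 0 := by ring
    linarith
  nlinarith [norm_nonneg (mob η z)]

theorem mob_of_norm_one {z : E} (η : E) (hz : ‖z‖ = 1) (h1 : 1 + ⟪z, η⟫_ℂ ≠ 0) :
    mob z η = z := by
  unfold mob
  rw [sq_of_norm_one hz]
  have : z + ((0:ℝ) : ℂ) • η + (⟪z, η⟫_ℂ / (1 + ((0:ℝ):ℂ))) • z = (1 + ⟪z, η⟫_ℂ) • z := by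
    simp [add_smul]
  rw [this, smul_smul, inv_mul_cancel₀ h1, one_smul]

theorem inner_mob {η z : E} (h : ‖η‖ ≤ 1) :
    ⟪η, mob η z⟫_ℂ = (1 + ⟪η, z⟫_ℂ)⁻¹ * (((‖η‖ ^ 2 : ℝ) : ℂ) + ⟪η, z⟫_ℂ) := by
  unfold mob
  rw [inner_smul_right, inner_add_right, inner_add_right, inner_smul_right, inner_smul_right,
    inner_self_cast, sq_sq_C h]
  have := one_add_sq_ne η
  congr 1
  field_simp
  ring

theorem mob_neg_mob {η z : E} (h : ‖η‖ < 1) (hz : ‖z‖ ≤ 1) : mob (-η) (mob η z) = z := by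
  have h1 := one_add_inner_ne h hz
  have hs := sq_pos h
  have hsC : (sq η : ℂ) ≠ 0 := by exact_mod_cast hs.ne'
  have hs1 := one_add_sq_ne η
  have e1 := inner_mob (z := z) h.le
  have e2 : 1 + ⟪-η, mob η z⟫_ℂ = (sq η : ℂ) ^ 2 * (1 + ⟪η, z⟫_ℂ)⁻¹ := by
    rw [inner_neg_left, e1, sq_sq_C h.le]
    field_simp
    ring
  have e3 : ⟪-η, mob η z⟫_ℂ = (sq η : ℂ) ^ 2 * (1 + ⟪η, z⟫_ℂ)⁻¹ - 1 := by
    linear_combination e2
  have e4 : mob (-η) (mob η z) = (1 + ⟪-η, mob η z⟫_ℂ)⁻¹ •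
      (-η + (sq (-η) : ℂ) • (mob η z) + (⟪-η, mob η z⟫_ℂ / (1 + (sq (-η) : ℂ))) • (-η)) := rfl
  rw [e4, e2, e3, sq_neg]
  unfold mob
  generalize ⟪η, z⟫_ℂ = a at h1 ⊢
  generalize (sq η : ℂ) = s at hsC hs1 ⊢
  have e5 : (s ^ 2 * (1 + a)⁻¹)⁻¹ • (-η + s • (1 + a)⁻¹ • (η + s • z + (a / (1 + s)) • η) +
      ((s ^ 2 * (1 + a)⁻¹ - 1) / (1 + s)) • -η)
      = ((s ^ 2 * (1 + a)⁻¹)⁻¹ * (-1 + s * (1+a)⁻¹ * (1 + a / (1+s)) - (s ^ 2 * (1 + a)⁻¹ - 1) / (1 + s))) • η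
        + ((s ^ 2 * (1 + a)⁻¹)⁻¹ * (s * (1+a)⁻¹ * s)) • z := by
    module
  rw [e5]
  have c1 : ((s ^ 2 * (1 + a)⁻¹)⁻¹ * (-1 + s * (1+a)⁻¹ * (1 + a / (1+s)) - (s ^ 2 * (1 + a)⁻¹ - 1) / (1 + s))) = 0 := by
    field_simp
    ring
  have c2 : ((s ^ 2 * (1 + a)⁻¹)⁻¹ * (s * (1+a)⁻¹ * s)) = 1 := by
    field_simp
  rw [c1, c2]; simp

theorem mob_mob_neg {η z : E} (h : ‖η‖ < 1) (hz : ‖z‖ ≤ 1) : mob η (mob (-η) z) = z := by
  have := mob_neg_mob (η := -η) (z := z) (by rwa [norm_neg]) hz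
  rwa [neg_neg] at this

theorem mob_iso (L : E ≃ₗᵢ[ℂ] E) (η z : E) : mob (L η) (L z) = L (mob η z) := by
  unfold mob sq
  rw [L.inner_map_map, L.norm_map]
  simp only [map_add, map_smul]

theorem continuous_sq : Continuous (sq : E → ℝ) := by
  unfold sq; fun_prop

theorem continuousOn_mob :
    ContinuousOn (fun p : E × E => mob p.1 p.2) {p | 1 + ⟪p.1, p.2⟫_ℂ ≠ 0} := by
  have hs : Continuous (fun p : E × E => (sq p.1 : ℂ)) :=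
    Complex.continuous_ofReal.comp (continuous_sq.comp continuous_fst)
  have hi : Continuous (fun p : E × E => ⟪p.1, p.2⟫_ℂ) := continuous_fst.inner continuous_snd
  unfold mob
  apply ContinuousOn.smul
  · apply ContinuousOn.inv₀
    · fun_prop
    · intro p hp; exact hp
  · apply Continuous.continuousOn
    apply Continuous.add
    · exact continuous_fst.add (hs.smul continuous_snd)
    · apply Continuous.smul _ continuous_fst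
      apply hi.div (continuous_const.add hs)
      intro p; exact one_add_sq_ne p.1

theorem differentiableOn_mob (η : E) :
    DifferentiableOn ℂ (mob η) {z | 1 + ⟪η, z⟫_ℂ ≠ 0} := by
  have hi : Differentiable ℂ (fun z : E => ⟪η, z⟫_ℂ) := (innerSL ℂ η).differentiable
  unfold mob
  apply DifferentiableOn.smul
  · apply DifferentiableOn.inv
    · exact (hi.const_add 1).differentiableOn
    · intro z hz; exact hz
  · apply Differentiable.differentiableOn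
    apply Differentiable.add
    · exact (differentiable_const _).add (differentiable_id.const_smul _)
    · apply Differentiable.smul_const
      simp only [div_eq_mul_inv]
      exact hi.mul_const _

/-- collinear parameter -/
theorem mob_unit {e : E} (he : ‖e‖ = 1) {t : ℝ} (ht : |t| ≤ 1) (z : E) :
    mob ((t : ℂ) • e) z = (1 + t * ⟪e, z⟫_ℂ)⁻¹ •
      (((t : ℂ) + ⟪e, z⟫_ℂ) • e + ((√(1 - t ^ 2) : ℝ) : ℂ) • (z - ⟪e, z⟫_ℂ • e)) := by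
  have h1 : ‖(t : ℂ) • e‖ = |t| := by
    rw [norm_smul, he, mul_one, Complex.norm_real, Real.norm_eq_abs]
  have h2 : sq ((t : ℂ) • e) = √(1 - t ^ 2) := by
    unfold sq; rw [h1, sq_abs]
  have h3 : ⟪(t : ℂ) • e, z⟫_ℂ = t * ⟪e, z⟫_ℂ := by
    rw [inner_smul_left, Complex.conj_ofReal]
  have hs := one_add_sq_ne ((t : ℂ) • e)
  have h4 : (t : ℂ) ^ 2 = 1 - ((√(1 - t ^ 2) : ℝ) : ℂ) ^ 2 := by
    have : (√(1 - t ^ 2)) ^ 2 = 1 - t ^ 2 := by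
      rw [Real.sq_sqrt]
      have : t ^ 2 ≤ 1 := by
        rw [← sq_abs]; exact pow_le_one₀ (abs_nonneg _) ht
      linarith
    have h5 : t ^ 2 = 1 - (√(1 - t ^ 2)) ^ 2 := by linarith
    exact_mod_cast h5
  unfold mob
  rw [h3]
  rw [h2] at hs ⊢
  generalize ((√(1 - t ^ 2) : ℝ) : ℂ) = s at hs h4 ⊢
  generalize ⟪e, z⟫_ℂ = a
  congr 1
  have e1 : (t : ℂ) • e + s • z + (t * a / (1 + s)) • (t : ℂ) • e
      = ((t : ℂ) + a * ((t:ℂ) ^ 2 / (1 + s))) • e + s • z := by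
    module
  have e2 : (t : ℂ) ^ 2 / (1 + s) = 1 - s := by
    rw [h4]; field_simp; ring
  rw [e1, e2]
  module

theorem inner_mob_unit {e : E} (he : ‖e‖ = 1) {t : ℝ} (ht : |t| ≤ 1) (z : E) :
    ⟪e, mob ((t : ℂ) • e) z⟫_ℂ = (1 + t * ⟪e, z⟫_ℂ)⁻¹ * ((t : ℂ) + ⟪e, z⟫_ℂ) := by
  have hee : ⟪e, e⟫_ℂ = 1 := by rw [inner_self_cast, he]; norm_num
  rw [mob_unit he ht, inner_smul_right, inner_add_right, inner_smul_right, inner_smul_right,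
    inner_sub_right, inner_smul_right, hee]
  ring

theorem mob_unit_mob {e : E} (he : ‖e‖ = 1) {t u : ℝ} (ht : |t| < 1) (hu : |u| < 1) {z : E}
    (hz : ‖z‖ ≤ 1) :
    mob ((t : ℂ) • e) (mob ((u : ℂ) • e) z) = mob ((((t + u) / (1 + t * u) : ℝ) : ℂ) • e) z := by
  have htu : 0 < 1 + t * u := by
    have := abs_mul t u
    have h2 : |t * u| < 1 := by
      rw [this]; nlinarith [abs_nonneg t, abs_nonneg u]
    have := (abs_lt.1 h2).1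
    linarith
  have hv : |(t + u) / (1 + t * u)| ≤ 1 := by
    rw [abs_div, abs_of_pos htu, div_le_one htu]
    rw [abs_le] 
    have h1 := abs_lt.1 ht
    have h2 := abs_lt.1 hu
    constructor <;> nlinarith
  have ha : ‖⟪e, z⟫_ℂ‖ ≤ 1 := by
    calc _ ≤ ‖e‖ * ‖z‖ := norm_inner_le_norm _ _
      _ ≤ 1 := by rw [he, one_mul]; exact hz
  have hna : ∀ x : ℝ, |x| < 1 → 1 + (x : ℂ) * ⟪e, z⟫_ℂ ≠ 0 := by
    intro x hx
    apply one_add_ne_of_norm_lt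
    rw [norm_mul, Complex.norm_real, Real.norm_eq_abs]
    nlinarith [norm_nonneg (⟪e, z⟫_ℂ), abs_nonneg x]
  have h1 := hna u hu
  have hvlt : |(t + u) / (1 + t * u)| < 1 := by
    rw [abs_div, abs_of_pos htu, div_lt_one htu]
    rw [abs_lt] 
    have h1 := abs_lt.1 ht
    have h2 := abs_lt.1 hu
    constructor <;> nlinarith
  have h2 := hna _ hvlt
  have hsv : √(1 - ((t + u) / (1 + t * u)) ^ 2) = √(1 - t ^ 2) * √(1 - u ^ 2) / (1 + t * u) := by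
    have : 1 - ((t + u) / (1 + t * u)) ^ 2 = (1 - t ^ 2) * (1 - u ^ 2) / (1 + t * u) ^ 2 := by
      field_simp; ring
    rw [this, Real.sqrt_div', Real.sqrt_sq htu.le, Real.sqrt_mul]
    · have : t ^ 2 ≤ 1 := by
        rw [← sq_abs]; exact pow_le_one₀ (abs_nonneg _) ht.le
      linarith
    · positivity
  rw [mob_unit he ht.le, inner_mob_unit he hu.le, mob_unit he hu.le, mob_unit he hv, hsv]
  push_cast
  push_cast at h2
  have htuC : (1 + (t:ℂ) * u) ≠ 0 := by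
    have : ((1 + t * u : ℝ) : ℂ) ≠ 0 := by exact_mod_cast htu.ne'
    push_cast at this; exact this
  generalize ⟪e, z⟫_ℂ = a at *
  generalize ((√(1 - t ^ 2) : ℝ) : ℂ) = s
  generalize ((√(1 - u ^ 2) : ℝ) : ℂ) = r
  have h3 : 1 + (t : ℂ) * ((1 + u * a)⁻¹ * (u + a)) ≠ 0 := by
    have : 1 + (t : ℂ) * ((1 + u * a)⁻¹ * (u + a))
        = (1 + t * u) * (1 + (t + u) / (1 + t * u) * a) / (1 + u * a) := by
      field_simp; ring
    rw [this]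
    exact div_ne_zero (mul_ne_zero htuC h2) h1
  have h2' : (1 + (t:ℂ) * u) + (t + u) * a ≠ 0 := by
    have : (1 + (t:ℂ) * u) + (t + u) * a = (1 + t * u) * (1 + (t + u) / (1 + t * u) * a) := by
      field_simp
    rw [this]; exact mul_ne_zero htuC h2
  have k1 : (1 + (t : ℂ) * ((1 + u * a)⁻¹ * (u + a)))⁻¹
      = (1 + u * a) * ((1 + (t:ℂ) * u) + (t + u) * a)⁻¹ := by
    have : 1 + (t : ℂ) * ((1 + u * a)⁻¹ * (u + a))
        = ((1 + (t:ℂ) * u) + (t + u) * a) / (1 + u * a) := by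
      field_simp; ring
    rw [this, inv_div, div_eq_mul_inv]
  have k2 : (1 + ((t:ℂ) + u) / (1 + t * u) * a)⁻¹
      = (1 + t * u) * ((1 + (t:ℂ) * u) + (t + u) * a)⁻¹ := by
    have : 1 + ((t:ℂ) + u) / (1 + t * u) * a = ((1 + (t:ℂ) * u) + (t + u) * a) / (1 + t * u) := by
      field_simp
    rw [this, inv_div, div_eq_mul_inv]
  rw [k1, k2]
  have htuC' : (1 + (u:ℂ) * t) ≠ 0 := by rwa [mul_comm]
  generalize hD : ((1 + (t:ℂ) * u) + (t + u) * a)⁻¹ = D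
  clear hD k1 k2 h3 h2' h2 hna
  generalize hW : (1 + (t:ℂ) * u) = W at *
  match_scalars
  · field_simp
    rw [← hW]
    ring
  · field_simp

end Pool.Agent.Helper287.MB
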