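import Pool.Agent.Helper287.MB.Api0
set_option autoImplicit false
open MeasureTheory Metric Set Filter Topology
open scoped InnerProductSpace ComplexConjugate

namespace Pool.Agent.Helper287.MB.A


variable {E : Type} [NormedAddCommGroup E] [InnerProductSpace ℂ E] [FiniteDimensional ℂ E]
  [MeasurableSpace E] [BorelSpace E]

/-- a continuous function on the closed ball extends continuously -/
theorem exists_ext {F : Type} [NormedAddCommGroup F] [NormedSpace ℝ F]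
    (f : E → F) (hf : ContinuousOn f (closedBall 0 1)) :
    ∃ g : E → F, Continuous g ∧ ∀ z, ‖z‖ ≤ 1 → g z = f z := by
  refine ⟨fun z => f (((((max 1 ‖z‖)⁻¹ : ℝ)) : ℂ) • z), ?_, ?_⟩
  · refine hf.comp_continuous ?_ ?_
    · refine Continuous.smul (Complex.continuous_ofReal.comp ?_) continuous_id
      refine Continuous.inv₀ (continuous_const.max continuous_norm) ?_
      intro z
      have : (1 : ℝ) ≤ max 1 ‖z‖ := le_max_left _ _
      positivity
    · intro z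
      rw [mem_closedBall_zero_iff, norm_smul, Complex.norm_real, Real.norm_eq_abs]
      have h1 : (0 : ℝ) < max 1 ‖z‖ := lt_of_lt_of_le one_pos (le_max_left _ _)
      rw [abs_of_pos (inv_pos.mpr h1), inv_mul_le_iff₀ h1, mul_one]
      exact le_max_right _ _
  · intro z hz
    simp only [max_eq_left hz, inv_one, Complex.ofReal_one, one_smul]

theorem ball_bdd {F : Type} [NormedAddCommGroup F]
    (f : E → F) (hf : ContinuousOn f (closedBall 0 1)) :
    ∃ C : ℝ, 0 ≤ C ∧ ∀ z, ‖z‖ ≤ 1 → ‖f z‖ ≤ C := by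
  have : ProperSpace E := FiniteDimensional.proper ℂ E
  obtain ⟨C, hC⟩ := (isCompact_closedBall (0 : E) 1).exists_bound_of_continuousOn hf
  refine ⟨max C 0, le_max_right _ _, fun z hz => (hC z ?_).trans (le_max_left _ _)⟩
  rwa [mem_closedBall_zero_iff]

theorem integrable_gen {F : Type} [NormedAddCommGroup F] (σ : Measure E)
    (hσ : IsSph σ) (f : E → F) (hf : ContinuousOn f (closedBall 0 1)) (φ : E → E) (S : Set E)
    (hS : MeasurableSet S) (hφ : ContinuousOn φ S) (hm : ∀ ζ ∈ S, ‖φ ζ‖ ≤ 1)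
    (hae : ∀ᵐ ζ ∂σ, ζ ∈ S) : Integrable (fun ζ => f (φ ζ)) σ := by
  have : ProperSpace E := FiniteDimensional.proper ℂ E
  have : IsProbabilityMeasure σ := hσ.prob
  obtain ⟨C, hC0, hC⟩ := ball_bdd f hf
  have h1 : ContinuousOn (fun ζ => f (φ ζ)) S :=
    hf.comp hφ (fun ζ hζ => by rw [mem_closedBall_zero_iff]; exact hm ζ hζ)
  have h2 : AEStronglyMeasurable (fun ζ => f (φ ζ)) σ := by
    have h3 := h1.aestronglyMeasurable (μ := σ) hS
    rwa [Measure.restrict_eq_self_of_ae_mem hae] at h3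
  refine Integrable.of_bound h2 C ?_
  filter_upwards [hae] with ζ hζ using hC _ (hm ζ hζ)

theorem cont_gen {F : Type} [NormedAddCommGroup F] [NormedSpace ℝ F] (σ : Measure E)
    (hσ : IsSph σ) (f : E → F) (hf : ContinuousOn f (closedBall 0 1)) (Φ : E → E → E) (z0 : E)
    (hz0 : ‖z0‖ ≤ 1) (hint : ∀ z, ‖z‖ ≤ 1 → Integrable (fun ζ => f (Φ z ζ)) σ)
    (hmap : ∀ z ζ, ‖z‖ ≤ 1 → ‖ζ‖ = 1 → ‖Φ z ζ‖ ≤ 1)
    (hc : ∀ᵐ ζ ∂σ, ContinuousWithinAt (fun z => Φ z ζ) (closedBall 0 1) z0) :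
    ContinuousWithinAt (fun z => ∫ ζ, f (Φ z ζ) ∂σ) (closedBall 0 1) z0 := by
  have : IsProbabilityMeasure σ := hσ.prob
  obtain ⟨C, hC0, hC⟩ := ball_bdd f hf
  refine continuousWithinAt_of_dominated (bound := fun _ => C) ?_ ?_ (integrable_const C) ?_
  · filter_upwards [self_mem_nhdsWithin] with z hz
    rw [mem_closedBall_zero_iff] at hz
    exact (hint z hz).aestronglyMeasurable
  · filter_upwards [self_mem_nhdsWithin] with z hz
    rw [mem_closedBall_zero_iff] at hz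
    filter_upwards [hσ.supp] with ζ hζ using hC _ (hmap z ζ hz hζ)
  · filter_upwards [hσ.supp, hc] with ζ hζ hcζ
    have h1 : ContinuousWithinAt f (closedBall 0 1) (Φ z0 ζ) :=
      hf _ (by rw [mem_closedBall_zero_iff]; exact hmap z0 ζ hz0 hζ)
    refine ContinuousWithinAt.comp (f := fun z => Φ z ζ) (x := z0) h1 hcζ ?_
    intro z hz
    rw [mem_closedBall_zero_iff] at hz ⊢
    exact hmap z ζ hz hζ

theorem norm_r_smul {r : ℝ} (hr0 : 0 ≤ r) (hr1 : r < 1) {ζ : E} (hζ : ‖ζ‖ ≤ 1) :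
    ‖(r : ℂ) • ζ‖ < 1 := by
  rw [norm_smul, Complex.norm_real, Real.norm_eq_abs, abs_of_nonneg hr0]
  calc r * ‖ζ‖ ≤ r * 1 := mul_le_mul_of_nonneg_left hζ hr0
    _ < 1 := by linarith

theorem ae_closedBall (σ : Measure E) (hσ : IsSph σ) : ∀ᵐ ζ ∂σ, ζ ∈ closedBall (0 : E) 1 := by
  filter_upwards [hσ.supp] with ζ hζ
  rw [mem_closedBall_zero_iff]; exact hζ.le

theorem eq_neg_of_inner {z ζ : E} (hz : ‖z‖ = 1) (hζ : ‖ζ‖ = 1) (h : 1 + ⟪z, ζ⟫_ℂ = 0) :
    ζ = -z := by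
  have h1 : ‖z + ζ‖ ^ 2 = ‖z‖ ^ 2 + 2 * RCLike.re ⟪z, ζ⟫_ℂ + ‖ζ‖ ^ 2 := norm_add_sq (𝕜 := ℂ) z ζ
  have h2 : ⟪z, ζ⟫_ℂ = -1 := by linear_combination h
  rw [h2, hz, hζ] at h1
  have h3 : ‖z + ζ‖ ^ 2 = 0 := by
    rw [h1]
    simp
    norm_num
  have h4 : z + ζ = 0 := by
    have := pow_eq_zero_iff (two_ne_zero) |>.mp h3
    exact norm_eq_zero.mp this
  exact eq_neg_of_add_eq_zero_right h4

theorem ae_inner_ne (σ : Measure E) (hσ : IsSph σ) {z : E} (hz : ‖z‖ ≤ 1) :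
    ∀ᵐ ζ ∂σ, ‖ζ‖ = 1 ∧ 1 + ⟪z, ζ⟫_ℂ ≠ 0 := by
  rcases lt_or_eq_of_le hz with h | h
  · filter_upwards [hσ.supp] with ζ hζ
    exact ⟨hζ, one_add_inner_ne h hζ.le⟩
  · have h1 : ∀ᵐ ζ ∂σ, ζ ≠ -z := by
      rw [ae_iff]
      simp only [ne_eq, not_not]
      exact sph_singleton σ hσ (-z)
    filter_upwards [hσ.supp, h1] with ζ hζ hne
    exact ⟨hζ, fun h0 => hne (eq_neg_of_inner h hζ h0)⟩

theorem TT_integrable {F : Type} [NormedAddCommGroup F] [NormedSpace ℝ F] (σ : Measure E)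
    (hσ : IsSph σ) (f : E → F) (hf : ContinuousOn f (closedBall 0 1)) {r : ℝ} (hr0 : 0 ≤ r)
    (hr1 : r < 1) {z : E} (hz : ‖z‖ ≤ 1) :
    Integrable (fun ζ => f (mob z ((r:ℂ) • ζ))) σ := by
  refine integrable_gen σ hσ f hf (fun ζ => mob z ((r:ℂ) • ζ)) (closedBall 0 1)
    isClosed_closedBall.measurableSet ?_ ?_ (ae_closedBall σ hσ)
  · refine continuousOn_mob.comp (f := fun ζ : E => (z, (r:ℂ) • ζ)) (by fun_prop) ?_
    intro ζ hζ
    rw [mem_closedBall_zero_iff] at hζ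
    exact one_add_inner_ne' hz (norm_r_smul hr0 hr1 hζ)
  · intro ζ hζ
    rw [mem_closedBall_zero_iff] at hζ
    exact norm_mob_le hz (norm_r_smul hr0 hr1 hζ).le

theorem SS_integrable {F : Type} [NormedAddCommGroup F] [NormedSpace ℝ F] (σ : Measure E)
    (hσ : IsSph σ) (f : E → F) (hf : ContinuousOn f (closedBall 0 1)) {r : ℝ} (hr0 : 0 ≤ r)
    (hr1 : r < 1) {z : E} (hz : ‖z‖ ≤ 1) :
    Integrable (fun ζ => f (mob ((r:ℂ) • ζ) z)) σ := by
  refine integrable_gen σ hσ f hf (fun ζ => mob ((r:ℂ) • ζ) z) (closedBall 0 1)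
    isClosed_closedBall.measurableSet ?_ ?_ (ae_closedBall σ hσ)
  · refine continuousOn_mob.comp (f := fun ζ : E => ((r:ℂ) • ζ, z)) (by fun_prop) ?_
    intro ζ hζ
    rw [mem_closedBall_zero_iff] at hζ
    exact one_add_inner_ne (norm_r_smul hr0 hr1 hζ) hz
  · intro ζ hζ
    rw [mem_closedBall_zero_iff] at hζ
    exact norm_mob_le (norm_r_smul hr0 hr1 hζ).le hz

theorem HH_integrable (σ : Measure E) (hσ : IsSph σ) (f : E → ℂ)
    (hf : ContinuousOn f (closedBall 0 1)) {z : E} (hz : ‖z‖ ≤ 1) :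
    Integrable (fun ζ => f (mob z ζ)) σ := by
  refine integrable_gen σ hσ f hf (fun ζ => mob z ζ) (closedBall 0 1 ∩ {ζ | 1 + ⟪z, ζ⟫_ℂ ≠ 0})
    ?_ ?_ ?_ ?_
  · refine isClosed_closedBall.measurableSet.inter ?_
    have : IsOpen {ζ : E | 1 + ⟪z, ζ⟫_ℂ ≠ 0} :=
      isOpen_ne_fun (by fun_prop) continuous_const
    exact this.measurableSet
  · refine continuousOn_mob.comp (f := fun ζ : E => (z, ζ)) (by fun_prop) ?_
    intro ζ hζ
    exact hζ.2
  · intro ζ hζ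
    have := hζ.1
    rw [mem_closedBall_zero_iff] at this
    exact norm_mob_le hz this
  · filter_upwards [ae_inner_ne σ hσ hz] with ζ hζ
    exact ⟨by rw [mem_closedBall_zero_iff]; exact hζ.1.le, hζ.2⟩

theorem TT_cont {F : Type} [NormedAddCommGroup F] [NormedSpace ℝ F] (σ : Measure E)
    (hσ : IsSph σ) (f : E → F) (hf : ContinuousOn f (closedBall 0 1)) {r : ℝ} (hr0 : 0 ≤ r)
    (hr1 : r < 1) : ContinuousOn (TT σ r f) (closedBall 0 1) := by
  intro z0 hz0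
  rw [mem_closedBall_zero_iff] at hz0
  refine cont_gen σ hσ f hf (fun z ζ => mob z ((r:ℂ) • ζ)) z0 hz0
    (fun z hz => TT_integrable σ hσ f hf hr0 hr1 hz)
    (fun z ζ hz hζ => norm_mob_le hz (norm_r_smul hr0 hr1 hζ.le).le) ?_
  filter_upwards [hσ.supp] with ζ hζ
  have h1 : ContinuousOn (fun z : E => mob z ((r:ℂ) • ζ)) (closedBall 0 1) := by
    refine continuousOn_mob.comp (f := fun z : E => (z, (r:ℂ) • ζ)) (by fun_prop) ?_
    intro z hz
    rw [mem_closedBall_zero_iff] at hz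
    exact one_add_inner_ne' hz (norm_r_smul hr0 hr1 hζ.le)
  exact h1 z0 (by rw [mem_closedBall_zero_iff]; exact hz0)

theorem SS_cont {F : Type} [NormedAddCommGroup F] [NormedSpace ℝ F] (σ : Measure E)
    (hσ : IsSph σ) (f : E → F) (hf : ContinuousOn f (closedBall 0 1)) {r : ℝ} (hr0 : 0 ≤ r)
    (hr1 : r < 1) : ContinuousOn (SS σ r f) (closedBall 0 1) := by
  intro z0 hz0
  rw [mem_closedBall_zero_iff] at hz0
  refine cont_gen σ hσ f hf (fun z ζ => mob ((r:ℂ) • ζ) z) z0 hz0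
    (fun z hz => SS_integrable σ hσ f hf hr0 hr1 hz)
    (fun z ζ hz hζ => norm_mob_le (norm_r_smul hr0 hr1 hζ.le).le hz) ?_
  filter_upwards [hσ.supp] with ζ hζ
  have h1 : ContinuousOn (fun z : E => mob ((r:ℂ) • ζ) z) (closedBall 0 1) := by
    refine continuousOn_mob.comp (f := fun z : E => ((r:ℂ) • ζ, z)) (by fun_prop) ?_
    intro z hz
    rw [mem_closedBall_zero_iff] at hz
    exact one_add_inner_ne (norm_r_smul hr0 hr1 hζ.le) hz
  exact h1 z0 (by rw [mem_closedBall_zero_iff]; exact hz0)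

/-- continuity up to the boundary: dominated convergence, using that points are `σ`-null -/
theorem HH_cont (σ : Measure E) (hσ : IsSph σ) (f : E → ℂ)
    (hf : ContinuousOn f (closedBall 0 1)) : ContinuousOn (HH σ f) (closedBall 0 1) := by
  intro z0 hz0
  rw [mem_closedBall_zero_iff] at hz0
  refine cont_gen σ hσ f hf (fun z ζ => mob z ζ) z0 hz0
    (fun z hz => HH_integrable σ hσ f hf hz)
    (fun z ζ hz hζ => norm_mob_le hz hζ.le) ?_
  filter_upwards [ae_inner_ne σ hσ hz0] with ζ hζ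
  have hop : IsOpen {p : E × E | 1 + ⟪p.1, p.2⟫_ℂ ≠ 0} :=
    isOpen_ne_fun (by fun_prop) continuous_const
  have h1 : ContinuousAt (fun p : E × E => mob p.1 p.2) (z0, ζ) :=
    continuousOn_mob.continuousAt (hop.mem_nhds hζ.2)
  have h2 : ContinuousAt (fun z : E => (z, ζ)) z0 := by fun_prop
  exact (ContinuousAt.comp (f := fun z : E => (z, ζ)) h1 h2).continuousWithinAt

theorem HH_bdry (σ : Measure E) (hσ : IsSph σ) (f : E → ℂ) {z : E} (hz : ‖z‖ = 1) :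
    HH σ f z = f z := by
  have : IsProbabilityMeasure σ := hσ.prob
  unfold HH
  have h1 : (fun ζ => f (mob z ζ)) =ᵐ[σ] fun _ => f z := by
    filter_upwards [ae_inner_ne σ hσ hz.le] with ζ hζ
    rw [mob_of_norm_one ζ hz hζ.2]
  rw [integral_congr_ae h1, integral_const]
  simp

theorem TT_bdry {F : Type} [NormedAddCommGroup F] [NormedSpace ℝ F] [CompleteSpace F]
    (σ : Measure E) (hσ : IsSph σ) (f : E → F)
    {r : ℝ} (hr0 : 0 ≤ r) (hr1 : r < 1) {z : E} (hz : ‖z‖ = 1) : TT σ r f z = f z := by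
  have : IsProbabilityMeasure σ := hσ.prob
  unfold TT
  have h1 : (fun ζ => f (mob z ((r:ℂ) • ζ))) =ᵐ[σ] fun _ => f z := by
    filter_upwards [hσ.supp] with ζ hζ
    rw [mob_of_norm_one _ hz (one_add_inner_ne' hz.le (norm_r_smul hr0 hr1 hζ.le))]
  rw [integral_congr_ae h1, integral_const]
  simp

theorem HH_zero_eq (σ : Measure E) (f : E → ℂ) : HH σ f 0 = ∫ ζ, f ζ ∂σ := by
  unfold HH
  simp

theorem TT_congr {F : Type} [NormedAddCommGroup F] [NormedSpace ℝ F] (σ : Measure E)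
    (hσ : IsSph σ) (f g : E → F) (h : ∀ z, ‖z‖ ≤ 1 → f z = g z) {r : ℝ} (hr0 : 0 ≤ r)
    (hr1 : r < 1) {z : E} (hz : ‖z‖ ≤ 1) : TT σ r f z = TT σ r g z := by
  unfold TT
  refine integral_congr_ae ?_
  filter_upwards [hσ.supp] with ζ hζ
  exact h _ (norm_mob_le hz (norm_r_smul hr0 hr1 hζ.le).le)

theorem SS_congr {F : Type} [NormedAddCommGroup F] [NormedSpace ℝ F] (σ : Measure E)
    (hσ : IsSph σ) (f g : E → F) (h : ∀ z, ‖z‖ ≤ 1 → f z = g z) {r : ℝ} (hr0 : 0 ≤ r)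
    (hr1 : r < 1) {z : E} (hz : ‖z‖ ≤ 1) : SS σ r f z = SS σ r g z := by
  unfold SS
  refine integral_congr_ae ?_
  filter_upwards [hσ.supp] with ζ hζ
  exact h _ (norm_mob_le (norm_r_smul hr0 hr1 hζ.le).le hz)

/-- the values used by the Poisson extension are boundary points -/
theorem ae_norm_mob_one (σ : Measure E) (hσ : IsSph σ) {z : E} (hz : ‖z‖ ≤ 1) :
    ∀ᵐ ζ ∂σ, ‖mob z ζ‖ = 1 := by
  rcases lt_or_eq_of_le hz with h | h
  · filter_upwards [hσ.supp] with ζ hζ using norm_mob_one h hζ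
  · filter_upwards [ae_inner_ne σ hσ hz] with ζ hζ
    rw [mob_of_norm_one ζ h hζ.2, h]

/-- only the boundary values matter -/
theorem HH_congr (σ : Measure E) (hσ : IsSph σ) (f g : E → ℂ) (h : ∀ z, ‖z‖ = 1 → f z = g z)
    {z : E} (hz : ‖z‖ ≤ 1) : HH σ f z = HH σ g z := by
  unfold HH
  refine integral_congr_ae ?_
  filter_upwards [ae_norm_mob_one σ hσ hz] with ζ hζ using h _ hζ

theorem TT_le {F : Type} [NormedAddCommGroup F] [NormedSpace ℝ F] (σ : Measure E)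
    (hσ : IsSph σ) (f : E → F) (C : ℝ) (h : ∀ z, ‖z‖ ≤ 1 → ‖f z‖ ≤ C) {r : ℝ} (hr0 : 0 ≤ r)
    (hr1 : r < 1) {z : E} (hz : ‖z‖ ≤ 1) : ‖TT σ r f z‖ ≤ C := by
  have : IsProbabilityMeasure σ := hσ.prob
  unfold TT
  have h1 : ∀ᵐ ζ ∂σ, ‖f (mob z ((r:ℂ) • ζ))‖ ≤ C := by
    filter_upwards [hσ.supp] with ζ hζ
    exact h _ (norm_mob_le hz (norm_r_smul hr0 hr1 hζ.le).le)
  have h2 := norm_integral_le_of_norm_le_const h1
  simpa using h2

theorem SS_le {F : Type} [NormedAddCommGroup F] [NormedSpace ℝ F] (σ : Measure E)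
    (hσ : IsSph σ) (f : E → F) (C : ℝ) (h : ∀ z, ‖z‖ ≤ 1 → ‖f z‖ ≤ C) {r : ℝ} (hr0 : 0 ≤ r)
    (hr1 : r < 1) {z : E} (hz : ‖z‖ ≤ 1) : ‖SS σ r f z‖ ≤ C := by
  have : IsProbabilityMeasure σ := hσ.prob
  unfold SS
  have h1 : ∀ᵐ ζ ∂σ, ‖f (mob ((r:ℂ) • ζ) z)‖ ≤ C := by
    filter_upwards [hσ.supp] with ζ hζ
    exact h _ (norm_mob_le (norm_r_smul hr0 hr1 hζ.le).le hz)
  have h2 := norm_integral_le_of_norm_le_const h1
  simpa using h2

theorem HH_le (σ : Measure E) (hσ : IsSph σ) (f : E → ℂ) (C : ℝ) (h : ∀ z, ‖z‖ = 1 → ‖f z‖ ≤ C)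
    {z : E} (hz : ‖z‖ ≤ 1) : ‖HH σ f z‖ ≤ C := by
  have : IsProbabilityMeasure σ := hσ.prob
  unfold HH
  have h1 : ∀ᵐ ζ ∂σ, ‖f (mob z ζ)‖ ≤ C := by
    filter_upwards [ae_norm_mob_one σ hσ hz] with ζ hζ using h _ hζ
  have h2 := norm_integral_le_of_norm_le_const h1
  simpa using h2

end Pool.Agent.Helper287.MB.A

namespace Pool.Agent.Helper287.MB
alias exists_ext := A.exists_ext
alias ball_bdd := A.ball_bdd
alias TT_integrable := A.TT_integrable
alias SS_integrable := A.SS_integrable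
alias HH_integrable := A.HH_integrable
alias TT_cont := A.TT_cont
alias SS_cont := A.SS_cont
alias HH_cont := A.HH_cont
alias HH_bdry := A.HH_bdry
alias TT_bdry := A.TT_bdry
alias HH_zero_eq := A.HH_zero_eq
alias TT_congr := A.TT_congr
alias SS_congr := A.SS_congr
alias HH_congr := A.HH_congr
alias TT_le := A.TT_le
alias SS_le := A.SS_le
alias HH_le := A.HH_le
end Pool.Agent.Helper287.MB
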