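import Pool.Agent.Helper287.MB.Kern
import Pool.Agent.Helper287.MB.MM
import Pool.Agent.Helper287.MB.Avg
set_option autoImplicit false
open MeasureTheory Metric Set Filter Topology
open scoped InnerProductSpace ComplexConjugate

namespace Pool.Agent.Helper287.MB.OO



namespace PluriAux

/-- orthogonality of characters on the roots of unity -/
theorem fourier (N : ℕ) (c d : ℕ → ℂ) (δ : ℝ)
    (h : ∀ l : ℂ, ‖l‖ = 1 → ‖(∑ b ∈ Finset.range N, c b * l ^ b) +
      ∑ b ∈ Finset.range N, d b * (conj l) ^ b‖ ≤ δ) (a : ℕ) (ha : a < N) :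
    ‖c a + (if a = 0 then d 0 else 0)‖ ≤ δ := by
  set M : ℕ := 2 * N + 1 with hM
  have hM0 : M ≠ 0 := by omega
  have hMpos : 0 < M := by omega
  set w : ℂ := Complex.exp (2 * Real.pi * Complex.I / M) with hw
  have hprim : IsPrimitiveRoot w M := Complex.isPrimitiveRoot_exp M hM0
  have hwn : ‖w‖ = 1 := hprim.norm'_eq_one hM0
  have hcw : conj w * w = 1 := by
    rw [← Complex.normSq_eq_conj_mul_self, Complex.normSq_eq_norm_sq, hwn]; simp
  have hcwM : (conj w) ^ M = 1 := by rw [← map_pow, hprim.pow_eq_one, map_one]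
  -- geometric sums
  have hgeom : ∀ x : ℂ, x ^ M = 1 → x ≠ 1 → ∑ s ∈ Finset.range M, x ^ s = 0 := by
    intro x hx hx1
    have := geom_sum_mul x M
    rw [hx, sub_self] at this
    exact (mul_eq_zero.mp this).resolve_right (sub_ne_zero.mpr hx1)
  have hcp : ∀ a b : ℕ, (conj w) ^ a * w ^ b = 1 → w ^ b = w ^ a := by
    intro a b hab
    have h1 : w ^ a * ((conj w) ^ a * w ^ b) = w ^ a := by rw [hab, mul_one]
    rw [← mul_assoc, ← mul_pow, mul_comm w (conj w), hcw, one_pow, one_mul] at h1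
    exact h1
  have e1 : ∀ b < N, ∑ s ∈ Finset.range M, ((conj w) ^ s) ^ a * (w ^ s) ^ b =
      if b = a then (M : ℂ) else 0 := by
    intro b hb
    have h1 : ∀ s, ((conj w) ^ s) ^ a * (w ^ s) ^ b = ((conj w) ^ a * w ^ b) ^ s := by
      intro s
      rw [← pow_mul, ← pow_mul, mul_pow, ← pow_mul, ← pow_mul, mul_comm s a, mul_comm s b]
    simp_rw [h1]
    split_ifs with hab
    · subst hab
      rw [← mul_pow, hcw]
      simp
    · apply hgeom
      · rw [mul_pow, ← pow_mul, ← pow_mul, mul_comm a M, mul_comm b M, pow_mul, pow_mul, hcwM,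
          hprim.pow_eq_one]
        simp
      · intro h2
        exact hab (hprim.pow_inj (by omega) (by omega) (hcp a b h2))
  have e2 : ∀ b < N, ∑ s ∈ Finset.range M, ((conj w) ^ s) ^ a * ((conj w) ^ s) ^ b =
      if a + b = 0 then (M : ℂ) else 0 := by
    intro b hb
    have h1 : ∀ s, ((conj w) ^ s) ^ a * ((conj w) ^ s) ^ b = ((conj w) ^ (a + b)) ^ s := by
      intro s
      rw [← pow_mul, ← pow_mul, ← pow_add, ← pow_mul]
      congr 1
      ring
    simp_rw [h1]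
    split_ifs with hab
    · rw [hab]; simp
    · apply hgeom
      · rw [← pow_mul, mul_comm, pow_mul, hcwM, one_pow]
      · intro h2
        have h3 : w ^ (a + b) = w ^ 0 := by
          have := hcp (a + b) 0 (by rw [h2]; simp)
          rw [← this]
        exact hab (hprim.pow_inj (by omega) (by omega) h3)
  have hsum : ∑ s ∈ Finset.range M, ((conj w) ^ s) ^ a *
      ((∑ b ∈ Finset.range N, c b * (w ^ s) ^ b) +
        ∑ b ∈ Finset.range N, d b * (conj (w ^ s)) ^ b) =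
      (M : ℂ) * (c a + (if a = 0 then d 0 else 0)) := by
    have h1 : ∀ s, ((conj w) ^ s) ^ a *
      ((∑ b ∈ Finset.range N, c b * (w ^ s) ^ b) +
        ∑ b ∈ Finset.range N, d b * (conj (w ^ s)) ^ b) =
        (∑ b ∈ Finset.range N, c b * (((conj w) ^ s) ^ a * (w ^ s) ^ b)) +
        ∑ b ∈ Finset.range N, d b * (((conj w) ^ s) ^ a * ((conj w) ^ s) ^ b) := by
      intro s
      rw [mul_add, Finset.mul_sum, Finset.mul_sum, map_pow]
      congr 1 <;> (apply Finset.sum_congr rfl; intro b _; ring)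
    simp_rw [h1]
    rw [Finset.sum_add_distrib, Finset.sum_comm, Finset.sum_comm (s := Finset.range M)]
    have h2 : ∑ b ∈ Finset.range N, ∑ s ∈ Finset.range M,
        c b * (((conj w) ^ s) ^ a * (w ^ s) ^ b) = M * c a := by
      have : ∀ b ∈ Finset.range N, ∑ s ∈ Finset.range M,
        c b * (((conj w) ^ s) ^ a * (w ^ s) ^ b) = if b = a then M * c a else 0 := by
        intro b hb
        rw [← Finset.mul_sum, e1 b (Finset.mem_range.mp hb)]
        split_ifs with hab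
        · rw [hab]; ring
        · ring
      rw [Finset.sum_congr rfl this, Finset.sum_ite_eq' (Finset.range N) a,
        if_pos (Finset.mem_range.mpr ha)]
    have h3 : ∑ b ∈ Finset.range N, ∑ s ∈ Finset.range M,
        d b * (((conj w) ^ s) ^ a * ((conj w) ^ s) ^ b) = M * (if a = 0 then d 0 else 0) := by
      have : ∀ b ∈ Finset.range N, ∑ s ∈ Finset.range M,
        d b * (((conj w) ^ s) ^ a * ((conj w) ^ s) ^ b) =
          if b = 0 then M * (if a = 0 then d 0 else 0) else 0 := by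
        intro b hb
        rw [← Finset.mul_sum, e2 b (Finset.mem_range.mp hb)]
        by_cases hb0 : b = 0
        · subst hb0
          by_cases ha0 : a = 0
          · simp [ha0]; ring
          · simp [ha0]
        · simp [hb0]
      rw [Finset.sum_congr rfl this, Finset.sum_ite_eq' (Finset.range N) 0,
        if_pos (Finset.mem_range.mpr (by omega))]
    rw [h2, h3]; ring
  have hbound : ‖(M : ℂ) * (c a + (if a = 0 then d 0 else 0))‖ ≤ M * δ := by
    rw [← hsum]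
    calc _ ≤ ∑ s ∈ Finset.range M, δ := by
          refine norm_sum_le_of_le _ fun s _ => ?_
          rw [norm_mul, norm_pow, norm_pow, Complex.norm_conj, hwn, one_pow, one_pow, one_mul]
          exact h (w ^ s) (by rw [norm_pow, hwn, one_pow])
      _ = M * δ := by simp
  rw [norm_mul] at hbound
  have hMr : (0 : ℝ) < M := by exact_mod_cast hMpos
  have h5 : ‖(M : ℂ)‖ = M := by simp
  rw [h5] at hbound
  exact le_of_mul_le_mul_left hbound hMr

theorem geom_bound (N : ℕ) (c : ℕ → ℂ) (δ ρ : ℝ) (hρ0 : 0 ≤ ρ) (hρ1 : ρ < 1)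
    (h : ∀ b < N, ‖c b‖ ≤ δ) (hδ : 0 ≤ δ) :
    ‖∑ b ∈ Finset.range N, c b * (ρ : ℂ) ^ b‖ ≤ δ * (1 - ρ)⁻¹ := by
  calc ‖∑ b ∈ Finset.range N, c b * (ρ : ℂ) ^ b‖ ≤ ∑ b ∈ Finset.range N, δ * ρ ^ b := by
        refine norm_sum_le_of_le _ fun b hb => ?_
        rw [norm_mul, norm_pow, Complex.norm_real, Real.norm_of_nonneg hρ0]
        exact mul_le_mul_of_nonneg_right (h b (Finset.mem_range.mp hb)) (pow_nonneg hρ0 _)
    _ = δ * ∑ b ∈ Finset.range N, ρ ^ b := by rw [Finset.mul_sum]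
    _ ≤ δ * (1 - ρ)⁻¹ := by
        apply mul_le_mul_of_nonneg_left _ hδ
        have h1 := (summable_geometric_of_lt_one hρ0 hρ1).sum_le_tsum (Finset.range N)
          (fun b _ => pow_nonneg hρ0 b)
        rwa [tsum_geometric_of_lt_one hρ0 hρ1] at h1

theorem exists_lim {E : Type} [NormedAddCommGroup E] [NormedSpace ℂ E]
    [FiniteDimensional ℂ E] (u : ℕ → E → ℂ)
    (hu : ∀ j, DifferentiableOn ℂ (u j) (ball 0 1))
    (hC : ∀ ρ : ℝ, 0 < ρ → ρ < 1 → ∃ C : ℝ, 0 ≤ C ∧ ∀ j k (z : E), ‖z‖ ≤ ρ →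
      ‖u j z - u k z‖ ≤ C * (1 / ((j : ℝ) + 1) + 1 / ((k : ℝ) + 1))) :
    ∃ F : E → ℂ, DifferentiableOn ℂ F (ball 0 1) ∧
      ∀ z, ‖z‖ < 1 → Tendsto (fun j => u j z) atTop (𝓝 (F z)) := by
  have ht : Tendsto (fun n : ℕ => 1 / ((n : ℝ) + 1)) atTop (𝓝 0) :=
    tendsto_one_div_add_atTop_nhds_zero_nat
  have hex : ∀ z : E, ∃ l : ℂ, ‖z‖ < 1 → Tendsto (fun j => u j z) atTop (𝓝 l) := by
    intro z
    by_cases hz : ‖z‖ < 1
    · obtain ⟨ρ, hρ1, hρ2⟩ := exists_between hz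
      have hρ0 : 0 < ρ := lt_of_le_of_lt (norm_nonneg _) hρ1
      obtain ⟨C, hC0, hC⟩ := hC ρ hρ0 hρ2
      have hcau : CauchySeq (fun j => u j z) := by
        rw [Metric.cauchySeq_iff']
        intro ε hε
        have h1 : ∀ᶠ n : ℕ in atTop, C * (2 * (1 / ((n : ℝ) + 1))) < ε := by
          have : Tendsto (fun n : ℕ => C * (2 * (1 / ((n : ℝ) + 1)))) atTop (𝓝 (C * (2 * 0))) :=
            (ht.const_mul 2).const_mul C
          rw [mul_zero, mul_zero] at this
          exact this.eventually_lt_const hε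
        obtain ⟨J, hJ⟩ := h1.exists
        refine ⟨J, fun n hn => ?_⟩
        rw [dist_eq_norm]
        refine lt_of_le_of_lt (hC n J z hρ1.le) (lt_of_le_of_lt ?_ hJ)
        apply mul_le_mul_of_nonneg_left _ hC0
        have : 1 / ((n : ℝ) + 1) ≤ 1 / ((J : ℝ) + 1) := by
          apply one_div_le_one_div_of_le (by positivity)
          have : (J : ℝ) ≤ n := by exact_mod_cast hn
          linarith
        linarith
      obtain ⟨l, hl⟩ := cauchySeq_tendsto_of_complete hcau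
      exact ⟨l, fun _ => hl⟩
    · exact ⟨0, fun h => absurd h hz⟩
  choose F hF using hex
  refine ⟨F, weierstrass_ball u F hu ?_, hF⟩
  intro ρ hρ ε hε
  set ρ' := max ρ (1/2) with hρ'
  have hρ'0 : 0 < ρ' := lt_of_lt_of_le (by norm_num) (le_max_right _ _)
  have hρ'1 : ρ' < 1 := max_lt hρ (by norm_num)
  obtain ⟨C, hC0, hC⟩ := hC ρ' hρ'0 hρ'1
  have h1 : ∀ᶠ n : ℕ in atTop, C * (1 / ((n : ℝ) + 1)) < ε := by
    have : Tendsto (fun n : ℕ => C * (1 / ((n : ℝ) + 1))) atTop (𝓝 (C * 0)) := ht.const_mul C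
    rw [mul_zero] at this
    exact this.eventually_lt_const hε
  obtain ⟨J, hJ⟩ := eventually_atTop.mp h1
  refine ⟨J, fun j hj z hz => ?_⟩
  have hz' : ‖z‖ ≤ ρ' := hz.trans (le_max_left _ _)
  have h2 : Tendsto (fun k => ‖u j z - u k z‖) atTop (𝓝 ‖u j z - F z‖) :=
    (tendsto_const_nhds.sub (hF z (lt_of_le_of_lt hz' hρ'1))).norm
  have h3 : Tendsto (fun k : ℕ => C * (1 / ((j : ℝ) + 1) + 1 / ((k : ℝ) + 1))) atTop
      (𝓝 (C * (1 / ((j : ℝ) + 1) + 0))) := (tendsto_const_nhds.add ht).const_mul C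
  have h4 := le_of_tendsto_of_tendsto' h2 h3 (fun k => hC j k z hz')
  rw [add_zero] at h4
  exact h4.trans (hJ j hj).le

section
variable {E : Type} [NormedAddCommGroup E] [InnerProductSpace ℂ E] [FiniteDimensional ℂ E]
  [MeasurableSpace E] [BorelSpace E]

theorem mom_holo (σ : Measure E) (hσ : IsSph σ) (h : E → ℂ)
    (hh : ContinuousOn h (closedBall 0 1)) (a : ℕ) :
    ContinuousOn (fun z => ∫ ζ, h ζ * ⟪ζ, z⟫_ℂ ^ a ∂σ) (closedBall 0 1) ∧
    DifferentiableOn ℂ (fun z => ∫ ζ, h ζ * ⟪ζ, z⟫_ℂ ^ a ∂σ) (ball 0 1) := by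
  refine inv_average_sph (inv_holo (E := E)) σ hσ (fun ζ z => h ζ * ⟪ζ, z⟫_ℂ ^ a) ?_ ?_
  · apply ContinuousOn.mul
    · refine hh.comp continuousOn_fst ?_
      rintro p ⟨hp, -⟩
      exact sphere_subset_closedBall hp
    · exact (continuous_fst.inner continuous_snd).pow a |>.continuousOn
  · intro ζ _
    have hd : Differentiable ℂ (fun z : E => h ζ * ⟪ζ, z⟫_ℂ ^ a) := by
      have h1 : Differentiable ℂ (fun z : E => ⟪ζ, z⟫_ℂ) := (innerSL ℂ ζ).differentiable
      exact (h1.pow a).const_mul _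
    exact ⟨hd.continuous.continuousOn, hd.differentiableOn⟩

theorem mom_sum_holo (σ : Measure E) (hσ : IsSph σ) (h : E → ℂ)
    (hh : ContinuousOn h (closedBall 0 1)) (N : ℕ) (γ : ℕ → ℂ) :
    ContinuousOn (fun z => ∑ a ∈ Finset.range N, γ a * ∫ ζ, h ζ * ⟪ζ, z⟫_ℂ ^ a ∂σ)
      (closedBall 0 1) ∧
    DifferentiableOn ℂ (fun z => ∑ a ∈ Finset.range N, γ a * ∫ ζ, h ζ * ⟪ζ, z⟫_ℂ ^ a ∂σ)
      (ball 0 1) := by
  refine ⟨?_, ?_⟩
  · exact continuousOn_finset_sum _ fun a _ =>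
      continuousOn_const.mul (mom_holo σ hσ h hh a).1
  · exact DifferentiableOn.fun_sum fun a _ => (mom_holo σ hσ h hh a).2.const_mul _

theorem mom_hom (σ : Measure E) (h : E → ℂ) (a : ℕ) (l : ℂ) (z : E) :
    ∫ ζ, h ζ * ⟪ζ, l • z⟫_ℂ ^ a ∂σ = (∫ ζ, h ζ * ⟪ζ, z⟫_ℂ ^ a ∂σ) * l ^ a := by
  rw [← integral_mul_const]
  congr 1
  ext ζ
  rw [inner_smul_right]
  ring

theorem mom_hom' (σ : Measure E) (h : E → ℂ) (a : ℕ) (l : ℂ) (z : E) :
    ∫ ζ, h ζ * ⟪l • z, ζ⟫_ℂ ^ a ∂σ = (∫ ζ, h ζ * ⟪z, ζ⟫_ℂ ^ a ∂σ) * (conj l) ^ a := by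
  rw [← integral_mul_const]
  congr 1
  ext ζ
  rw [inner_smul_left]
  ring

theorem mom_conj (σ : Measure E) (h : E → ℂ) (a : ℕ) (z : E) :
    conj (∫ ζ, conj (h ζ) * ⟪ζ, z⟫_ℂ ^ a ∂σ) = ∫ ζ, h ζ * ⟪z, ζ⟫_ℂ ^ a ∂σ := by
  rw [← integral_conj]
  congr 1
  ext ζ
  rw [map_mul, Complex.conj_conj, map_pow, inner_conj_symm]

end

end PluriAux

open PluriAux

section OO
variable {E : Type} [NormedAddCommGroup E] [InnerProductSpace ℂ E] [FiniteDimensional ℂ E]
  [MeasurableSpace E] [BorelSpace E] [Nontrivial E]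

/-- TARGET: pluriharmonicity of the Poisson extensions when the `(1,1)` moments vanish -/
theorem pluri_limit (σ : Measure E) (hσ : IsSph σ) {Y : (E → ℂ) → Prop} (hY : Inv Y)
    (h11 : ∀ f, Y f → ∀ e : E, ‖e‖ = 1 →
      ∫ ζ, f ζ * (((Module.finrank ℂ E : ℝ) * ‖⟪e, ζ⟫_ℂ‖ ^ 2 - 1 : ℝ) : ℂ) ∂σ = 0)
    (f : E → ℂ) (hf : Y f) :
    ∃ F G : E → ℂ, DifferentiableOn ℂ F (ball 0 1) ∧ DifferentiableOn ℂ G (ball 0 1) ∧
      ∀ z, ‖z‖ < 1 → HH σ f z = F z + conj (G z) := by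
  classical
  have hfc : ContinuousOn f (closedBall 0 1) := hY.cont f hf
  have hfc' : ContinuousOn (fun z => conj (f z)) (closedBall 0 1) :=
    Complex.continuous_conj.comp_continuousOn hfc
  have hker := fun j : ℕ => kernel_pluri σ hσ hY h11 f hf (1 / ((j : ℝ) + 1)) (by positivity)
  choose N α β hβ hap using hker
  -- truncated coefficients
  set α' : ℕ → ℕ → ℂ := fun j a => if a < N j then α j a else 0 with hα'
  set β' : ℕ → ℕ → ℂ := fun j a => if a < N j then β j a else 0 with hβ'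
  have hβ'0 : ∀ j, β' j 0 = 0 := by
    intro j; simp only [hβ', hβ]; split_ifs <;> rfl
  set A : ℕ → E → ℂ := fun a z => ∫ ζ, f ζ * ⟪ζ, z⟫_ℂ ^ a ∂σ with hA
  set B : ℕ → E → ℂ := fun a z => ∫ ζ, f ζ * ⟪z, ζ⟫_ℂ ^ a ∂σ with hB
  set P : ℕ → E → ℂ := fun j z => ∑ a ∈ Finset.range (N j), α j a * ∫ ζ, f ζ * ⟪ζ, z⟫_ℂ ^ a ∂σ
    with hP
  set Q : ℕ → E → ℂ := fun j z => ∑ a ∈ Finset.range (N j), conj (β j a) *
    ∫ ζ, conj (f ζ) * ⟪ζ, z⟫_ℂ ^ a ∂σ with hQ
  have hPd := fun j => mom_sum_holo σ hσ f hfc (N j) (α j)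
  have hQd := fun j => mom_sum_holo σ hσ (fun ζ => conj (f ζ)) hfc' (N j) (fun a => conj (β j a))
  have hQc : ∀ j z, conj (Q j z) = ∑ a ∈ Finset.range (N j), β j a * B a z := by
    intro j z
    simp only [hQ, hB]
    rw [map_sum]
    apply Finset.sum_congr rfl
    intro a _
    rw [map_mul, Complex.conj_conj, mom_conj]
  have htr : ∀ (γ : ℕ → ℂ) (j M : ℕ), N j ≤ M → ∀ t : ℕ → ℂ,
      ∑ a ∈ Finset.range (N j), γ a * t a =
        ∑ a ∈ Finset.range M, (if a < N j then γ a else 0) * t a := by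
    intro γ j M hM t
    rw [← Finset.sum_subset (Finset.range_subset_range.mpr hM)]
    · apply Finset.sum_congr rfl
      intro a ha
      rw [if_pos (Finset.mem_range.mp ha)]
    · intro a _ ha
      rw [if_neg (fun h => ha (Finset.mem_range.mpr h)), zero_mul]
  have hPt : ∀ j M, N j ≤ M → ∀ z, P j z = ∑ a ∈ Finset.range M, α' j a * A a z :=
    fun j M hM z => htr (α j) j M hM (fun a => A a z)
  have hQt : ∀ j M, N j ≤ M → ∀ z, conj (Q j z) = ∑ a ∈ Finset.range M, β' j a * B a z :=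
    fun j M hM z => by rw [hQc]; exact htr (β j) j M hM (fun a => B a z)
  -- the approximants on the closed ball
  set g : ℕ → E → ℂ := fun j z => P j z + conj (Q j z) with hg
  have hcQ : ∀ j, ContinuousOn (fun z => conj (Q j z)) (closedBall 0 1) :=
    fun j => Complex.continuous_conj.comp_continuousOn (hQd j).1
  have hgc : ∀ j, ContinuousOn (g j) (closedBall 0 1) := fun j => (hPd j).1.add (hcQ j)
  have hHg : ∀ j z, ‖z‖ ≤ 1 → HH σ (g j) z = g j z := by
    intro j z hz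
    have h1 := HH_add σ hσ (P j) (fun z => conj (Q j z)) (hPd j).1 (hcQ j) hz
    rw [HH_holo σ hσ (P j) (hPd j).1 (hPd j).2 hz, HH_conj,
      HH_holo σ hσ (Q j) (hQd j).1 (hQd j).2 hz] at h1
    exact h1
  have hgf : ∀ j z, ‖z‖ ≤ 1 → ‖g j z - HH σ f z‖ ≤ 1 / ((j : ℝ) + 1) := by
    intro j z hz
    rw [← hHg j z hz, ← HH_sub σ hσ (g j) f (hgc j) hfc hz]
    apply HH_le σ hσ _ _ _ hz
    intro w hw
    have h1 := hap j w hw
    simp only [hg]
    rw [hQc]
    exact h1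
  have hgg : ∀ j k z, ‖z‖ ≤ 1 → ‖g j z - g k z‖ ≤ 1 / ((j : ℝ) + 1) + 1 / ((k : ℝ) + 1) := by
    intro j k z hz
    have h1 := hgf j z hz
    have h2 := hgf k z hz
    calc ‖g j z - g k z‖ = ‖(g j z - HH σ f z) - (g k z - HH σ f z)‖ := by congr 1; ring
      _ ≤ ‖g j z - HH σ f z‖ + ‖g k z - HH σ f z‖ := norm_sub_le _ _
      _ ≤ _ := add_le_add h1 h2
  -- the main estimate
  have main : ∀ ρ : ℝ, 0 < ρ → ρ < 1 → ∀ j k (z : E), ‖z‖ ≤ ρ →
      ‖P j z - P k z‖ ≤ (1 / ((j : ℝ) + 1) + 1 / ((k : ℝ) + 1)) * (1 - ρ)⁻¹ ∧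
      ‖conj (Q j z) - conj (Q k z)‖ ≤ (1 / ((j : ℝ) + 1) + 1 / ((k : ℝ) + 1)) * (1 - ρ)⁻¹ := by
    intro ρ hρ0 hρ1 j k z hz
    set ω : E := ((ρ : ℂ)⁻¹) • z with hω
    have hρc : (ρ : ℂ) ≠ 0 := by exact_mod_cast hρ0.ne'
    have hz' : z = (ρ : ℂ) • ω := by rw [hω, smul_smul, mul_inv_cancel₀ hρc, one_smul]
    have hωn : ‖ω‖ ≤ 1 := by
      rw [hω, norm_smul, norm_inv, Complex.norm_real, Real.norm_of_nonneg hρ0.le,
        inv_mul_le_iff₀ hρ0, mul_one]
      exact hz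
    set M := max (N j) (N k) with hM
    set δ := 1 / ((j : ℝ) + 1) + 1 / ((k : ℝ) + 1) with hδ
    have hδ0 : 0 ≤ δ := by positivity
    set c : ℕ → ℂ := fun a => (α' j a - α' k a) * A a ω with hc
    set d : ℕ → ℂ := fun a => (β' j a - β' k a) * B a ω with hd
    have hPdiff : ∀ l : ℂ, P j (l • ω) - P k (l • ω) = ∑ b ∈ Finset.range M, c b * l ^ b := by
      intro l
      rw [hPt j M (le_max_left _ _), hPt k M (le_max_right _ _), ← Finset.sum_sub_distrib]
      apply Finset.sum_congr rfl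
      intro b _
      have : A b (l • ω) = A b ω * l ^ b := mom_hom σ f b l ω
      rw [this]
      simp only [hc]; ring
    have hQdiff : ∀ l : ℂ, conj (Q j (l • ω)) - conj (Q k (l • ω)) =
        ∑ b ∈ Finset.range M, d b * (conj l) ^ b := by
      intro l
      rw [hQt j M (le_max_left _ _), hQt k M (le_max_right _ _), ← Finset.sum_sub_distrib]
      apply Finset.sum_congr rfl
      intro b _
      have : B b (l • ω) = B b ω * (conj l) ^ b := mom_hom' σ f b l ω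
      rw [this]
      simp only [hd]; ring
    have hcirc : ∀ l : ℂ, ‖l‖ = 1 → ‖(∑ b ∈ Finset.range M, c b * l ^ b) +
        ∑ b ∈ Finset.range M, d b * (conj l) ^ b‖ ≤ δ := by
      intro l hl
      rw [← hPdiff, ← hQdiff]
      have h1 := hgg j k (l • ω) (by rw [norm_smul, hl, one_mul]; exact hωn)
      have h2 : P j (l • ω) - P k (l • ω) + (conj (Q j (l • ω)) - conj (Q k (l • ω))) =
          g j (l • ω) - g k (l • ω) := by simp only [hg]; ring
      rw [h2]; exact h1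
    have hcirc' : ∀ l : ℂ, ‖l‖ = 1 → ‖(∑ b ∈ Finset.range M, d b * l ^ b) +
        ∑ b ∈ Finset.range M, c b * (conj l) ^ b‖ ≤ δ := by
      intro l hl
      have h1 := hcirc (conj l) (by rw [Complex.norm_conj, hl])
      rw [Complex.conj_conj, add_comm] at h1
      exact h1
    have hd0 : d 0 = 0 := by simp only [hd, hβ'0]; ring
    have hcb : ∀ b < M, ‖c b‖ ≤ δ := by
      intro b hb
      have h1 := fourier M c d δ hcirc b hb
      rw [hd0, ite_self, add_zero] at h1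
      exact h1
    have hdb : ∀ b < M, ‖d b‖ ≤ δ := by
      intro b hb
      by_cases hb0 : b = 0
      · rw [hb0, hd0, norm_zero]; exact hδ0
      · have h1 := fourier M d c δ hcirc' b hb
        rw [if_neg hb0, add_zero] at h1
        exact h1
    refine ⟨?_, ?_⟩
    · rw [hz', hPdiff]
      exact geom_bound M c δ ρ hρ0.le hρ1 hcb hδ0
    · rw [hz', hQdiff, Complex.conj_ofReal]
      exact geom_bound M d δ ρ hρ0.le hρ1 hdb hδ0
  obtain ⟨F, hFd, hFl⟩ := exists_lim P (fun j => (hPd j).2) (fun ρ h0 h1 =>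
    ⟨(1 - ρ)⁻¹, inv_nonneg.mpr (by linarith), fun j k z hz => by
      rw [mul_comm]; exact (main ρ h0 h1 j k z hz).1⟩)
  obtain ⟨G, hGd, hGl⟩ := exists_lim Q (fun j => (hQd j).2) (fun ρ h0 h1 =>
    ⟨(1 - ρ)⁻¹, inv_nonneg.mpr (by linarith), fun j k z hz => by
      have h2 := (main ρ h0 h1 j k z hz).2
      rw [← map_sub, Complex.norm_conj] at h2
      rw [mul_comm]; exact h2⟩)
  refine ⟨F, G, hFd, hGd, fun z hz => ?_⟩
  have h1 : Tendsto (fun j => g j z) atTop (𝓝 (F z + conj (G z))) :=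
    (hFl z hz).add ((Complex.continuous_conj.tendsto _).comp (hGl z hz))
  have h2 : Tendsto (fun j => g j z) atTop (𝓝 (HH σ f z)) := by
    rw [tendsto_iff_norm_sub_tendsto_zero]
    exact squeeze_zero (fun _ => norm_nonneg _) (fun j => hgf j z hz.le)
      tendsto_one_div_add_atTop_nhds_zero_nat
  exact tendsto_nhds_unique h2 h1
end OO

end Pool.Agent.Helper287.MB.OO

namespace Pool.Agent.Helper287.MB
alias pluri_limit := OO.pluri_limit
end Pool.Agent.Helper287.MB
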