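import Pool.Agent.Helper287.MB.Conv
import Pool.Agent.Helper287.MB.Avg
set_option autoImplicit false
open MeasureTheory Metric Set Filter Topology
open scoped InnerProductSpace ComplexConjugate

namespace Pool.Agent.Helper287.MB.F


section bundling

variable {E : Type} [NormedAddCommGroup E] [InnerProductSpace ℂ E] [FiniteDimensional ℂ E]

/-- retraction onto the closed unit ball -/
noncomputable def ret (z : E) : E := ((max 1 ‖z‖)⁻¹ : ℝ) • z

omit [FiniteDimensional ℂ E] in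
theorem ret_mem (z : E) : ret z ∈ closedBall (0 : E) 1 := by
  rw [mem_closedBall_zero_iff, ret, norm_smul, norm_inv, Real.norm_eq_abs,
    abs_of_pos (lt_of_lt_of_le one_pos (le_max_left _ _)), inv_mul_le_iff₀
      (lt_of_lt_of_le one_pos (le_max_left _ _)), mul_one]
  exact le_max_right _ _

omit [FiniteDimensional ℂ E] in
theorem ret_eq {z : E} (hz : ‖z‖ ≤ 1) : ret z = z := by
  rw [ret, max_eq_left hz, inv_one, one_smul]

omit [FiniteDimensional ℂ E] in
theorem continuous_ret : Continuous (ret : E → E) := by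
  have h1 : Continuous (fun z : E => (max (1 : ℝ) ‖z‖)) := continuous_const.max continuous_norm
  have h2 : Continuous (fun z : E => ((max (1 : ℝ) ‖z‖)⁻¹ : ℝ)) := h1.inv₀ (fun z =>
    (lt_of_lt_of_le one_pos (le_max_left _ _)).ne')
  exact h2.smul continuous_id

/-- extension of a function on the closed ball -/
noncomputable def extn (g : C(closedBall (0 : E) 1, ℂ)) (z : E) : ℂ := g ⟨ret z, ret_mem z⟩

omit [FiniteDimensional ℂ E] in
theorem extn_eq (g : C(closedBall (0 : E) 1, ℂ)) (z : closedBall (0 : E) 1) :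
    extn g z = g z := by
  rw [extn]
  congr 1
  exact Subtype.ext (ret_eq (mem_closedBall_zero_iff.1 z.2))

omit [FiniteDimensional ℂ E] in
theorem continuous_extn (g : C(closedBall (0 : E) 1, ℂ)) : Continuous (extn g) :=
  g.continuous.comp (continuous_ret.subtype_mk _)

/-- restriction to the closed ball -/
noncomputable def rst (f : E → ℂ) (hf : ContinuousOn f (closedBall 0 1)) :
    C(closedBall (0 : E) 1, ℂ) := ⟨fun z => f z, hf.restrict⟩

omit [FiniteDimensional ℂ E] in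
theorem rst_apply (f : E → ℂ) (hf : ContinuousOn f (closedBall 0 1)) (z : closedBall (0 : E) 1) :
    rst f hf z = f z := rfl

omit [FiniteDimensional ℂ E] in
theorem extn_rst (f : E → ℂ) (hf : ContinuousOn f (closedBall 0 1)) {z : E} (hz : ‖z‖ ≤ 1) :
    extn (rst f hf) z = f z := by
  rw [extn, rst_apply]
  simp only
  rw [ret_eq hz]

theorem compact_ball : CompactSpace (closedBall (0 : E) 1) := by
  have : ProperSpace E := FiniteDimensional.proper ℂ E
  exact isCompact_iff_compactSpace.1 (isCompact_closedBall 0 1)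

theorem bundle [CompactSpace (closedBall (0 : E) 1)] (A : (E → ℂ) → (E → ℂ))
    (hc : ∀ f, ContinuousOn f (closedBall 0 1) → ContinuousOn (A f) (closedBall 0 1))
    (hadd : ∀ f g, ContinuousOn f (closedBall 0 1) → ContinuousOn g (closedBall 0 1) →
      ∀ z, ‖z‖ ≤ 1 → A (fun w => f w + g w) z = A f z + A g z)
    (hsmul : ∀ (c : ℂ) f, ContinuousOn f (closedBall 0 1) →
      ∀ z, ‖z‖ ≤ 1 → A (fun w => c * f w) z = c * A f z)
    (hle : ∀ f (C : ℝ), (∀ z, ‖z‖ ≤ 1 → ‖f z‖ ≤ C) → ∀ z, ‖z‖ ≤ 1 → ‖A f z‖ ≤ C) :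
    ∃ L : C(closedBall (0 : E) 1, ℂ) →L[ℂ] C(closedBall (0 : E) 1, ℂ),
      (∀ g (z : closedBall (0 : E) 1), L g z = A (extn g) z) ∧ ∀ g, ‖L g‖ ≤ ‖g‖ := by
  let L0 : C(closedBall (0 : E) 1, ℂ) →ₗ[ℂ] C(closedBall (0 : E) 1, ℂ) :=
    { toFun := fun g => rst (A (extn g)) (hc _ (continuous_extn g).continuousOn)
      map_add' := by
        intro g g'
        ext z
        exact hadd (extn g) (extn g') (continuous_extn g).continuousOn
          (continuous_extn g').continuousOn z (mem_closedBall_zero_iff.1 z.2)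
      map_smul' := by
        intro c g
        ext z
        exact hsmul c (extn g) (continuous_extn g).continuousOn z
          (mem_closedBall_zero_iff.1 z.2) }
  have hL0 : ∀ g, ‖L0 g‖ ≤ ‖g‖ := by
    intro g
    rw [ContinuousMap.norm_le _ (norm_nonneg _)]
    intro z
    exact hle (extn g) ‖g‖ (fun w _ => g.norm_coe_le_norm _) z (mem_closedBall_zero_iff.1 z.2)
  refine ⟨L0.mkContinuous 1 (fun g => by rw [one_mul]; exact hL0 g), fun g z => rfl, fun g => ?_⟩
  exact hL0 g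

variable [MeasurableSpace E] [BorelSpace E]

theorem TT_bundle [CompactSpace (closedBall (0 : E) 1)] (σ : Measure E) (hσ : IsSph σ) {r : ℝ}
    (hr0 : 0 ≤ r) (hr1 : r < 1) :
    ∃ L : C(closedBall (0 : E) 1, ℂ) →L[ℂ] C(closedBall (0 : E) 1, ℂ),
      (∀ g (z : closedBall (0 : E) 1), L g z = TT σ r (extn g) z) ∧ ∀ g, ‖L g‖ ≤ ‖g‖ := by
  refine bundle (TT σ r) (fun f hf => TT_cont σ hσ f hf hr0 hr1) ?_ ?_
    (fun f C h z hz => TT_le σ hσ f C h hr0 hr1 hz)
  · intro f g hf hg z hz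
    exact integral_add (TT_integrable σ hσ f hf hr0 hr1 hz) (TT_integrable σ hσ g hg hr0 hr1 hz)
  · intro c f _ z _
    exact integral_const_mul c _

theorem SS_bundle [CompactSpace (closedBall (0 : E) 1)] (σ : Measure E) (hσ : IsSph σ) {r : ℝ}
    (hr0 : 0 ≤ r) (hr1 : r < 1) :
    ∃ L : C(closedBall (0 : E) 1, ℂ) →L[ℂ] C(closedBall (0 : E) 1, ℂ),
      (∀ g (z : closedBall (0 : E) 1), L g z = SS σ r (extn g) z) ∧ ∀ g, ‖L g‖ ≤ ‖g‖ := by
  refine bundle (SS σ r) (fun f hf => SS_cont σ hσ f hf hr0 hr1) ?_ ?_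
    (fun f C h z hz => SS_le σ hσ f C h hr0 hr1 hz)
  · intro f g hf hg z hz
    exact integral_add (SS_integrable σ hσ f hf hr0 hr1 hz) (SS_integrable σ hσ g hg hr0 hr1 hz)
  · intro c f _ z _
    exact integral_const_mul c _

end bundling

/-- TARGET: the telescoping lemma for function classes on the ball. -/
theorem tele_inv {E : Type} [NormedAddCommGroup E] [InnerProductSpace ℂ E] [FiniteDimensional ℂ E]
    [MeasurableSpace E] [BorelSpace E] [Nontrivial E] (σ : Measure E) (hσ : IsSph σ)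
    {Y : (E → ℂ) → Prop} (hY : Inv Y) (f : E → ℂ) (hf : Y f) (κ : ℝ) (hκ : 0 ≤ κ)
    (hclose : ∀ ε > (0:ℝ), ∃ r₁ > (0:ℝ), ∀ r : ℝ, 0 < r → r < r₁ → r < 1 → ∀ z : E, ‖z‖ ≤ 1 →
      ‖SS σ r f z - (((1 - κ * r ^ 2 : ℝ)) : ℂ) * TT σ r f z‖ ≤ ε * r ^ 2) :
    Y (HH σ f) := by
  classical
  haveI : CompactSpace (closedBall (0 : E) 1) := compact_ball
  have hfc := hY.cont f hf
  have hTex : ∀ r : ℝ, ∃ L : C(closedBall (0 : E) 1, ℂ) →L[ℂ] C(closedBall (0 : E) 1, ℂ),
      0 ≤ r → r < 1 →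
      (∀ g (z : closedBall (0 : E) 1), L g z = TT σ r (extn g) z) ∧ ∀ g, ‖L g‖ ≤ ‖g‖ := by
    intro r
    by_cases h : 0 ≤ r ∧ r < 1
    · obtain ⟨L, hL⟩ := TT_bundle σ hσ h.1 h.2
      exact ⟨L, fun _ _ => hL⟩
    · exact ⟨0, fun h1 h2 => absurd ⟨h1, h2⟩ h⟩
  have hSex : ∀ r : ℝ, ∃ L : C(closedBall (0 : E) 1, ℂ) →L[ℂ] C(closedBall (0 : E) 1, ℂ),
      0 ≤ r → r < 1 →
      (∀ g (z : closedBall (0 : E) 1), L g z = SS σ r (extn g) z) ∧ ∀ g, ‖L g‖ ≤ ‖g‖ := by
    intro r
    by_cases h : 0 ≤ r ∧ r < 1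
    · obtain ⟨L, hL⟩ := SS_bundle σ hσ h.1 h.2
      exact ⟨L, fun _ _ => hL⟩
    · exact ⟨0, fun h1 h2 => absurd ⟨h1, h2⟩ h⟩
  choose T hT using hTex
  choose S hS using hSex
  obtain ⟨r₀, hr₀, hr₁, hbar⟩ := barrier σ hσ
  have hTe : ∀ r, 0 < r → r < r₀ → ∀ g (z : E), ‖z‖ ≤ 1 → extn (T r g) z = TT σ r (extn g) z := by
    intro r h1 h2 g z hz
    have := (hT r h1.le (h2.trans hr₁)).1 g ⟨z, mem_closedBall_zero_iff.2 hz⟩
    rw [← this]
    exact extn_eq (T r g) ⟨z, mem_closedBall_zero_iff.2 hz⟩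
  have hSe : ∀ r, 0 < r → r < r₀ → ∀ g (z : E), ‖z‖ ≤ 1 → extn (S r g) z = SS σ r (extn g) z := by
    intro r h1 h2 g z hz
    have := (hS r h1.le (h2.trans hr₁)).1 g ⟨z, mem_closedBall_zero_iff.2 hz⟩
    rw [← this]
    exact extn_eq (S r g) ⟨z, mem_closedBall_zero_iff.2 hz⟩
  let Ys : Submodule ℂ C(closedBall (0 : E) 1, ℂ) :=
    { carrier := {g | Y (extn g)}
      add_mem' := fun {a b} ha hb => hY.add _ _ ha hb
      zero_mem' := hY.zero
      smul_mem' := fun c a ha => hY.smul c _ ha }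
  have hmem : ∀ g, g ∈ Ys ↔ Y (extn g) := fun g => Iff.rfl
  have hYs : IsClosed (Ys : Set C(closedBall (0 : E) 1, ℂ)) := by
    apply isClosed_of_closure_subset
    intro g hg
    show Y (extn g)
    apply hY.lim
    intro ε hε
    obtain ⟨g', hg', hd⟩ := Metric.mem_closure_iff.1 hg ε hε
    refine ⟨extn g', hg', fun z _ => ?_⟩
    have h1 : extn g' z - extn g z = (g' - g) ⟨ret z, ret_mem z⟩ := rfl
    rw [h1]
    refine ((g' - g).norm_coe_le_norm _).trans ?_
    rw [← dist_eq_norm, dist_comm]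
    exact hd.le
  have hfin : rst (HH σ f) (HH_cont σ hσ f hfc) ∈ Ys := by
    refine telescoping Ys hYs S T r₀ hr₀ hr₁.le ?_ ?_ ?_ ?_ (rst f hfc)
      (rst (HH σ f) (HH_cont σ hσ f hfc)) ?_ κ hκ ?_ ?_
    · exact fun r h1 h2 => (hS r h1.le (h2.trans hr₁)).2
    · exact fun r h1 h2 => (hT r h1.le (h2.trans hr₁)).2
    · intro r h1 h2 x
      have hr := h2.trans hr₁
      ext z
      have hz := mem_closedBall_zero_iff.1 z.2
      rw [(hS r h1.le hr).1, (hT r h1.le hr).1,
        SS_congr σ hσ _ _ (hTe r h1 h2 x) h1.le hr hz,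
        TT_congr σ hσ _ _ (hSe r h1 h2 x) h1.le hr hz]
      exact SS_TT_comm σ hσ _ (continuous_extn x).continuousOn h1.le hr h1.le hr hz
    · intro r h1 h2 x hx
      rw [hmem] at hx ⊢
      exact hY.congr _ _ (SS_mem hY σ hσ _ hx h1.le (h2.trans hr₁)) (hSe r h1 h2 x)
    · rw [hmem]
      exact hY.congr _ _ hf (fun z hz => extn_rst f hfc hz)
    · intro ε hε
      obtain ⟨r₁, hr₁', h⟩ := hclose ε hε
      refine ⟨r₁, hr₁', fun r h1 h2 h3 => ?_⟩
      have hr := h3.trans hr₁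
      rw [ContinuousMap.norm_le _ (by positivity)]
      intro z
      have hz := mem_closedBall_zero_iff.1 z.2
      have h4 := h r h1 h2 hr z hz
      rw [ContinuousMap.sub_apply, ContinuousMap.smul_apply, (hS r h1.le hr).1,
        (hT r h1.le hr).1, SS_congr σ hσ _ f (fun w hw => extn_rst f hfc hw) h1.le hr hz,
        TT_congr σ hσ _ f (fun w hw => extn_rst f hfc hw) h1.le hr hz, smul_eq_mul]
      exact h4
    · intro ε hε
      obtain ⟨C, hC⟩ := iter_conv σ hσ r₀ hr₀ hr₁ hbar f hfc ε hε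
      refine ⟨max C 0, fun r h1 h2 m => ?_⟩
      have hr := h2.trans hr₁
      have hpos : 0 ≤ (1 - r ^ 2 / 8) := by nlinarith
      rw [ContinuousMap.norm_le _ (by positivity)]
      intro z
      have hz := mem_closedBall_zero_iff.1 z.2
      have hiter : ∀ m : ℕ, ∀ w : E, ‖w‖ ≤ 1 →
          extn (((T r) ^ m) (rst f hfc)) w = ((TT σ r)^[m]) f w := by
        intro m
        induction m with
        | zero =>
          intro w hw
          simpa using extn_rst f hfc hw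
        | succ m ih =>
          intro w hw
          rw [pow_succ', ContinuousLinearMap.mul_apply, hTe r h1 h2 _ w hw,
            Function.iterate_succ_apply']
          exact TT_congr σ hσ _ _ ih h1.le hr hw
      have h5 := hC r h1 h2 m z hz
      rw [ContinuousMap.sub_apply, rst_apply, ← extn_eq (((T r) ^ m) (rst f hfc)) z,
        hiter m z hz]
      refine h5.trans ?_
      have h6 : C * (1 - r ^ 2 / 8) ^ m ≤ max C 0 * (1 - r ^ 2 / 8) ^ m :=
        mul_le_mul_of_nonneg_right (le_max_left _ _) (pow_nonneg hpos _)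
      linarith
  rw [hmem] at hfin
  exact hY.congr _ _ hfin (fun z hz => (extn_rst _ _ hz).symm)

end Pool.Agent.Helper287.MB.F

namespace Pool.Agent.Helper287.MB
alias tele_inv := F.tele_inv
end Pool.Agent.Helper287.MB
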