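import Pool.Agent.Helper287.MB.Main
set_option autoImplicit false
open MeasureTheory Metric Set Filter Topology
open scoped InnerProductSpace ComplexConjugate
namespace Pool.Agent.Helper287.MB

variable {E : Type} [NormedAddCommGroup E] [InnerProductSpace ℂ E] [FiniteDimensional ℂ E]

section tr
variable (n : ℕ) (c : E ≃L[ℂ] (Fin n → ℂ)) (hc : ∀ z : E, ∑ i, ‖c z i‖ ^ 2 = ‖z‖ ^ 2)

include hc in
theorem nsq (x : Fin n → ℂ) : ∑ i, ‖x i‖ ^ 2 = ‖c.symm x‖ ^ 2 := by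
  rw [← hc, c.apply_symm_apply]

include hc in
theorem le_one_iff (x : Fin n → ℂ) : ∑ i, ‖x i‖ ^ 2 ≤ 1 ↔ ‖c.symm x‖ ≤ 1 := by
  rw [nsq n c hc]
  constructor
  · intro h; nlinarith [norm_nonneg (c.symm x)]
  · intro h; nlinarith [norm_nonneg (c.symm x)]

include hc in
theorem lt_one_iff' (x : Fin n → ℂ) : ∑ i, ‖x i‖ ^ 2 < 1 ↔ ‖c.symm x‖ < 1 := by
  rw [nsq n c hc]
  constructor
  · intro h; nlinarith [norm_nonneg (c.symm x)]
  · intro h; nlinarith [norm_nonneg (c.symm x)]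

include hc in
theorem eq_one_iff (x : Fin n → ℂ) : ∑ i, ‖x i‖ ^ 2 = 1 ↔ ‖c.symm x‖ = 1 := by
  rw [nsq n c hc]
  constructor
  · intro h; nlinarith [norm_nonneg (c.symm x)]
  · intro h; rw [h]; norm_num

include hc in
theorem le_one_iff'' (z : E) : ∑ i, ‖c z i‖ ^ 2 ≤ 1 ↔ ‖z‖ ≤ 1 := by
  rw [le_one_iff n c hc, c.symm_apply_apply]

include hc in
theorem lt_one_iff'' (z : E) : ∑ i, ‖c z i‖ ^ 2 < 1 ↔ ‖z‖ < 1 := by
  rw [lt_one_iff' n c hc, c.symm_apply_apply]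

/-- pull back a function on the closed ball of `ℂⁿ` to `E` -/
noncomputable def up (h : C({z : Fin n → ℂ // ∑ i, ‖z i‖ ^ 2 ≤ 1}, ℂ)) (z : E) : ℂ :=
  if hz : ∑ i, ‖c z i‖ ^ 2 ≤ 1 then h ⟨c z, hz⟩ else 0

include hc in
theorem up_symm (h : C({z : Fin n → ℂ // ∑ i, ‖z i‖ ^ 2 ≤ 1}, ℂ))
    (x : {z : Fin n → ℂ // ∑ i, ‖z i‖ ^ 2 ≤ 1}) : up n c h (c.symm x.1) = h x := by
  unfold up
  have h1 : c (c.symm x.1) = x.1 := c.apply_symm_apply _
  have h2 : ∑ i, ‖c (c.symm x.1) i‖ ^ 2 ≤ 1 := by rw [h1]; exact x.2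
  rw [dif_pos h2]
  congr 1
  exact Subtype.ext h1

include hc in
theorem up_cont (h : C({z : Fin n → ℂ // ∑ i, ‖z i‖ ^ 2 ≤ 1}, ℂ)) :
    ContinuousOn (up n c h) (closedBall 0 1) := by
  have hk : ∀ z : closedBall (0:E) 1, ∑ i, ‖c z.1 i‖ ^ 2 ≤ 1 := fun z =>
    (le_one_iff'' n c hc z.1).2 (mem_closedBall_zero_iff.1 z.2)
  have e0 : Continuous (fun z : closedBall (0:E) 1 => c z.1) :=
    c.continuous.comp continuous_subtype_val
  have e1 : Continuous (fun z : closedBall (0:E) 1 =>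
      (⟨c z.1, hk z⟩ : {z : Fin n → ℂ // ∑ i, ‖z i‖ ^ 2 ≤ 1})) := e0.subtype_mk hk
  have e2 : Continuous (fun z : closedBall (0:E) 1 => h ⟨c z.1, hk z⟩) := h.continuous.comp e1
  rw [continuousOn_iff_continuous_domRestrict]
  refine e2.congr ?_
  intro z
  rw [Set.domRestrict_apply, up, dif_pos (hk z)]

include hc in
theorem exists_down (g : E → ℂ) (hg : ContinuousOn g (closedBall 0 1)) :
    ∃ h : C({z : Fin n → ℂ // ∑ i, ‖z i‖ ^ 2 ≤ 1}, ℂ), ∀ x, h x = g (c.symm x.1) := by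
  refine ⟨⟨fun x => g (c.symm x.1), ?_⟩, fun x => rfl⟩
  have : Continuous (fun x : {z : Fin n → ℂ // ∑ i, ‖z i‖ ^ 2 ≤ 1} =>
      (⟨c.symm x.1, by simpa using (le_one_iff n c hc x.1).1 x.2⟩ : closedBall (0:E) 1)) := by
    apply Continuous.subtype_mk
    exact c.symm.continuous.comp continuous_subtype_val
  exact (continuousOn_iff_continuous_domRestrict.1 hg).comp this

/-- the class of functions on `E` corresponding to `Y` -/
def cls (Y : Submodule ℂ C({z : Fin n → ℂ // ∑ i, ‖z i‖ ^ 2 ≤ 1}, ℂ)) (g : E → ℂ) : Prop :=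
  ContinuousOn g (closedBall 0 1) ∧ ∃ h ∈ Y, ∀ x, h x = g (c.symm x.1)

/-- the invariance hypothesis -/
def InvHyp (Y : Submodule ℂ C({z : Fin n → ℂ // ∑ i, ‖z i‖ ^ 2 ≤ 1}, ℂ)) : Prop :=
  ∀ φ : (Fin n → ℂ) → (Fin n → ℂ),
      ContinuousOn φ {z : Fin n → ℂ | ∑ i, ‖z i‖ ^ 2 ≤ 1} →
      (∀ z : Fin n → ℂ, ∑ i, ‖z i‖ ^ 2 ≤ 1 → ∑ i, ‖φ z i‖ ^ 2 ≤ 1) →
      DifferentiableOn ℂ φ {z : Fin n → ℂ | ∑ i, ‖z i‖ ^ 2 < 1} →
      (∀ z : Fin n → ℂ, ∑ i, ‖z i‖ ^ 2 < 1 → ∑ i, ‖φ z i‖ ^ 2 < 1) →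
      (∃ ψ : (Fin n → ℂ) → (Fin n → ℂ),
          DifferentiableOn ℂ ψ {z : Fin n → ℂ | ∑ i, ‖z i‖ ^ 2 < 1} ∧
          ∀ z : Fin n → ℂ, ∑ i, ‖z i‖ ^ 2 < 1 →
            ∑ i, ‖ψ z i‖ ^ 2 < 1 ∧ φ (ψ z) = z ∧ ψ (φ z) = z) →
      ∀ f ∈ Y, ∀ g : C({z : Fin n → ℂ // ∑ i, ‖z i‖ ^ 2 ≤ 1}, ℂ),
        (∀ x : {z : Fin n → ℂ // ∑ i, ‖z i‖ ^ 2 ≤ 1},
          ∀ hx : ∑ i, ‖φ x.1 i‖ ^ 2 ≤ 1, g x = f ⟨φ x.1, hx⟩) → g ∈ Y

include hc in
theorem cls_comp (Y : Submodule ℂ C({z : Fin n → ℂ // ∑ i, ‖z i‖ ^ 2 ≤ 1}, ℂ))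
    (hinv : InvHyp n Y) (ψ χ : E → E) (hψ1 : ContinuousOn ψ (closedBall 0 1))
    (hψ2 : ∀ z, ‖z‖ ≤ 1 → ‖ψ z‖ ≤ 1) (hψ3 : DifferentiableOn ℂ ψ (ball 0 1))
    (hψ4 : ∀ z, ‖z‖ < 1 → ‖ψ z‖ < 1) (hχ3 : DifferentiableOn ℂ χ (ball 0 1))
    (hχ4 : ∀ z, ‖z‖ < 1 → ‖χ z‖ < 1) (h1 : ∀ z, ‖z‖ < 1 → ψ (χ z) = z)
    (h2 : ∀ z, ‖z‖ < 1 → χ (ψ z) = z) (f : E → ℂ) (hf : cls n c Y f) :
    cls n c Y (fun z => f (ψ z)) := by
  obtain ⟨hf1, h, hhY, hh⟩ := hf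
  have hcont : ContinuousOn (fun z => f (ψ z)) (closedBall 0 1) := by
    apply hf1.comp hψ1
    intro z hz
    have : ‖z‖ ≤ 1 := by simpa using hz
    simpa using hψ2 z this
  refine ⟨hcont, ?_⟩
  obtain ⟨g, hg⟩ := exists_down n c hc _ hcont
  refine ⟨g, ?_, hg⟩
  have mle : ∀ x : Fin n → ℂ, ∑ i, ‖x i‖ ^ 2 ≤ 1 → ‖c.symm x‖ ≤ 1 := fun x hx =>
    (le_one_iff n c hc x).1 hx
  have mlt : ∀ x : Fin n → ℂ, ∑ i, ‖x i‖ ^ 2 < 1 → ‖c.symm x‖ < 1 := fun x hx =>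
    (lt_one_iff' n c hc x).1 hx
  have dcomp : ∀ u : E → E, DifferentiableOn ℂ u (ball 0 1) →
      DifferentiableOn ℂ (fun x => c (u (c.symm x))) {z : Fin n → ℂ | ∑ i, ‖z i‖ ^ 2 < 1} := by
    intro u hu
    apply c.differentiable.comp_differentiableOn
    apply hu.comp c.symm.differentiable.differentiableOn
    intro x hx
    simpa using mlt x hx
  apply hinv (fun x => c (ψ (c.symm x))) _ _ _ _ _ h hhY g
  · intro x hx
    rw [hg x, hh]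
    simp
  · apply c.continuous.comp_continuousOn
    apply hψ1.comp c.symm.continuous.continuousOn
    intro x hx
    simpa using mle x hx
  · intro x hx
    exact (le_one_iff'' n c hc _).2 (hψ2 _ (mle x hx))
  · exact dcomp ψ hψ3
  · intro x hx
    exact (lt_one_iff'' n c hc _).2 (hψ4 _ (mlt x hx))
  · refine ⟨fun x => c (χ (c.symm x)), dcomp χ hχ3, ?_⟩
    intro x hx
    refine ⟨(lt_one_iff'' n c hc _).2 (hχ4 _ (mlt x hx)), ?_, ?_⟩
    · simp only [c.symm_apply_apply]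
      rw [h1 _ (mlt x hx), c.apply_symm_apply]
    · simp only [c.symm_apply_apply]
      rw [h2 _ (mlt x hx), c.apply_symm_apply]

include hc in
theorem compact_BB : CompactSpace {z : Fin n → ℂ // ∑ i, ‖z i‖ ^ 2 ≤ 1} := by
  suffices hcomp : IsCompact {z : Fin n → ℂ | ∑ i, ‖z i‖ ^ 2 ≤ 1} from
    isCompact_iff_compactSpace.1 hcomp
  have : {z : Fin n → ℂ | ∑ i, ‖z i‖ ^ 2 ≤ 1} = c '' closedBall (0:E) 1 := by
    ext x
    simp only [mem_setOf_eq, mem_image, mem_closedBall, dist_zero_right]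
    rw [le_one_iff n c hc]
    constructor
    · intro hx; exact ⟨c.symm x, hx, c.apply_symm_apply x⟩
    · rintro ⟨z, hz, rfl⟩; simpa using hz
  rw [this]
  exact (isCompact_closedBall 0 1).image c.continuous

include hc in
theorem cls_inv (Y : Submodule ℂ C({z : Fin n → ℂ // ∑ i, ‖z i‖ ^ 2 ≤ 1}, ℂ))
    (hY : IsClosed (Y : Set C({z : Fin n → ℂ // ∑ i, ‖z i‖ ^ 2 ≤ 1}, ℂ)))
    (hinv : InvHyp n Y) : Inv (cls n c Y : (E → ℂ) → Prop) := by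
  haveI := compact_BB n c hc
  refine ⟨fun f hf => hf.1, ?_, ?_, ?_, ?_, ?_, ?_, ?_⟩
  · rintro f g ⟨hf1, h, hhY, hh⟩ hfg
    refine ⟨hf1.congr (fun z hz => hfg z (by simpa using hz)), h, hhY, fun x => ?_⟩
    rw [hh x, hfg _ ((le_one_iff n c hc x.1).1 x.2)]
  · exact ⟨continuousOn_const, 0, Y.zero_mem, fun x => rfl⟩
  · rintro f g ⟨hf1, h, hhY, hh⟩ ⟨hg1, k, hkY, hk⟩
    refine ⟨hf1.add hg1, h + k, Y.add_mem hhY hkY, fun x => ?_⟩
    simp [hh x, hk x]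
  · rintro a f ⟨hf1, h, hhY, hh⟩
    refine ⟨continuousOn_const.mul hf1, a • h, Y.smul_mem a hhY, fun x => ?_⟩
    simp [hh x]
  · intro g hg
    have hgc : ContinuousOn g (closedBall 0 1) := by
      apply continuousOn_of_uniform_approx_of_continuousOn
      intro u hu
      obtain ⟨ε, hε, hεu⟩ := Metric.mem_uniformity_dist.1 hu
      obtain ⟨f, hf, hfg⟩ := hg (ε / 2) (by positivity)
      refine ⟨f, hf.1, fun z hz => hεu ?_⟩
      have := hfg z (by simpa using hz)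
      rw [dist_comm, dist_eq_norm]
      linarith
    refine ⟨hgc, ?_⟩
    obtain ⟨k, hk⟩ := exists_down n c hc g hgc
    refine ⟨k, ?_, hk⟩
    rw [← SetLike.mem_coe, ← hY.closure_eq, Metric.mem_closure_iff]
    intro ε hε
    obtain ⟨f, ⟨hf1, h, hhY, hh⟩, hfg⟩ := hg (ε / 2) (by positivity)
    refine ⟨h, hhY, ?_⟩
    refine lt_of_le_of_lt ((ContinuousMap.dist_le (by positivity : (0:ℝ) ≤ ε / 2)).2 ?_)
      (half_lt_self hε)
    intro x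
    rw [hk x, hh x, dist_comm, dist_eq_norm]
    exact hfg _ ((le_one_iff n c hc x.1).1 x.2)
  · intro f η hf hη
    have hη' : ‖-η‖ < 1 := by rwa [norm_neg]
    have cm : ContinuousOn (mob η) (closedBall 0 1) := B.continuousOn_mob_closedBall hη
    have dm : ∀ a : E, ‖a‖ < 1 → DifferentiableOn ℂ (mob a) (ball 0 1) := by
      intro a ha
      apply (differentiableOn_mob a).mono
      intro z hz
      have : ‖z‖ < 1 := by simpa using hz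
      exact one_add_inner_ne ha this.le
    exact cls_comp n c hc Y hinv (mob η) (mob (-η)) cm (fun z hz => norm_mob_le hη.le hz)
      (dm η hη) (fun z hz => norm_mob_lt hη hz) (dm (-η) hη')
      (fun z hz => norm_mob_lt hη' hz) (fun z hz => mob_mob_neg hη hz.le)
      (fun z hz => mob_neg_mob hη hz.le) f hf
  · intro f L hf
    exact cls_comp n c hc Y hinv L L.symm L.continuous.continuousOn
      (fun z hz => by rwa [L.norm_map]) L.toContinuousLinearEquiv.differentiable.differentiableOn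
      (fun z hz => by rwa [L.norm_map])
      L.symm.toContinuousLinearEquiv.differentiable.differentiableOn
      (fun z hz => by rwa [L.symm.norm_map]) (fun z _ => L.apply_symm_apply z)
      (fun z _ => L.symm_apply_apply z) f hf

include hc in
theorem cls_up (Y : Submodule ℂ C({z : Fin n → ℂ // ∑ i, ‖z i‖ ^ 2 ≤ 1}, ℂ))
    (h : C({z : Fin n → ℂ // ∑ i, ‖z i‖ ^ 2 ≤ 1}, ℂ)) : cls n c Y (up n c h) ↔ h ∈ Y := by
  constructor
  · rintro ⟨_, k, hk, hkx⟩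
    have : k = h := by
      ext x
      rw [hkx x, up_symm n c hc]
    rwa [← this]
  · intro hh
    exact ⟨up_cont n c hc h, h, hh, fun x => (up_symm n c hc h x).symm⟩

end tr
end Pool.Agent.Helper287.MB
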